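import Pool.Agent.Work.MP_f94384_co.Big.Prog2

/-!
# Ranges of checks
-/

set_option autoImplicit false

namespace Pool.Agent.Work.MP_f94384_co.Big

/-- `f k = true` for `a ≤ k < b` -/
def Rng (f : ℕ → Bool) (a b : ℕ) : Prop := ∀ k, a ≤ k → k < b → f k = true

theorem allL_get (f : ℕ → Bool) (n : ℕ) (h : allL f n = true) : ∀ k < n, f k = true := by
  induction n with
  | zero => exact fun k hk => absurd hk (Nat.not_lt_zero k)
  | succ n ih =>
    have h0 : allL f (n + 1) = cond (f n) (allL f n) false := rfl
    rw [h0] at h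
    cases h2 : f n with
    | false => rw [h2] at h; exact absurd h (by simp)
    | true =>
      rw [h2] at h
      intro k hk
      rcases Nat.lt_succ_iff_lt_or_eq.1 hk with h3 | rfl
      · exact ih h k h3
      · exact h2

theorem rng_of {f : ℕ → Bool} {a n b : ℕ} (h : allL (fun k => f (Nat.add a k)) n = true)
    (hb : a + n = b) : Rng f a b := by
  intro k h1 h2
  have h3 := allL_get _ n h (k - a) (by omega)
  have h4 : Nat.add a (k - a) = k := by show a + (k - a) = k; omega
  rw [h4] at h3
  exact h3

theorem Rng.app {f : ℕ → Bool} {a b c : ℕ} (h1 : Rng f a b) (h2 : Rng f b c) : Rng f a c := by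
  intro k ha hc
  rcases Nat.lt_or_ge k b with h | h
  · exact h1 k ha h
  · exact h2 k h hc

/-- all leaves are at most `b` -/
noncomputable def tbn (b : ℕ) (t : Tr) : Bool :=
  Tr.rec (motive := fun _ => Bool) (fun x => Nat.ble x b) (fun _ _ a b => cond a b false) t

theorem tbn_get {b : ℕ} {t : Tr} (h : tbn b t = true) : ∀ i, get t i ≤ b := by
  induction t with
  | L x => exact fun i => Nat.le_of_ble_eq_true h
  | N u v hu hv =>
    have h0 : tbn b (Tr.N u v) = cond (tbn b u) (tbn b v) false := rfl
    rw [h0] at h
    cases h1 : tbn b u with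
    | false => rw [h1] at h; exact absurd h (by simp)
    | true =>
      rw [h1] at h
      intro i
      have h2 : get (Tr.N u v) i = cond (Nat.beq (Nat.mod i 2) 0) (fc (Nat.div i 2) (get u))
          (fc (Nat.div i 2) (get v)) := rfl
      have h3 : ∀ (n : ℕ) (f : ℕ → ℕ), fc n f = f n := fun n f => by cases n <;> rfl
      rw [h2, h3, h3]
      cases Nat.beq (Nat.mod i 2) 0
      · exact hv h _
      · exact hu h1 _

end Pool.Agent.Work.MP_f94384_co.Big
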