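import Pool.Agent.Work.MP_f94384_co.Big.P_INV

set_option autoImplicit false

open Finset

namespace Pool.Agent.Work.MP_f94384_co.Big

open Pool.Agent.Work.MP_f94384_co.Flag

section

variable {V : Type} [Fintype V] [DecidableEq V]

theorem pat_symm (G : SimpleGraph V) {N : ℕ} (v : Fin N → V) (i j : ℕ) :
    pat G v i j = pat G v j i := by
  unfold pat
  by_cases h : i < N ∧ j < N
  · rw [dif_pos h, dif_pos h.symm]
    exact decide_eq_decide.2 (G.adj_comm _ _)
  · rw [dif_neg h, dif_neg fun h' => h h'.symm]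

theorem pat_irr (G : SimpleGraph V) {N : ℕ} (v : Fin N → V) (i : ℕ) : pat G v i i = false := by
  unfold pat
  by_cases h : i < N ∧ i < N
  · rw [dif_pos h]
    simp
  · rw [dif_neg h]

theorem pat_NoK (G : SimpleGraph V) {N s : ℕ} (v : Fin N → V) (hG : G.CliqueFree s) :
    NoK s N (pat G v) := by
  intro t ht hc
  by_contra hcon
  push Not at hcon
  have hadj : ∀ a b : Fin N, (a : ℕ) ∈ t → (b : ℕ) ∈ t → a ≠ b → G.Adj (v a) (v b) := by
    intro a b ha hb hab
    have h := hcon a ha b hb (fun h => hab (Fin.ext h))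
    unfold pat at h
    rw [dif_pos ⟨a.2, b.2⟩] at h
    simpa using h
  set t' : Finset (Fin N) := univ.filter fun a => (a : ℕ) ∈ t with ht'
  have hcard : t'.card = s := by
    rw [← hc]
    refine Finset.card_bij (fun a _ => (a : ℕ)) ?_ ?_ ?_
    · intro a ha
      exact (mem_filter.1 ha).2
    · intro a _ b _ h
      exact Fin.ext h
    · intro b hb
      exact ⟨⟨b, mem_range.1 (ht hb)⟩, by simp [ht', hb], rfl⟩
  have hinj : Set.InjOn v (t' : Set (Fin N)) := by
    intro a ha b hb hab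
    by_contra hne
    have ha' := (mem_filter.1 (Finset.mem_coe.1 ha)).2
    have hb' := (mem_filter.1 (Finset.mem_coe.1 hb)).2
    have h := hadj a b ha' hb' hne
    rw [hab] at h
    exact G.loopless.irrefl _ h
  apply hG (t'.image v)
  rw [SimpleGraph.isNClique_iff]
  refine ⟨?_, ?_⟩
  · intro x hx y hy hxy
    rw [Finset.coe_image] at hx hy
    obtain ⟨a, ha, rfl⟩ := hx
    obtain ⟨b, hb, rfl⟩ := hy
    exact hadj a b (mem_filter.1 (Finset.mem_coe.1 ha)).2 (mem_filter.1 (Finset.mem_coe.1 hb)).2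
      (fun h => hxy (by rw [h]))
  · rw [Finset.card_image_of_injOn hinj, hcard]

end

theorem lap_quad {N : ℕ} (S : Fin N → Fin N → ℝ) (y : Fin N → ℝ) (hy : ∀ i, 0 ≤ y i)
    (hS : ∀ i, S i i + S i i + ∑ j, (if j = i then 0 else max (S i j + S j i) 0) ≤ 0) :
    ∑ i, ∑ j, S i j * y i * y j ≤ 0 := by
  set R : Fin N → Fin N → ℝ := fun i j => S i j + S j i with hR
  set M : Fin N → Fin N → ℝ := fun i j => if j = i then 0 else max (S i j + S j i) 0 with hM
  have hMs : ∀ i j, M i j = M j i := by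
    intro i j
    simp only [hM]
    by_cases h : j = i
    · rw [if_pos h, if_pos h.symm]
    · rw [if_neg h, if_neg (fun h' => h h'.symm), add_comm]
  have h1 : 2 * ∑ i, ∑ j, S i j * y i * y j = ∑ i, ∑ j, R i j * (y i * y j) := by
    have h2 : ∑ i, ∑ j, S i j * y i * y j = ∑ i, ∑ j, S j i * y i * y j := by
      rw [Finset.sum_comm]
      exact Finset.sum_congr rfl fun i _ => Finset.sum_congr rfl fun j _ => by ring
    rw [two_mul]
    nth_rewrite 2 [h2]
    rw [← sum_add_distrib]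
    refine sum_congr rfl fun i _ => ?_
    rw [← sum_add_distrib]
    refine sum_congr rfl fun j _ => ?_
    simp only [hR]
    ring
  -- termwise bound
  have h3 : ∀ i j, R i j * (y i * y j) ≤
      (if j = i then R i i * y i ^ 2 else 0) + (M i j * y i ^ 2 + M i j * y j ^ 2) / 2 := by
    intro i j
    by_cases h : j = i
    · subst h
      simp only [hM, if_true]
      apply le_of_eq
      ring
    · rw [if_neg h, zero_add]
      have hm1 : R i j ≤ M i j := by
        simp only [hM, if_neg h, hR]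
        exact le_max_left _ _
      have hm0 : 0 ≤ M i j := by
        simp only [hM, if_neg h]
        exact le_max_right _ _
      have hyy : 0 ≤ y i * y j := mul_nonneg (hy i) (hy j)
      nlinarith [mul_le_mul_of_nonneg_right hm1 hyy, mul_nonneg hm0 (sq_nonneg (y i - y j))]
  have h4 : ∑ i, ∑ j, R i j * (y i * y j) ≤
      ∑ i, ∑ j, ((if j = i then R i i * y i ^ 2 else 0) +
        (M i j * y i ^ 2 + M i j * y j ^ 2) / 2) :=
    sum_le_sum fun i _ => sum_le_sum fun j _ => h3 i j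
  have h5 : ∑ i, ∑ j, ((if j = i then R i i * y i ^ 2 else 0) +
        (M i j * y i ^ 2 + M i j * y j ^ 2) / 2) =
      ∑ i, (R i i + ∑ j, M i j) * y i ^ 2 := by
    have e1 : ∑ i, ∑ j, M i j * y j ^ 2 = ∑ i, ∑ j, M i j * y i ^ 2 := by
      rw [sum_comm]
      exact sum_congr rfl fun i _ => sum_congr rfl fun j _ => by rw [hMs]
    have e2 : ∑ i, ∑ j, ((if j = i then R i i * y i ^ 2 else 0) +
        (M i j * y i ^ 2 + M i j * y j ^ 2) / 2) =
        ∑ i, R i i * y i ^ 2 + (∑ i, ∑ j, M i j * y i ^ 2 + ∑ i, ∑ j, M i j * y j ^ 2) / 2 := by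
      rw [← sum_add_distrib, sum_div, ← sum_add_distrib]
      refine sum_congr rfl fun i _ => ?_
      rw [sum_add_distrib, sum_ite_eq' univ i, if_pos (mem_univ i), ← sum_div, sum_add_distrib]
    rw [e2, e1]
    have e3 : ∀ a : ℝ, (a + a) / 2 = a := fun a => by ring
    rw [e3, ← sum_add_distrib]
    refine sum_congr rfl fun i _ => ?_
    rw [add_mul (R i i), sum_mul]
  have h6 : ∑ i, (R i i + ∑ j, M i j) * y i ^ 2 ≤ 0 := by
    refine sum_nonpos fun i _ => ?_
    exact mul_nonpos_of_nonpos_of_nonneg (hS i) (sq_nonneg _)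
  linarith

/-- Representatives suffice, with Laplacian slacks. -/
theorem nonPos_lap (A : Pat → ℕ → ℕ → ℤ) {r N : ℕ} {L : ℕ → ℕ} {len : ℕ}
    (hA : ∀ (p p' : Pat) (σ : ℕ → ℕ), PermN N σ → (∀ i < N, ∀ j < N, p i j = p' (σ i) (σ j)) →
      ∀ i < N, ∀ j < N, A p i j = A p' (σ i) (σ j))
    (hCls : Cls (r + 1) N L len) (h : ∀ k < len, Neg N (A (pa (L k)))) : NonPos r N A := by
  intro V _ _ G x hx hG
  unfold Phi
  refine Finset.sum_nonpos fun v _ => ?_
  obtain ⟨k, hk, σ, hσ, hp⟩ := hCls (pat G v) (fun i _ j _ => pat_symm G v i j)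
    (fun i _ => pat_irr G v i) (pat_NoK G v hG)
  refine lap_quad (fun i j => ((A (pat G v) i j : ℤ) : ℝ)) (fun i => x (v i))
    (fun i => hx (v i)) fun i => ?_
  have e : ∀ j : Fin N, A (pat G v) i j = A (pa (L k)) (σ i) (σ j) :=
    fun j => hA _ _ σ hσ hp i i.2 j j.2
  have e' : ∀ j : Fin N, A (pat G v) j i = A (pa (L k)) (σ j) (σ i) :=
    fun j => hA _ _ σ hσ hp j j.2 i i.2
  have h3 := h k hk (σ i) (hσ.lt i.2)
  rw [two_mul] at h3
  have h4 : ∑ j : Fin N, (if (j : ℕ) = (i : ℕ) then (0 : ℤ) else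
      max (A (pat G v) i j + A (pat G v) j i) 0) =
      ∑ j ∈ range N, (if j = σ i then 0 else
        max (A (pa (L k)) (σ i) j + A (pa (L k)) j (σ i)) 0) := by
    rw [← Finset.sum_range (fun j => if j = (i : ℕ) then (0 : ℤ) else
      max (A (pat G v) i j + A (pat G v) j i) 0)]
    refine INV_sum hσ _ _ fun j hj => ?_
    simp only [hσ.eq_iff hj i.2]
    rw [hA _ _ σ hσ hp i i.2 j hj, hA _ _ σ hσ hp j hj i i.2]
  have h5 : A (pat G v) i i + A (pat G v) i i + ∑ j : Fin N, (if (j : ℕ) = (i : ℕ) then (0 : ℤ) else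
      max (A (pat G v) i j + A (pat G v) j i) 0) ≤ 0 := by
    rw [h4, e i]
    exact h3
  have h6 : ((A (pat G v) i i + A (pat G v) i i + ∑ j : Fin N,
      (if (j : ℕ) = (i : ℕ) then (0 : ℤ) else
      max (A (pat G v) i j + A (pat G v) j i) 0) : ℤ) : ℝ) ≤ 0 := by exact_mod_cast h5
  push_cast at h6
  refine le_trans (le_of_eq ?_) h6
  congr 1
  refine sum_congr rfl fun j _ => ?_
  by_cases hji : j = i
  · rw [if_pos hji, if_pos (congrArg _ hji)]
  · rw [if_neg hji, if_neg (fun h => hji (Fin.ext h))]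

theorem pr_REPS : REPS := by
  intro C r N L len _ hN hCls h
  exact nonPos_lap (C.T N) (fun p p' σ hσ hp i hi j hj => pr_INV C N p p' σ hN hσ hp i hi j hj)
    hCls h

end Pool.Agent.Work.MP_f94384_co.Big
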