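import Pool.Agent.Work.MP_f94384_co.Big.P_INV

/-!
# The tables of the general soundness theorem are the standard placements
-/

set_option autoImplicit false

open Finset

namespace Pool.Agent.Work.MP_f94384_co.Big

open Pool.Agent.Work.MP_f94384_co.Flag

/-- row function of the usual squares -/
def RwU (C : BC) (N : ℕ) (p : Pat) (c : ℕ) : ℕ := C.rU N p (N - 2) (N - 1) c

/-- row function of the eigenvalue squares -/
def RwE (C : BC) (N : ℕ) (p : Pat) (c : ℕ) : ℕ := C.rE N p (N - 4) (N - 3) (N - 2) (N - 1) c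

/-- rows of a relabelled pattern, usual squares -/
theorem rU_sub (C : BC) {N : ℕ} (hN : N ≤ 8) (p p' : Pat) (f : ℕ → ℕ) (w x w' x' c c' : ℕ)
    (hf : ∀ v < N, v ≠ x → f v < N ∧ f v ≠ x' ∧ (f v = w' ↔ v = w) ∧ (f v = c' ↔ v = c))
    (hi : ∀ v < N, v ≠ x → ∀ u < N, u ≠ x → f v = f u → v = u)
    (hs : ∀ a < N, a ≠ x' → ∃ v < N, v ≠ x ∧ f v = a)
    (hp : ∀ v < N, v ≠ x → ∀ u < N, u ≠ x → p v u = p' (f v) (f u)) :
    C.rU N p w x c = C.rU N p' w' x' c' := by
  unfold BC.rU
  refine congrArg C.fU ?_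
  have hc : ∀ (w x c v : ℕ), cU N w x c v ≠ 0 ↔ v < N ∧ v ≠ x := by
    intro w x c v
    unfold cU
    by_cases h : v < N ∧ v ≠ x
    · rw [if_pos h]
      refine ⟨fun _ => h, fun _ => ?_⟩
      split_ifs <;> omega
    · rw [if_neg h]
      exact ⟨fun h' => absurd rfl h', fun h' => absurd h' h⟩
  refine pr_RST p p' _ _ f ?_ ?_ ?_ ?_
  · intro v _ hv
    rw [hc] at hv
    obtain ⟨h1, h2, h3, h4⟩ := hf v hv.1 hv.2
    refine ⟨h1.trans_le hN, ?_⟩
    unfold cU
    rw [if_pos ⟨h1, h2⟩, if_pos hv]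
    simp only [h3, h4]
  · intro v _ hv u _ hu h
    rw [hc] at hv hu
    exact hi v hv.1 hv.2 u hu.1 hu.2 h
  · intro v _ hv u _ hu
    rw [hc] at hv hu
    exact hp v hv.1 hv.2 u hu.1 hu.2
  · intro a _ ha
    rw [hc] at ha
    obtain ⟨v, h1, h2, h3⟩ := hs a ha.1 ha.2
    exact ⟨v, by omega, (hc _ _ _ _).2 ⟨h1, h2⟩, h3⟩

/-- hashes of a relabelled pattern with two averaged points -/
theorem hE_sub {N : ℕ} (hN : N ≤ 8) (p p' : Pat) (f : ℕ → ℕ)
    (w z x y w' z' x' y' c c' : ℕ)
    (hf : ∀ v < N, v ≠ x ∧ v ≠ y → f v < N ∧ (f v ≠ x' ∧ f v ≠ y') ∧ (f v = w' ↔ v = w) ∧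
      (f v = z' ↔ v = z) ∧ (f v = c' ↔ v = c))
    (hi : ∀ v < N, v ≠ x ∧ v ≠ y → ∀ u < N, u ≠ x ∧ u ≠ y → f v = f u → v = u)
    (hs' : ∀ a < N, a ≠ x' ∧ a ≠ y' → ∃ v < N, (v ≠ x ∧ v ≠ y) ∧ f v = a)
    (hp : ∀ v < N, v ≠ x ∧ v ≠ y → ∀ u < N, u ≠ x ∧ u ≠ y → p v u = p' (f v) (f u)) :
    hs p (cE N w z x y c) = hs p' (cE N w' z' x' y' c') := by
  have hc : ∀ (w z x y c v : ℕ), cE N w z x y c v ≠ 0 ↔ v < N ∧ v ≠ x ∧ v ≠ y := by
    intro w z x y c v
    unfold cE
    by_cases h : v < N ∧ v ≠ x ∧ v ≠ y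
    · rw [if_pos h]
      refine ⟨fun _ => h, fun _ => ?_⟩
      split_ifs <;> omega
    · rw [if_neg h]
      exact ⟨fun h' => absurd rfl h', fun h' => absurd h' h⟩
  refine pr_RST p p' _ _ f ?_ ?_ ?_ ?_
  · intro v _ hv
    rw [hc] at hv
    obtain ⟨h1, h2, h3, h4, h5⟩ := hf v hv.1 hv.2
    refine ⟨h1.trans_le hN, ?_⟩
    unfold cE
    rw [if_pos ⟨h1, h2⟩, if_pos hv]
    simp only [h3, h4, h5]
  · intro v _ hv u _ hu h
    rw [hc] at hv hu
    exact hi v hv.1 hv.2 u hu.1 hu.2 h
  · intro v _ hv u _ hu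
    rw [hc] at hv hu
    exact hp v hv.1 hv.2 u hu.1 hu.2
  · intro a _ ha
    rw [hc] at ha
    obtain ⟨v, h1, h2, h3⟩ := hs' a ha.1 ha.2
    exact ⟨v, by omega, (hc _ _ _ _ _ _).2 ⟨h1, h2⟩, h3⟩

/-- rows of a relabelled pattern, eigenvalue squares -/
theorem rE_sub (C : BC) {N : ℕ} (hN : N ≤ 8) (p p' : Pat) (f : ℕ → ℕ)
    (w z x y w' z' x' y' c c' : ℕ)
    (hf : ∀ v < N, v ≠ x ∧ v ≠ y → f v < N ∧ (f v ≠ x' ∧ f v ≠ y') ∧ (f v = w' ↔ v = w) ∧
      (f v = z' ↔ v = z) ∧ (f v = c' ↔ v = c))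
    (hi : ∀ v < N, v ≠ x ∧ v ≠ y → ∀ u < N, u ≠ x ∧ u ≠ y → f v = f u → v = u)
    (hs' : ∀ a < N, a ≠ x' ∧ a ≠ y' → ∃ v < N, (v ≠ x ∧ v ≠ y) ∧ f v = a)
    (hp : ∀ v < N, v ≠ x ∧ v ≠ y → ∀ u < N, u ≠ x ∧ u ≠ y → p v u = p' (f v) (f u)) :
    C.rE N p w z x y c = C.rE N p' w' z' x' y' c' := by
  unfold BC.rE
  exact congrArg C.fE (hE_sub hN p p' f w z x y w' z' x' y' c c' hf hi hs' hp)

/-- evaluation of the bilinear part at given positions -/
theorem GB_eval {K : ℕ} {g g' : ℕ → ℕ} (hg : ∀ a < K, ∀ b < K, g a = g b → a = b)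
    (hg' : ∀ a < K, ∀ b < K, g' a = g' b → a = b) (Y : Pat → ℕ → ℕ → ℤ) (Rw : Pat → ℕ → ℕ)
    (p : Pat) (i j : ℕ) :
    (∀ a < K, ∀ b < K, i = g a → j = g' b →
      GB K g g' Y Rw p i j = Y p (Rw (sub g p) a) (Rw (sub g' p) b)) ∧
    ((¬ ∃ a < K, i = g a) ∨ (¬ ∃ b < K, j = g' b) → GB K g g' Y Rw p i j = 0) := by
  constructor
  · intro a ha b hb hi hj
    unfold GB
    rw [sum_eq_single a, sum_eq_single b, if_pos ⟨hi, hj⟩]
    · intro b' hb' hne
      rw [if_neg]
      rintro ⟨_, h⟩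
      exact hne (hg' b' (mem_range.1 hb') b hb (by rw [← h, ← hj]))
    · intro h
      exact absurd (mem_range.2 hb) h
    · intro a' ha' hne
      refine sum_eq_zero fun b' _ => ?_
      rw [if_neg]
      rintro ⟨h, _⟩
      exact hne (hg a' (mem_range.1 ha') a ha (by rw [← h, ← hi]))
    · intro h
      exact absurd (mem_range.2 ha) h
  · rintro (h | h)
    · unfold GB
      refine sum_eq_zero fun a ha => sum_eq_zero fun b _ => ?_
      rw [if_neg]
      rintro ⟨h', _⟩
      exact h ⟨a, mem_range.1 ha, h'⟩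
    · unfold GB
      refine sum_eq_zero fun a _ => sum_eq_zero fun b hb => ?_
      rw [if_neg]
      rintro ⟨_, h'⟩
      exact h ⟨b, mem_range.1 hb, h'⟩

/-- the usual squares -/
theorem GU_std (C : BC) {N : ℕ} (hN5 : 5 ≤ N) (hN : N ≤ 8) (cc : ℤ) (p : Pat) (i j : ℕ)
    (hi : i < N) (hj : j < N) :
    GU (N - 2) 1 (fun _ a b => cc * C.U a b) (RwU C N) p i j =
      cc * C.pU N p (N - 2) (N - 1) i j := by
  have hev := GB_eval (K := N - 2 + 1) (g := id) (g' := i2 (N - 2) 1)
    (fun a _ b _ h => h) (fun a ha b hb h => by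
      unfold i2 at h
      split_ifs at h <;> omega) (fun _ a b => cc * C.U a b) (RwU C N) p i j
  unfold GU BC.pU
  by_cases h : i ≠ N - 1 ∧ j ≠ N - 2
  · rw [if_pos ⟨by omega, h.1, h.2⟩]
    have hj' : j = i2 (N - 2) 1 (if j < N - 2 then j else j - 1) := by
      unfold i2
      split_ifs <;> omega
    rw [hev.1 i (by omega) (if j < N - 2 then j else j - 1) (by split_ifs <;> omega) rfl hj']
    have e1 : RwU C N (sub id p) i = C.rU N p (N - 2) (N - 1) i := rfl
    have e2 : RwU C N (sub (i2 (N - 2) 1) p) (if j < N - 2 then j else j - 1) =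
        C.rU N p (N - 1) (N - 2) j := by
      unfold RwU
      refine rU_sub C hN _ _ (i2 (N - 2) 1) _ _ _ _ _ _ ?_ ?_ ?_ ?_
      · intro v hv hvx
        unfold i2
        split_ifs <;> omega
      · intro v hv hvx u hu hux h
        unfold i2 at h
        split_ifs at h <;> omega
      · intro a ha hax
        refine ⟨if a < N - 2 then a else N - 2, by split_ifs <;> omega, by split_ifs <;> omega, ?_⟩
        unfold i2
        split_ifs <;> omega
      · intro v _ _ u _ _
        rfl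
    rw [e1, e2]
  · rw [if_neg (fun h' => h ⟨h'.2.1, h'.2.2⟩), mul_zero]
    apply hev.2
    by_cases h1 : i = N - 1
    · left
      rintro ⟨a, ha, h2⟩
      simp only [id] at h2
      omega
    · right
      rintro ⟨b, hb, h2⟩
      unfold i2 at h2
      split_ifs at h2 <;> omega

/-- row function of the usual squares with two averaged points -/
def RwV (C : BC) (N nV : ℕ) (p : Pat) (c : ℕ) : ℕ :=
  if c = N - 4 then C.rV N p (N - 4) (N - 3) (N - 2) (N - 1) else nV

/-- matrix of the usual squares with two averaged points -/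
def YV (C : BC) (nV : ℕ) (cc : ℤ) (a b : ℕ) : ℤ := if a < nV ∧ b < nV then cc * C.V a b else 0

/-- the usual squares with two averaged points -/
theorem GV_std (C : BC) {N nV : ℕ} (hN5 : 5 ≤ N) (hN : N ≤ 8) (hfV : ∀ h, C.fV h < nV) (cc : ℤ)
    (p : Pat) (i j : ℕ) (hi : i < N) (hj : j < N) :
    GU (N - 4) 2 (fun _ => YV C nV cc) (RwV C N nV) p i j =
      cc * C.pV N p (N - 4) (N - 3) (N - 2) (N - 1) i j := by
  have hev := GB_eval (K := N - 4 + 2) (g := id) (g' := i2 (N - 4) 2)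
    (fun a _ b _ h => h) (fun a ha b hb h => by
      unfold i2 at h
      split_ifs at h <;> omega) (fun _ => YV C nV cc) (RwV C N nV) p i j
  unfold GU BC.pV
  by_cases h : i = N - 4 ∧ j = N - 2
  · rw [if_pos (by omega)]
    have hj' : j = i2 (N - 4) 2 (N - 4) := by
      unfold i2
      split_ifs <;> omega
    rw [hev.1 (N - 4) (by omega) (N - 4) (by omega) h.1 hj']
    have e1 : RwV C N nV (sub id p) (N - 4) = C.rV N p (N - 4) (N - 3) (N - 2) (N - 1) := by
      unfold RwV
      rw [if_pos rfl]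
      rfl
    have e2 : RwV C N nV (sub (i2 (N - 4) 2) p) (N - 4) =
        C.rV N p (N - 2) (N - 1) (N - 4) (N - 3) := by
      unfold RwV
      rw [if_pos rfl]
      unfold BC.rV
      refine congrArg C.fV ?_
      refine hE_sub hN _ _ (i2 (N - 4) 2) _ _ _ _ _ _ _ _ _ _ ?_ ?_ ?_ ?_
      · intro v hv hvx
        unfold i2
        split_ifs <;> omega
      · intro v hv hvx u hu hux h
        unfold i2 at h
        split_ifs at h <;> omega
      · intro a ha hax
        refine ⟨if a < N - 4 then a else a - 2, by split_ifs <;> omega, by split_ifs <;> omega, ?_⟩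
        unfold i2
        split_ifs <;> omega
      · intro v _ _ u _ _
        rfl
    rw [e1, e2]
    unfold YV
    rw [if_pos ⟨hfV _, hfV _⟩]
  · rw [if_neg (fun h' => h (by omega)), mul_zero]
    by_cases h1 : (¬ ∃ a < N - 4 + 2, i = id a) ∨ (¬ ∃ b < N - 4 + 2, j = i2 (N - 4) 2 b)
    · exact hev.2 h1
    · rw [not_or, not_not, not_not] at h1
      obtain ⟨⟨a, ha, hia⟩, ⟨b, hb, hjb⟩⟩ := h1
      rw [hev.1 a ha b hb hia hjb]
      unfold YV RwV
      rw [if_neg]
      rintro ⟨h2, h3⟩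
      by_cases h4 : a = N - 4
      · by_cases h5 : b = N - 4
        · apply h
          subst h5
          simp only [id] at hia
          refine ⟨by omega, ?_⟩
          rw [hjb]
          unfold i2
          split_ifs <;> omega
        · rw [if_neg h5] at h3
          exact lt_irrefl _ h3
      · rw [if_neg h4] at h2
        exact lt_irrefl _ h2

/-- the eigenvalue squares, bilinear part -/
theorem GE1_std (C : BC) {N : ℕ} (hN5 : 5 ≤ N) (hN : N ≤ 8) (cc : ℤ) (p : Pat) (i j : ℕ)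
    (hi : i < N) (hj : j < N) :
    GB (N - 4 + 2) id (i2 (N - 4) 2) (fun _ a b => cc * C.E a b) (RwE C N) p i j =
      cc * C.pE N p (N - 4) (N - 3) (N - 2) (N - 1) i j := by
  have hev := GB_eval (K := N - 4 + 2) (g := id) (g' := i2 (N - 4) 2)
    (fun a _ b _ h => h) (fun a ha b hb h => by
      unfold i2 at h
      split_ifs at h <;> omega) (fun _ a b => cc * C.E a b) (RwE C N) p i j
  unfold BC.pE
  by_cases h : (i ≠ N - 2 ∧ i ≠ N - 1) ∧ (j ≠ N - 4 ∧ j ≠ N - 3)
  · rw [if_pos (by omega)]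
    have hj' : j = i2 (N - 4) 2 (if j < N - 4 then j else j - 2) := by
      unfold i2
      split_ifs <;> omega
    rw [hev.1 i (by omega) (if j < N - 4 then j else j - 2) (by split_ifs <;> omega) rfl hj']
    have e1 : RwE C N (sub id p) i = C.rE N p (N - 4) (N - 3) (N - 2) (N - 1) i := rfl
    have e2 : RwE C N (sub (i2 (N - 4) 2) p) (if j < N - 4 then j else j - 2) =
        C.rE N p (N - 2) (N - 1) (N - 4) (N - 3) j := by
      unfold RwE
      refine rE_sub C hN _ _ (i2 (N - 4) 2) _ _ _ _ _ _ _ _ _ _ ?_ ?_ ?_ ?_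
      · intro v hv hvx
        unfold i2
        split_ifs <;> omega
      · intro v hv hvx u hu hux h
        unfold i2 at h
        split_ifs at h <;> omega
      · intro a ha hax
        refine ⟨if a < N - 4 then a else a - 2, by split_ifs <;> omega, by split_ifs <;> omega, ?_⟩
        unfold i2
        split_ifs <;> omega
      · intro v _ _ u _ _
        rfl
    rw [e1, e2]
  · rw [if_neg (fun h' => h (by omega)), mul_zero]
    apply hev.2
    by_cases h1 : i = N - 2 ∨ i = N - 1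
    · left
      rintro ⟨a, ha, h2⟩
      simp only [id] at h2
      omega
    · right
      rintro ⟨b, hb, h2⟩
      unfold i2 at h2
      split_ifs at h2 <;> omega

/-- rows of the second flag with the same point -/
theorem rE_i3 (C : BC) {N : ℕ} (hN5 : 5 ≤ N) (hN : N ≤ 8) (p : Pat) {c j : ℕ}
    (hc : c < N - 2) (hj : j = i3 (N - 4) 2 c) :
    RwE C N (sub (i3 (N - 4) 2) p) c = C.rE N p (N - 4) (N - 2) (N - 1) (N - 3) j := by
  unfold RwE
  refine rE_sub C hN _ _ (i3 (N - 4) 2) _ _ _ _ _ _ _ _ _ _ ?_ ?_ ?_ ?_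
  · intro v hv hvx
    rw [hj]
    unfold i3
    split_ifs <;> omega
  · intro v hv hvx u hu hux h
    unfold i3 at h
    split_ifs at h <;> omega
  · intro a ha hax
    refine ⟨if a < N - 3 then a else a - 1, by split_ifs <;> omega, by split_ifs <;> omega, ?_⟩
    unfold i3
    split_ifs <;> omega
  · intro v _ _ u _ _
    rfl

/-- the eigenvalue squares, part with the same point -/
theorem GE3_std (C : BC) {N : ℕ} (hN5 : 5 ≤ N) (hN : N ≤ 8) (cc : ℤ) (p : Pat) (i j : ℕ)
    (hi : i < N) (hj : j < N) :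
    GB (N - 4 + 2) id (i3 (N - 4) 2) (fun _ a b => cc * C.E a b) (RwE C N) p i j =
      cc * C.pD N p (N - 4) (N - 3) (N - 1) (N - 2) i j := by
  have hev := GB_eval (K := N - 4 + 2) (g := id) (g' := i3 (N - 4) 2)
    (fun a _ b _ h => h) (fun a ha b hb h => by
      unfold i3 at h
      split_ifs at h <;> omega) (fun _ a b => cc * C.E a b) (RwE C N) p i j
  unfold BC.pD
  by_cases h : (i ≠ N - 2 ∧ i ≠ N - 1) ∧ (j ≠ N - 1 ∧ j ≠ N - 3)
  · rw [if_pos (by omega)]
    have hj' : j = i3 (N - 4) 2 (if j < N - 3 then j else j - 1) := by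
      unfold i3
      split_ifs <;> omega
    have hjl : (if j < N - 3 then j else j - 1) < N - 4 + 2 := by split_ifs <;> omega
    rw [hev.1 i (by omega) (if j < N - 3 then j else j - 1) hjl rfl hj',
      rE_i3 C hN5 hN p (by omega) hj']
    have e1 : RwE C N (sub id p) i = C.rE N p (N - 4) (N - 3) (N - 1) (N - 2) i := by
      have : RwE C N (sub id p) i = C.rE N p (N - 4) (N - 3) (N - 2) (N - 1) i := rfl
      rw [this]
      refine rE_sub C hN _ _ id _ _ _ _ _ _ _ _ _ _ ?_ ?_ ?_ ?_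
      · intro v hv hvx
        exact ⟨hv, ⟨hvx.2, hvx.1⟩, Iff.rfl, Iff.rfl, Iff.rfl⟩
      · intro v hv hvx u hu hux h
        exact h
      · intro a ha hax
        exact ⟨a, ha, ⟨hax.2, hax.1⟩, rfl⟩
      · intro v _ _ u _ _
        rfl
    rw [e1]
  · rw [if_neg (fun h' => h (by omega)), mul_zero]
    apply hev.2
    by_cases h1 : i = N - 2 ∨ i = N - 1
    · left
      rintro ⟨a, ha, h2⟩
      simp only [id] at h2
      omega
    · right
      rintro ⟨b, hb, h2⟩
      unfold i3 at h2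
      split_ifs at h2 <;> omega

/-- the eigenvalue squares, part for the factor `lambda` -/
theorem GE2_std (C : BC) {N : ℕ} (hN5 : 5 ≤ N) (hN : N ≤ 8) (cc : ℤ) (p : Pat) (i j : ℕ)
    (hi : i < N) (hj : j < N) :
    GLa (N - 4) 2 (fun _ a b => cc * C.E a b) (RwE C N) p i j =
      if i = N - 1 then ∑ c ∈ range N, (if p c (N - 1) = true then
        cc * C.pD N p (N - 4) (N - 3) (N - 1) (N - 2) c j else 0) else 0 := by
  have hlast : N - 4 + 2 + 2 - 1 = N - 1 := by omega
  unfold GLa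
  rw [hlast]
  by_cases h : i = N - 1
  · rw [if_pos h]
    have h1 : ∀ c ∈ range N, c ∉ range (N - 4 + 2) → (if p c (N - 1) = true then
        cc * C.pD N p (N - 4) (N - 3) (N - 1) (N - 2) c j else 0) = 0 := by
      intro c hc hc'
      rw [mem_range] at hc hc'
      have : C.pD N p (N - 4) (N - 3) (N - 1) (N - 2) c j = 0 := by
        unfold BC.pD
        rw [if_neg (by omega)]
      rw [this]
      simp
    rw [← sum_subset (fun c hc => by rw [mem_range] at hc ⊢; omega) h1]
    refine sum_congr rfl fun c hc => ?_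
    rw [mem_range] at hc
    by_cases hp : p c (N - 1) = true
    · have e3 : GB (N - 4 + 2) id (i3 (N - 4) 2) (fun _ a b => cc * C.E a b) (RwE C N) p c j =
          ∑ c' ∈ range (N - 4 + 2), if j = i3 (N - 4) 2 c' then
            cc * C.E (RwE C N p c) (RwE C N (sub (i3 (N - 4) 2) p) c') else 0 := by
        unfold GB
        rw [sum_eq_single c]
        · refine sum_congr rfl fun c' hc' => ?_
          by_cases hj' : j = i3 (N - 4) 2 c'
          · rw [if_pos ⟨rfl, hj'⟩, if_pos hj']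
            rfl
          · rw [if_neg (fun h' => hj' h'.2), if_neg hj']
        · intro b _ hb
          refine sum_eq_zero fun c' _ => ?_
          rw [if_neg]
          rintro ⟨h', _⟩
          exact hb h'.symm
        · intro h'
          exact absurd (mem_range.2 hc) h'
      rw [if_pos hp, ← GE3_std C hN5 hN cc p c j (by omega) hj, e3]
      refine sum_congr rfl fun c' hc' => ?_
      by_cases hj' : j = i3 (N - 4) 2 c'
      · rw [if_pos ⟨h, hj', hp⟩, if_pos hj']
      · rw [if_neg (fun h' => hj' h'.2.1), if_neg hj']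
    · rw [if_neg hp]
      refine sum_eq_zero fun c' _ => ?_
      rw [if_neg]
      rintro ⟨_, _, h'⟩
      exact hp h'
  · rw [if_neg h]
    refine sum_eq_zero fun c _ => sum_eq_zero fun c' _ => ?_
    rw [if_neg]
    rintro ⟨h', _⟩
    exact h h'

/-- the Perron equalities -/
theorem GZ_std (C : BC) {N : ℕ} (hN5 : 5 ≤ N) (cc : ℤ) (p : Pat) (i j : ℕ)
    (hi : i < N) (hj : j < N) :
    GZ (N - 1) (fun p a b => cc * C.tZ N p (N - 1) a b) p i j =
      cc * (if i = N - 1 then ∑ c ∈ range N, (if p c (N - 1) = true then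
        C.tZ N p (N - 1) c j else 0) else 0) := by
  unfold GZ
  by_cases h : i = N - 1
  · rw [if_pos h, mul_sum]
    have h1 : ∀ c ∈ range N, c ∉ range (N - 1) → cc * (if p c (N - 1) = true then
        C.tZ N p (N - 1) c j else 0) = 0 := by
      intro c hc hc'
      rw [mem_range] at hc hc'
      have : C.tZ N p (N - 1) c j = 0 := by
        unfold BC.tZ
        rw [if_neg (by omega)]
      rw [this]
      simp
    rw [← sum_subset (fun c hc => by rw [mem_range] at hc ⊢; omega) h1]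
    refine sum_congr rfl fun c hc => ?_
    by_cases hp : p c (N - 1) = true
    · rw [if_pos hp]
      by_cases hj' : j < N - 1
      · rw [sum_eq_single j, if_pos ⟨h, rfl, hp⟩]
        · intro b _ hb
          rw [if_neg]
          rintro ⟨_, h', _⟩
          exact hb h'.symm
        · intro h'
          exact absurd (mem_range.2 hj') h'
      · have : C.tZ N p (N - 1) c j = 0 := by
          unfold BC.tZ
          rw [if_neg (by omega)]
        rw [this, mul_zero]
        refine sum_eq_zero fun b hb => ?_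
        rw [mem_range] at hb
        rw [if_neg (by omega)]
    · rw [if_neg hp, mul_zero]
      refine sum_eq_zero fun c' _ => ?_
      rw [if_neg]
      rintro ⟨_, _, h'⟩
      exact hp h'
  · rw [if_neg h, mul_zero]
    refine sum_eq_zero fun c _ => sum_eq_zero fun c' _ => ?_
    rw [if_neg]
    rintro ⟨h', _⟩
    exact h h'

end Pool.Agent.Work.MP_f94384_co.Big
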