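import Pool.Agent.Work.MP_f94384_co.Big.SND1
import Pool.Agent.Work.MP_f94384_co.Big.SND2
import Pool.Agent.Work.MP_f94384_co.Flag.P_PADD

/-!
# Soundness of the certificates with invariant row functions
-/

set_option autoImplicit false
set_option linter.unusedSectionVars false
set_option linter.unusedDecidableInType false
set_option linter.unusedFintypeInType false

open Finset

namespace Pool.Agent.Work.MP_f94384_co.Big

open Pool.Agent.Work.MP_f94384_co.Flag

theorem PSDn_scale {n : ℕ} {Y : ℕ → ℕ → ℤ} (c : ℤ) (hc : 0 ≤ c) (h : PSDn n Y) :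
    PSDn n (fun a b => c * Y a b) := by
  obtain ⟨s, b, hb⟩ := h
  refine ⟨s, fun a p => Real.sqrt c * b a p, fun p hp q hq => ?_⟩
  push_cast
  rw [hb p hp q hq, mul_sum]
  refine sum_congr rfl fun a _ => ?_
  have h1 := Real.mul_self_sqrt (show (0 : ℝ) ≤ (c : ℝ) by exact_mod_cast hc)
  calc (c : ℝ) * (b a p * b a q) = (Real.sqrt c * Real.sqrt c) * (b a p * b a q) := by rw [h1]
    _ = _ := by ring

theorem PSDn_one (n : ℕ) (b : ℕ → ℤ) : PSDn n (fun a a' => b a * b a') := by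
  refine ⟨1, fun _ p => (b p : ℝ), fun p _ q _ => ?_⟩
  simp

theorem PSDn_congr {n : ℕ} {Y Y' : ℕ → ℕ → ℤ} (h : ∀ a < n, ∀ b < n, Y a b = Y' a b)
    (hY : PSDn n Y') : PSDn n Y := by
  obtain ⟨s, b, hb⟩ := hY
  refine ⟨s, b, fun p hp q hq => ?_⟩
  rw [h p hp q hq]
  exact hb p hp q hq

theorem c2_nonneg (N : ℕ) : 0 ≤ c2 N := by
  unfold c2
  refine sum_nonneg fun w _ => sum_nonneg fun a _ => ?_
  split_ifs <;> simp

theorem c4_pos {N : ℕ} (hN : 4 ≤ N) : 1 ≤ c4 N := by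
  unfold c4
  have nn : ∀ w z a b : ℕ, (0 : ℤ) ≤
      if w ≠ z ∧ w ≠ a ∧ w ≠ b ∧ z ≠ a ∧ z ≠ b ∧ a ≠ b then 1 else 0 := by
    intro w z a b
    split_ifs <;> simp
  have h1 := single_le_sum (f := fun w => ∑ z ∈ range N, ∑ a ∈ range N, ∑ b ∈ range N,
    (if w ≠ z ∧ w ≠ a ∧ w ≠ b ∧ z ≠ a ∧ z ≠ b ∧ a ≠ b then 1 else 0 : ℤ))
    (fun w _ => sum_nonneg fun z _ => sum_nonneg fun a _ => sum_nonneg fun b _ => nn w z a b)
    (mem_range.2 (by omega : 0 < N))
  have h2 := single_le_sum (f := fun z => ∑ a ∈ range N, ∑ b ∈ range N,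
    (if 0 ≠ z ∧ 0 ≠ a ∧ 0 ≠ b ∧ z ≠ a ∧ z ≠ b ∧ a ≠ b then 1 else 0 : ℤ))
    (fun z _ => sum_nonneg fun a _ => sum_nonneg fun b _ => nn 0 z a b)
    (mem_range.2 (by omega : 1 < N))
  have h3 := single_le_sum (f := fun a => ∑ b ∈ range N,
    (if 0 ≠ 1 ∧ 0 ≠ a ∧ 0 ≠ b ∧ 1 ≠ a ∧ 1 ≠ b ∧ a ≠ b then 1 else 0 : ℤ))
    (fun a _ => sum_nonneg fun b _ => nn 0 1 a b)
    (mem_range.2 (by omega : 2 < N))
  have h4 := single_le_sum (f := fun b =>
    (if 0 ≠ 1 ∧ 0 ≠ 2 ∧ 0 ≠ b ∧ 1 ≠ 2 ∧ 1 ≠ b ∧ 2 ≠ b then 1 else 0 : ℤ))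
    (fun b _ => nn 0 1 2 b)
    (mem_range.2 (by omega : 3 < N))
  have h5 : (if 0 ≠ 1 ∧ 0 ≠ 2 ∧ 0 ≠ 3 ∧ 1 ≠ 2 ∧ 1 ≠ 3 ∧ 2 ≠ 3 then 1 else 0 : ℤ) = 1 := by simp
  rw [h5] at h4
  exact h4.trans (h3.trans (h2.trans h1))

/-! ### the placements -/

/-- eigenvalue squares, bilinear part -/
def QE (C : BC) (N w z x y : ℕ) (p : Pat) (i j : ℕ) : ℤ :=
  if p w x = true then C.m * C.pE N p w z x y i j else 0

/-- eigenvalue squares, parts with the same point -/
def QD (C : BC) (N w z x y : ℕ) (p : Pat) (i j : ℕ) : ℤ :=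
  C.m * (if i = x then ∑ c ∈ range N, (if p c x = true then C.pD N p w z x y c j else 0) else 0) -
    C.q * C.pD N p w z x y i j

/-- Perron equalities -/
def QZ (C : BC) (N x : ℕ) (p : Pat) (i j : ℕ) : ℤ :=
  if i = x then ∑ c ∈ range N, (if p c x = true then C.tZ N p x c j else 0) else 0

theorem inv_U (C : BC) {N : ℕ} (hN : N ≤ 8) : Inv2 N (fun w x p i j => C.pU N p w x i j) where
  inv := fun σ p p' hσ hp w hw a ha i hi j hj => pU_inv C hN hσ hp hw ha hi hj
  zero := fun w p i j => by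
    unfold BC.pU
    rw [if_neg (fun h => h.1 rfl)]

theorem inv_V (C : BC) {N : ℕ} (hN : N ≤ 8) :
    Inv4 N (fun w z x y p i j => C.pV N p w z x y i j) where
  inv := fun σ p p' hσ hp w hw z hz a ha b hb i hi j hj => pV_inv C hN hσ hp hw hz ha hb hi hj
  zero := fun w z a b h p i j => by
    unfold BC.pV
    rw [if_neg (fun h' => h (by tauto))]

theorem inv_E (C : BC) {N : ℕ} (hN : N ≤ 8) : Inv4 N (QE C N) where
  inv := fun σ p p' hσ hp w hw z hz a ha b hb i hi j hj => by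
    unfold QE
    rw [hp w hw a ha, pE_inv C hN hσ hp hw hz ha hb hi hj]
  zero := fun w z a b h p i j => by
    have : C.pE N p w z a b i j = 0 := by
      unfold BC.pE
      rw [if_neg (fun h' => h (by tauto))]
    unfold QE
    rw [this, mul_zero, ite_self]

theorem pD_zero (C : BC) (N w z a b : ℕ)
    (h : ¬ (w ≠ z ∧ w ≠ a ∧ w ≠ b ∧ z ≠ a ∧ z ≠ b ∧ a ≠ b)) (p : Pat) (i j : ℕ) :
    C.pD N p w z a b i j = 0 := by
  unfold BC.pD
  rw [if_neg (fun h' => h (by tauto))]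

theorem inv_D (C : BC) {N : ℕ} (hN : N ≤ 8) : Inv4 N (QD C N) where
  inv := fun σ p p' hσ hp w hw z hz a ha b hb i hi j hj => by
    unfold QD
    rw [pD_inv C hN hσ hp hw hz ha hb hi hj]
    simp only [hσ.eq_iff hi ha]
    congr 3
    refine INV_sum hσ _ _ fun c hc => ?_
    rw [hp c hc a ha, pD_inv C hN hσ hp hw hz ha hb hc hj]
  zero := fun w z a b h p i j => by
    unfold QD
    simp only [pD_zero C N w z a b h, ite_self, sum_const_zero, mul_zero, sub_zero]

theorem inv_Z (C : BC) {N : ℕ} (hN : N ≤ 8) (σ : ℕ → ℕ) (p p' : Pat) (hσ : PermN N σ)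
    (hp : ∀ i < N, ∀ j < N, p i j = p' (σ i) (σ j)) (w : ℕ) (hw : w < N) (i : ℕ) (hi : i < N)
    (j : ℕ) (hj : j < N) : QZ C N w p i j = QZ C N (σ w) p' (σ i) (σ j) := by
  unfold QZ
  simp only [hσ.eq_iff hi hw]
  congr 1
  refine INV_sum hσ _ _ fun c hc => ?_
  rw [hp c hc w hw, tZ_inv C hN hσ hp hw hc hj]

/-- the table as a sum over placements -/
theorem T_eq (C : BC) {N : ℕ} (p : Pat) (i j : ℕ) (hi : i < N) :
    C.T N p i j = (∑ w ∈ range N, ∑ x ∈ range N, C.pU N p w x i j) +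
      (∑ w ∈ range N, ∑ z ∈ range N, ∑ x ∈ range N, ∑ y ∈ range N, C.pV N p w z x y i j) +
      (∑ w ∈ range N, ∑ z ∈ range N, ∑ x ∈ range N, ∑ y ∈ range N, QE C N w z x y p i j) +
      (∑ w ∈ range N, ∑ z ∈ range N, ∑ x ∈ range N, ∑ y ∈ range N, QD C N w z x y p i j) +
      ∑ x ∈ range N, QZ C N x p i j := by
  have hE : C.m * C.TE N p i j =
      ∑ w ∈ range N, ∑ z ∈ range N, ∑ x ∈ range N, ∑ y ∈ range N, QE C N w z x y p i j := by
    unfold BC.TE QE
    simp only [mul_sum, mul_ite, mul_zero]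
  have hZ : ∑ x ∈ range N, QZ C N x p i j =
      ∑ c ∈ range N, (if p c i = true then C.tZ N p i c j else 0) := by
    unfold QZ
    rw [sum_eq_single i, if_pos rfl]
    · intro b _ hb
      rw [if_neg (fun h => hb h.symm)]
    · intro h
      exact absurd (mem_range.2 hi) h
  have hD1 : ∑ w ∈ range N, ∑ z ∈ range N, ∑ x ∈ range N, ∑ y ∈ range N,
      C.pD N p w z x y i j = C.TD N p i j := by
    unfold BC.TD BC.tD
    have h1 : ∀ w ∈ range N, ∑ z ∈ range N, ∑ x ∈ range N, ∑ y ∈ range N,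
        C.pD N p w z x y i j = ∑ x ∈ range N, ∑ z ∈ range N, ∑ y ∈ range N,
        C.pD N p w z x y i j := fun w _ => sum_comm
    rw [sum_congr rfl h1, sum_comm]
  have hD2 : ∑ w ∈ range N, ∑ z ∈ range N, ∑ x ∈ range N, ∑ y ∈ range N,
      (if i = x then ∑ c ∈ range N, (if p c x = true then C.pD N p w z x y c j else 0) else 0) =
      ∑ c ∈ range N, (if p c i = true then C.tD N p i c j else 0) := by
    have h1 : ∀ w ∈ range N, ∀ z ∈ range N, ∑ x ∈ range N, ∑ y ∈ range N,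
        (if i = x then ∑ c ∈ range N, (if p c x = true then C.pD N p w z x y c j else 0) else 0) =
        ∑ c ∈ range N, ∑ y ∈ range N, (if p c i = true then C.pD N p w z i y c j else 0) := by
      intro w _ z _
      rw [sum_eq_single i, sum_comm]
      · simp only [if_true]
      · intro b _ hb
        simp only [if_neg (fun h => hb (Eq.symm h) : ¬ i = b), sum_const_zero]
      · intro h
        exact absurd (mem_range.2 hi) h
    rw [sum_congr rfl fun w hw => sum_congr rfl fun z hz => h1 w hw z hz]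
    have h2 : ∀ w ∈ range N, ∑ z ∈ range N, ∑ c ∈ range N, ∑ y ∈ range N,
        (if p c i = true then C.pD N p w z i y c j else 0) =
        ∑ c ∈ range N, ∑ z ∈ range N, ∑ y ∈ range N,
        (if p c i = true then C.pD N p w z i y c j else 0) := fun w _ => sum_comm
    rw [sum_congr rfl h2, sum_comm]
    refine sum_congr rfl fun c _ => ?_
    unfold BC.tD
    split_ifs with h
    · rfl
    · simp
  have hD : (∑ w ∈ range N, ∑ z ∈ range N, ∑ x ∈ range N, ∑ y ∈ range N, QD C N w z x y p i j) =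
      C.m * (∑ c ∈ range N, (if p c i = true then C.tD N p i c j else 0)) -
        C.q * C.TD N p i j := by
    rw [← hD1, ← hD2]
    unfold QD
    simp only [sum_sub_distrib, mul_sum]
  have hP : C.TP N p i j = C.m * (∑ c ∈ range N, (if p c i = true then C.tD N p i c j else 0)) +
      ∑ c ∈ range N, (if p c i = true then C.tZ N p i c j else 0) := by
    unfold BC.TP
    rw [mul_sum, ← sum_add_distrib]
    refine sum_congr rfl fun c _ => ?_
    split_ifs <;> ring
  unfold BC.T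
  rw [hE, hD, hZ, hP]
  unfold BC.TU BC.TV
  ring

/-- the terms of the general theorem -/
def LT (C : BC) (N nU nE nV : ℕ) : List Term :=
  [⟨false, N - 2, 1, nU, fun _ a b => c2 N * C.U a b, RwU C N⟩,
    ⟨false, N - 4, 2, nV + 1, fun _ => YV C nV (c4 N), RwV C N nV⟩,
    ⟨true, N - 4, 2, nE, fun _ a b => c4 N * C.E a b, RwE C N⟩]

theorem tabL_eq (C : BC) {N : ℕ} (nU nE nV : ℕ) (hN5 : 5 ≤ N) (hN : N ≤ 8)
    (hfV : ∀ h, C.fV h < nV) (p : Pat) (i j : ℕ) (hi : i < N) (hj : j < N) :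
    tabL N (LT C N nU nE nV) C.m C.q (fun p a b => (N : ℤ) * C.tZ N p (N - 1) a b) p i j =
      c2 N * C.pU N p (N - 2) (N - 1) i j +
      c4 N * C.pV N p (N - 4) (N - 3) (N - 2) (N - 1) i j +
      c4 N * QE C N (N - 4) (N - 3) (N - 2) (N - 1) p i j +
      c4 N * QD C N (N - 4) (N - 3) (N - 1) (N - 2) p i j +
      (N : ℤ) * QZ C N (N - 1) p i j := by
  unfold tabL LT
  simp only [List.map_cons, List.map_nil, List.sum_cons, List.sum_nil, add_zero]
  rw [GZ_std C hN5 (N : ℤ) p i j hi hj]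
  have hU : (⟨false, N - 2, 1, nU, fun _ a b => c2 N * C.U a b, RwU C N⟩ : Term).tab C.m C.q
      p i j = c2 N * C.pU N p (N - 2) (N - 1) i j := by
    unfold Term.tab
    simp only [Bool.false_eq_true, if_false]
    exact GU_std C hN5 hN (c2 N) p i j hi hj
  have hV : (⟨false, N - 4, 2, nV + 1, fun _ => YV C nV (c4 N), RwV C N nV⟩ : Term).tab C.m C.q
      p i j = c4 N * C.pV N p (N - 4) (N - 3) (N - 2) (N - 1) i j := by
    unfold Term.tab
    simp only [Bool.false_eq_true, if_false]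
    exact GV_std C hN5 hN hfV (c4 N) p i j hi hj
  have hEt : (⟨true, N - 4, 2, nE, fun _ a b => c4 N * C.E a b, RwE C N⟩ : Term).tab C.m C.q
      p i j = c4 N * QE C N (N - 4) (N - 3) (N - 2) (N - 1) p i j +
      c4 N * QD C N (N - 4) (N - 3) (N - 1) (N - 2) p i j := by
    unfold Term.tab
    simp only [if_true]
    unfold GE
    rw [GE1_std C hN5 hN (c4 N) p i j hi hj, GE2_std C hN5 hN (c4 N) p i j hi hj,
      GE3_std C hN5 hN (c4 N) p i j hi hj]
    have e : N - 4 + 2 = N - 2 := by omega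
    rw [e]
    unfold QE QD
    have h1 : (if i = N - 1 then ∑ c ∈ range N, (if p c (N - 1) = true then
        c4 N * C.pD N p (N - 4) (N - 3) (N - 1) (N - 2) c j else 0) else 0) =
        c4 N * (if i = N - 1 then ∑ c ∈ range N, (if p c (N - 1) = true then
        C.pD N p (N - 4) (N - 3) (N - 1) (N - 2) c j else 0) else 0) := by
      simp only [mul_ite, mul_sum, mul_zero]
    rw [h1]
    split_ifs <;> ring
  rw [hU, hV, hEt]
  unfold QZ
  ring

section

variable {V : Type} [Fintype V] [DecidableEq V]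

theorem Phi_congr (G : SimpleGraph V) (x : V → ℝ) {N : ℕ} (A B : Pat → ℕ → ℕ → ℝ)
    (h : ∀ p, ∀ i < N, ∀ j < N, A p i j = B p i j) : Phi G x N A = Phi G x N B := by
  unfold Phi
  refine sum_congr rfl fun v _ => sum_congr rfl fun i _ => sum_congr rfl fun j _ => ?_
  rw [h _ i i.2 j j.2]

/-- both tables have the same pattern sum -/
theorem Phi_T (C : BC) {N : ℕ} (nU nE nV : ℕ) (hN5 : 5 ≤ N) (hN : N ≤ 8)
    (hfV : ∀ h, C.fV h < nV) (G : SimpleGraph V) (x : V → ℝ) :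
    Phi G x N (fun p i j => (C.T N p i j : ℝ)) =
      Phi G x N (fun p i j => ((tabL N (LT C N nU nE nV) C.m C.q
        (fun p a b => (N : ℤ) * C.tZ N p (N - 1) a b) p i j : ℤ) : ℝ)) := by
  have h1 : Phi G x N (fun p i j => (C.T N p i j : ℝ)) =
      Phi G x N (fun p i j => ((∑ w ∈ range N, ∑ x ∈ range N, C.pU N p w x i j : ℤ) : ℝ)) +
      Phi G x N (fun p i j => ((∑ w ∈ range N, ∑ z ∈ range N, ∑ x ∈ range N, ∑ y ∈ range N,
        C.pV N p w z x y i j : ℤ) : ℝ)) +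
      Phi G x N (fun p i j => ((∑ w ∈ range N, ∑ z ∈ range N, ∑ x ∈ range N, ∑ y ∈ range N,
        QE C N w z x y p i j : ℤ) : ℝ)) +
      Phi G x N (fun p i j => ((∑ w ∈ range N, ∑ z ∈ range N, ∑ x ∈ range N, ∑ y ∈ range N,
        QD C N w z x y p i j : ℤ) : ℝ)) +
      Phi G x N (fun p i j => ((∑ x ∈ range N, QZ C N x p i j : ℤ) : ℝ)) := by
    rw [← Phi_add, ← Phi_add, ← Phi_add, ← Phi_add]
    refine Phi_congr G x _ _ fun p i hi j hj => ?_
    rw [T_eq C p i j hi]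
    push_cast
    rfl
  have h2 : Phi G x N (fun p i j => ((tabL N (LT C N nU nE nV) C.m C.q
        (fun p a b => (N : ℤ) * C.tZ N p (N - 1) a b) p i j : ℤ) : ℝ)) =
      (c2 N : ℝ) * Phi G x N (fun p i j => (C.pU N p (N - 2) (N - 1) i j : ℝ)) +
      (c4 N : ℝ) * Phi G x N (fun p i j => (C.pV N p (N - 4) (N - 3) (N - 2) (N - 1) i j : ℝ)) +
      (c4 N : ℝ) * Phi G x N (fun p i j => (QE C N (N - 4) (N - 3) (N - 2) (N - 1) p i j : ℝ)) +
      (c4 N : ℝ) * Phi G x N (fun p i j => (QD C N (N - 4) (N - 3) (N - 1) (N - 2) p i j : ℝ)) +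
      (N : ℝ) * Phi G x N (fun p i j => (QZ C N (N - 1) p i j : ℝ)) := by
    rw [← Phi_mul, ← Phi_mul, ← Phi_mul, ← Phi_mul, ← Phi_mul, ← Phi_add, ← Phi_add, ← Phi_add,
      ← Phi_add]
    refine Phi_congr G x _ _ fun p i hi j hj => ?_
    rw [tabL_eq C nU nE nV hN5 hN hfV p i j hi hj]
    push_cast
    rfl
  rw [h1, h2, Phi_two G x (inv_U C hN) (w0 := N - 2) (a0 := N - 1) (by omega) (by omega)
    (by omega), Phi_four G x (inv_V C hN) (w0 := N - 4) (z0 := N - 3) (a0 := N - 2) (b0 := N - 1)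
    (by omega) (by omega) (by omega) (by omega) (by omega), Phi_four G x (inv_E C hN) (w0 := N - 4) (z0 := N - 3) (a0 := N - 2) (b0 := N - 1)
    (by omega) (by omega) (by omega) (by omega) (by omega),
    Phi_four G x (inv_D C hN) (w0 := N - 4) (z0 := N - 3) (a0 := N - 1) (b0 := N - 2)
    (by omega) (by omega) (by omega) (by omega) (by omega),
    Phi_one G x (inv_Z C hN) (w0 := N - 1) (by omega)]

end

/-- the hash of a pattern depends only on the coloured positions -/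
theorem hs_local {n : ℕ} {p p' : Pat} (h : Agree n p p') (c : ℕ → ℕ)
    (hc : ∀ v, c v ≠ 0 → v < n) : hs p c = hs p' c := by
  refine pr_RST p p' c c id ?_ ?_ ?_ ?_
  · intro v hv _
    exact ⟨hv, rfl⟩
  · intro v _ _ u _ _ h
    exact h
  · intro v _ hv u _ hu
    exact h v (hc v hv) u (hc u hu)
  · intro a ha ha'
    exact ⟨a, ha, ha', rfl⟩

theorem RwU_local (C : BC) {N : ℕ} (hN5 : 5 ≤ N) {p p' : Pat} (h : Agree (N - 2 + 1) p p')
    (c : ℕ) : RwU C N p c = RwU C N p' c := by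
  unfold RwU BC.rU
  refine congrArg C.fU (hs_local h _ fun v hv => ?_)
  by_contra hcon
  apply hv
  unfold cU
  rw [if_neg (by omega)]

theorem RwE_local (C : BC) {N : ℕ} (hN5 : 5 ≤ N) {p p' : Pat} (h : Agree (N - 4 + 2) p p')
    (c : ℕ) : RwE C N p c = RwE C N p' c := by
  unfold RwE BC.rE
  refine congrArg C.fE (hs_local h _ fun v hv => ?_)
  by_contra hcon
  apply hv
  unfold cE
  rw [if_neg (by omega)]

theorem RwV_local (C : BC) {N nV : ℕ} (hN5 : 5 ≤ N) {p p' : Pat} (h : Agree (N - 4 + 2) p p')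
    (c : ℕ) : RwV C N nV p c = RwV C N nV p' c := by
  unfold RwV
  split_ifs
  · unfold BC.rV
    refine congrArg C.fV (hs_local h _ fun v hv => ?_)
    by_contra hcon
    apply hv
    unfold cE
    rw [if_neg (by omega)]
  · rfl

theorem YV_psd (C : BC) {nV : ℕ} (cc : ℤ) (hcc : 0 ≤ cc) (h : PSDn nV C.V) :
    PSDn (nV + 1) (YV C nV cc) := by
  obtain ⟨s, b, hb⟩ := PSDn_scale cc hcc h
  refine ⟨s, fun a p => if p < nV then b a p else 0, fun p _ q _ => ?_⟩
  unfold YV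
  by_cases h : p < nV ∧ q < nV
  · rw [if_pos h, hb p h.1 q h.2]
    refine sum_congr rfl fun a _ => ?_
    simp only [if_pos h.1, if_pos h.2]
  · rw [if_neg h]
    have : ∀ a ∈ range s, (if p < nV then b a p else 0) * (if q < nV then b a q else 0) = 0 := by
      intro a _
      by_cases h1 : p < nV
      · rw [if_neg (fun h2 => h ⟨h1, h2⟩), mul_zero]
      · rw [if_neg h1, zero_mul]
    rw [sum_eq_zero this]
    simp

theorem tZ_local (C : BC) {N : ℕ} {p p' : Pat} (h : Agree (N - 1) p p')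
    (a b : ℕ) : C.tZ N p (N - 1) a b = C.tZ N p' (N - 1) a b := by
  have key : ∀ a b, C.rU N p a (N - 1) b = C.rU N p' a (N - 1) b := by
    intro a b
    unfold BC.rU
    refine congrArg C.fU (hs_local h _ fun v hv => ?_)
    by_contra hcon
    apply hv
    unfold cU
    rw [if_neg (by omega)]
  unfold BC.tZ
  rw [key, key]

theorem tZ_anti (C : BC) (N : ℕ) (p : Pat) (x a b : ℕ) :
    C.tZ N p x a b = -C.tZ N p x b a := by
  unfold BC.tZ
  by_cases h : a ≠ b ∧ a ≠ x ∧ b ≠ x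
  · rw [if_pos h, if_pos ⟨fun e => h.1 e.symm, h.2.2, h.2.1⟩]
    ring
  · rw [if_neg h, if_neg (fun h' => h ⟨fun e => h'.1 e.symm, h'.2.2, h'.2.1⟩)]
    simp

/-- Item SND -/
theorem pr_SND : SND := by
  intro C r N nU nE nV b P hN5 hN hr hm hq hfU hfE hfV hU hV hP hE hb hNP
  have hN1 : 1 ≤ N := by omega
  have hc4 : 1 ≤ c4 N := c4_pos (by omega)
  have hPE : PSDn nE C.E := by
    refine PSDn_congr (Y' := fun a a' => b a * b a' + P a a') hE ?_
    exact pr_PADD nE _ _ (PSDn_one nE b) hP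
  have hLE : Local (N - 4) (N - 4 + 2) (fun (_ : Pat) a b => c4 N * C.E a b) (RwE C N) :=
    ⟨fun _ _ _ => rfl, fun p p' h c _ => RwE_local C hN5 h c⟩
  refine list_sound (N := N) (r := r) (L := LT C N nU nE nV) (m := C.m) (q := C.q)
    (z := fun p a b => (N : ℤ) * C.tZ N p (N - 1) a b) hN1 hm hq ?_ ?_ ?_ ?_ ?_
  · intro τ hτ
    unfold LT at hτ
    rw [List.mem_cons, List.mem_cons, List.mem_singleton] at hτ
    rcases hτ with rfl | rfl | rfl
    · exact ⟨by show N - 2 + 1 + 1 = N; omega, le_refl 1,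
        ⟨fun _ _ _ => rfl, fun p p' h c _ => RwU_local C hN5 h c⟩,
        fun p c _ => hfU _, fun _ => PSDn_scale (c2 N) (c2_nonneg N) hU⟩
    · refine ⟨by show N - 4 + 2 + 2 = N; omega, by norm_num,
        ⟨fun _ _ _ => rfl, fun p p' h c _ => RwV_local C hN5 h c⟩, fun p c _ => ?_,
        fun _ => YV_psd C (c4 N) (by omega) hV⟩
      show RwV C N nV p c < nV + 1
      unfold RwV
      split_ifs
      · exact (hfV _).trans (Nat.lt_succ_self _)
      · exact Nat.lt_succ_self _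
    · exact ⟨by show N - 4 + 2 + 2 = N; omega, by norm_num, hLE,
        fun p c _ => hfE _, fun _ => PSDn_scale (c4 N) (by omega) hPE⟩
  · refine ⟨⟨true, N - 4, 2, nE, fun _ a b => c4 N * C.E a b, RwE C N⟩, by simp [LT], rfl, ?_⟩
    refine strict2 (k := N - 4) (n := nE) (r := r) (by omega) hLE (fun p c _ => hfE _)
      (fun a a' => (c4 N - 1) * (b a * b a') + c4 N * P a a') ?_ b ?_ ?_
    · exact pr_PADD nE _ _ (PSDn_scale (c4 N - 1) (by omega) (PSDn_one nE b))
        (PSDn_scale (c4 N) (by omega) hP)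
    · intro a ha a' ha'
      rw [hE a ha a' ha']
      ring
    · intro s t hst
      obtain ⟨h1, h2⟩ := hb s t hst
      exact ⟨h1, fun c hc => h2 c (by omega)⟩
  · intro p p' h
    funext a b
    rw [tZ_local C h]
  · intro p a b
    rw [tZ_anti C N p (N - 1) a b]
    ring
  · intro V _ _ G x hx hG
    rw [← Phi_T C nU nE nV hN5 hN hfV G x]
    exact hNP V G x hx hG

end Pool.Agent.Work.MP_f94384_co.Big
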