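import Pool.Agent.Work.MP_f94384_co.Big.Stmts3
import Pool.Agent.Work.MP_f94384_co.Big.Rng
import Pool.Agent.Work.MP_f94384_co.Big.P_REPS
import Pool.Agent.Work.MP_f94384_co.Big.P_SND

/-!
# The bound from the checks of a certificate
-/

set_option autoImplicit false

open Finset

namespace Pool.Agent.Work.MP_f94384_co.Big

open Pool.Agent.Work.MP_f94384_co.Flag

/-- strictness at the patterns `qpat` -/
def StrOK (D : Dt) (r t0 bp bn : ℕ) : Prop := ∀ s t : Bool, (r = 2 → ¬ (s = true ∧ t = true)) →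
  ∃ A, (∀ a < D.N - 2, ∀ a' < D.N - 2, qpat (D.N - 4) s t a a' = pa A a a') ∧
    ckS D t0 bp bn (D.N - 4) A = true

theorem fnl (hC : CGN) (hM : MAT) (hS : STR) (hK : CKA) (D : Dt) (r zb t0 bp bn len : ℕ)
    (hr : 1 ≤ r) (ht : t0 < 255) (h : AOK D zb t0 (bvec D.W t0 bp bn))
    (hcls : Cls (r + 1) D.N (get D.R0) len) (hsym : ∀ k < len, ckA D.N (get D.R0 k) = true)
    (hcg : ∀ k < len, cG D k = true) (hstr : StrOK D r t0 bp bn) :
    PB r ((D.q : ℝ) / D.m) := by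
  have oc : D.o < D.c := by have := h.w.oc; omega
  have hU := hM D.W D.c D.o D.NU 0 (rowP D.W (8 * D.Z) D.NU D.BU D.WU) (fun _ => 0) oc h.tu
    (fun _ _ => rfl) (fun _ _ => rfl)
  have hE := hM D.W D.c D.o D.NE t0 (rowP D.W (8 * D.Z) D.NE D.BE D.WE) (bvec D.W t0 bp bn) oc h.te
    h.b0 h.b1
  have hV : PSDn 65536 D.bc.V := by
    by_cases hv : D.v = 0
    · refine ⟨0, fun _ _ => 0, fun p _ q _ => ?_⟩
      show (((if D.v = 0 then 0 else _ : ℤ)) : ℝ) = _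
      rw [if_pos hv]; simp
    · have h1 := hM D.W D.c D.o D.NV 0 (fun b => get D.BV (get D.WV b)) (fun _ => 0) oc
        (h.tv hv) (fun _ _ => rfl) (fun _ _ => rfl)
      obtain ⟨s, b, hb⟩ := h1.1
      refine ⟨s, b, fun p hp q hq => ?_⟩
      rw [← hb p hp q hq]
      show (((if D.v = 0 then 0 else _ : ℤ)) : ℝ) = _
      rw [if_neg hv]; simp
  have hmin : ∀ x : ℕ, min x 65535 < 65536 := fun x => by
    have := Nat.min_le_right x 65535; omega
  have hN := pr_REPS D.bc r D.N (get D.R0) len (by have := h.w.N5; omega) h.w.N8 hcls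
    (fun k hk => hC D zb t0 _ h k (hK D.N _ h.w.N8 (hsym k hk)).1 (hcg k hk))
  refine pr_SND D.bc r D.N 65536 65536 65536 (bvec D.W t0 bp bn)
    (fun a a' => D.bc.E a a' - bvec D.W t0 bp bn a * bvec D.W t0 bp bn a') h.w.N5 h.w.N8 hr ?_ ?_
    (fun x => hmin _) (fun x => hmin _) (fun x => hmin _) ?_ hV hE.1 (fun a _ a' _ => by ring) ?_ hN
  · show (0 : ℤ) < (D.m : ℤ)
    have := h.w.m1; omega
  · show (0 : ℤ) ≤ (D.q : ℤ)
    omega
  · obtain ⟨s, b, hb⟩ := hU.1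
    refine ⟨s, b, fun p hp q hq => ?_⟩
    rw [← hb p hp q hq]
    show ((tv _ _ _ : ℤ) : ℝ) = _
    simp
  · intro s t hst
    obtain ⟨A, hA, hc⟩ := hstr s t hst
    exact hS D t0 bp bn A s t h.w.N5 h.w.N8 ht (by have := h.w.oW; omega) hA hc

theorem dgz {NT nT : ℕ} (h : NT < 2 ^ (8 * nT)) (ty : ℕ) (h1 : nT ≤ ty) : dg 8 (8 * ty) NT = 0 := by
  unfold dg
  rw [Nat.div_eq_of_lt (h.trans_le (Nat.pow_le_pow_right (by norm_num) (by omega)))]
  rfl

theorem bvec_ne {W t0 bp bn a : ℕ} (h : a / 256 ≠ t0) : bvec W t0 bp bn a = 0 := if_neg h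

theorem tok_b {W c o NT t0 bp bn ty : ℕ} {R : ℕ → ℕ}
    (h : TOK W c o (dg 8 (8 * ty) NT) R fun _ => 0) (hty : ty ≠ t0) :
    TOK W c o (dg 8 (8 * ty) NT) R fun k => bvec W t0 bp bn (256 * ty + k) := by
  refine ⟨h.1, h.2.1, h.2.2.1, ?_⟩
  obtain ⟨s, b, hb⟩ := h.2.2.2
  refine ⟨s, b, fun p hp q hq => ?_⟩
  rw [← hb p hp q hq]
  have h8 : dg 8 (8 * ty) NT < 256 := dg_lt 8 _ _
  have hp' : bvec W t0 bp bn (256 * ty + p) = 0 := bvec_ne (by omega)
  simp only [hp', zero_mul]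

end Pool.Agent.Work.MP_f94384_co.Big
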