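import Pool.Agent.Work.MP_f94384_co.Big.Stmts3

/-!
# Kernel program for the certificates of order 7 and 8: item CKA
-/

set_option autoImplicit false

open Finset

namespace Pool.Agent.Work.MP_f94384_co.Big

open Pool.Agent.Work.MP_f94384_co.Flag

theorem pr_CKA : CKA := by
  intro n A hn h
  have hb : ∀ t, Nat.beq (bts 1 A t) 1 = A.testBit t := fun t => bt_eq A t
  unfold ckA at h
  rw [allL_iff] at h
  have h1 : ∀ i < n, pa A i i = false := by
    intro i hi
    have h2 := h i hi
    show A.testBit (8 * i + i) = false
    have h3 : 8 * i + i = 9 * i := by ring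
    rw [h3, ← bt_eq]
    cases h4 : bt A (9 * i) with
    | false => rfl
    | true =>
      have h5 : bt A (Nat.mul 9 i) = true := h4
      rw [h5] at h2
      simp at h2
  have h2 : ∀ i < n, ∀ j < i, pa A i j = pa A j i := by
    intro i hi j hj
    have h2 := h i hi
    cases h4 : bt A (Nat.mul 9 i) with
    | true =>
      rw [h4] at h2
      simp at h2
    | false =>
      rw [h4, cond_false, allL_iff] at h2
      have h5 := h2 j hj
      rw [beq_iff] at h5
      show A.testBit (8 * i + j) = A.testBit (8 * j + i)
      rw [← hb, ← hb]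
      have h6 : bts 1 A (8 * i + j) = bts 1 A (8 * j + i) := h5
      rw [h6]
  refine ⟨?_, h1⟩
  intro i hi j hj
  rcases lt_trichotomy i j with h3 | h3 | h3
  · exact (h2 j hj i h3).symm
  · rw [h3]
  · exact h2 i hi j h3

end Pool.Agent.Work.MP_f94384_co.Big
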