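import Pool.Agent.Work.MP_f94384_co.Big.Stmts

/-!
# Digits of digits
-/

set_option autoImplicit false

open Finset

namespace Pool.Agent.Work.MP_f94384_co.Big

namespace DGG

theorem testBit_dg (w t x i : ℕ) : (dg w t x).testBit i = (decide (i < w) && x.testBit (t + i)) := by
  unfold dg
  rw [Nat.testBit_mod_two_pow, Nat.testBit_div_two_pow, Nat.add_comm i t]

theorem dgdg (w t w' t' x : ℕ) (h : t + w ≤ w') : dg w t (dg w' t' x) = dg w (t' + t) x := by
  apply Nat.eq_of_testBit_eq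
  intro i
  rw [testBit_dg, testBit_dg, testBit_dg, Nat.add_assoc]
  by_cases h1 : i < w
  · have h2 : t + i < w' := by omega
    simp [h1, h2]
  · simp [h1]

theorem dg_shift (w t s x : ℕ) : dg w t (x >>> s) = dg w (s + t) x := by
  apply Nat.eq_of_testBit_eq
  intro i
  rw [testBit_dg, testBit_dg, Nat.testBit_shiftRight, Nat.add_assoc]

theorem dg_mod (w w' t x : ℕ) (h : w ≤ w') : dg w' t x % 2 ^ w = dg w t x := by
  apply Nat.eq_of_testBit_eq
  intro i
  rw [Nat.testBit_mod_two_pow, testBit_dg, testBit_dg]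
  by_cases h1 : i < w
  · have h2 : i < w' := by omega
    simp [h1, h2]
  · simp [h1]

theorem rep (n s x : ℕ) : x % 2 ^ (s * n) = ∑ i ∈ range n, dg s (s * i) x * 2 ^ (s * i) := by
  induction n with
  | zero => simp [Nat.mod_one]
  | succ n ih =>
    rw [Finset.sum_range_succ, ← ih]
    have h : x % 2 ^ (s * (n + 1)) = x % 2 ^ (s * n) + 2 ^ (s * n) * (x / 2 ^ (s * n) % 2 ^ s) := by
      rw [Nat.mul_succ, Nat.pow_add, Nat.mod_mul]
    rw [h]
    unfold dg
    ring

end DGG

theorem pr_DGG : DGG := by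
  refine ⟨fun w t w' t' x h => DGG.dgdg w t w' t' x h, DGG.dg_shift, fun w w' t x h =>
    DGG.dg_mod w w' t x h, ?_, ?_, ?_⟩
  · intro w t x h
    unfold dg
    rw [Nat.div_eq_of_lt h, Nat.zero_mod]
  · intro w x h
    unfold dg
    rw [Nat.pow_zero, Nat.div_one, Nat.mod_eq_of_lt h]
  · intro n s x h
    rw [← DGG.rep, Nat.mod_eq_of_lt h]

end Pool.Agent.Work.MP_f94384_co.Big
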