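import Pool.Agent.Work.MP_f94384_co.Big.Stmts2
import Pool.Agent.Work.MP_f94384_co.Big.P_DGG

/-!
# Check of an entry
-/

set_option autoImplicit false

open Finset

namespace Pool.Agent.Work.MP_f94384_co.Big

open Pool.Agent.Work.MP_f94384_co.Flag

namespace CKE

theorem bts8 (x t : ℕ) : bts 255 x t = dg 8 t x := bts_eq 8 x t
theorem bts16 (x t : ℕ) : bts 65535 x t = dg 16 t x := bts_eq 16 x t
theorem bts24 (x t : ℕ) : bts 16777215 x t = dg 24 t x := bts_eq 24 x t
theorem bts4 (x t : ℕ) : bts 15 x t = dg 4 t x := bts_eq 4 x t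

theorem land8 (x : ℕ) : Nat.land x 255 = dg 8 0 x := by
  have h : Nat.land x 255 = bts 255 x 0 := rfl
  rw [h, bts8]

theorem ckp_true (ty k fs r f : ℕ) (h : ckp ty k fs r f = true) :
    (r = 65535 → dg 8 0 f = k ∧ dg 4 8 f = 15) ∧
    (r ≠ 65535 → r = 256 * ty + dg 8 0 f ∧ dg 8 0 f < k ∧ dg 4 8 f < 8 ∧
      dg 16 (16 * dg 4 8 f) fs = r) := by
  unfold ckp at h
  simp only [fc_eq, bts4, bts16, land8] at h
  constructor
  · intro h1
    have h2 : Nat.beq r 65535 = true := (beq_iff _ _).2 h1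
    rw [h2, cond_true, cond_true_iff, beq_iff, beq_iff] at h
    exact h
  · intro h1
    have h2 : Nat.beq r 65535 = false := by
      cases h3 : Nat.beq r 65535 with
      | false => rfl
      | true => exact absurd ((beq_iff _ _).1 h3) h1
    rw [h2, cond_false, cond_true_iff, cond_true_iff, cond_true_iff, beq_iff, ble_iff, ble_iff,
      beq_iff] at h
    obtain ⟨ha, hb, hc, hd⟩ := h
    exact ⟨ha, hb, Nat.lt_succ_of_le hc, hd⟩

end CKE

theorem pr_CKE : CKE := by
  intro nu W Z8 NT n nB FS e rw h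
  unfold cke at h
  simp only [fc_eq, CKE.bts8, CKE.bts16, CKE.bts24] at h
  rw [cond_true_iff, cond_true_iff, ble_iff, beq_iff, allL_iff] at h
  obtain ⟨h1, h2, h3⟩ := h
  have hd := pr_DGG
  have hcol : ∀ i, dg 8 0 (dg 16 (16 * i) e) = eco e i := by
    intro i
    rw [hd.1 8 0 16 (16 * i) e (by norm_num)]
    rfl
  have hsl : ∀ i, dg 4 8 (dg 16 (16 * i) e) = esl e i := by
    intro i
    rw [hd.1 4 8 16 (16 * i) e (by norm_num)]
    rfl
  have hk : ∀ i < 8, ckp (dg 8 168 e) (dg 8 (Nat.mul 8 (dg 8 168 e)) NT) (get FS (dg 16 128 e))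
      (if i < n then rw i else 65535) (dg 16 (16 * i) e) = true ∧
      (i < n → nu = false → rw i < 65535) := by
    intro i hi
    have h4 := h3 i hi
    by_cases hin : i < n
    · have h5 : Nat.ble (Nat.succ i) n = true := (ble_iff _ _).2 hin
      rw [h5, cond_true, cond_true_iff] at h4
      rw [if_pos hin]
      refine ⟨h4.2, fun _ hnu => ?_⟩
      have h6 := h4.1
      rw [hnu, cond_false, ble_iff] at h6
      exact h6
    · have h5 : Nat.ble (Nat.succ i) n = false := by
        cases h6 : Nat.ble (Nat.succ i) n with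
        | false => rfl
        | true => exact absurd ((ble_iff _ _).1 h6) hin
      rw [h5, cond_false] at h4
      rw [if_neg hin]
      exact ⟨h4, fun h => absurd h hin⟩
  have hp : ∀ i < 8, ((if i < n then rw i else 65535) = 65535 →
      eco e i = dg 8 (8 * dg 8 168 e) NT ∧ esl e i = 15) ∧
    ((if i < n then rw i else 65535) ≠ 65535 →
      (if i < n then rw i else 65535) = 256 * dg 8 168 e + eco e i ∧
      eco e i < dg 8 (8 * dg 8 168 e) NT ∧ esl e i < 8 ∧
      dg 16 (16 * esl e i) (get FS (dg 16 128 e)) = (if i < n then rw i else 65535)) := by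
    intro i hi
    have h4 := CKE.ckp_true _ _ _ _ _ (hk i hi).1
    rw [hcol, hsl] at h4
    exact h4
  refine ⟨⟨h1, h2, fun i hi => (hp i hi).1, fun i hi => (hp i hi).2⟩, ?_, ?_⟩
  · intro i hi hin
    have h4 := (hp i hi).2
    simp only [if_pos hin] at h4
    by_cases h5 : rw i = 65535
    · exact h5.le
    · obtain ⟨h6, h7, -, -⟩ := h4 h5
      have h8 := dg_lt 8 168 e
      have h9 := dg_lt 8 (8 * dg 8 168 e) NT
      norm_num at h8 h9
      omega
  · intro hnu i hi hin
    exact (hk i hi).2 hin hnu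

end Pool.Agent.Work.MP_f94384_co.Big
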