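import Pool.Agent.Work.MP_f94384_co.Big.Stmts

/-!
# Kernel program for the certificates of order 7 and 8: digits of `nst` (item NST)
-/

set_option autoImplicit false

open Finset

namespace Pool.Agent.Work.MP_f94384_co.Big

namespace NST

/-- number with `n` digits of `Z` bits -/
def S (Z n : ℕ) (a : ℕ → ℕ) : ℕ := ∑ k ∈ range n, a k * 2 ^ (Z * k)

theorem S_succ (Z n : ℕ) (a : ℕ → ℕ) : S Z (n + 1) a = 2 ^ (Z * n) * a n + S Z n a := by
  unfold S
  rw [Finset.sum_range_succ]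
  ring

theorem S_lt (Z n : ℕ) (a : ℕ → ℕ) (ha : ∀ k < n, a k < 2 ^ Z) : S Z n a < 2 ^ (Z * n) := by
  induction n with
  | zero => simp [S]
  | succ n ih =>
    rw [S_succ]
    have h1 := ih fun k hk => ha k (Nat.lt_succ_of_lt hk)
    have h2 := ha n (Nat.lt_succ_self n)
    calc 2 ^ (Z * n) * a n + S Z n a < 2 ^ (Z * n) * a n + 2 ^ (Z * n) := by omega
      _ = 2 ^ (Z * n) * (a n + 1) := by ring
      _ ≤ 2 ^ (Z * n) * 2 ^ Z := Nat.mul_le_mul_left _ h2
      _ = 2 ^ (Z * (n + 1)) := by rw [← pow_add]; ring_nf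

theorem S_bit (Z n : ℕ) (a : ℕ → ℕ) (ha : ∀ k < n, a k < 2 ^ Z) (k r : ℕ) (hk : k < n)
    (hr : r < Z) : (S Z n a).testBit (Z * k + r) = (a k).testBit r := by
  induction n with
  | zero => exact absurd hk (Nat.not_lt_zero _)
  | succ n ih =>
    have ha' : ∀ k < n, a k < 2 ^ Z := fun k hk => ha k (Nat.lt_succ_of_lt hk)
    rw [S_succ, Nat.testBit_two_pow_mul_add _ (S_lt Z n a ha')]
    rcases Nat.lt_succ_iff_lt_or_eq.1 hk with h | rfl
    · have h1 : Z * k + r < Z * n := by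
        calc Z * k + r < Z * k + Z := by omega
          _ = Z * (k + 1) := by ring
          _ ≤ Z * n := Nat.mul_le_mul_left _ h
      rw [if_pos h1]
      exact ih ha' h
    · rw [if_neg (by omega), Nat.add_sub_cancel_left]

theorem S_bit_ge (Z n : ℕ) (a : ℕ → ℕ) (ha : ∀ k < n, a k < 2 ^ Z) (p : ℕ) (hp : Z * n ≤ p) :
    (S Z n a).testBit p = false :=
  Nat.testBit_lt_two_pow ((S_lt Z n a ha).trans_le (Nat.pow_le_pow_right (by norm_num) hp))

/-- numbers which agree on all digits are equal -/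
theorem ext_bits {Z n x y : ℕ} (hZ : 0 < Z) (h1 : ∀ k < n, ∀ r < Z,
    x.testBit (Z * k + r) = y.testBit (Z * k + r))
    (h2 : ∀ p, Z * n ≤ p → x.testBit p = y.testBit p) : x = y := by
  refine Nat.eq_of_testBit_eq fun p => ?_
  rcases Nat.lt_or_ge p (Z * n) with h | h
  · have e : Z * (p / Z) + p % Z = p := Nat.div_add_mod p Z
    rw [← e]
    refine h1 _ ?_ _ (Nat.mod_lt _ hZ)
    exact Nat.div_lt_of_lt_mul h
  · exact h2 p h

theorem S_and (Z n : ℕ) (a m : ℕ → ℕ) (hZ : 0 < Z) (ha : ∀ k < n, a k < 2 ^ Z)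
    (hm : ∀ k < n, m k < 2 ^ Z) : S Z n a &&& S Z n m = S Z n fun k => a k &&& m k := by
  have hc : ∀ k < n, (a k &&& m k) < 2 ^ Z := fun k hk =>
    lt_of_le_of_lt Nat.and_le_left (ha k hk)
  refine ext_bits (n := n) hZ ?_ ?_
  · intro k hk r hr
    rw [Nat.testBit_and, S_bit Z n a ha k r hk hr, S_bit Z n m hm k r hk hr,
      S_bit Z n _ hc k r hk hr, Nat.testBit_and]
  · intro p hp
    rw [Nat.testBit_and, S_bit_ge Z n a ha p hp, S_bit_ge Z n _ hc p hp, Bool.false_and]

theorem S_shift (Z n c : ℕ) (a : ℕ → ℕ) (hZ : 0 < Z) (hc : c ≤ Z) (ha : ∀ k < n, a k < 2 ^ Z) :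
    (S Z n a >>> c) &&& S Z n (fun _ => 2 ^ (Z - c) - 1) = S Z n fun k => a k / 2 ^ c := by
  have hm : ∀ k < n, (fun _ : ℕ => 2 ^ (Z - c) - 1) k < 2 ^ Z := by
    intro k _
    have h1 : 2 ^ (Z - c) ≤ 2 ^ Z := Nat.pow_le_pow_right (by norm_num) (Nat.sub_le _ _)
    have h2 : 0 < 2 ^ (Z - c) := by positivity
    show 2 ^ (Z - c) - 1 < 2 ^ Z
    omega
  have hd : ∀ k < n, a k / 2 ^ c < 2 ^ Z := fun k hk =>
    lt_of_le_of_lt (Nat.div_le_self _ _) (ha k hk)
  refine ext_bits (n := n) hZ ?_ ?_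
  · intro k hk r hr
    rw [Nat.testBit_and, S_bit Z n _ hm k r hk hr, S_bit Z n _ hd k r hk hr,
      Nat.testBit_shiftRight, Nat.testBit_two_pow_sub_one, Nat.testBit_div_two_pow]
    rcases Nat.lt_or_ge r (Z - c) with h | h
    · rw [show c + (Z * k + r) = Z * k + (r + c) by ring, S_bit Z n a ha k (r + c) hk (by omega)]
      simp [h]
    · have h1 : (a k).testBit (r + c) = false :=
        Nat.testBit_lt_two_pow ((ha k hk).trans_le (Nat.pow_le_pow_right (by norm_num) (by omega)))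
      rw [h1]
      simp [Nat.not_lt.2 h]
  · intro p hp
    rw [Nat.testBit_and, S_bit_ge Z n _ hm p hp, S_bit_ge Z n _ hd p hp, Bool.and_false]

theorem S_digit (Z n : ℕ) (a : ℕ → ℕ) (ha : ∀ k < n, a k < 2 ^ Z) (k : ℕ) (hk : k < n) :
    dg Z (Z * k) (S Z n a) = a k := by
  unfold dg
  refine Nat.eq_of_testBit_eq fun r => ?_
  rw [Nat.testBit_mod_two_pow, Nat.testBit_div_two_pow]
  rcases Nat.lt_or_ge r Z with h | h
  · rw [show r + Z * k = Z * k + r by ring, S_bit Z n a ha k r hk h]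
    simp [h]
  · have h1 : (a k).testBit r = false :=
      Nat.testBit_lt_two_pow ((ha k hk).trans_le (Nat.pow_le_pow_right (by norm_num) h))
    rw [h1]
    simp [Nat.not_lt.2 h]

/-- the double sum as one sum -/
theorem nst_eq (Z : ℕ) (A : ℕ → ℕ → ℕ) :
    nst Z A = S Z 64 fun k => A (k % 8) (k / 8) := by
  have h : ∀ n, (∑ j ∈ range n, (∑ i ∈ range 8, A i j * 2 ^ (Z * i)) * 2 ^ (8 * Z * j)) =
      S Z (8 * n) fun k => A (k % 8) (k / 8) := by
    intro n
    induction n with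
    | zero => simp [S]
    | succ n ih =>
      rw [Finset.sum_range_succ, ih]
      unfold S
      rw [show 8 * (n + 1) = 8 * n + 8 by ring, Finset.sum_range_add]
      congr 1
      rw [Finset.sum_mul]
      refine Finset.sum_congr rfl fun i hi => ?_
      rw [Finset.mem_range] at hi
      have e1 : (8 * n + i) % 8 = i := by omega
      have e2 : (8 * n + i) / 8 = n := by omega
      show A i n * 2 ^ (Z * i) * 2 ^ (8 * Z * n) =
        A ((8 * n + i) % 8) ((8 * n + i) / 8) * 2 ^ (Z * (8 * n + i))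
      rw [e1, e2, mul_assoc, ← pow_add]
      congr 2
      ring
  exact h 8

theorem kk_nst (m Z : ℕ) : kk m Z = S Z 64 fun _ => m := by
  rw [kk_eq]
  exact nst_eq Z fun _ _ => m

end NST

open NST in
theorem pr_NST : NST := by
  intro Z A hA
  have ha : ∀ k < 64, (fun k => A (k % 8) (k / 8)) k < 2 ^ Z := by
    intro k hk
    exact hA _ (by omega) _ (by omega)
  rcases Nat.eq_zero_or_pos Z with rfl | hZ
  · have h0 : ∀ i < 8, ∀ j < 8, A i j = 0 := by
      intro i hi j hj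
      have := hA i hi j hj
      simpa using this
    have hs : ∀ B : ℕ → ℕ → ℕ, (∀ i < 8, ∀ j < 8, B i j = 0) → nst 0 B = 0 := by
      intro B hB
      unfold nst
      refine Finset.sum_eq_zero fun j hj => ?_
      rw [Finset.sum_eq_zero, Nat.zero_mul]
      intro i hi
      rw [hB i (Finset.mem_range.1 hi) j (Finset.mem_range.1 hj), Nat.zero_mul]
    have e0 := hs A h0
    refine ⟨?_, ?_, ?_, ?_⟩
    · intro i hi j hj
      rw [e0, h0 i hi j hj]
      simp [dg]
    · rw [e0]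
      positivity
    · intro w _
      rw [e0, hs _ fun i hi j hj => by rw [h0 i hi j hj]; exact Nat.zero_mod _]
      exact Nat.zero_and _
    · intro c _
      rw [e0, hs _ fun i hi j hj => by rw [h0 i hi j hj]; exact Nat.zero_div _]
      show (0 >>> c) &&& _ = 0
      rw [Nat.zero_shiftRight]
      exact Nat.zero_and _
  · refine ⟨?_, ?_, ?_, ?_⟩
    · intro i hi j hj
      rw [nst_eq, show Z * i + 8 * Z * j = Z * (i + 8 * j) by ring, S_digit Z 64 _ ha _ (by omega)]
      have e1 : (i + 8 * j) % 8 = i := by omega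
      have e2 : (i + 8 * j) / 8 = j := by omega
      show A ((i + 8 * j) % 8) ((i + 8 * j) / 8) = A i j
      rw [e1, e2]
    · rw [nst_eq, show 8 * Z * 8 = Z * 64 by ring]
      exact S_lt Z 64 _ ha
    · intro w hw
      have hm : ∀ k < 64, (fun _ : ℕ => 2 ^ w - 1) k < 2 ^ Z := by
        intro k _
        have h1 : 2 ^ w ≤ 2 ^ Z := Nat.pow_le_pow_right (by norm_num) hw
        have h2 : 0 < 2 ^ w := by positivity
        show 2 ^ w - 1 < 2 ^ Z
        omega
      rw [nst_eq, nst_eq, kk_nst, S_and Z 64 _ _ hZ ha hm]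
      unfold S
      refine Finset.sum_congr rfl fun k _ => ?_
      show (A (k % 8) (k / 8) &&& (2 ^ w - 1)) * _ = _
      rw [Nat.and_two_pow_sub_one_eq_mod]
    · intro c hc
      rw [nst_eq, nst_eq, kk_nst]
      exact S_shift Z 64 c _ hZ hc ha

end Pool.Agent.Work.MP_f94384_co.Big
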