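import Pool.Agent.Work.MP_f94384_co.Big.Stmts2
import Pool.Agent.Work.MP_f94384_co.Big.P_NST

/-!
# Kernel program for the certificates of order 7 and 8: the invariant (item HSP)
-/

set_option autoImplicit false

open Finset

namespace Pool.Agent.Work.MP_f94384_co.Big

open Pool.Agent.Work.MP_f94384_co.Flag

namespace HSP

open NST

/-- sum of the digits modulo `2 ^ w - 1` -/
theorem S_mod (w n : ℕ) (h : ℕ → ℕ) (hs : ∑ k ∈ range n, h k < 2 ^ w - 1) :
    S w n h % (2 ^ w - 1) = ∑ k ∈ range n, h k := by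
  have hp : 1 ≤ 2 ^ w := Nat.one_le_two_pow
  have h1 : ∀ k, 2 ^ (w * k) ≡ 1 [MOD (2 ^ w - 1)] := by
    intro k
    have e : 2 ^ w ≡ 1 [MOD (2 ^ w - 1)] := by
      refine ((Nat.modEq_iff_dvd' hp).2 (dvd_refl _)).symm
    have := e.pow k
    rwa [one_pow, ← pow_mul] at this
  have h2 : S w n h ≡ ∑ k ∈ range n, h k [MOD (2 ^ w - 1)] := by
    unfold S
    clear hs
    induction n with
    | zero => exact Nat.ModEq.refl _
    | succ n ih =>
      rw [Finset.sum_range_succ, Finset.sum_range_succ]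
      refine ih.add ?_
      have := (Nat.ModEq.refl (h n)).mul (h1 n)
      rwa [mul_one] at this
  have h3 : S w n h % (2 ^ w - 1) = (∑ k ∈ range n, h k) % (2 ^ w - 1) := h2
  rw [h3, Nat.mod_eq_of_lt hs]

/-- rows of the masks -/
def gm (w A v u : ℕ) : ℕ := if pa A v u = true then 2 ^ w - 1 else 0

theorem gm_lt (w A v u : ℕ) : gm w A v u < 2 ^ w := by
  have h : 0 < 2 ^ w := by positivity
  unfold gm
  split_ifs
  · omega
  · exact h

theorem mkM_eq (w A : ℕ) : mkM w (2 ^ w - 1) A = S (8 * w) 8 fun v => S w 8 (gm w A v) := by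
  unfold mkM
  rw [sumL_eq, Nat.zero_add]
  unfold S
  refine Finset.sum_congr rfl fun v _ => ?_
  rw [sumL_eq, Nat.zero_add, Finset.sum_mul]
  refine Finset.sum_congr rfl fun u _ => ?_
  rw [bt_eq]
  show (cond (A.testBit (8 * v + u)) ((2 ^ w - 1) <<< (w * (8 * v + u))) 0) = _
  unfold gm pa
  cases h : A.testBit (8 * v + u) with
  | false => simp
  | true =>
    rw [cond_true, if_pos rfl, Nat.shiftLeft_eq, mul_assoc, ← pow_add]
    congr 2
    ring

theorem row_eq (w A v : ℕ) (hv : v < 8) :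
    bts (2 ^ (8 * w) - 1) (mkM w (2 ^ w - 1) A) (8 * w * v) = S w 8 (gm w A v) := by
  rw [bts_eq, mkM_eq]
  refine S_digit (8 * w) 8 _ (fun k _ => ?_) v hv
  have := S_lt w 8 (gm w A k) fun u _ => gm_lt w A k u
  rwa [mul_comm w 8] at this

theorem sum_row (w A v : ℕ) (hw : 0 < w) (hv : v < 8) (f : ℕ → ℕ) (hf : ∀ u < 8, f u < 2 ^ w)
    (hs : (∑ u ∈ range 8, f u) < 2 ^ w - 1) :
    (S w 8 f &&& bts (2 ^ (8 * w) - 1) (mkM w (2 ^ w - 1) A) (8 * w * v)) % (2 ^ w - 1) =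
      ∑ u ∈ range 8, if pa A v u = true then f u else 0 := by
  rw [row_eq w A v hv, S_and w 8 f (gm w A v) hw hf fun u _ => gm_lt w A v u]
  have e : ∀ u ∈ range 8, (f u &&& gm w A v u) = if pa A v u = true then f u else 0 := by
    intro u hu
    unfold gm
    split_ifs
    · rw [Nat.and_two_pow_sub_one_eq_mod, Nat.mod_eq_of_lt (hf u (Finset.mem_range.1 hu))]
    · exact Nat.and_zero _
  have e2 : (∑ u ∈ range 8, (f u &&& gm w A v u)) =
      ∑ u ∈ range 8, if pa A v u = true then f u else 0 := Finset.sum_congr rfl e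
  rw [S_mod, e2]
  rw [e2]
  refine lt_of_le_of_lt (Finset.sum_le_sum fun u _ => ?_) hs
  split_ifs
  · exact le_rfl
  · exact Nat.zero_le _

/-- one stage -/
theorem hst_val (w A C v : ℕ) (hw : 0 < w) (hv : v < 8) (f : ℕ → ℕ) (hf : ∀ u < 8, f u < 2 ^ w)
    (hs : (∑ u ∈ range 8, f u) < 2 ^ w - 1) :
    hst (2 ^ w - 1) (8 * w) (2 ^ (8 * w) - 1) (mkM w (2 ^ w - 1) A) C (S w 8 f) v =
      dg 8 (8 * v) C * (1 + ∑ u ∈ range 8, if pa A v u = true then f u else 0) := by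
  have h := sum_row w A v hw hv f hf hs
  have h2 : cl C v = dg 8 (8 * v) C := bts_eq 8 C (8 * v)
  show cl C v * (1 + (S w 8 f &&& bts (2 ^ (8 * w) - 1) (mkM w (2 ^ w - 1) A) (8 * w * v)) %
    (2 ^ w - 1)) = _
  rw [h, h2]

/-- the packed squares -/
theorem sq_pack (w : ℕ) (g : ℕ → ℕ) :
    sumL (fun v => fc (g v) fun c => Nat.shiftLeft (Nat.mul c c) (Nat.mul w v)) 8 0 =
      S w 8 fun v => g v ^ 2 := by
  rw [sumL_eq, Nat.zero_add]
  unfold S
  refine Finset.sum_congr rfl fun v _ => ?_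
  rw [fc_eq]
  show (g v * g v) <<< (w * v) = g v ^ 2 * 2 ^ (w * v)
  rw [Nat.shiftLeft_eq, pow_two]

theorem S_congr (w : ℕ) (f g : ℕ → ℕ) (h : ∀ k < 8, f k = g k) : S w 8 f = S w 8 g := by
  unfold S
  exact Finset.sum_congr rfl fun v hv => by rw [h v (Finset.mem_range.1 hv)]

theorem hsP_val (w w' A C : ℕ) (hw : 0 < w) (hw' : 0 < w')
    (b1 : ∀ u < 8, dg 8 (8 * u) C ^ 2 < 2 ^ w)
    (b2 : (∑ u ∈ range 8, dg 8 (8 * u) C ^ 2) < 2 ^ w - 1)
    (b3 : ∀ u < 8, h1 (pa A) (fun v => dg 8 (8 * v) C) u ^ 2 < 2 ^ w')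
    (b4 : (∑ u ∈ range 8, h1 (pa A) (fun v => dg 8 (8 * v) C) u ^ 2) < 2 ^ w' - 1) :
    (fc (sumL (fun v => fc (cl C v) fun c => Nat.shiftLeft (Nat.mul c c) (Nat.mul w v)) 8 0)
      fun X =>
    fc (sumL (fun v => fc (hst (2 ^ w - 1) (8 * w) (2 ^ (8 * w) - 1) (mkM w (2 ^ w - 1) A) C X v)
      fun c => Nat.shiftLeft (Nat.mul c c) (Nat.mul w' v)) 8 0) fun Y =>
    sumL (fun v => fc (hst (2 ^ w' - 1) (8 * w') (2 ^ (8 * w') - 1) (mkM w' (2 ^ w' - 1) A) C Y v)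
      fun c => Nat.mul c c) 8 0) = hs (pa A) fun v => dg 8 (8 * v) C := by
  rw [fc_eq, sq_pack w (fun v => cl C v), fc_eq, sq_pack w' (fun v => hst (2 ^ w - 1) (8 * w)
    (2 ^ (8 * w) - 1) (mkM w (2 ^ w - 1) A) C (S w 8 fun v => cl C v ^ 2) v)]
  have e1 : (S w 8 fun v => cl C v ^ 2) = S w 8 fun v => dg 8 (8 * v) C ^ 2 := by
    refine S_congr w _ _ fun v _ => ?_
    show cl C v ^ 2 = _
    rw [show cl C v = dg 8 (8 * v) C from bts_eq 8 C (8 * v)]
  rw [e1]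
  have e2 : (S w' 8 fun v => hst (2 ^ w - 1) (8 * w) (2 ^ (8 * w) - 1) (mkM w (2 ^ w - 1) A) C
      (S w 8 fun v => dg 8 (8 * v) C ^ 2) v ^ 2) =
      S w' 8 fun v => h1 (pa A) (fun v => dg 8 (8 * v) C) v ^ 2 := by
    refine S_congr w' _ _ fun v hv => ?_
    have := hst_val w A C v hw hv (fun v => dg 8 (8 * v) C ^ 2) b1 b2
    show hst (2 ^ w - 1) (8 * w) (2 ^ (8 * w) - 1) (mkM w (2 ^ w - 1) A) C
      (S w 8 fun v => dg 8 (8 * v) C ^ 2) v ^ 2 = _
    rw [this]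
    rfl
  rw [e2, sumL_eq, Nat.zero_add]
  unfold hs
  refine Finset.sum_congr rfl fun v hv => ?_
  rw [fc_eq, hst_val w' A C v hw' (Finset.mem_range.1 hv)
    (fun u => h1 (pa A) (fun v => dg 8 (8 * v) C) u ^ 2) b3 b4]
  show h2 (pa A) (fun v => dg 8 (8 * v) C) v * h2 (pa A) (fun v => dg 8 (8 * v) C) v = _
  rw [pow_two]

theorem sum8_le (f : ℕ → ℕ) (b : ℕ) (h : ∀ u < 8, f u ≤ b) : ∑ u ∈ range 8, f u ≤ 8 * b := by
  have := Finset.sum_le_card_nsmul (range 8) f b fun u hu => h u (Finset.mem_range.1 hu)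
  simpa using this

end HSP

open HSP in
theorem pr_HSP : HSP := by
  intro A C hC
  have s1 : ∀ u < 8, dg 8 (8 * u) C ^ 2 ≤ 225 := by
    intro u hu
    have := hC u hu
    nlinarith
  have s2 : ∀ v < 8, h1 (pa A) (fun v => dg 8 (8 * v) C) v ≤ 27015 := by
    intro v hv
    unfold h1
    have t1 : (∑ u ∈ range 8, if pa A v u = true then dg 8 (8 * u) C ^ 2 else 0) ≤ 8 * 225 := by
      refine sum8_le _ _ fun u hu => ?_
      split_ifs
      · exact s1 u hu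
      · exact Nat.zero_le _
    have t2 := hC v hv
    calc dg 8 (8 * v) C * (1 + ∑ u ∈ range 8, if pa A v u = true then dg 8 (8 * u) C ^ 2 else 0)
        ≤ 15 * (1 + 8 * 225) := Nat.mul_le_mul t2 (Nat.add_le_add_left t1 1)
      _ = 27015 := by norm_num
  have s3 : ∀ v < 8, h1 (pa A) (fun v => dg 8 (8 * v) C) v ^ 2 ≤ 27015 ^ 2 := fun v hv =>
    Nat.pow_le_pow_left (s2 v hv) 2
  have key := hsP_val 16 40 A C (by norm_num) (by norm_num)
    (fun u hu => lt_of_le_of_lt (s1 u hu) (by norm_num))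
    (lt_of_le_of_lt (sum8_le _ _ s1) (by norm_num))
    (fun u hu => lt_of_le_of_lt (s3 u hu) (by norm_num))
    (lt_of_le_of_lt (sum8_le _ _ s3) (by norm_num))
  have c1 : (2 ^ 16 - 1 : ℕ) = 65535 := by norm_num
  have c2 : (2 ^ 40 - 1 : ℕ) = 1099511627775 := by norm_num
  have c3 : (2 ^ (8 * 16) - 1 : ℕ) = 340282366920938463463374607431768211455 := by norm_num
  have c4 : (2 ^ (8 * 40) - 1 : ℕ) =
    2135987035920910082395021706169552114602704522356652769947041607822219725780640550022962086936575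
    := by
    rw [show (8 * 40 : ℕ) = 160 + 160 by norm_num, pow_add]
    norm_num
  rw [c1, c2, c3, c4] at key
  exact key

end Pool.Agent.Work.MP_f94384_co.Big
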