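import Pool.Agent.Work.MP_f94384_co.Big.CKF0
import Pool.Agent.Work.MP_f94384_co.Big.P_CKE
import Pool.Agent.Work.MP_f94384_co.Big.P_HSP

/-!
# Item CKF: check of the entries of `w, z`
-/

set_option autoImplicit false

namespace Pool.Agent.Work.MP_f94384_co.Big

theorem pr_CKF : CKF := CKF.main pr_CKE pr_HSP

end Pool.Agent.Work.MP_f94384_co.Big
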