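import Pool.Agent.Work.MP_f94384_co.Big.P_DCK
import Pool.Agent.Work.MP_f94384_co.Big.P_CKA

/-!
# Kernel program for the certificates of order 7 and 8: item CLX
-/

set_option autoImplicit false

open Finset

namespace Pool.Agent.Work.MP_f94384_co.Big

open Pool.Agent.Work.MP_f94384_co.Flag

namespace CLX

theorem tail1 : ∀ m < 9, tl m = 15 * (tl m / 15) := by
  decide +kernel

/-- one check -/
def ck (m v : ℕ) : Bool :=
  cond (decide (v < m)) true
    (cond (Nat.beq ((tl m >>> (4 * v)) &&& 15) 15)
      (Nat.beq (((tl m / 15 * 7) >>> (4 * v)) &&& 15) 7) false)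

theorem ck_all : ∀ m < 9, ∀ v < 8, ck m v = true := by
  decide +kernel

theorem tail2 (m v : ℕ) (hm : m < 9) (hv : v < 8) (h : ¬ v < m) :
    (tl m >>> (4 * v)) &&& 15 = 15 ∧ ((tl m / 15 * 7) >>> (4 * v)) &&& 15 = 7 := by
  have h1 := ck_all m hm v hv
  unfold ck at h1
  rw [decide_eq_false h, cond_false, cond_true_iff, beq_iff, beq_iff] at h1
  exact h1

theorem perm_of (m π : ℕ) (hm : m ≤ 8) (h1 : orP π = (2 ^ m - 1) ||| 128)
    (h2 : (π &&& tl m) * 15 = tl m * 7) : (∀ v < 8, pf π v < 8) ∧ PermN m (pf π) := by
  have key : ∀ a, (∃ v < 8, pf π v = a) ↔ (a < m ∨ a = 7) := by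
    intro a
    rw [← ORP.orP_testBit, h1]
    have h1 : (128 : ℕ) = 2 ^ 7 := by norm_num
    rw [h1]
    simp only [Nat.testBit_or, Nat.testBit_two_pow, Nat.testBit_two_pow_sub_one, Bool.or_eq_true,
      decide_eq_true_eq]
    constructor
    · rintro (h | h)
      · exact Or.inl h
      · exact Or.inr h.symm
    · rintro (h | h)
      · exact Or.inl h
      · exact Or.inr h.symm
  have hlt : ∀ v < 8, pf π v < 8 := fun v hv => by
    rcases (key (pf π v)).1 ⟨v, hv, rfl⟩ with h | h <;> omega
  have m1 := tail1 m (by omega)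
  have hab : ∀ v < 8, ¬ v < m → pf π v = 7 := by
    intro v hv hva
    obtain ⟨a1, a2⟩ := tail2 m v (by omega) hv hva
    have e1 : π &&& tl m = tl m / 15 * 7 := by
      generalize tl m = e at *
      omega
    have e2 := DCK.dg_and (4 * v) π (tl m) a1
    rw [e1, DCK.dg4, a2] at e2
    exact e2.symm
  have hsub : range m ⊆ (range m).image (pf π) := by
    intro a ha
    rw [mem_range] at ha
    obtain ⟨v, hv, hva⟩ := (key a).2 (Or.inl ha)
    rw [mem_image]
    refine ⟨v, ?_, hva⟩
    rw [mem_range]
    by_contra hcon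
    have := hab v hv hcon
    omega
  have himc : #((range m).image (pf π)) ≤ #(range m) := card_image_le
  have hime : range m = (range m).image (pf π) := eq_of_subset_of_card_le hsub himc
  have hinj : Set.InjOn (pf π) (range m : Set ℕ) := by
    apply injOn_of_card_image_eq
    rw [← hime]
  refine ⟨hlt, ?_, hinj, ?_⟩
  · intro a ha
    rw [mem_coe] at ha ⊢
    rw [hime]
    exact mem_image_of_mem _ ha
  · intro a ha
    rw [mem_coe, hime, mem_image] at ha
    obtain ⟨v, hv, hva⟩ := ha
    exact ⟨v, mem_coe.2 hv, hva⟩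

theorem bt_lt {M n a : ℕ} (hM : M < 2 ^ n) (h : M.testBit a = true) : a < n := by
  by_contra hcon
  rw [Nat.testBit_lt_two_pow (lt_of_lt_of_le hM (Nat.pow_le_pow_right (by norm_num) (by omega)))] at h
  exact Bool.false_ne_true h

/-- the extension contains a complete graph -/
theorem bad_of {s n A M a b c : ℕ} (hs : s = 3 ∨ s = 4) (hn : n ≤ 7) (hA : ckA n A = true)
    (hM : M < 2 ^ n) (h : bad s A M a b c = true) (hK : NoK s (n + 1) (exP n (pa A) M)) : False := by
  obtain ⟨hsym, hir⟩ := pr_CKA n A (by omega) hA
  unfold bad at h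
  rw [cond_true_iff, cond_true_iff, cond_true_iff, bt_eq, bt_eq, bt_eq] at h
  obtain ⟨ha, hb, hab, hc⟩ := h
  have ha' := bt_lt hM ha
  have hb' := bt_lt hM hb
  have hab' : pa A a b = true := hab
  have hne : a ≠ b := fun e => by
    rw [e, hir b hb'] at hab'
    exact Bool.false_ne_true hab'
  have hba' : pa A b a = true := by rw [hsym b hb' a ha']; exact hab'
  have e1 : ∀ u < n, ∀ v < n, exP n (pa A) M u v = pa A u v := fun u hu v hv => by
    unfold exP; rw [if_pos ⟨hu, hv⟩]
  have e2 : ∀ u < n, exP n (pa A) M n u = M.testBit u := fun u hu => by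
    unfold exP
    rw [if_neg (fun h => lt_irrefl _ h.1), if_pos ⟨rfl, hu⟩]
  have e3 : ∀ u < n, exP n (pa A) M u n = M.testBit u := fun u hu => by
    unfold exP
    rw [if_neg (fun h => lt_irrefl _ h.2), if_neg (fun h => lt_irrefl _ h.2), if_pos ⟨rfl, hu⟩]
  rcases hs with hs | hs
  · -- triangle
    obtain ⟨u, hu, v, hv, huv, hf⟩ := hK {n, a, b} (by
      intro x hx
      simp only [mem_insert, mem_singleton] at hx
      rw [mem_range]
      omega) (by
      rw [hs, card_insert_of_notMem, card_insert_of_notMem, card_singleton]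
      · rw [mem_singleton]; exact hne
      · simp only [mem_insert, mem_singleton]; omega)
    simp only [mem_insert, mem_singleton] at hu hv
    have key : exP n (pa A) M u v = true := by
      rcases hu with rfl | rfl | rfl <;> rcases hv with rfl | rfl | rfl
      · exact absurd rfl huv
      · rw [e2 _ ha']; exact ha
      · rw [e2 _ hb']; exact hb
      · rw [e3 _ ha']; exact ha
      · exact absurd rfl huv
      · rw [e1 _ ha' _ hb']; exact hab'
      · rw [e3 _ hb']; exact hb
      · rw [e1 _ hb' _ ha']; exact hba'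
      · exact absurd rfl huv
    rw [key] at hf
    exact Bool.false_ne_true hf.symm
  · -- complete graph on four vertices
    subst hs
    have h4 : Nat.beq 4 3 = false := rfl
    rw [h4, cond_false, cond_true_iff, cond_true_iff, bt_eq, bt_eq, bt_eq] at hc
    obtain ⟨hc1, hac, hbc⟩ := hc
    have hc' := bt_lt hM hc1
    have hac' : pa A a c = true := hac
    have hbc' : pa A b c = true := hbc
    have hca' : pa A c a = true := by rw [hsym c hc' a ha']; exact hac'
    have hcb' : pa A c b = true := by rw [hsym c hc' b hb']; exact hbc'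
    have hne1 : a ≠ c := fun e => by
      rw [e, hir c hc'] at hac'
      exact Bool.false_ne_true hac'
    have hne2 : b ≠ c := fun e => by
      rw [e, hir c hc'] at hbc'
      exact Bool.false_ne_true hbc'
    obtain ⟨u, hu, v, hv, huv, hf⟩ := hK {n, a, b, c} (by
      intro x hx
      simp only [mem_insert, mem_singleton] at hx
      rw [mem_range]
      omega) (by
      rw [card_insert_of_notMem, card_insert_of_notMem, card_insert_of_notMem, card_singleton]
      · rw [mem_singleton]; exact hne2
      · simp only [mem_insert, mem_singleton]; omega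
      · simp only [mem_insert, mem_singleton]; omega)
    simp only [mem_insert, mem_singleton] at hu hv
    have key : exP n (pa A) M u v = true := by
      rcases hu with rfl | rfl | rfl | rfl <;> rcases hv with rfl | rfl | rfl | rfl
      · exact absurd rfl huv
      · rw [e2 _ ha']; exact ha
      · rw [e2 _ hb']; exact hb
      · rw [e2 _ hc']; exact hc1
      · rw [e3 _ ha']; exact ha
      · exact absurd rfl huv
      · rw [e1 _ ha' _ hb']; exact hab'
      · rw [e1 _ ha' _ hc']; exact hac'
      · rw [e3 _ hb']; exact hb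
      · rw [e1 _ hb' _ ha']; exact hba'
      · exact absurd rfl huv
      · rw [e1 _ hb' _ hc']; exact hbc'
      · rw [e3 _ hc']; exact hc1
      · rw [e1 _ hc' _ ha']; exact hca'
      · rw [e1 _ hc' _ hb']; exact hcb'
      · exact absurd rfl huv
    rw [key] at hf
    exact Bool.false_ne_true hf.symm

end CLX

theorem pr_CLX : CLX := by
  intro s n len len' RT RT' CT hs hn hA h1 h2 hX
  refine ext_cls hA fun k hk M hM hK => ?_
  have h3 := hX k hk
  unfold ckX at h3
  rw [allL_iff] at h3
  have h4 := h3 M (by show M < 1 <<< n; rw [Nat.shiftLeft_eq, one_mul]; exact hM)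
  rw [fc_eq] at h4
  generalize bts 281474976710655 (get CT k) (Nat.mul 48 M) = d at h4
  have hkA := h1 k hk
  generalize get RT k = A at h4 hK hkA ⊢
  unfold ckx at h4
  cases h5 : Nat.beq (Nat.land d 1) 0 with
  | false =>
    rw [h5, cond_false] at h4
    exact (CLX.bad_of hs hn hkA hM h4 hK).elim
  | true =>
    rw [h5, cond_true, fc_eq, fc_eq] at h4
    generalize bts 2047 d 1 = j at h4
    generalize Nat.shiftRight d 12 = π at h4
    rw [cond_true_iff, cond_true_iff, cond_true_iff, fc_eq, fc_eq, cond_true_iff, ble_iff, beq_iff,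
      beq_iff, beq_iff, beq_iff] at h4
    obtain ⟨g1, g2, g3, g4, g5⟩ := h4
    have hj : j < len' := g1
    have g2' : orP π = (2 ^ (n + 1) - 1) ||| 128 := by
      rw [g2]
      show (1 <<< (n + 1) - 1) ||| 128 = _
      rw [Nat.shiftLeft_eq, one_mul]
    obtain ⟨hlt, hP⟩ := CLX.perm_of (n + 1) π (by omega) g2' g3
    obtain ⟨hsym, hir⟩ := pr_CKA (n + 1) (get RT' j) (by omega) (h2 j hj)
    obtain ⟨p1, _⟩ := pr_PAD π (get RT' j) hlt
    have g4' : pad π (get RT' j) &&& rcm n = A := g4
    have g5' : pad π (get RT' j) >>> (8 * n) = M := g5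
    -- the permuted representative is the extension
    have e1 : ∀ a < n + 1, ∀ b < n + 1,
        exP n (pa A) M a b = pa (get RT' j) (pf π a) (pf π b) := by
      intro a ha b hb
      unfold exP
      by_cases hab : a < n ∧ b < n
      · rw [if_pos hab]
        show A.testBit (8 * a + b) = _
        rw [← g4', Nat.testBit_and, DCK.rcm_fact n (by omega) a (by omega) b (by omega) (by omega)
          (by omega), Bool.and_true]
        exact p1 a (by omega) b (by omega)
      · rw [if_neg hab]
        by_cases h6 : a = n ∧ b < n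
        · rw [if_pos h6, ← g5', Nat.testBit_shiftRight, h6.1]
          exact p1 n (by omega) b (by omega)
        · rw [if_neg h6]
          by_cases h7 : b = n ∧ a < n
          · rw [if_pos h7, ← g5', Nat.testBit_shiftRight, h7.1,
              hsym _ (hP.lt ha) _ (hP.lt (by omega))]
            exact p1 n (by omega) a (by omega)
          · rw [if_neg h7]
            have h8 : a = n := by omega
            have h9 : b = n := by omega
            rw [h8, h9]
            exact (hir _ (hP.lt (by omega))).symm
    obtain ⟨τ, hτ, t1, t2⟩ := hP.inv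
    refine ⟨j, hj, τ, hτ, fun a ha b hb => ?_⟩
    rw [e1 _ (hτ.lt ha) _ (hτ.lt hb), t2 a ha, t2 b hb]

end Pool.Agent.Work.MP_f94384_co.Big
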