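import Pool.Agent.Work.MP_f94384_co.Big.P_TBU

/-!
# Item PAD: permuted adjacency matrix
-/

set_option autoImplicit false

open Finset

namespace Pool.Agent.Work.MP_f94384_co.Big

namespace PAD

theorem and_small (a s x p : ℕ) :
    x >>> (s * p) &&& (2 ^ a - 1) = dg a (s * p) x := by
  rw [Nat.and_two_pow_sub_one_eq_mod, Nat.shiftRight_eq_div_pow]
  rfl

/-- step 1: permuted rows -/
theorem rows (π R : ℕ) : gP 8 255 π R = ∑ i ∈ range 8, dg 8 (8 * pf π i) R * 2 ^ (8 * i) := by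
  rw [gP_eq]
  refine Finset.sum_congr rfl fun i _ => ?_
  rw [show (255 : ℕ) = 2 ^ 8 - 1 by norm_num, and_small 8 8 R _]

/-- step 2: permuted columns -/
theorem cols (π x : ℕ) (hπ : ∀ i < 8, pf π i < 8) : gP 1 72340172838076673 π x =
    ∑ k ∈ range 8, (∑ i ∈ range 8, dg 1 (8 * k + pf π i) x * 2 ^ (1 * i)) * 2 ^ (8 * k) := by
  have hM : (72340172838076673 : ℕ) = ∑ k ∈ range 8, 1 * 2 ^ (8 * k) := by
    simp only [Finset.sum_range_succ, Finset.range_zero, Finset.sum_empty]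
    norm_num
  rw [gP_eq]
  have h1 : ∀ i ∈ range 8, (x >>> (1 * pf π i) &&& 72340172838076673) * 2 ^ (1 * i) =
      ∑ k ∈ range 8, dg 1 (8 * k + pf π i) x * 2 ^ (1 * i) * 2 ^ (8 * k) := by
    intro i hi
    have hp := hπ i (Finset.mem_range.1 hi)
    rw [hM, TBU.msk 8 8 _ (by norm_num) (fun _ => 1) (fun _ _ => by norm_num), Finset.sum_mul]
    refine Finset.sum_congr rfl fun k _ => ?_
    have h2 : dg 8 (8 * k) (x >>> (1 * pf π i)) &&& 1 = dg 1 (8 * k + pf π i) x := by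
      rw [TBU.dg_shift, show (1 : ℕ) = 2 ^ 1 - 1 by norm_num, Nat.and_two_pow_sub_one_eq_mod]
      unfold dg
      rw [Nat.mod_mod_of_dvd _ (pow_dvd_pow 2 (by norm_num))]
      norm_num [add_comm]
    rw [h2]
    ring
  rw [Finset.sum_congr rfl h1, Finset.sum_comm]
  refine Finset.sum_congr rfl fun k _ => ?_
  rw [Finset.sum_mul]

end PAD

/-- Item PAD -/
theorem pr_PAD : PAD := by
  intro π R hπ
  have h0 : pad π R = gP 1 72340172838076673 π (gP 8 255 π R) := by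
    unfold pad; rw [fc_eq]
  have hx := PAD.rows π R
  have hb : ∀ i < 8, ∀ j < 8, (gP 8 255 π R).testBit (8 * i + j) =
      R.testBit (8 * pf π i + j) := by
    intro i hi j hj
    rw [hx, (TBU.tb_sum 8 (by norm_num) (fun i => dg 8 (8 * pf π i) R) 8
      (fun _ _ => dg_lt _ _ _)).2, TBU.tb_dg]
    have e1 : (8 * i + j) / 8 = i := by omega
    have e2 : (8 * i + j) % 8 = j := by omega
    rw [e1, e2]
    simp [hi, hj]
  have hin : ∀ x k, (∑ i ∈ range 8, dg 1 (8 * k + pf π i) x * 2 ^ (1 * i)) < 2 ^ (1 * 8) ∧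
      ∀ t, (∑ i ∈ range 8, dg 1 (8 * k + pf π i) x * 2 ^ (1 * i)).testBit t =
      (decide (t / 1 < 8) && (dg 1 (8 * k + pf π (t / 1)) x).testBit (t % 1)) := fun x k =>
    TBU.tb_sum 1 (by norm_num) (fun i => dg 1 (8 * k + pf π i) x) 8 (fun _ _ => dg_lt _ _ _)
  have hout := fun x => TBU.tb_sum 8 (by norm_num)
    (fun k => ∑ i ∈ range 8, dg 1 (8 * k + pf π i) x * 2 ^ (1 * i)) 8 (fun k _ => (hin x k).1)
  rw [h0, PAD.cols π _ hπ]
  refine ⟨fun i hi j hj => ?_, ?_⟩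
  · rw [(hout _).2]
    have e1 : (8 * i + j) / 8 = i := by omega
    have e2 : (8 * i + j) % 8 = j := by omega
    rw [e1, e2, (hin _ _).2, Nat.div_one, Nat.mod_one, TBU.tb_dg]
    simp only [hi, hj, decide_true, Bool.true_and, add_zero, Nat.lt_one_iff]
    exact hb i hi _ (hπ j hj)
  · have := (hout (gP 8 255 π R)).1
    norm_num only at this ⊢
    exact this

end Pool.Agent.Work.MP_f94384_co.Big
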