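import Pool.Agent.Work.MP_f94384_co.Big.P_ORP
import Pool.Agent.Work.MP_f94384_co.Big.P_PAD

/-!
# Kernel program for the certificates of order 7 and 8: item DCK
-/

set_option autoImplicit false

open Finset

namespace Pool.Agent.Work.MP_f94384_co.Big

namespace DCK

/-- the mask of the absent positions -/
def ms (n x y : ℕ) : ℕ := 15 <<< (4 * x) ||| (15 <<< (4 * y) ||| tl n)

theorem ms1 : ∀ n < 9, ∀ x < n, ∀ y < n, ms n x y = 15 * (ms n x y / 15) := by
  decide +kernel

/-- one check -/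
def ck (n x y v : ℕ) : Bool :=
  cond (decide (v < n ∧ v ≠ x ∧ v ≠ y)) true
    (cond (Nat.beq ((ms n x y >>> (4 * v)) &&& 15) 15)
      (Nat.beq (((ms n x y / 15 * 7) >>> (4 * v)) &&& 15) 7) false)

theorem ck_all : ∀ n < 9, ∀ x < n, ∀ y < n, ∀ v < 8, ck n x y v = true := by
  decide +kernel

theorem ms23 (n x y v : ℕ) (hn : n < 9) (hx : x < n) (hy : y < n) (hv : v < 8)
    (h : ¬ (v < n ∧ v ≠ x ∧ v ≠ y)) : (ms n x y >>> (4 * v)) &&& 15 = 15 ∧
      ((ms n x y / 15 * 7) >>> (4 * v)) &&& 15 = 7 := by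
  have h1 := ck_all n hn x hx y hy v hv
  unfold ck at h1
  rw [decide_eq_false h, cond_false, cond_true_iff, beq_iff, beq_iff] at h1
  exact h1

theorem rcm_fact : ∀ x < 8, ∀ u < 8, ∀ v < 8, u ≠ x → v ≠ x →
    (rcm x).testBit (8 * u + v) = true := by
  decide +kernel

theorem dg4 (t x : ℕ) : dg 4 t x = (x >>> t) &&& 15 := by
  have h := bts_eq 4 x t
  rw [← h]
  rfl

theorem dg_and (t a b : ℕ) (h : (b >>> t) &&& 15 = 15) : dg 4 t (a &&& b) = dg 4 t a := by
  rw [dg4, dg4, Nat.shiftRight_and_distrib, Nat.and_assoc, h]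

/-- present positions -/
def P (n x y : ℕ) : Finset ℕ := (range n).filter fun v => v ≠ x ∧ v ≠ y

theorem mem_P (n x y v : ℕ) : v ∈ P n x y ↔ v < n ∧ v ≠ x ∧ v ≠ y := by
  simp [P]

theorem card_P (n n' x y : ℕ) (hx : x < n) (hy : y < n)
    (h : if x = y then n' + 1 = n else n' + 2 = n) : #(P n x y) = n' := by
  have h1 : P n x y = ((range n).erase x).erase y := by
    ext v
    rw [mem_P, mem_erase, mem_erase, mem_range]
    tauto
  rw [h1]
  by_cases hxy : x = y
  · subst hxy
    rw [if_pos rfl] at h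
    rw [erase_eq_of_notMem (notMem_erase x _), card_erase_of_mem (mem_range.2 hx), card_range]
    omega
  · rw [if_neg hxy] at h
    rw [card_erase_of_mem (mem_erase.2 ⟨fun h => hxy h.symm, mem_range.2 hy⟩),
      card_erase_of_mem (mem_range.2 hx), card_range]
    omega

theorem main (hPAD : PAD) : DCK := by
  intro n n' A R π x y hn hn' hx hy hc hd
  have hd1 : cond (Nat.beq (orP π) ((2 ^ n' - 1) ||| 128))
      (cond (Nat.beq ((π &&& ms n x y) * 15) (ms n x y * 7))
        (Nat.beq (pad π R) (A &&& (rcm x &&& rcm y))) false) false = true := by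
    have h1 : Nat.lor (Nat.sub (Nat.shiftLeft 1 n') 1) 128 = (2 ^ n' - 1) ||| 128 := by
      show (1 <<< n' - 1) ||| 128 = _
      rw [Nat.shiftLeft_eq, one_mul]
    rw [← h1, ← hd]
    unfold dck
    rw [fc_eq]
    rfl
  rw [cond_true_iff, cond_true_iff, beq_iff, beq_iff, beq_iff] at hd1
  obtain ⟨h1, h2, h3⟩ := hd1
  obtain ⟨o1, o2, o3⟩ := pr_ORP n' π hn' h1
  have m1 := ms1 n (by omega) x hx y hy
  have hlt : ∀ v < 8, pf π v < 8 := fun v hv => by
    rcases o1 v hv with h | h <;> omega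
  have hab : ∀ v < 8, ¬ (v < n ∧ v ≠ x ∧ v ≠ y) → pf π v = 7 := by
    intro v hv hva
    obtain ⟨a1, a2⟩ := ms23 n x y v (by omega) hx hy hv hva
    have e1 : π &&& ms n x y = ms n x y / 15 * 7 := by
      generalize ms n x y = e at *
      omega
    have e2 := dg_and (4 * v) π (ms n x y) a1
    rw [e1, dg4, a2] at e2
    exact e2.symm
  have hcard := card_P n n' x y hx hy hc
  have hsub : range n' ⊆ (P n x y).image (pf π) := by
    intro a ha
    rw [mem_range] at ha
    obtain ⟨v, hv, hva⟩ := o2 a ha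
    rw [mem_image]
    refine ⟨v, ?_, hva⟩
    rw [mem_P]
    by_contra hcon
    have := hab v hv hcon
    omega
  have himc : #((P n x y).image (pf π)) ≤ #(range n') := by
    rw [card_range, ← hcard]
    exact card_image_le
  have hime : range n' = (P n x y).image (pf π) := eq_of_subset_of_card_le hsub himc
  have hinj : Set.InjOn (pf π) (P n x y : Set ℕ) := by
    apply injOn_of_card_image_eq
    rw [← hime, card_range, hcard]
  obtain ⟨p1, p2⟩ := hPAD π R hlt
  refine ⟨hlt, hab, ?_, ?_, ?_, ?_⟩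
  · intro v hv hvx hvy
    have : pf π v ∈ (P n x y).image (pf π) := mem_image_of_mem _ ((mem_P n x y v).2 ⟨hv, hvx, hvy⟩)
    rw [← hime, mem_range] at this
    exact this
  · intro v hv hvx hvy u hu hux huy h
    exact hinj (mem_coe.2 ((mem_P n x y v).2 ⟨hv, hvx, hvy⟩))
      (mem_coe.2 ((mem_P n x y u).2 ⟨hu, hux, huy⟩)) h
  · intro a ha
    have : a ∈ (P n x y).image (pf π) := hime ▸ mem_range.2 ha
    rw [mem_image] at this
    obtain ⟨v, hv, hva⟩ := this
    rw [mem_P] at hv
    exact ⟨v, hv.1, hv.2.1, hv.2.2, hva⟩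
  · intro u hu hux huy v hv hvx hvy
    have e1 := p1 u (by omega) v (by omega)
    rw [h3, Nat.testBit_and, Nat.testBit_and, rcm_fact x (by omega) u (by omega) v (by omega) hux hvx,
      rcm_fact y (by omega) u (by omega) v (by omega) huy hvy, Bool.and_true, Bool.and_true] at e1
    exact e1

end DCK

theorem pr_DCK : DCK := DCK.main pr_PAD

end Pool.Agent.Work.MP_f94384_co.Big
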