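import Pool.Agent.Work.MP_f94384_co.Big.Stmts3
import Pool.Agent.Work.MP_f94384_co.Big.P_DGG
import Pool.Agent.Work.MP_f94384_co.Big.P_DCK

/-!
# Kernel program for the certificates of order 7 and 8: item DKX
-/

set_option autoImplicit false

open Finset

namespace Pool.Agent.Work.MP_f94384_co.Big

open Pool.Agent.Work.MP_f94384_co.Flag

namespace DKX

theorem cfd_eq (c t : ℕ) : cfd c t = dg 40 t c := bts_eq 40 c t

theorem cfd_land (c t : ℕ) : Nat.land (cfd c t) 255 = dg 8 t c := by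
  show cfd c t &&& (2 ^ 8 - 1) = _
  rw [Nat.and_two_pow_sub_one_eq_mod, cfd_eq]
  exact pr_DGG.2.2.1 8 40 t c (by norm_num)

theorem cfd_shift (c t : ℕ) : Nat.shiftRight (cfd c t) 8 = dg 32 (t + 8) c := by
  show cfd c t >>> 8 = _
  rw [cfd_eq, Nat.shiftRight_eq_div_pow, ← pr_DGG.1 32 8 40 t c (by norm_num)]
  have h := dg_lt 40 t c
  generalize dg 40 t c = d at *
  unfold dg
  rw [Nat.mod_eq_of_lt]
  rw [Nat.div_lt_iff_lt_mul (by norm_num)]
  calc d < 2 ^ 40 := h
    _ = 2 ^ 32 * 2 ^ 8 := by norm_num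

theorem of (hDCK : DCK) : DKX := by
  constructor
  · intro n len A c RT hn2 hn h x hx
    unfold dk1 at h
    rw [allL_iff] at h
    have h1 := h x hx
    rw [fc_eq, cond_true_iff, ble_iff, fc_eq, fc_eq, cfd_land, cfd_shift] at h1
    have h2 : Nat.mul 40 x = 40 * x := rfl
    rw [h2] at h1
    refine ⟨h1.1, hDCK n (n - 1) A _ _ x x hn (by omega) hx hx ?_ h1.2⟩
    rw [if_pos rfl]
    omega
  · intro n len A c RT hn2 hn h y hy x hx
    unfold dk2 at h
    rw [allL_iff] at h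
    have h1 := h y hy
    rw [allL_iff] at h1
    have h1 := h1 x hx
    rw [fc_eq, cond_true_iff, ble_iff, fc_eq, fc_eq, cfd_land, cfd_shift] at h1
    have h2 : Nat.add (Nat.mul 320 y) (Nat.mul 40 x) = 320 * y + 40 * x := rfl
    rw [h2] at h1
    refine ⟨h1.1, hDCK n (n - 2) A _ _ x y hn (by omega) (by omega) hy ?_ h1.2⟩
    rw [if_neg (by omega)]
    omega

end DKX

theorem pr_DKX : DKX := DKX.of pr_DCK

end Pool.Agent.Work.MP_f94384_co.Big
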