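import Pool.Agent.Work.MP_f94384_co.Big.DT1

/-!
# Tables of the representatives of order `N - 1`
-/

set_option autoImplicit false

open Finset

namespace Pool.Agent.Work.MP_f94384_co.Big

open Pool.Agent.Work.MP_f94384_co.Flag

namespace DT

/-- row number from the entries -/
theorem rid_eq (T a b : ℕ) : rid T a b = 256 * dg 8 168 (dg 192 (192 * a) T) +
    eco (dg 192 (192 * a) T) b := by
  unfold rid
  rw [fc_eq]
  have h1 : ∀ x t, bts 255 x t = dg 8 t x := fun x t => bts_eq 8 x t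
  have h2 : ent T (Nat.mul 192 a) = dg 192 (192 * a) T := by
    have : (6277101735386680763835789423207666416102355444464034512895 : ℕ) = 2 ^ 192 - 1 := by
      norm_num
    unfold ent
    rw [this, bts_eq]
    rfl
  rw [h2]
  show 256 * bts 255 _ 168 + bts 255 _ (16 * b) = _
  rw [h1, h1]
  rfl

/-- rows of the representatives of order `N - 1` -/
theorem rid_row (hCKU : CKU) {D : Dt} {n A T : ℕ} (hn : n ≤ 8)
    (h : ckU D.W (8 * D.Z) D.NU n D.nBU D.FU D.HU A T = true) {a b : ℕ} (ha : a < n) (hb : b < n) :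
    rid T a b = D.bc.rU n (pa A) a n b := by
  obtain ⟨h1, h2⟩ := hCKU _ _ _ _ _ _ _ _ _ hn h a ha
  have h3 := h2 b hb
  have h4 : D.bc.rU n (pa A) a n b = fnd D.HU (hs (pa A) (cU n a n b)) := by
    show min _ _ = _
    exact min_eq_left h3.le
  rw [h4, rid_eq]
  have h5 := (h1.pr b (by omega) (by rw [if_pos hb]; exact h3.ne)).1
  rw [if_pos hb] at h5
  exact h5.symm

theorem DTB_main (hSDS : SDS) (hEND : END) (hCKU : CKU) : DTB := by
  intro D zb t0 b h j hj
  set n := D.N - 1 with hn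
  set p := pa (get D.R1 j) with hp
  have hn7 : n ≤ 7 := by have := h.w.N8; omega
  have hn8 : n ≤ 8 := by omega
  have hc := h.h j hj
  unfold cH at hc
  simp only [fc_eq, cond_true_iff, beq_iff] at hc
  obtain ⟨hU, hd, hD, hP⟩ := hc
  change ckU D.W (8 * D.Z) D.NU n D.nBU D.FU D.HU (get D.R1 j) (get D.TU j) = true at hU
  change dk1 (D.N - 1) (D.N - 2) D.nR2 (tl (D.N - 1)) D.R2 (get D.R1 j) (get D.C0 j) = true at hd
  -- the sum of the contributions
  have hX : sD (Nat.sub D.N 1) D.W (mk D.W) D.Z (Nat.mul 8 D.Z) (mk (Nat.mul 8 D.Z)) D.BE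
      (gE1 (Nat.sub D.N 1) (kk 65535 192)
        (kk (Nat.sub (Nat.shiftLeft 1 192) (Nat.shiftLeft 1 128)) 192) (kS (mk 192) 1536) (mk 1536)
        D.TE (get D.C0 j)) = nst D.Z (X D n p) := by
    have h1 := hSDS n D.W D.Z D.NE D.nBE
      (gE1 (D.N - 1) (kk 65535 192) (kk (2 ^ 192 - 2 ^ 128) 192) (kS (2 ^ 192 - 1) 1536)
        (2 ^ 1536 - 1) D.TE (get D.C0 j)) D.BE D.WE D.FE (fun w z y => D.bc.gE n p w z n y) hn8
      (pr_RWU D zb t0 b h).2
      (fun w hw z hz y hy h2 h3 h4 => hEND D zb t0 b h _ _ hd w hw z hz y hy h2 h3 h4)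
    rw [sh1, sh1, mk_eq, mk_eq, mk_eq, mk_eq]
    exact h1
  rw [hX] at hD hP
  have hXlt : ∀ i < 8, ∀ j < 8, X D n p i j < 2 ^ D.Z := fun i _ j _ => X_lt h p i j hn7
  have hcZ : D.c ≤ D.Z := by have := h.w.cZ; omega
  have hs : Nat.sub D.N 1 = n := rfl
  rw [hs, lo_eq hcZ hXlt, hi_eq D.o hcZ hXlt, tz_eq hn8] at hD
  rw [hs, lo_eq hcZ hXlt, hi_eq D.o hcZ hXlt, tz_eq hn8, tz_eq hn8, tz_eq hn8] at hP
  -- bounds
  have hb1 : ∀ a < n, ∀ a' < n, |D.bc.tD n p n a a'| ≤ 2 ^ (D.o + 8) := fun a ha a' ha' =>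
    (X_dec h p hn7 ha ha').2
  have hzm : ((D.m : ℤ) * 2 ^ (D.o + 8) + zb) ≤ 2 ^ D.o2 := by exact_mod_cast h.w.zm
  have hm1 : (1 : ℤ) ≤ D.m := by exact_mod_cast h.w.m1
  have hzb : (0 : ℤ) ≤ zb := Int.natCast_nonneg _
  have hb2 : ∀ a < n, ∀ a' < n, |D.bc.tD n p n a a'| ≤ 2 ^ D.o2 := fun a ha a' ha' =>
    (hb1 a ha a' ha').trans (pow_le_pow_right₀ (by norm_num) (by have := h.w.o2; omega))
  have hz : ∀ a < n, ∀ a' < n, D.bc.tZ n p n a a' =
      (get D.ZT (rid (get D.TU j) a a') : ℤ) - get D.ZT (rid (get D.TU j) a' a) := by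
    intro a ha a' ha'
    rw [rid_row hCKU hn8 hU ha ha', rid_row hCKU hn8 hU ha' ha]
    unfold BC.tZ
    by_cases haa : a = a'
    · rw [if_neg (fun h1 => h1.1 haa), haa, sub_self]
    · rw [if_pos ⟨haa, by omega, by omega⟩]
      rfl
  have hb3 : ∀ a < n, ∀ a' < n, |(D.bc.m : ℤ) * D.bc.tD n p n a a' + D.bc.tZ n p n a a'| ≤
      2 ^ D.o2 := by
    intro a ha a' ha'
    have e0 : D.bc.m = (D.m : ℤ) := rfl
    rw [e0, hz a ha a' ha']
    have h1 := abs_le.1 (hb1 a ha a' ha')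
    have h2 : (get D.ZT (rid (get D.TU j) a a') : ℤ) ≤ zb := by exact_mod_cast h.zt _
    have h3 : (get D.ZT (rid (get D.TU j) a' a) : ℤ) ≤ zb := by exact_mod_cast h.zt _
    have h4 : (0 : ℤ) ≤ get D.ZT (rid (get D.TU j) a a') := Int.natCast_nonneg _
    have h5 : (0 : ℤ) ≤ get D.ZT (rid (get D.TU j) a' a) := Int.natCast_nonneg _
    have h6 : (D.m : ℤ) * D.bc.tD n p n a a' ≤ D.m * 2 ^ (D.o + 8) :=
      mul_le_mul_of_nonneg_left h1.2 (by linarith)
    have h7 : (D.m : ℤ) * -2 ^ (D.o + 8) ≤ D.m * D.bc.tD n p n a a' :=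
      mul_le_mul_of_nonneg_left h1.1 (by linarith)
    rw [abs_le]
    constructor <;> linarith
  refine ⟨fun a ha a' ha' => ⟨hb2 a ha a' ha', hb3 a ha a' ha'⟩, ?_, ?_⟩
  · -- table `D`
    have e1 : Nat.mul (nst D.Z fun i j => if i < n ∧ j < n then 1 else 0)
        (Nat.add (Nat.shiftLeft 1 D.c2) (Nat.shiftLeft 1 D.o2)) =
        nst D.Z fun i j => if i < n ∧ j < n then 2 ^ D.c2 + 2 ^ D.o2 else 0 := by
      rw [sh1, sh1]
      show nst D.Z _ * (2 ^ D.c2 + 2 ^ D.o2) = _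
      rw [mul_comm, FIN.nst_mul]
      exact nst_congr fun i _ j _ => by rw [mul_ite, mul_one, mul_zero]
    have e2 : (nst D.Z fun a a' => if a < n ∧ a' < n then dD D.c2 D.o2 (D.bc.tD n p n a a') else 0) +
        (nst D.Z fun i j => X D n p i j / 2 ^ D.c * 2 ^ D.o) =
        (nst D.Z fun i j => X D n p i j % 2 ^ D.c) +
        nst D.Z fun i j => if i < n ∧ j < n then 2 ^ D.c2 + 2 ^ D.o2 else 0 := by
      rw [FIN.nst_add, FIN.nst_add]
      refine nst_congr fun a _ a' _ => ?_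
      by_cases hij : a < n ∧ a' < n
      · rw [if_pos hij, if_pos hij]
        have h1 := (X_dec h p hn7 hij.1 hij.2).1
        have h2 := dD_cast (c2 := D.c2) (hb2 a hij.1 a' hij.2)
        unfold tv at h1
        have h3 : ((dD D.c2 D.o2 (D.bc.tD n p n a a') + X D n p a a' / 2 ^ D.c * 2 ^ D.o : ℕ) : ℤ) =
            ((X D n p a a' % 2 ^ D.c + (2 ^ D.c2 + 2 ^ D.o2) : ℕ) : ℤ) := by
          rw [Nat.cast_add, Nat.cast_add, h2, Nat.cast_mul, Nat.cast_add, ← h1]
          push_cast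
          ring
        exact_mod_cast h3
      · rw [if_neg hij, if_neg hij, X_out h p hij, Nat.zero_div, Nat.zero_mod, zero_mul]
    rw [e1, Nat.add_eq, Nat.add_eq] at hD
    exact Nat.add_right_cancel (hD.trans e2.symm)
  · -- table `P`
    have e1 : Nat.mul (nst D.Z fun i j => if i < n ∧ j < n then 1 else 0)
        (Nat.add (Nat.shiftLeft 1 D.c2) (Nat.shiftLeft 1 D.o2)) =
        nst D.Z fun i j => if i < n ∧ j < n then 2 ^ D.c2 + 2 ^ D.o2 else 0 := by
      rw [sh1, sh1]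
      show nst D.Z _ * (2 ^ D.c2 + 2 ^ D.o2) = _
      rw [mul_comm, FIN.nst_mul]
      exact nst_congr fun i _ j _ => by rw [mul_ite, mul_one, mul_zero]
    have e2 : (nst D.Z fun a a' => if a < n ∧ a' < n then
          dD D.c2 D.o2 (D.bc.m * D.bc.tD n p n a a' + D.bc.tZ n p n a a') else 0) +
        (D.m * (nst D.Z fun i j => X D n p i j / 2 ^ D.c * 2 ^ D.o) +
          nst D.Z fun a a' => if a < n ∧ a' < n then get D.ZT (rid (get D.TU j) a' a) else 0) =
        D.m * (nst D.Z fun i j => X D n p i j % 2 ^ D.c) +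
        ((nst D.Z fun a a' => if a < n ∧ a' < n then get D.ZT (rid (get D.TU j) a a') else 0) +
          nst D.Z fun i j => if i < n ∧ j < n then 2 ^ D.c2 + 2 ^ D.o2 else 0) := by
      rw [FIN.nst_mul, FIN.nst_mul, FIN.nst_add, FIN.nst_add, FIN.nst_add, FIN.nst_add]
      refine nst_congr fun a _ a' _ => ?_
      by_cases hij : a < n ∧ a' < n
      · rw [if_pos hij, if_pos hij, if_pos hij, if_pos hij]
        have h1 := (X_dec h p hn7 hij.1 hij.2).1
        have h2 := dD_cast (c2 := D.c2) (hb3 a hij.1 a' hij.2)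
        have h3 := hz a hij.1 a' hij.2
        have e0 : D.bc.m = (D.m : ℤ) := rfl
        rw [h3, e0] at h2
        rw [h3, e0]
        unfold tv at h1
        have h4 : ((dD D.c2 D.o2 (D.m * D.bc.tD n p n a a' +
            ((get D.ZT (rid (get D.TU j) a a') : ℤ) - get D.ZT (rid (get D.TU j) a' a))) +
            (D.m * (X D n p a a' / 2 ^ D.c * 2 ^ D.o) + get D.ZT (rid (get D.TU j) a' a)) : ℕ) : ℤ) =
            ((D.m * (X D n p a a' % 2 ^ D.c) +
              (get D.ZT (rid (get D.TU j) a a') + (2 ^ D.c2 + 2 ^ D.o2)) : ℕ) : ℤ) := by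
          rw [Nat.cast_add, h2, ← h1]
          push_cast
          ring
        exact_mod_cast h4
      · rw [if_neg hij, if_neg hij, if_neg hij, if_neg hij, X_out h p hij, Nat.zero_div,
          Nat.zero_mod, zero_mul, mul_zero]
    rw [e1] at hP
    simp only [Nat.add_eq, Nat.mul_eq] at hP
    exact Nat.add_right_cancel (hP.trans e2.symm)

end DT

theorem DTB_of (hSDS : SDS) (hEND : END) (hCKU : CKU) : DTB := DT.DTB_main hSDS hEND hCKU

end Pool.Agent.Work.MP_f94384_co.Big
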