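import Pool.Agent.Work.MP_f94384_co.Big.Stmts

set_option autoImplicit false

namespace Pool.Agent.Work.MP_f94384_co.Big

open Finset

namespace DGS

theorem sum_step (n s : ℕ) (f : ℕ → ℕ) :
    (∑ i ∈ range (n + 1), f i * 2 ^ (s * i)) =
      f 0 + 2 ^ s * ∑ i ∈ range n, f (i + 1) * 2 ^ (s * i) := by
  rw [Finset.sum_range_succ', Finset.mul_sum, Nat.add_comm]
  congr 1
  · simp
  · apply Finset.sum_congr rfl
    intro i _
    rw [Nat.mul_add, Nat.mul_one, Nat.pow_add]
    ring

theorem dg_low (s w t a X : ℕ) (h : t + w ≤ s) : dg w t (a + 2 ^ s * X) = dg w t a := by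
  obtain ⟨d, rfl⟩ := Nat.exists_eq_add_of_le h
  unfold dg
  have e : a + 2 ^ (t + w + d) * X = a + 2 ^ t * (2 ^ w * (2 ^ d * X)) := by
    rw [Nat.pow_add, Nat.pow_add]; ring
  rw [e, Nat.add_mul_div_left _ _ (by positivity), Nat.add_mul_mod_self_left]

theorem dg_high (s w u a X : ℕ) (h : a < 2 ^ s) : dg w (s + u) (a + 2 ^ s * X) = dg w u X := by
  unfold dg
  rw [Nat.pow_add, ← Nat.div_div_eq_div_mul, Nat.add_mul_div_left _ _ (by positivity),
    Nat.div_eq_of_lt h, Nat.zero_add]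

end DGS

theorem pr_DGS : DGS := by
  intro n
  induction n with
  | zero =>
    intro s w t j f _ _
    simp [dg]
  | succ n ih =>
    intro s w t j f hf htw
    have hf' : ∀ i < n, (fun i => f (i + 1)) i < 2 ^ s := fun i hi => hf (i + 1) (by omega)
    have hb := (ih s w t 0 (fun i => f (i + 1)) hf' htw).2
    have h0 := hf 0 (by omega)
    rw [DGS.sum_step]
    refine ⟨?_, ?_⟩
    · cases j with
      | zero =>
        rw [Nat.mul_zero, Nat.zero_add, DGS.dg_low s w t _ _ htw]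
        simp
      | succ j =>
        have e : s * (j + 1) + t = s + (s * j + t) := by ring
        rw [e, DGS.dg_high s w _ _ _ h0, (ih s w t j (fun i => f (i + 1)) hf' htw).1]
        simp
    · have e : 2 ^ (s * (n + 1)) = 2 ^ s * 2 ^ (s * n) := by
        rw [← Nat.pow_add]; congr 1; ring
      rw [e]
      calc f 0 + 2 ^ s * ∑ i ∈ range n, f (i + 1) * 2 ^ (s * i)
          < 2 ^ s + 2 ^ s * ∑ i ∈ range n, f (i + 1) * 2 ^ (s * i) := by omega
        _ = 2 ^ s * ((∑ i ∈ range n, f (i + 1) * 2 ^ (s * i)) + 1) := by ring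
        _ ≤ 2 ^ s * 2 ^ (s * n) := Nat.mul_le_mul_left _ hb

end Pool.Agent.Work.MP_f94384_co.Big
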