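import Pool.Agent.Work.MP_f94384_co.Big.Stmts2

/-!
# Kernel program for the certificates of order 7 and 8: permuted tables of entries (item TBE)
-/

set_option autoImplicit false

open Finset

namespace Pool.Agent.Work.MP_f94384_co.Big

namespace TBE

/-- number with `n` digits of `Z` bits -/
def S (Z n : ℕ) (a : ℕ → ℕ) : ℕ := ∑ k ∈ range n, a k * 2 ^ (Z * k)

theorem S_succ (Z n : ℕ) (a : ℕ → ℕ) : S Z (n + 1) a = 2 ^ (Z * n) * a n + S Z n a := by
  unfold S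
  rw [Finset.sum_range_succ]
  ring

theorem S_lt (Z n : ℕ) (a : ℕ → ℕ) (ha : ∀ k < n, a k < 2 ^ Z) : S Z n a < 2 ^ (Z * n) := by
  induction n with
  | zero => simp [S]
  | succ n ih =>
    rw [S_succ]
    have h1 := ih fun k hk => ha k (Nat.lt_succ_of_lt hk)
    have h2 := ha n (Nat.lt_succ_self n)
    calc 2 ^ (Z * n) * a n + S Z n a < 2 ^ (Z * n) * a n + 2 ^ (Z * n) := by omega
      _ = 2 ^ (Z * n) * (a n + 1) := by ring
      _ ≤ 2 ^ (Z * n) * 2 ^ Z := Nat.mul_le_mul_left _ h2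
      _ = 2 ^ (Z * (n + 1)) := by rw [← pow_add]; ring_nf

theorem S_bit (Z n : ℕ) (a : ℕ → ℕ) (ha : ∀ k < n, a k < 2 ^ Z) (k r : ℕ) (hk : k < n)
    (hr : r < Z) : (S Z n a).testBit (Z * k + r) = (a k).testBit r := by
  induction n with
  | zero => exact absurd hk (Nat.not_lt_zero _)
  | succ n ih =>
    have ha' : ∀ k < n, a k < 2 ^ Z := fun k hk => ha k (Nat.lt_succ_of_lt hk)
    rw [S_succ, Nat.testBit_two_pow_mul_add _ (S_lt Z n a ha')]
    rcases Nat.lt_succ_iff_lt_or_eq.1 hk with h | rfl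
    · have h1 : Z * k + r < Z * n := by
        calc Z * k + r < Z * k + Z := by omega
          _ = Z * (k + 1) := by ring
          _ ≤ Z * n := Nat.mul_le_mul_left _ h
      rw [if_pos h1]
      exact ih ha' h
    · rw [if_neg (by omega), Nat.add_sub_cancel_left]

theorem S_bit_ge (Z n : ℕ) (a : ℕ → ℕ) (ha : ∀ k < n, a k < 2 ^ Z) (p : ℕ) (hp : Z * n ≤ p) :
    (S Z n a).testBit p = false :=
  Nat.testBit_lt_two_pow ((S_lt Z n a ha).trans_le (Nat.pow_le_pow_right (by norm_num) hp))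

/-- numbers which agree on all digits are equal -/
theorem ext_bits {Z n x y : ℕ} (hZ : 0 < Z) (h1 : ∀ k < n, ∀ r < Z,
    x.testBit (Z * k + r) = y.testBit (Z * k + r))
    (h2 : ∀ p, Z * n ≤ p → x.testBit p = y.testBit p) : x = y := by
  refine Nat.eq_of_testBit_eq fun p => ?_
  rcases Nat.lt_or_ge p (Z * n) with h | h
  · have e : Z * (p / Z) + p % Z = p := Nat.div_add_mod p Z
    rw [← e]
    refine h1 _ ?_ _ (Nat.mod_lt _ hZ)
    exact Nat.div_lt_of_lt_mul h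
  · exact h2 p h

theorem dg_bit (w t x r : ℕ) : (dg w t x).testBit r = (decide (r < w) && x.testBit (t + r)) := by
  unfold dg
  rw [Nat.testBit_mod_two_pow, Nat.testBit_div_two_pow, Nat.add_comm r t]

theorem S_mask {n s x : ℕ} {M : ℕ → ℕ} (hs : 0 < s) (hM : ∀ i < n, M i < 2 ^ s) :
    x &&& S s n M = S s n fun i => dg s (s * i) x &&& M i := by
  have hc : ∀ i < n, (dg s (s * i) x &&& M i) < 2 ^ s := fun i _ =>
    lt_of_le_of_lt Nat.and_le_left (dg_lt _ _ _)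
  refine ext_bits (n := n) hs ?_ ?_
  · intro k hk r hr
    rw [Nat.testBit_and, S_bit s n M hM k r hk hr, S_bit s n _ hc k r hk hr, Nat.testBit_and,
      dg_bit, decide_eq_true hr, Bool.true_and]
  · intro p hp
    rw [Nat.testBit_and, S_bit_ge s n M hM p hp, S_bit_ge s n _ hc p hp, Bool.and_false]

theorem dg_S {n s w t j : ℕ} {f : ℕ → ℕ} (hf : ∀ i < n, f i < 2 ^ s) (hj : j < n)
    (ht : t + w ≤ s) : dg w (s * j + t) (S s n f) = dg w t (f j) := by
  refine Nat.eq_of_testBit_eq fun r => ?_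
  rw [dg_bit, dg_bit]
  by_cases hr : r < w
  · rw [Nat.add_assoc, S_bit s n f hf j (t + r) hj (by omega)]
  · rw [decide_eq_false hr, Bool.false_and, Bool.false_and]

theorem dg_dg {w t w' t' x : ℕ} (h : t + w ≤ w') : dg w t (dg w' t' x) = dg w (t' + t) x := by
  refine Nat.eq_of_testBit_eq fun r => ?_
  rw [dg_bit, dg_bit, dg_bit]
  by_cases hr : r < w
  · rw [decide_eq_true (show t + r < w' by omega), Bool.true_and, Nat.add_assoc]
  · rw [decide_eq_false hr, Bool.false_and, Bool.false_and]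

theorem dg_shr (w t s x : ℕ) : dg w t (x >>> s) = dg w (s + t) x := by
  unfold dg
  rw [Nat.shiftRight_eq_div_pow, Nat.div_div_eq_div_mul, ← pow_add]

theorem dg_and {w w' t x : ℕ} (h : w ≤ w') : dg w' t x &&& (2 ^ w - 1) = dg w t x := by
  refine Nat.eq_of_testBit_eq fun r => ?_
  rw [Nat.testBit_and, Nat.testBit_two_pow_sub_one, dg_bit, dg_bit]
  by_cases hr : r < w
  · rw [decide_eq_true hr, decide_eq_true (show r < w' by omega), Bool.and_true]
  · rw [decide_eq_false hr, Bool.and_false, Bool.false_and]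

theorem shr_and (w t x : ℕ) : (x >>> t) &&& (2 ^ w - 1) = dg w t x := bts_eq w x t

/-- linearity: a sum of shifted numbers with separated digits -/
theorem sum_S (Z n m b : ℕ) (f : ℕ → ℕ → ℕ) :
    ∑ i ∈ range m, S Z n (f i) * 2 ^ (b * i) =
      S Z n fun k => ∑ i ∈ range m, f i k * 2 ^ (b * i) := by
  unfold S
  simp only [Finset.sum_mul]
  rw [Finset.sum_comm]
  refine Finset.sum_congr rfl fun k _ => Finset.sum_congr rfl fun i _ => ?_
  ring

theorem S_add (Z n : ℕ) (f g : ℕ → ℕ) : S Z n f + S Z n g = S Z n fun k => f k + g k := by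
  unfold S
  rw [← Finset.sum_add_distrib]
  exact Finset.sum_congr rfl fun k _ => by ring

theorem S_congr {Z n : ℕ} {f g : ℕ → ℕ} (h : ∀ k < n, f k = g k) : S Z n f = S Z n g := by
  unfold S
  exact Finset.sum_congr rfl fun k hk => by rw [h k (Finset.mem_range.1 hk)]

theorem sum_blocks (g : ℕ → ℕ) (n : ℕ) :
    ∑ k ∈ range (8 * n), g k = ∑ j ∈ range n, ∑ i ∈ range 8, g (8 * j + i) := by
  induction n with
  | zero => simp
  | succ n ih =>
    rw [Nat.mul_succ, Finset.sum_range_add, ih,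
      Finset.sum_range_succ (fun j => ∑ i ∈ range 8, g (8 * j + i)) n]

theorem kk_S (m Z : ℕ) : kk m Z = S Z (8 * 8) fun _ => m := by
  rw [kk_eq]
  unfold S
  rw [sum_blocks]
  refine Finset.sum_congr rfl fun j _ => ?_
  rw [Finset.sum_mul]
  refine Finset.sum_congr rfl fun i _ => ?_
  rw [show Z * (8 * j + i) = Z * i + 8 * Z * j by ring, pow_add, mul_assoc]

theorem kS_S (m Z : ℕ) : kS m Z = S Z 8 fun _ => m := by
  rw [kS_eq]
  rfl

/-- the upper part of an entry -/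
theorem upper (e : ℕ) :
    e &&& (2 ^ 192 - 2 ^ 128) = dg 64 128 e * 2 ^ 128 := by
  have h0 : (2 ^ 192 - 2 ^ 128 : ℕ) = (2 ^ 64 - 1) * 2 ^ 128 := by norm_num
  rw [h0]
  refine Nat.eq_of_testBit_eq fun r => ?_
  rw [Nat.testBit_and, Nat.testBit_mul_two_pow, Nat.testBit_mul_two_pow,
    Nat.testBit_two_pow_sub_one, dg_bit]
  by_cases h1 : 128 ≤ r
  · rw [show 128 + (r - 128) = r by omega]
    by_cases h2 : r - 128 < 64
    · simp [h1, h2]
    · simp [h1, h2]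
  · simp [h1]

theorem pent_lt (π e : ℕ) : pent π e < 2 ^ 192 := by
  unfold pent
  have h1 : (∑ i ∈ range 8, dg 16 (16 * pf π i) e * 2 ^ (16 * i)) < 2 ^ (16 * 8) :=
    S_lt 16 8 (fun i => dg 16 (16 * pf π i) e) fun k _ => dg_lt _ _ _
  have h2 : dg 64 128 e < 2 ^ 64 := dg_lt _ _ _
  norm_num at h1 h2 ⊢
  omega

/-- the positions inside the entries -/
theorem pos_S (π T Z : ℕ) (hZ : Z = 192) (hπ : ∀ i < 8, pf π i < 8) :
    pos (kk (2 ^ 16 - 1) Z) (kk (2 ^ 192 - 2 ^ 128) Z) π T =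
      S Z (8 * 8) fun k => pent π (dg Z (Z * k) T) := by
  have hZ0 : 0 < Z := by omega
  have hm1 : ∀ i < 8 * 8, (fun _ : ℕ => (2 ^ 16 - 1 : ℕ)) i < 2 ^ Z := by
    intro i _
    rw [hZ]; norm_num
  have hm2 : ∀ i < 8 * 8, (fun _ : ℕ => (2 ^ 192 - 2 ^ 128 : ℕ)) i < 2 ^ Z := by
    intro i _
    rw [hZ]; norm_num
  have h0 : pos (kk (2 ^ 16 - 1) Z) (kk (2 ^ 192 - 2 ^ 128) Z) π T =
    gP 16 (kk (2 ^ 16 - 1) Z) π T + (T &&& kk (2 ^ 192 - 2 ^ 128) Z) := rfl
  rw [h0, gP_eq, kk_S, kk_S, S_mask hZ0 hm2]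
  have h1 : ∀ i ∈ range 8, ((T >>> (16 * pf π i)) &&& S Z (8 * 8) fun _ => 2 ^ 16 - 1) *
      2 ^ (16 * i) =
      S Z (8 * 8) (fun k => dg 16 (16 * pf π i) (dg Z (Z * k) T)) * 2 ^ (16 * i) := by
    intro i hi
    have hi' := hπ i (Finset.mem_range.1 hi)
    rw [S_mask hZ0 hm1]
    refine congrArg (fun t => t * 2 ^ (16 * i)) (S_congr fun k _ => ?_)
    rw [dg_and (by omega), dg_shr, dg_dg (by omega), Nat.add_comm]
  rw [Finset.sum_congr rfl h1, sum_S, S_add]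
  refine S_congr fun k _ => ?_
  rw [upper]
  rfl

/-- blocks inside the groups -/
theorem gP_in (π x Z : ℕ) (hZ : 0 < Z) :
    gP Z (kS (2 ^ Z - 1) (8 * Z)) π x =
      S (8 * Z) 8 fun s => S Z 8 fun i => dg Z (8 * Z * s + Z * pf π i) x := by
  have hm : ∀ i < 8, (fun _ : ℕ => 2 ^ Z - 1) i < 2 ^ (8 * Z) := by
    intro i _
    beta_reduce
    have h1 : 2 ^ Z ≤ 2 ^ (8 * Z) := Nat.pow_le_pow_right (by norm_num) (by omega)
    have h2 : 0 < 2 ^ Z := by positivity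
    omega
  rw [gP_eq, kS_S]
  have h1 : ∀ i ∈ range 8, ((x >>> (Z * pf π i)) &&& S (8 * Z) 8 fun _ => 2 ^ Z - 1) *
      2 ^ (Z * i) = S (8 * Z) 8 (fun s => dg Z (8 * Z * s + Z * pf π i) x) * 2 ^ (Z * i) := by
    intro i _
    rw [S_mask (by omega) hm]
    refine congrArg (fun t => t * 2 ^ (Z * i)) (S_congr fun s _ => ?_)
    rw [dg_and (by omega), dg_shr, Nat.add_comm]
  rw [Finset.sum_congr rfl h1, sum_S]
  rfl

/-- the groups -/
theorem gP_out (π y Z : ℕ) :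
    gP Z (2 ^ Z - 1) π y = S Z 8 fun w => dg Z (Z * pf π w) y := by
  rw [gP_eq]
  unfold S
  refine Finset.sum_congr rfl fun i _ => ?_
  rw [shr_and]

theorem tbE_eq (M16 MU M192 M1536 π T a b : ℕ) (ha : a = 192) (hb : b = 1536) :
    tbE M16 MU M192 M1536 π T = gP b M1536 π (gP a M192 π (pos M16 MU π T)) := by
  subst ha hb
  unfold tbE
  rw [fc_eq, fc_eq]

theorem main (π T Z Z8 Z64 : ℕ) (hZ : Z = 192) (h8 : Z8 = 8 * Z) (h64 : Z64 = Z8 * 8)
    (hπ : ∀ i < 8, pf π i < 8) :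
    (∀ w < 8, ∀ z < 8, dg Z (Z8 * w + Z * z)
      (tbE (kk 65535 Z) (kk (2 ^ 192 - 2 ^ 128) Z) (kS (2 ^ Z - 1) Z8) (2 ^ Z8 - 1) π T)
        = pent π (dg Z (Z8 * pf π w + Z * pf π z) T)) ∧
    tbE (kk 65535 Z) (kk (2 ^ 192 - 2 ^ 128) Z) (kS (2 ^ Z - 1) Z8) (2 ^ Z8 - 1) π T <
      2 ^ Z64 := by
  have hZ0 : 0 < Z := by omega
  have hK : kk 65535 Z = kk (2 ^ 16 - 1) Z := by norm_num
  have hp : ∀ e, pent π e < 2 ^ Z := fun e => by rw [hZ]; exact pent_lt π e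
  have e1 : tbE (kk 65535 Z) (kk (2 ^ 192 - 2 ^ 128) Z) (kS (2 ^ Z - 1) Z8) (2 ^ Z8 - 1) π T =
      S Z8 8 fun w => dg Z8 (Z8 * pf π w) (S Z8 8 fun s => S Z 8 fun i =>
        dg Z (Z8 * s + Z * pf π i) (S Z (8 * 8) fun k => pent π (dg Z (Z * k) T))) := by
    rw [tbE_eq _ _ _ _ π T Z Z8 hZ (by omega), gP_out, hK, pos_S π T Z hZ hπ, h8,
      gP_in π _ Z hZ0]
  rw [e1]
  have hb1 : ∀ w < 8, (fun w => dg Z8 (Z8 * pf π w) (S Z8 8 fun s => S Z 8 fun i =>
        dg Z (Z8 * s + Z * pf π i) (S Z (8 * 8) fun k => pent π (dg Z (Z * k) T)))) w <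
      2 ^ Z8 := fun w _ => dg_lt _ _ _
  constructor
  · intro w hw z hz
    have hw' := hπ w hw
    have hz' := hπ z hz
    have hb2 : ∀ s < 8, (fun s => S Z 8 fun i =>
        dg Z (Z8 * s + Z * pf π i) (S Z (8 * 8) fun k => pent π (dg Z (Z * k) T))) s <
        2 ^ Z8 := by
      intro s _
      have := S_lt Z 8 (fun i => dg Z (Z8 * s + Z * pf π i)
        (S Z (8 * 8) fun k => pent π (dg Z (Z * k) T))) fun k _ => dg_lt _ _ _
      rw [h8, Nat.mul_comm 8 Z]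
      rw [h8] at this
      rwa [Nat.mul_comm 8 Z] at this
    have hzz : Z * z + Z ≤ Z8 := by
      rw [h8]; nlinarith
    rw [dg_S hb1 hw hzz]
    rw [dg_dg hzz, dg_S hb2 hw' hzz]
    have h5 := dg_S (n := 8) (s := Z) (w := Z) (t := 0) (j := z)
      (f := fun i => dg Z (Z8 * pf π w + Z * pf π i)
        (S Z (8 * 8) fun k => pent π (dg Z (Z * k) T))) (fun i _ => dg_lt _ _ _) hz (by omega)
    rw [Nat.add_zero] at h5
    rw [h5]
    rw [dg_dg (by omega), Nat.add_zero]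
    have h6 := dg_S (n := 8 * 8) (s := Z) (w := Z) (t := 0) (j := 8 * pf π w + pf π z)
      (f := fun k => pent π (dg Z (Z * k) T)) (fun i _ => hp _) (by omega) (by omega)
    have h7 : Z8 * pf π w + Z * pf π z = Z * (8 * pf π w + pf π z) := by rw [h8]; ring
    rw [Nat.add_zero] at h6
    rw [h7, h6]
    have h8' := hp (dg Z (Z * (8 * pf π w + pf π z)) T)
    unfold dg at h8' ⊢
    rw [pow_zero, Nat.div_one, Nat.mod_eq_of_lt h8']
  · rw [h64]
    exact S_lt _ _ _ hb1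

end TBE

theorem pr_TBE : TBE := fun π T hπ => TBE.main π T 192 1536 12288 rfl rfl rfl hπ

end Pool.Agent.Work.MP_f94384_co.Big
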