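import Pool.Agent.Work.MP_f94384_co.Big.Stmts2
import Pool.Agent.Work.MP_f94384_co.Big.P_DGS
import Pool.Agent.Work.MP_f94384_co.Big.P_DGG
import Pool.Agent.Work.MP_f94384_co.Big.P_TBE

/-!
# Kernel program for the certificates of order 7 and 8: table of the entries (item GET)
-/

set_option autoImplicit false

open Finset

namespace Pool.Agent.Work.MP_f94384_co.Big

namespace GET

theorem cfd_eq (c t : ℕ) : cfd c t = dg 40 t c := bts_eq 40 c t

theorem land255 (c t : ℕ) : Nat.land (cfd c t) 255 = dg 8 t c := by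
  rw [cfd_eq]
  show dg 40 t c &&& (2 ^ 8 - 1) = _
  rw [Nat.and_two_pow_sub_one_eq_mod]
  exact (pr_DGG).2.2.1 8 40 t c (by norm_num)

theorem shr8 (c t : ℕ) : Nat.shiftRight (cfd c t) 8 = dg 32 (t + 8) c := by
  have h : cfd c t < 2 ^ 40 := by rw [cfd_eq]; exact dg_lt _ _ _
  have h0 : Nat.shiftRight (cfd c t) 8 = cfd c t / 2 ^ 8 := Nat.shiftRight_eq_div_pow _ _
  have h1 : cfd c t / 2 ^ 8 = dg 32 8 (cfd c t) := by
    unfold dg
    rw [Nat.mod_eq_of_lt]
    rw [Nat.div_lt_iff_lt_mul (by norm_num)]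
    exact h
  rw [h0, h1, cfd_eq, (pr_DGG).1 32 8 40 t c (by norm_num)]

/-- the table as a sum of separated fields -/
theorem gE1_eq (n M16 MU M192 M1536 : ℕ) (T : Tr) (c : ℕ) : gE1 n M16 MU M192 M1536 T c =
    ∑ y ∈ range n, tbE M16 MU M192 M1536 (dg 32 (40 * y + 8) c) (get T (dg 8 (40 * y) c)) *
      2 ^ (12288 * y) := by
  unfold gE1
  rw [sumL_eq, Nat.zero_add]
  refine Finset.sum_congr rfl fun y _ => ?_
  rw [fc_eq, fc_eq, fc_eq]
  have e : Nat.mul 40 y = 40 * y := rfl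
  rw [e, land255, shr8]
  exact Nat.shiftLeft_eq _ _

theorem field (n S w t y : ℕ) (f : ℕ → ℕ) (hf : ∀ i < n, f i < 2 ^ S) (ht : t + w ≤ S)
    (hy : y < n) : dg w (S * y + t) (∑ i ∈ range n, f i * 2 ^ (S * i)) = dg w t (f y) := by
  have h2 := (pr_DGS n S w t y f hf ht).1
  rw [if_pos hy] at h2
  exact h2

theorem main (hT : TBE) : GET := by
  intro n c T hn hp y hy w hw z hz
  rw [gE1_eq, Nat.add_assoc]
  have h1 : ∀ i < n, (fun y => tbE (kk 65535 192) (kk (2 ^ 192 - 2 ^ 128) 192)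
      (kS (2 ^ 192 - 1) 1536) (2 ^ 1536 - 1)
      (dg 32 (40 * y + 8) c) (get T (dg 8 (40 * y) c))) i < 2 ^ 12288 := by
    intro i hi
    exact (hT _ _ (hp i hi)).2
  have h2 := field n 12288 192 (1536 * w + 192 * z) y _ h1 (by omega) hy
  rw [h2]
  exact (hT _ _ (hp y hy)).1 w hw z hz

end GET

theorem pr_GET : GET := GET.main pr_TBE

end Pool.Agent.Work.MP_f94384_co.Big
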