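import Pool.Agent.Work.MP_f94384_co.Big.Defs

set_option autoImplicit false

open Finset

namespace Pool.Agent.Work.MP_f94384_co.Big

open Pool.Agent.Work.MP_f94384_co.Flag

theorem RST_sum {c c' : ℕ → ℕ} {π : ℕ → ℕ}
    (h1 : ∀ v < 8, c v ≠ 0 → π v < 8 ∧ c' (π v) = c v)
    (h2 : ∀ v < 8, c v ≠ 0 → ∀ u < 8, c u ≠ 0 → π v = π u → v = u)
    (h4 : ∀ a < 8, c' a ≠ 0 → ∃ v < 8, c v ≠ 0 ∧ π v = a)
    (F F' : ℕ → ℕ) (hF : ∀ v < 8, c v = 0 → F v = 0) (hF' : ∀ v < 8, c' v = 0 → F' v = 0)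
    (hFF : ∀ v < 8, c v ≠ 0 → F v = F' (π v)) :
    ∑ v ∈ range 8, F v = ∑ v ∈ range 8, F' v := by
  have e1 : ∑ v ∈ (range 8).filter (fun v => c v ≠ 0), F v = ∑ v ∈ range 8, F v := by
    apply sum_subset (filter_subset _ _)
    intro v hv hv'
    rw [mem_filter, not_and_not_right] at hv'
    exact hF v (mem_range.1 hv) (hv' hv)
  have e2 : ∑ v ∈ (range 8).filter (fun v => c' v ≠ 0), F' v = ∑ v ∈ range 8, F' v := by
    apply sum_subset (filter_subset _ _)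
    intro v hv hv'
    rw [mem_filter, not_and_not_right] at hv'
    exact hF' v (mem_range.1 hv) (hv' hv)
  rw [← e1, ← e2]
  refine sum_bij (fun v _ => π v) ?_ ?_ ?_ ?_
  · intro v hv
    rw [mem_filter, mem_range] at hv
    obtain ⟨a, b⟩ := h1 v hv.1 hv.2
    rw [mem_filter, mem_range]
    exact ⟨a, by rw [b]; exact hv.2⟩
  · intro v hv u hu h
    rw [mem_filter, mem_range] at hv hu
    exact h2 v hv.1 hv.2 u hu.1 hu.2 h
  · intro a ha
    rw [mem_filter, mem_range] at ha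
    obtain ⟨v, hv, hc, rfl⟩ := h4 a ha.1 ha.2
    exact ⟨v, mem_filter.2 ⟨mem_range.2 hv, hc⟩, rfl⟩
  · intro v hv
    rw [mem_filter, mem_range] at hv
    exact hFF v hv.1 hv.2

theorem pr_RST : RST := by
  intro p p' c c' π H1 H2 H3 H4
  have k1 : ∀ v < 8, c v ≠ 0 → h1 p c v = h1 p' c' (π v) := by
    intro v hv hc
    unfold h1
    rw [(H1 v hv hc).2]
    congr 2
    refine RST_sum H1 H2 H4 _ _ (fun u _ hu => by simp [hu]) (fun u _ hu => by simp [hu]) ?_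
    intro u hu hcu
    rw [H3 v hv hc u hu hcu, (H1 u hu hcu).2]
  have z1 : ∀ (p : Pat) (c : ℕ → ℕ) (v : ℕ), c v = 0 → h1 p c v = 0 := by
    intro p c v h
    unfold h1
    rw [h, zero_mul]
  have z2 : ∀ (p : Pat) (c : ℕ → ℕ) (v : ℕ), c v = 0 → h2 p c v = 0 := by
    intro p c v h
    unfold h2
    rw [h, zero_mul]
  have k2 : ∀ v < 8, c v ≠ 0 → h2 p c v = h2 p' c' (π v) := by
    intro v hv hc
    unfold h2
    rw [(H1 v hv hc).2]
    congr 2
    refine RST_sum H1 H2 H4 _ _ (fun u _ hu => by simp [z1 _ _ _ hu])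
      (fun u _ hu => by simp [z1 _ _ _ hu]) ?_
    intro u hu hcu
    rw [H3 v hv hc u hu hcu, k1 u hu hcu]
  unfold hs
  refine RST_sum H1 H2 H4 _ _ (fun u _ hu => by simp [z2 _ _ _ hu])
    (fun u _ hu => by simp [z2 _ _ _ hu]) ?_
  intro u hu hcu
  rw [k2 u hu hcu]

end Pool.Agent.Work.MP_f94384_co.Big
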