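import Pool.Agent.Work.MP_f94384_co.Big.Stmts2
import Pool.Agent.Work.MP_f94384_co.Big.P_RST

/-!
# Kernel program for the certificates of order 7 and 8: invariant under deletions (item HDL)
-/

set_option autoImplicit false

open Finset

namespace Pool.Agent.Work.MP_f94384_co.Big

open Pool.Agent.Work.MP_f94384_co.Flag

theorem pr_HDL : HDL := by
  intro n n' A R π x y c c' hn hn' hD h0 h1 h2
  have key : ∀ v < 8, c v ≠ 0 → v < n ∧ v ≠ x ∧ v ≠ y := by
    intro v hv hc
    by_contra h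
    exact hc (h0 v hv h)
  refine pr_RST (pa A) (pa R) c c' (pf π) ?_ ?_ ?_ ?_
  · intro v hv hc
    obtain ⟨a, b, d⟩ := key v hv hc
    exact ⟨hD.lt v hv, (h1 v a b d).symm⟩
  · intro v hv hc u hu hcu e
    obtain ⟨a, b, d⟩ := key v hv hc
    obtain ⟨a', b', d'⟩ := key u hu hcu
    exact hD.inj v a b d u a' b' d' e
  · intro v hv hc u hu hcu
    obtain ⟨a, b, d⟩ := key v hv hc
    obtain ⟨a', b', d'⟩ := key u hu hcu
    exact hD.ed v a b d u a' b' d'
  · intro a ha hc
    have han : a < n' := by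
      by_contra h
      exact hc (h2 a ha (not_lt.1 h))
    obtain ⟨v, hv, hx, hy, e⟩ := hD.sur a han
    refine ⟨v, lt_of_lt_of_le hv hn, ?_, e⟩
    rw [h1 v hv hx hy, e]
    exact hc

end Pool.Agent.Work.MP_f94384_co.Big
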