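import Pool.Agent.Work.MP_f94384_co.Big.Stmts3
import Pool.Agent.Work.MP_f94384_co.Big.P_HDL

/-!
# Kernel program for the certificates of order 7 and 8: item GUD
-/

set_option autoImplicit false

open Finset

namespace Pool.Agent.Work.MP_f94384_co.Big

open Pool.Agent.Work.MP_f94384_co.Flag

namespace GUD

variable {n n' A R π x y : ℕ}

theorem pf_iff (hD : Del n n' A R π x y) {v w : ℕ} (hv : v < n ∧ v ≠ x ∧ v ≠ y)
    (hw : w < n ∧ w ≠ x ∧ w ≠ y) : pf π v = pf π w ↔ v = w :=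
  ⟨fun h => hD.inj v hv.1 hv.2.1 hv.2.2 w hw.1 hw.2.1 hw.2.2 h, fun h => by rw [h]⟩

theorem pf_lt (hn' : n' ≤ 7) (hD : Del n n' A R π x y) {v : ℕ} (hv8 : v < 8) :
    pf π v < n' ↔ (v < n ∧ v ≠ x ∧ v ≠ y) := by
  constructor
  · intro h
    by_contra hc
    have := hD.ab v hv8 hc
    omega
  · intro h
    exact hD.pr v h.1 h.2.1 h.2.2

theorem cE_swap (w z i : ℕ) : cE n w z x y i = cE n w z y x i := by
  funext v
  unfold cE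
  by_cases h : v < n ∧ v ≠ x ∧ v ≠ y
  · rw [if_pos h, if_pos (⟨h.1, h.2.2, h.2.1⟩ : v < n ∧ v ≠ y ∧ v ≠ x)]
  · rw [if_neg h, if_neg (fun hc => h ⟨hc.1, hc.2.2, hc.2.1⟩)]

theorem cE_n (w z i : ℕ) : cE n w z x x i = cE n w z n x i := by
  funext v
  unfold cE
  by_cases h : v < n ∧ v ≠ x ∧ v ≠ x
  · rw [if_pos h, if_pos (⟨h.1, h.1.ne, h.2.1⟩ : v < n ∧ v ≠ n ∧ v ≠ x)]
  · rw [if_neg h, if_neg (fun hc => h ⟨hc.1, hc.2.2, hc.2.2⟩)]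

theorem hsE (hHDL : HDL) (hn : n ≤ 8) (hn' : n' ≤ 7) (hD : Del n n' A R π x y) {w z i : ℕ}
    (hw : w < n ∧ w ≠ x ∧ w ≠ y) (hz : z < n ∧ z ≠ x ∧ z ≠ y) (hi : i < n ∧ i ≠ x ∧ i ≠ y) :
    hs (pa R) (cE n' (pf π w) (pf π z) n' n' (pf π i)) = hs (pa A) (cE n w z x y i) := by
  symm
  apply hHDL n n' A R π x y _ _ hn hn' hD
  · intro v hv hva
    unfold cE
    rw [if_neg hva]
  · intro v hv hvx hvy
    have hv' : v < n ∧ v ≠ x ∧ v ≠ y := ⟨hv, hvx, hvy⟩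
    have hlt := (pf_lt hn' hD (by omega : v < 8)).2 hv'
    unfold cE
    rw [if_pos hv', if_pos (⟨hlt, hlt.ne, hlt.ne⟩ : pf π v < n' ∧ pf π v ≠ n' ∧ pf π v ≠ n')]
    simp only [pf_iff hD hv' hw, pf_iff hD hv' hz, pf_iff hD hv' hi]
  · intro v hv hvn
    unfold cE
    rw [if_neg (by omega)]

theorem hsU (hHDL : HDL) (hn : n ≤ 8) (hn' : n' ≤ 7) (hD : Del n n' A R π x x) {w i : ℕ}
    (hw : w < n ∧ w ≠ x) (hi : i < n ∧ i ≠ x) :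
    hs (pa R) (cU n' (pf π w) n' (pf π i)) = hs (pa A) (cU n w x i) := by
  symm
  have hw' : w < n ∧ w ≠ x ∧ w ≠ x := ⟨hw.1, hw.2, hw.2⟩
  have hi' : i < n ∧ i ≠ x ∧ i ≠ x := ⟨hi.1, hi.2, hi.2⟩
  apply hHDL n n' A R π x x _ _ hn hn' hD
  · intro v hv hva
    unfold cU
    rw [if_neg (fun hc => hva ⟨hc.1, hc.2, hc.2⟩)]
  · intro v hv hvx hvy
    have hv' : v < n ∧ v ≠ x ∧ v ≠ x := ⟨hv, hvx, hvy⟩
    have hlt := (pf_lt hn' hD (by omega : v < 8)).2 hv'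
    unfold cU
    rw [if_pos (⟨hv, hvx⟩ : v < n ∧ v ≠ x), if_pos (⟨hlt, hlt.ne⟩ : pf π v < n' ∧ pf π v ≠ n')]
    simp only [pf_iff hD hv' hw', pf_iff hD hv' hi']
  · intro v hv hvn
    unfold cU
    rw [if_neg (by omega)]

theorem gE_eq (C : BC) (hHDL : HDL) (hn : n ≤ 8) (hn' : n' ≤ 7) (hD : Del n n' A R π x y)
    {w z i : ℕ} (hw : w < n ∧ w ≠ x ∧ w ≠ y) (hz : z < n ∧ z ≠ x ∧ z ≠ y) (hi : i < 8) :
    C.gE n' (pa R) (pf π w) (pf π z) n' n' (pf π i) = C.gE n (pa A) w z x y i := by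
  unfold BC.gE
  by_cases hin : i < n ∧ i ≠ x ∧ i ≠ y
  · have hlt := (pf_lt hn' hD hi).2 hin
    rw [if_pos hin, if_pos ⟨hlt, hlt.ne, hlt.ne⟩]
    unfold BC.rE
    rw [hsE hHDL hn hn' hD hw hz hin]
  · rw [if_neg hin, if_neg (fun hc => hin ((pf_lt hn' hD hi).1 hc.1))]

theorem of (hHDL : HDL) : GUD := by
  intro C n n' A R π x y hn hn' hD hx hy
  refine ⟨?_, ?_, ?_, ?_⟩
  · intro w hw hwx hxy i hi
    subst hxy
    unfold BC.gU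
    by_cases hin : i < n ∧ i ≠ x
    · have hlt := (pf_lt hn' hD hi).2 ⟨hin.1, hin.2, hin.2⟩
      rw [if_pos hin, if_pos ⟨hlt, hlt.ne⟩]
      unfold BC.rU
      rw [hsU hHDL hn hn' hD ⟨hw, hwx⟩ hin]
    · rw [if_neg hin, if_neg]
      intro hc
      have := (pf_lt hn' hD hi).1 hc.1
      exact hin ⟨this.1, this.2.1⟩
  · intro w hw z hz hwx hwy hzx hzy hwz i hi
    refine ⟨gE_eq C hHDL hn hn' hD ⟨hw, hwx, hwy⟩ ⟨hz, hzx, hzy⟩ hi, ?_⟩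
    unfold BC.gE
    by_cases h : i < n ∧ i ≠ x ∧ i ≠ y
    · rw [if_pos h, if_pos ⟨h.1, h.2.2, h.2.1⟩]
      unfold BC.rE
      rw [cE_swap]
    · rw [if_neg h, if_neg (fun hc => h ⟨hc.1, hc.2.2, hc.2.1⟩)]
  · intro w hw z hz hwx hzx hwz hxy i hi
    subst hxy
    rw [gE_eq C hHDL hn hn' hD ⟨hw, hwx, hwx⟩ ⟨hz, hzx, hzx⟩ hi]
    unfold BC.gE
    by_cases h : i < n ∧ i ≠ x ∧ i ≠ x
    · rw [if_pos h, if_pos ⟨h.1, by omega, h.2.1⟩]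
      unfold BC.rE
      rw [cE_n]
    · rw [if_neg h, if_neg (fun hc => h ⟨hc.1, hc.2.2, hc.2.2⟩)]
  · intro w hw z hz hwx hwy hzx hzy hwz
    constructor
    · unfold BC.rV
      rw [hsE hHDL hn hn' hD ⟨hw, hwx, hwy⟩ ⟨hz, hzx, hzy⟩ ⟨hw, hwx, hwy⟩]
    · unfold BC.rV
      rw [cE_swap]

end GUD

theorem pr_GUD : GUD := GUD.of pr_HDL

end Pool.Agent.Work.MP_f94384_co.Big
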