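import Pool.Agent.Work.MP_f94384_co.Big.Stmts2
import Pool.Agent.Work.MP_f94384_co.Big.P_DGS
import Pool.Agent.Work.MP_f94384_co.Big.P_DGG

/-!
# Kernel program for the certificates of order 7 and 8: rows of the permuted entry
-/

set_option autoImplicit false

open Finset

namespace Pool.Agent.Work.MP_f94384_co.Big

open Pool.Agent.Work.MP_f94384_co.Flag

namespace PEN

theorem dg_hi (w t a x y : ℕ) (hx : x < 2 ^ a) : dg w (a + t) (x + y * 2 ^ a) = dg w t y := by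
  unfold dg
  rw [pow_add, ← Nat.div_div_eq_div_mul, Nat.add_mul_div_right _ _ (by positivity),
    Nat.div_eq_of_lt hx, zero_add]

theorem dg_lo (w t a x y : ℕ) (h : t + w ≤ a) : dg w t (x + y * 2 ^ a) = dg w t x := by
  unfold dg
  obtain ⟨k, rfl⟩ := Nat.exists_eq_add_of_le h
  have h1 : y * 2 ^ (t + w + k) = 2 ^ t * (2 ^ w * (2 ^ k * y)) := by
    rw [pow_add, pow_add]
    ring
  rw [h1, Nat.add_mul_div_left _ _ (by positivity), Nat.add_mul_mod_self_left]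

theorem main (a π e : ℕ) (ha : a = 128) :
    (∀ w t, t + w ≤ 64 → dg w (a + t) ((∑ i ∈ range 8, dg 16 (16 * pf π i) e * 2 ^ (16 * i)) +
      dg 64 a e * 2 ^ a) = dg w (a + t) e) ∧
    (∀ w t, t + w ≤ 16 → ∀ i < 8, dg w (16 * i + t)
      ((∑ i ∈ range 8, dg 16 (16 * pf π i) e * 2 ^ (16 * i)) +
      dg 64 a e * 2 ^ a) = dg w (16 * pf π i + t) e) := by
  have hf : ∀ i < 8, dg 16 (16 * pf π i) e < 2 ^ 16 := fun i _ => dg_lt _ _ _
  constructor
  · intro w t h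
    have h1 := (pr_DGS 8 16 0 0 0 (fun i => dg 16 (16 * pf π i) e) hf (by norm_num)).2
    rw [show 16 * 8 = a by rw [ha]] at h1
    rw [dg_hi _ _ _ _ _ h1]
    exact pr_DGG.1 w t 64 a e h
  · intro w t h i hi
    rw [dg_lo _ _ _ _ _ (by omega)]
    have h1 := (pr_DGS 8 16 w t i (fun i => dg 16 (16 * pf π i) e) hf h).1
    rw [if_pos hi] at h1
    rw [h1]
    exact pr_DGG.1 w t 16 _ e h

theorem hi (π e w t : ℕ) (h : t + w ≤ 64) : dg w (128 + t) (pent π e) = dg w (128 + t) e :=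
  (main 128 π e rfl).1 w t h

theorem lo (π e w t i : ℕ) (h : t + w ≤ 16) (hi : i < 8) :
    dg w (16 * i + t) (pent π e) = dg w (16 * pf π i + t) e :=
  (main 128 π e rfl).2 w t h i hi

theorem hi0 (π e : ℕ) : dg 16 128 (pent π e) = dg 16 128 e := hi π e 16 0 (by norm_num)

theorem hi1 (π e : ℕ) : dg 24 144 (pent π e) = dg 24 144 e := hi π e 24 16 (by norm_num)

theorem hi2 (π e : ℕ) : dg 8 168 (pent π e) = dg 8 168 e := hi π e 8 40 (by norm_num)

theorem eco_eq (π e i : ℕ) (h : i < 8) : eco (pent π e) i = eco e (pf π i) :=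
  lo π e 8 0 i (by norm_num) h

theorem esl_eq (π e i : ℕ) (h : i < 8) : esl (pent π e) i = esl e (pf π i) :=
  lo π e 4 8 i (by norm_num) h

end PEN

theorem pr_PEN : PEN := by
  intro W Z8 NT nB FS π e r hπ h
  refine ⟨?_, ?_, ?_, ?_⟩
  · rw [PEN.hi0]
    exact h.bun
  · rw [PEN.hi1, PEN.hi2]
    exact h.st
  · intro i hi h1
    rw [PEN.eco_eq _ _ _ hi, PEN.esl_eq _ _ _ hi, PEN.hi2]
    exact h.ab _ (hπ i hi) h1
  · intro i hi h1
    rw [PEN.eco_eq _ _ _ hi, PEN.esl_eq _ _ _ hi, PEN.hi2, PEN.hi0]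
    exact h.pr _ (hπ i hi) h1

end Pool.Agent.Work.MP_f94384_co.Big
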