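import Pool.Agent.Work.MP_f94384_co.Big.Stmts3
import Pool.Agent.Work.MP_f94384_co.Big.P_GET
import Pool.Agent.Work.MP_f94384_co.Big.P_PEN
import Pool.Agent.Work.MP_f94384_co.Big.P_DKX
import Pool.Agent.Work.MP_f94384_co.Big.P_GUD

/-!
# Kernel program for the certificates of order 7 and 8: item END
-/

set_option autoImplicit false

open Finset

namespace Pool.Agent.Work.MP_f94384_co.Big

open Pool.Agent.Work.MP_f94384_co.Flag

namespace END

theorem EOK_congr (W Z8 NT nB : ℕ) (FS : Tr) (e : ℕ) (r r' : ℕ → ℕ) (h : ∀ i < 8, r i = r' i)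
    (h1 : EOK W Z8 NT nB FS e r) : EOK W Z8 NT nB FS e r' := by
  refine ⟨h1.bun, h1.st, ?_, ?_⟩
  · intro i hi hr
    exact h1.ab i hi ((h i hi).trans hr)
  · intro i hi hr
    rw [← h i hi] at hr ⊢
    exact h1.pr i hi hr

theorem of (hGET : GET) (hPEN : PEN) (hER2 : ER2) (hDKX : DKX) (hGUD : GUD) : END := by
  intro D zb t0 b h A c hd w hw z hz y hy hwz hwy hzy
  have hN5 := h.w.N5
  have hN8 := h.w.N8
  have eN : D.N - 1 - 1 = D.N - 2 := by omega
  have hdel := hDKX.1 (D.N - 1) D.nR2 A c D.R2 (by omega) (by omega) (by rw [eN]; exact hd)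
  rw [eN] at hdel
  obtain ⟨hj, hD⟩ := hdel y hy
  have e1 := hGET (D.N - 1) c D.TE (by omega) (fun x' hx' i hi => (hdel x' hx').2.lt i hi) y hy
    w (by omega) z (by omega)
  have e2 := (hER2 D zb t0 b h (dg 8 (40 * y) c) hj (pf (dg 32 (40 * y + 8) c) w)
    (hD.pr w hw hwy hwy) (pf (dg 32 (40 * y + 8) c) z) (hD.pr z hz hzy hzy)
    (fun hh => hwz (hD.inj w hw hwy hwy z hz hzy hzy hh))).1
  have e3 := hPEN _ _ _ _ _ (dg 32 (40 * y + 8) c) _ _ hD.lt e2
  have e4 := (hGUD D.bc (D.N - 1) (D.N - 2) A _ _ y y (by omega) (by omega) hD hy hy).2.2.1 w hw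
    z hz hwy hzy hwz rfl
  rw [e1]
  exact EOK_congr _ _ _ _ _ _ _ _ e4 e3

/-- only ER2 is left -/
theorem of2 (hER2 : ER2) : END := of pr_GET pr_PEN hER2 pr_DKX pr_GUD

end END

end Pool.Agent.Work.MP_f94384_co.Big
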