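import Pool.Agent.Work.MP_f94384_co.Big.Stmts2
import Pool.Agent.Work.MP_f94384_co.Big.P_DGS
import Pool.Agent.Work.MP_f94384_co.Big.P_TBE

set_option autoImplicit false

open Finset

namespace Pool.Agent.Work.MP_f94384_co.Big

open Pool.Agent.Work.MP_f94384_co.Flag

namespace GFT

theorem sum_sym (n : ℕ) (g : ℕ → ℕ → ℕ) (hg : ∀ a, g a a = 0) :
    ∑ a ∈ range n, ∑ b ∈ range n, g a b = ∑ y ∈ range n, ∑ x ∈ range y, (g x y + g y x) := by
  induction n with
  | zero => simp
  | succ n ih =>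
    have h1 : ∑ a ∈ range (n + 1), ∑ b ∈ range (n + 1), g a b =
        (∑ a ∈ range n, (∑ b ∈ range n, g a b + g a n)) + (∑ b ∈ range n, g n b + g n n) := by
      rw [Finset.sum_range_succ, Finset.sum_range_succ]
      congr 1
      exact Finset.sum_congr rfl fun a _ => Finset.sum_range_succ _ _
    have h2 : ∑ y ∈ range (n + 1), ∑ x ∈ range y, (g x y + g y x) =
        ∑ y ∈ range n, ∑ x ∈ range y, (g x y + g y x) + ∑ x ∈ range n, (g x n + g n x) :=
      Finset.sum_range_succ _ _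
    rw [h1, h2, ← ih, Finset.sum_add_distrib, Finset.sum_add_distrib, hg]
    ring

theorem digs (n s w t : ℕ) (hn : n ≤ 8) (B : ℕ → ℕ → ℕ) (hB : ∀ y < n, ∀ x < y, B y x < 2 ^ s)
    (htw : t + w ≤ s) (x y : ℕ) (hx : x < n) (hy : y < n) (hxy : x ≠ y) :
    dg w (8 * s * x + (s * y + t)) (∑ y ∈ range n, ∑ x ∈ range y,
      (B y x * 2 ^ (8 * s * x + s * y) + B y x * 2 ^ (8 * s * y + s * x))) =
    dg w t (B (max x y) (min x y)) := by
  set C : ℕ → ℕ → ℕ := fun a b => if a = b then 0 else B (max a b) (min a b) with hCdef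
  have hC : ∀ a < n, ∀ b < n, C a b < 2 ^ s := by
    intro a ha b hb
    simp only [hCdef]
    split_ifs with h
    · positivity
    · refine hB _ (max_lt ha hb) _ ?_
      rcases lt_or_gt_of_ne h with h1 | h1
      · rw [max_eq_right h1.le, min_eq_left h1.le]; exact h1
      · rw [max_eq_left h1.le, min_eq_right h1.le]; exact h1
  have hs : (∑ y ∈ range n, ∑ x ∈ range y,
      (B y x * 2 ^ (8 * s * x + s * y) + B y x * 2 ^ (8 * s * y + s * x))) =
      ∑ a ∈ range n, (∑ b ∈ range n, C a b * 2 ^ (s * b)) * 2 ^ (8 * s * a) := by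
    have h1 := sum_sym n (fun a b => C a b * 2 ^ (8 * s * a + s * b)) (fun a => by
      simp [hCdef])
    have h2 : ∑ a ∈ range n, (∑ b ∈ range n, C a b * 2 ^ (s * b)) * 2 ^ (8 * s * a) =
        ∑ a ∈ range n, ∑ b ∈ range n, C a b * 2 ^ (8 * s * a + s * b) := by
      refine Finset.sum_congr rfl fun a _ => ?_
      rw [Finset.sum_mul]
      refine Finset.sum_congr rfl fun b _ => ?_
      rw [Nat.pow_add]
      ring
    rw [h2, h1]
    refine Finset.sum_congr rfl fun y _ => Finset.sum_congr rfl fun x hx => ?_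
    have hxy : x < y := Finset.mem_range.1 hx
    simp only [hCdef]
    rw [if_neg hxy.ne, if_neg hxy.ne', max_eq_right hxy.le, min_eq_left hxy.le,
      max_eq_left hxy.le, min_eq_right hxy.le]
  rw [hs]
  have hin : ∀ a < n, (∑ b ∈ range n, C a b * 2 ^ (s * b)) < 2 ^ (8 * s) := by
    intro a ha
    have h1 := (pr_DGS n s 0 0 0 (fun b => C a b) (fun b hb => hC a ha b hb) (Nat.zero_le _)).2
    refine lt_of_lt_of_le h1 (Nat.pow_le_pow_right (by norm_num) ?_)
    rw [Nat.mul_comm]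
    exact Nat.mul_le_mul_right _ hn
  have hle : s * y + t + w ≤ 8 * s := by
    have h1 : s * y + s ≤ 8 * s := by
      calc s * y + s = (y + 1) * s := by ring
        _ ≤ 8 * s := Nat.mul_le_mul_right _ (by omega)
    omega
  have h1 := (pr_DGS n (8 * s) w (s * y + t) x (fun a => ∑ b ∈ range n, C a b * 2 ^ (s * b))
    hin hle).1
  rw [if_pos hx] at h1
  rw [h1]
  have h2 := (pr_DGS n s w t y (fun b => C x b) (fun b hb => hC x hx b hb) htw).1
  rw [if_pos hy] at h2
  rw [h2]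
  simp only [hCdef]
  rw [if_neg hxy]

theorem gE2_eq (n M16 MU M192 M1536 : ℕ) (T : Tr) (c : ℕ) :
    gE2 n M16 MU M192 M1536 T c = ∑ y ∈ range n, ∑ x ∈ range y,
      ((fun y x => tbE M16 MU M192 M1536 (dg 32 (320 * y + 40 * x + 8) c)
          (get T (dg 8 (320 * y + 40 * x) c))) y x * 2 ^ (8 * 12288 * x + 12288 * y) +
        (fun y x => tbE M16 MU M192 M1536 (dg 32 (320 * y + 40 * x + 8) c)
          (get T (dg 8 (320 * y + 40 * x) c))) y x * 2 ^ (8 * 12288 * y + 12288 * x)) := by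
  unfold gE2
  rw [sumL_eq, Nat.zero_add]
  refine Finset.sum_congr rfl fun y _ => ?_
  rw [sumL_eq, Nat.zero_add]
  refine Finset.sum_congr rfl fun x _ => ?_
  rw [fc_eq, fc_eq, fc_eq, fc_eq]
  have e1 : cfd c (Nat.add (Nat.mul 320 y) (Nat.mul 40 x)) = dg 40 (320 * y + 40 * x) c :=
    bts_eq 40 c (320 * y + 40 * x)
  have e2 : Nat.land (dg 40 (320 * y + 40 * x) c) 255 = dg 8 (320 * y + 40 * x) c := by
    show (dg 40 (320 * y + 40 * x) c) &&& (2 ^ 8 - 1) = _
    rw [Nat.and_two_pow_sub_one_eq_mod]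
    unfold dg
    rw [Nat.mod_mod_of_dvd]
    exact pow_dvd_pow 2 (by norm_num)
  have e3 : Nat.shiftRight (dg 40 (320 * y + 40 * x) c) 8 = dg 32 (320 * y + 40 * x + 8) c := by
    show (dg 40 (320 * y + 40 * x) c) >>> 8 = _
    rw [Nat.shiftRight_eq_div_pow]
    unfold dg
    rw [show (40 : ℕ) = 8 + 32 from rfl, Nat.pow_add 2 8 32, Nat.mod_mul_right_div_self,
      Nat.div_div_eq_div_mul, ← Nat.pow_add]
  rw [e1, e2, e3]
  beta_reduce
  generalize tbE M16 MU M192 M1536 (dg 32 (320 * y + 40 * x + 8) c)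
    (get T (dg 8 (320 * y + 40 * x) c)) = B
  have e4 : Nat.shiftLeft B (Nat.add (Nat.mul 98304 x) (Nat.mul 12288 y)) =
      B * 2 ^ (8 * 12288 * x + 12288 * y) := Nat.shiftLeft_eq _ _
  have e5 : Nat.shiftLeft B (Nat.add (Nat.mul 98304 y) (Nat.mul 12288 x)) =
      B * 2 ^ (8 * 12288 * y + 12288 * x) := Nat.shiftLeft_eq _ _
  rw [e4, e5]
  rfl

theorem of_TBE (hT : TBE) : Big.GFT := by
  intro n c T hn hπ x hx y hy hxy w hw z hz
  rw [gE2_eq]
  have e : 98304 * x + 12288 * y + 1536 * w + 192 * z =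
      8 * 12288 * x + (12288 * y + (1536 * w + 192 * z)) := by ring
  rw [e, digs n 12288 192 (1536 * w + 192 * z) hn _ (fun y hy x hx => (hT _ _ (hπ y hy x hx)).2)
    (by omega) x y hx hy hxy]
  have hmm : min x y < max x y := by
    rcases lt_or_gt_of_ne hxy with h1 | h1
    · rw [max_eq_right h1.le, min_eq_left h1.le]; exact h1
    · rw [max_eq_left h1.le, min_eq_right h1.le]; exact h1
  exact (hT _ _ (hπ (max x y) (max_lt hx hy) (min x y) hmm)).1 w hw z hz

end GFT

theorem pr_GFT : Big.GFT := GFT.of_TBE pr_TBE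

end Pool.Agent.Work.MP_f94384_co.Big
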