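import Pool.Agent.Work.MP_f94384_co.Big.Stmts3
import Pool.Agent.Work.MP_f94384_co.Big.P_GFT
import Pool.Agent.Work.MP_f94384_co.Big.P_PEN

/-!
# Kernel program for the certificates of order 7 and 8: item ENE
-/

set_option autoImplicit false

open Finset

namespace Pool.Agent.Work.MP_f94384_co.Big

open Pool.Agent.Work.MP_f94384_co.Flag

namespace ENE

theorem EOK_congr (W Z8 NT nB : ℕ) (FS : Tr) (e : ℕ) (r r' : ℕ → ℕ) (h : ∀ i < 8, r i = r' i)
    (h1 : EOK W Z8 NT nB FS e r) : EOK W Z8 NT nB FS e r' := by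
  refine ⟨h1.bun, h1.st, ?_, ?_⟩
  · intro i hi hr
    exact h1.ab i hi ((h i hi).trans hr)
  · intro i hi hr
    rw [← h i hi] at hr ⊢
    exact h1.pr i hi hr

theorem hi3 (π e : ℕ) : dg 16 176 (pent π e) = dg 16 176 e := PEN.hi π e 16 48 (by norm_num)

theorem of (hER2 : ER2) (hDKX : DKX) (hGUD : GUD) : ENE := by
  intro D zb t0 b h A c hd w hw z hz x hx y hy hdis
  have hN5 := h.w.N5
  have hN8 := h.w.N8
  obtain ⟨hwz, hwx, hwy, hzx, hzy, hxy⟩ := hdis
  have hdel := hDKX.2 D.N D.nR2 A c D.R2 (by omega) hN8 hd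
  have hmm : min x y < max x y := by
    rcases lt_or_gt_of_ne hxy with h1 | h1
    · rw [max_eq_right h1.le, min_eq_left h1.le]; exact h1
    · rw [max_eq_left h1.le, min_eq_right h1.le]; exact h1
  have hmx : min x y < D.N := lt_of_le_of_lt (min_le_left _ _) hx
  have hMx : max x y < D.N := max_lt hx hy
  have hne : ∀ v, v ≠ x → v ≠ y → v ≠ min x y ∧ v ≠ max x y := by
    intro v h1 h2
    constructor
    · rcases min_choice x y with h3 | h3 <;> rw [h3]
      · exact h1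
      · exact h2
    · rcases max_choice x y with h3 | h3 <;> rw [h3]
      · exact h1
      · exact h2
  obtain ⟨hj, hD⟩ := hdel (max x y) hMx (min x y) hmm
  have e1 := pr_GFT D.N c D.TE hN8 (fun y' hy' x' hx' i hi => (hdel y' hy' x' hx').2.lt i hi)
    x hx y hy hxy w (by omega) z (by omega)
  obtain ⟨hw1, hw2⟩ := hne w hwx hwy
  obtain ⟨hz1, hz2⟩ := hne z hzx hzy
  rw [e1]
  generalize dg 32 (320 * max x y + 40 * min x y + 8) c = π at *
  generalize dg 8 (320 * max x y + 40 * min x y) c = j at *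
  have hwp := hD.pr w hw hw1 hw2
  have hzp := hD.pr z hz hz1 hz2
  have hwzp : pf π w ≠ pf π z := fun he => hwz (hD.inj w hw hw1 hw2 z hz hz1 hz2 he)
  obtain ⟨e2, e3⟩ := hER2 D zb t0 b h j hj (pf π w) hwp (pf π z) hzp hwzp
  have e4 := pr_PEN _ _ _ _ _ π _ _ hD.lt e2
  have hG := hGUD D.bc D.N (D.N - 2) A (get D.R2 j) π (min x y) (max x y) hN8 (by omega) hD hmx hMx
  have hb := hG.2.1 w hw z hz hw1 hw2 hz1 hz2 hwz
  have hdd := hG.2.2.2 w hw z hz hw1 hw2 hz1 hz2 hwz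
  constructor
  · refine EOK_congr _ _ _ _ _ _ _ _ (fun i hi => ?_) e4
    obtain ⟨b1, b2⟩ := hb i hi
    rw [b1]
    rcases lt_or_gt_of_ne hxy with h1 | h1
    · rw [max_eq_right h1.le, min_eq_left h1.le]
    · rw [b2, max_eq_left h1.le, min_eq_right h1.le]
  · intro hv
    obtain ⟨e5, e6⟩ := e3 hv
    have hr : D.bc.rV (D.N - 2) (pa (get D.R2 j)) (pf π w) (pf π z) (D.N - 2) (D.N - 2) =
        D.bc.rV D.N (pa A) w z x y := by
      rw [hdd.1]
      rcases lt_or_gt_of_ne hxy with h1 | h1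
      · rw [max_eq_right h1.le, min_eq_left h1.le]
      · rw [hdd.2, max_eq_left h1.le, min_eq_right h1.le]
    rw [hi3, PEN.hi0, ← hr]
    exact ⟨e5, e6⟩

end ENE

end Pool.Agent.Work.MP_f94384_co.Big
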