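import Pool.Agent.Work.MP_f94384_co.Big.Stmts3
import Pool.Agent.Work.MP_f94384_co.Big.P_CKU

/-!
# Kernel program for the certificates of order 7 and 8: item ER1
-/

set_option autoImplicit false

open Finset

namespace Pool.Agent.Work.MP_f94384_co.Big

open Pool.Agent.Work.MP_f94384_co.Flag

namespace ER1

theorem EOK_congr (W Z8 NT nB : ℕ) (FS : Tr) (e : ℕ) (r r' : ℕ → ℕ) (h : ∀ i < 8, r i = r' i)
    (h1 : EOK W Z8 NT nB FS e r) : EOK W Z8 NT nB FS e r' := by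
  refine ⟨h1.bun, h1.st, ?_, ?_⟩
  · intro i hi hr
    exact h1.ab i hi ((h i hi).trans hr)
  · intro i hi hr
    rw [← h i hi] at hr ⊢
    exact h1.pr i hi hr

theorem of (hCKU : CKU) : ER1 := by
  intro D zb t0 b h j hj w hw
  have h1 := h.h j hj
  unfold cH at h1
  rw [fc_eq, fc_eq, fc_eq, fc_eq, fc_eq, fc_eq, fc_eq, cond_true_iff] at h1
  have h2 := h1.1
  clear h1
  have hN8 := h.w.N8
  obtain ⟨h3, h4⟩ := hCKU D.W (8 * D.Z) D.NU (D.N - 1) D.nBU D.FU D.HU (get D.R1 j) (get D.TU j)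
    (by omega) h2 w hw
  refine EOK_congr _ _ _ _ _ _ _ _ ?_ h3
  intro i hi
  show (if i < D.N - 1 then _ else 65535) = BC.gU D.bc (D.N - 1) (pa (get D.R1 j)) w (D.N - 1) i
  unfold BC.gU
  by_cases hin : i < D.N - 1
  · rw [if_pos hin, if_pos ⟨hin, by omega⟩]
    have h5 := h4 i hin
    show _ = min (fnd D.HU (hs (pa (get D.R1 j)) (cU (D.N - 1) w (D.N - 1) i))) 65535
    rw [min_eq_left h5.le]
  · rw [if_neg hin, if_neg (fun hc => hin hc.1)]

end ER1

theorem pr_ER1 : ER1 := ER1.of pr_CKU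

end Pool.Agent.Work.MP_f94384_co.Big
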