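import Pool.Agent.Work.MP_f94384_co.Big.Stmts2

/-!
# Item TBU: permuted tables of entries
-/

set_option autoImplicit false

open Finset

namespace Pool.Agent.Work.MP_f94384_co.Big

namespace TBU

/-- digits of separated fields: bound and bits -/
theorem tb_sum (s : ℕ) (hs : 0 < s) (f : ℕ → ℕ) : ∀ n : ℕ, (∀ i < n, f i < 2 ^ s) →
    (∑ i ∈ range n, f i * 2 ^ (s * i)) < 2 ^ (s * n) ∧
    ∀ t, (∑ i ∈ range n, f i * 2 ^ (s * i)).testBit t =
      (decide (t / s < n) && (f (t / s)).testBit (t % s)) := by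
  intro n
  induction n with
  | zero => intro _; simp
  | succ n ih =>
    intro h
    obtain ⟨h1, h2⟩ := ih fun i hi => h i (Nat.lt_succ_of_lt hi)
    have hn := h n (Nat.lt_succ_self n)
    have e : (∑ i ∈ range (n + 1), f i * 2 ^ (s * i)) =
        2 ^ (s * n) * f n + ∑ i ∈ range n, f i * 2 ^ (s * i) := by
      rw [Finset.sum_range_succ]; ring
    refine ⟨?_, ?_⟩
    · rw [e]
      calc 2 ^ (s * n) * f n + ∑ i ∈ range n, f i * 2 ^ (s * i)
          < 2 ^ (s * n) * f n + 2 ^ (s * n) := by omega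
        _ = 2 ^ (s * n) * (f n + 1) := by ring
        _ ≤ 2 ^ (s * n) * 2 ^ s := Nat.mul_le_mul_left _ hn
        _ = 2 ^ (s * (n + 1)) := by rw [← pow_add]; ring_nf
    · intro t
      rw [e, Nat.testBit_two_pow_mul_add _ h1]
      by_cases ht : t < s * n
      · have hd : t / s < n := (Nat.div_lt_iff_lt_mul hs).2 (by rwa [mul_comm] at ht)
        rw [if_pos ht, h2 t]
        simp only [hd, Nat.lt_succ_of_lt hd, decide_true, Bool.true_and]
      · rw [if_neg ht]
        push Not at ht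
        have hd : n ≤ t / s := (Nat.le_div_iff_mul_le hs).2 (by rwa [mul_comm] at ht)
        rcases Nat.eq_or_lt_of_le hd with hd | hd
        · have h3 : t % s = t - s * n := by
            rw [hd]; exact (Nat.sub_eq_of_eq_add (by rw [Nat.mod_add_div])).symm
          rw [← hd, h3]
          simp
        · have h4 : ¬ t / s < n + 1 := by omega
          have h5 : f n < 2 ^ (t - s * n) := by
            refine lt_of_lt_of_le hn (Nat.pow_le_pow_right (by norm_num) ?_)
            have h6 : (n + 1) * s ≤ t := (Nat.le_div_iff_mul_le hs).1 hd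
            have h7 : (n + 1) * s = s * n + s := by ring
            omega
          rw [Nat.testBit_lt_two_pow h5]
          simp [h4]

theorem tb_dg (w t x r : ℕ) : (dg w t x).testBit r = (decide (r < w) && x.testBit (t + r)) := by
  unfold dg
  rw [Nat.testBit_mod_two_pow, ← Nat.shiftRight_eq_div_pow, Nat.testBit_shiftRight]

theorem dg_dg (w t w' t' x : ℕ) (h : t + w ≤ w') : dg w t (dg w' t' x) = dg w (t' + t) x := by
  apply Nat.eq_of_testBit_eq
  intro r
  rw [tb_dg, tb_dg, tb_dg]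
  by_cases hr : r < w
  · have : t + r < w' := by omega
    simp [hr, this, add_assoc]
  · simp [hr]

theorem dg_shift (w t s x : ℕ) : dg w t (x >>> s) = dg w (s + t) x := by
  apply Nat.eq_of_testBit_eq
  intro r
  rw [tb_dg, tb_dg, Nat.testBit_shiftRight, add_assoc]

theorem msk (n s x : ℕ) (hs : 0 < s) (M : ℕ → ℕ) (hM : ∀ i < n, M i < 2 ^ s) :
    x &&& (∑ i ∈ range n, M i * 2 ^ (s * i)) =
      ∑ i ∈ range n, (dg s (s * i) x &&& M i) * 2 ^ (s * i) := by
  apply Nat.eq_of_testBit_eq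
  intro t
  have h1 := (tb_sum s hs M n hM).2 t
  have h2 := (tb_sum s hs (fun i => dg s (s * i) x &&& M i) n
    (fun i hi => lt_of_le_of_lt Nat.and_le_right (hM i hi))).2 t
  rw [Nat.testBit_and, h1, h2]
  simp only [Nat.testBit_and, tb_dg]
  have h3 : s * (t / s) + t % s = t := Nat.div_add_mod t s
  rw [h3]
  simp only [Nat.mod_lt t hs, decide_true, Bool.true_and]
  cases decide (t / s < n) <;> simp

theorem dgs (n s w t j : ℕ) (hs : 0 < s) (f : ℕ → ℕ) (hf : ∀ i < n, f i < 2 ^ s) (h : t + w ≤ s)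
    (hj : j < n) : dg w (s * j + t) (∑ i ∈ range n, f i * 2 ^ (s * i)) = dg w t (f j) := by
  apply Nat.eq_of_testBit_eq
  intro r
  rw [tb_dg, tb_dg]
  by_cases hr : r < w
  · have h1 : (s * j + t + r) / s = j := by
      rw [add_assoc, Nat.mul_add_div hs, Nat.div_eq_of_lt (by omega), add_zero]
    have h2 : (s * j + t + r) % s = t + r := by
      rw [add_assoc, Nat.mul_add_mod, Nat.mod_eq_of_lt (by omega)]
    rw [(tb_sum s hs f n hf).2, h1, h2]
    simp [hj]
  · simp [hr]

theorem dg_self (w x : ℕ) (h : x < 2 ^ w) : dg w 0 x = x := by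
  unfold dg
  rw [pow_zero, Nat.div_one, Nat.mod_eq_of_lt h]

/-- all blocks in one sum -/
theorem kk_sum (m Z : ℕ) : kk m Z = ∑ k ∈ range 64, m * 2 ^ (Z * k) := by
  have h : ∀ g : ℕ → ℕ, ∑ k ∈ range 64, g k = ∑ j ∈ range 8, ∑ i ∈ range 8, g (i + 8 * j) := by
    intro g
    simp only [Finset.sum_range_succ, Finset.range_zero, Finset.sum_empty]
    ring
  rw [kk_eq, h]
  refine Finset.sum_congr rfl fun j _ => ?_
  rw [Finset.sum_mul]
  refine Finset.sum_congr rfl fun i _ => ?_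
  rw [mul_assoc, ← pow_add]
  congr 2
  ring

theorem and_hi (a b y : ℕ) : y &&& (2 ^ (a + b) - 2 ^ a) = dg b a y * 2 ^ a := by
  apply Nat.eq_of_testBit_eq
  intro r
  have h1 : 2 ^ (a + b) - 2 ^ a = (2 ^ b - 1) * 2 ^ a := by
    rw [Nat.sub_mul, one_mul, ← pow_add, add_comm a b]
  rw [Nat.testBit_and, h1, Nat.testBit_mul_two_pow, Nat.testBit_mul_two_pow, tb_dg,
    Nat.testBit_two_pow_sub_one]
  by_cases h2 : a ≤ r
  · have h3 : a + (r - a) = r := by omega
    rw [h3]
    simp only [h2, decide_true, Bool.true_and]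
    rw [Bool.and_comm]
  · simp [h2]

theorem sum_pent_lt (π e : ℕ) : (∑ i ∈ range 8, dg 16 (16 * pf π i) e * 2 ^ (16 * i)) < 2 ^ 128 :=
  (tb_sum 16 (by norm_num) (fun i => dg 16 (16 * pf π i) e) 8 (fun _ _ => dg_lt _ _ _)).1

theorem pent_lt (π e : ℕ) : pent π e < 2 ^ 192 := by
  have h1 := sum_pent_lt π e
  have h2 : dg 64 128 e < 2 ^ 64 := dg_lt _ _ _
  unfold pent
  omega

theorem pos_eq (π T : ℕ) (hπ : ∀ i < 8, pf π i < 8) :
    pos (kk 65535 192) (kk (2 ^ 192 - 2 ^ 128) 192) π T =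
      ∑ k ∈ range 64, pent π (dg 192 (192 * k) T) * 2 ^ (192 * k) := by
  have hpos : pos (kk 65535 192) (kk (2 ^ 192 - 2 ^ 128) 192) π T =
    gP 16 (kk 65535 192) π T + (T &&& kk (2 ^ 192 - 2 ^ 128) 192) := rfl
  have hU : T &&& kk (2 ^ 192 - 2 ^ 128) 192 =
      ∑ k ∈ range 64, (dg 64 128 (dg 192 (192 * k) T) * 2 ^ 128) * 2 ^ (192 * k) := by
    rw [kk_sum, msk 64 192 T (by norm_num) (fun _ => 2 ^ 192 - 2 ^ 128) (fun _ _ => by norm_num)]
    refine Finset.sum_congr rfl fun k _ => ?_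
    rw [← and_hi 128 64 _]
  have hL : gP 16 (kk 65535 192) π T = ∑ k ∈ range 64,
      (∑ i ∈ range 8, dg 16 (16 * pf π i) (dg 192 (192 * k) T) * 2 ^ (16 * i)) *
        2 ^ (192 * k) := by
    rw [gP_eq]
    have h1 : ∀ i ∈ range 8, (T >>> (16 * pf π i) &&& kk 65535 192) * 2 ^ (16 * i) =
        ∑ k ∈ range 64, dg 16 (16 * pf π i) (dg 192 (192 * k) T) * 2 ^ (16 * i) *
          2 ^ (192 * k) := by
      intro i hi
      have hp := hπ i (Finset.mem_range.1 hi)
      rw [kk_sum, msk 64 192 _ (by norm_num) (fun _ => 65535) (fun _ _ => by norm_num),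
        Finset.sum_mul]
      refine Finset.sum_congr rfl fun k _ => ?_
      have h2 : dg 192 (192 * k) (T >>> (16 * pf π i)) &&& 65535 =
          dg 16 (16 * pf π i) (dg 192 (192 * k) T) := by
        rw [show (65535 : ℕ) = 2 ^ 16 - 1 by norm_num, Nat.and_two_pow_sub_one_eq_mod, dg_shift,
          dg_dg _ _ _ _ _ (by omega)]
        unfold dg
        rw [Nat.mod_mod_of_dvd _ (pow_dvd_pow 2 (by norm_num)), add_comm]
      rw [h2]
      ring
    rw [Finset.sum_congr rfl h1, Finset.sum_comm]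
    refine Finset.sum_congr rfl fun k _ => ?_
    rw [Finset.sum_mul]
  rw [hpos, hL, hU, ← Finset.sum_add_distrib]
  refine Finset.sum_congr rfl fun k _ => ?_
  rw [← add_mul]
  rfl

/-- blocks of the table with permuted positions -/
theorem dg_pos (π T k : ℕ) (hπ : ∀ i < 8, pf π i < 8) (hk : k < 64) :
    dg 192 (192 * k) (pos (kk 65535 192) (kk (2 ^ 192 - 2 ^ 128) 192) π T) =
      pent π (dg 192 (192 * k) T) := by
  rw [pos_eq π T hπ]
  have h := dgs 64 192 192 0 k (by norm_num) (fun k => pent π (dg 192 (192 * k) T))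
    (fun _ _ => pent_lt _ _) (by norm_num) hk
  rw [add_zero] at h
  rw [h, dg_self _ _ (pent_lt _ _)]

end TBU

/-- Item TBU -/
theorem pr_TBU : TBU := by
  intro π T hπ
  have h0 : tbU (kk 65535 192) (kk (2 ^ 192 - 2 ^ 128) 192) (2 ^ 192 - 1) π T =
      ∑ w ∈ range 8, pent π (dg 192 (192 * pf π w) T) * 2 ^ (192 * w) := by
    unfold tbU
    rw [fc_eq, gP_eq]
    refine Finset.sum_congr rfl fun w hw => ?_
    have h1 := bts_eq 192 (pos (kk 65535 192) (kk (2 ^ 192 - 2 ^ 128) 192) π T) (192 * pf π w)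
    have h2 : pos (kk 65535 192) (kk (2 ^ 192 - 2 ^ 128) 192) π T >>> (192 * pf π w) &&&
      (2 ^ 192 - 1) = dg 192 (192 * pf π w)
        (pos (kk 65535 192) (kk (2 ^ 192 - 2 ^ 128) 192) π T) := h1
    rw [h2, TBU.dg_pos π T _ hπ (lt_of_lt_of_le (hπ w (Finset.mem_range.1 hw)) (by norm_num))]
  have hb := TBU.tb_sum 192 (by norm_num) (fun w => pent π (dg 192 (192 * pf π w) T)) 8
    (fun _ _ => TBU.pent_lt _ _)
  rw [h0]
  refine ⟨fun w hw => ?_, ?_⟩
  · have h := TBU.dgs 8 192 192 0 w (by norm_num) (fun w => pent π (dg 192 (192 * pf π w) T))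
      (fun _ _ => TBU.pent_lt _ _) (by norm_num) hw
    rw [add_zero] at h
    rw [h, TBU.dg_self _ _ (TBU.pent_lt _ _)]
  · have := hb.1
    norm_num only at this ⊢
    exact this

end Pool.Agent.Work.MP_f94384_co.Big
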