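import Pool.Agent.Work.MP_f94384_co.Big.Stmts2
import Pool.Agent.Work.MP_f94384_co.Big.P_DGS
import Pool.Agent.Work.MP_f94384_co.Big.P_DGG
import Pool.Agent.Work.MP_f94384_co.Big.P_TBU

/-!
# Kernel program for the certificates of order 7 and 8: table of the entries (item GUT)
-/

set_option autoImplicit false

open Finset

namespace Pool.Agent.Work.MP_f94384_co.Big

namespace GUT

theorem cfd_eq (c t : ℕ) : cfd c t = dg 40 t c := bts_eq 40 c t

theorem land255 (c t : ℕ) : Nat.land (cfd c t) 255 = dg 8 t c := by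
  rw [cfd_eq]
  show dg 40 t c &&& (2 ^ 8 - 1) = _
  rw [Nat.and_two_pow_sub_one_eq_mod]
  exact (pr_DGG).2.2.1 8 40 t c (by norm_num)

theorem shr8 (c t : ℕ) : Nat.shiftRight (cfd c t) 8 = dg 32 (t + 8) c := by
  have h : cfd c t < 2 ^ 40 := by rw [cfd_eq]; exact dg_lt _ _ _
  have h0 : Nat.shiftRight (cfd c t) 8 = cfd c t / 2 ^ 8 := Nat.shiftRight_eq_div_pow _ _
  have h1 : cfd c t / 2 ^ 8 = dg 32 8 (cfd c t) := by
    unfold dg
    rw [Nat.mod_eq_of_lt]
    rw [Nat.div_lt_iff_lt_mul (by norm_num)]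
    exact h
  rw [h0, h1, cfd_eq, (pr_DGG).1 32 8 40 t c (by norm_num)]

/-- the table as a sum of separated fields -/
theorem gU_eq (n M16 MU M192 : ℕ) (T : Tr) (c : ℕ) : gU n M16 MU M192 T c =
    ∑ x ∈ range n, tbU M16 MU M192 (dg 32 (40 * x + 8) c) (get T (dg 8 (40 * x) c)) *
      2 ^ (1536 * x) := by
  unfold gU
  rw [sumL_eq, Nat.zero_add]
  refine Finset.sum_congr rfl fun x _ => ?_
  rw [fc_eq, fc_eq, fc_eq]
  have e : Nat.mul 40 x = 40 * x := rfl
  rw [e, land255, shr8]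
  exact Nat.shiftLeft_eq _ _

theorem main (hT : TBU) : GUT := by
  intro n c T hn hp x hx w hw
  rw [gU_eq]
  have h1 : ∀ i < n, (fun x => tbU (kk 65535 192) (kk (2 ^ 192 - 2 ^ 128) 192) (2 ^ 192 - 1)
      (dg 32 (40 * x + 8) c) (get T (dg 8 (40 * x) c))) i < 2 ^ 1536 := by
    intro i hi
    exact (hT _ _ (hp i hi)).2
  have h2 := (pr_DGS n 1536 192 (192 * w) x _ h1 (by omega)).1
  rw [if_pos hx] at h2
  rw [h2]
  exact (hT _ _ (hp x hx)).1 w hw

end GUT

theorem pr_GUT : GUT := GUT.main pr_TBU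

end Pool.Agent.Work.MP_f94384_co.Big
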