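import Pool.Agent.Work.MP_f94384_co.Big.Stmts3
import Pool.Agent.Work.MP_f94384_co.Big.P_GUT
import Pool.Agent.Work.MP_f94384_co.Big.P_PEN
import Pool.Agent.Work.MP_f94384_co.Big.P_ER1
import Pool.Agent.Work.MP_f94384_co.Big.P_DKX
import Pool.Agent.Work.MP_f94384_co.Big.P_GUD

/-!
# Kernel program for the certificates of order 7 and 8: item ENU
-/

set_option autoImplicit false

open Finset

namespace Pool.Agent.Work.MP_f94384_co.Big

open Pool.Agent.Work.MP_f94384_co.Flag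

namespace ENU

theorem EOK_congr (W Z8 NT nB : ℕ) (FS : Tr) (e : ℕ) (r r' : ℕ → ℕ) (h : ∀ i < 8, r i = r' i)
    (h1 : EOK W Z8 NT nB FS e r) : EOK W Z8 NT nB FS e r' := by
  refine ⟨h1.bun, h1.st, ?_, ?_⟩
  · intro i hi hr
    exact h1.ab i hi ((h i hi).trans hr)
  · intro i hi hr
    rw [← h i hi] at hr ⊢
    exact h1.pr i hi hr

theorem of (hGUT : GUT) (hPEN : PEN) (hER1 : ER1) (hDKX : DKX) (hGUD : GUD) : ENU := by
  intro D zb t0 b h A c hd w hw x hx hwx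
  have hN5 := h.w.N5
  have hN8 := h.w.N8
  have hdel := hDKX.1 D.N D.nR1 A c D.R1 (by omega) hN8 hd
  obtain ⟨hj, hD⟩ := hdel x hx
  have e1 := hGUT D.N c D.TU hN8 (fun x' hx' i hi => (hdel x' hx').2.lt i hi) x hx w (by omega)
  have e2 := hER1 D zb t0 b h (dg 8 (40 * x) c) hj (pf (dg 32 (40 * x + 8) c) w)
    (hD.pr w hw hwx hwx)
  have e3 := hPEN _ _ _ _ _ (dg 32 (40 * x + 8) c) _ _ hD.lt e2
  have e4 := (hGUD D.bc D.N (D.N - 1) A _ _ x x hN8 (by omega) hD hx hx).1 w hw hwx rfl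
  rw [e1]
  exact EOK_congr _ _ _ _ _ _ _ _ e4 e3

end ENU

theorem pr_ENU : ENU := ENU.of pr_GUT pr_PEN pr_ER1 pr_DKX pr_GUD

end Pool.Agent.Work.MP_f94384_co.Big
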