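import Pool.Agent.Work.MP_f94384_co.Big.Stmts3
import Pool.Agent.Work.MP_f94384_co.Big.P_CKF

/-!
# Kernel program for the certificates of order 7 and 8: item ER2
-/

set_option autoImplicit false

open Finset

namespace Pool.Agent.Work.MP_f94384_co.Big

open Pool.Agent.Work.MP_f94384_co.Flag

namespace ER2

theorem EOK_congr (W Z8 NT nB : ℕ) (FS : Tr) (e : ℕ) (r r' : ℕ → ℕ) (h : ∀ i < 8, r i = r' i)
    (h1 : EOK W Z8 NT nB FS e r) : EOK W Z8 NT nB FS e r' := by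
  refine ⟨h1.bun, h1.st, ?_, ?_⟩
  · intro i hi hr
    exact h1.ab i hi ((h i hi).trans hr)
  · intro i hi hr
    rw [← h i hi] at hr ⊢
    exact h1.pr i hi hr

theorem of (hCKF : CKF) : ER2 := by
  intro D zb t0 b h j hj w hw z hz hwz
  have h1 := h.j j hj
  have hN8 := h.w.N8
  obtain ⟨h3, h4, h5⟩ := hCKF D.W (8 * D.Z) D.NE (D.N - 2) D.nBE D.v D.FE D.FV D.HE D.HV
    (get D.R2 j) (get D.TE j) (by omega) h1 w hw z hz hwz
  refine ⟨EOK_congr _ _ _ _ _ _ _ _ ?_ h3, ?_⟩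
  · intro i hi
    show (if i < D.N - 2 then _ else 65535) =
      BC.gE D.bc (D.N - 2) (pa (get D.R2 j)) w z (D.N - 2) (D.N - 2) i
    unfold BC.gE
    by_cases hin : i < D.N - 2
    · rw [if_pos hin, if_pos ⟨hin, by omega, by omega⟩]
      have h6 := h4 i hin
      show _ = min (fnd D.HE (hs (pa (get D.R2 j)) (cE (D.N - 2) w z (D.N - 2) (D.N - 2) i))) 65535
      rw [min_eq_left h6]
    · rw [if_neg hin, if_neg (fun hc => hin hc.1)]
  · intro hv
    obtain ⟨h6, h7⟩ := h5 hv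
    have h8 := dg_lt 16 176 (dg 192 (1536 * w + 192 * z) (get D.TE j))
    rw [h6] at h8
    have h9 : BC.rV D.bc (D.N - 2) (pa (get D.R2 j)) w z (D.N - 2) (D.N - 2) =
        fnd D.HV (hs (pa (get D.R2 j)) (cE (D.N - 2) w z (D.N - 2) (D.N - 2) w)) := by
      show min (fnd D.HV (hs (pa (get D.R2 j)) (cE (D.N - 2) w z (D.N - 2) (D.N - 2) w))) 65535 = _
      rw [min_eq_left]
      exact Nat.le_of_lt_succ (by simpa using h8)
    rw [h9]
    exact ⟨h6, h7⟩

end ER2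

theorem pr_ER2 : ER2 := ER2.of pr_CKF

end Pool.Agent.Work.MP_f94384_co.Big
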