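import Pool.Agent.Work.MP_f94384_co.Big.Stmts3

/-!
# Item MAT: matrices from the types
-/

set_option autoImplicit false

open Finset

namespace Pool.Agent.Work.MP_f94384_co.Big

open Pool.Agent.Work.MP_f94384_co.Flag

namespace MAT

theorem tv_zero (c o : ℕ) : tv c o 0 = 0 := by
  simp [tv]

theorem psd_congr {n : ℕ} {Y Y' : ℕ → ℕ → ℤ} (h : ∀ a < n, ∀ b < n, Y a b = Y' a b)
    (hY : PSDn n Y') : PSDn n Y := by
  obtain ⟨s, b, hb⟩ := hY
  refine ⟨s, b, fun p hp q hq => ?_⟩
  rw [h p hp q hq]
  exact hb p hp q hq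

theorem psd_zero (n : ℕ) : PSDn n (fun _ _ => 0) :=
  ⟨0, fun _ _ => 0, fun p _ q _ => by simp⟩

theorem psd_add {n : ℕ} {Y Y' : ℕ → ℕ → ℤ} (hY : PSDn n Y) (hY' : PSDn n Y') :
    PSDn n (fun a b => Y a b + Y' a b) := by
  obtain ⟨s, b, hb⟩ := hY
  obtain ⟨s', b', hb'⟩ := hY'
  refine ⟨s + s', fun a p => if a < s then b a p else b' (a - s) p, fun p hp q hq => ?_⟩
  push_cast
  rw [hb p hp q hq, hb' p hp q hq, Finset.sum_range_add]
  congr 1
  · refine Finset.sum_congr rfl fun a ha => ?_
    rw [if_pos (Finset.mem_range.1 ha), if_pos (Finset.mem_range.1 ha)]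
  · refine Finset.sum_congr rfl fun a _ => ?_
    have h : ¬ s + a < s := by omega
    rw [if_neg h, if_neg h, Nat.add_sub_cancel_left]

theorem psd_ext {n m t : ℕ} {Y Y' : ℕ → ℕ → ℤ} (hY : PSDn m Y)
    (h1 : ∀ p < n, ∀ q < n, p / 256 = t → q / 256 = t → p % 256 < m → q % 256 < m →
      Y' p q = Y (p % 256) (q % 256))
    (h2 : ∀ p < n, ∀ q < n, ¬ (p / 256 = t ∧ p % 256 < m ∧ q / 256 = t ∧ q % 256 < m) →
      Y' p q = 0) : PSDn n Y' := by
  obtain ⟨s, b, hb⟩ := hY
  refine ⟨s, fun a p => if p / 256 = t ∧ p % 256 < m then b a (p % 256) else 0,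
    fun p hp q hq => ?_⟩
  by_cases h : p / 256 = t ∧ p % 256 < m ∧ q / 256 = t ∧ q % 256 < m
  · obtain ⟨ha, hb1, hc, hd⟩ := h
    rw [h1 p hp q hq ha hc hb1 hd, hb _ hb1 _ hd]
    refine Finset.sum_congr rfl fun a _ => ?_
    beta_reduce
    rw [if_pos ⟨ha, hb1⟩, if_pos ⟨hc, hd⟩]
  · rw [h2 p hp q hq h, Int.cast_zero]
    symm
    refine Finset.sum_eq_zero fun a _ => ?_
    beta_reduce
    by_cases h3 : p / 256 = t ∧ p % 256 < m
    · have h4 : ¬ (q / 256 = t ∧ q % 256 < m) := fun h4 => h ⟨h3.1, h3.2, h4.1, h4.2⟩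
      rw [if_neg h4, mul_zero]
    · rw [if_neg h3, zero_mul]

theorem cod_one {c o d : ℕ} (hoc : o < c) (h1 : 2 ^ c ≤ d) (h2 : d < 2 ^ c + 2 ^ (o + 1)) :
    Cod c o 1 d (tv c o d) := by
  have h3 : (2 : ℕ) ^ (o + 1) ≤ 2 ^ c := Nat.pow_le_pow_right (by norm_num) hoc
  have hdiv : d / 2 ^ c = 1 := by
    apply Nat.div_eq_of_lt_le
    · simpa using h1
    · omega
  have hmod : d % 2 ^ c = d - 2 ^ c := by
    have := Nat.div_add_mod d (2 ^ c)
    rw [hdiv] at this
    omega
  have htv : tv c o d = ((d - 2 ^ c : ℕ) : ℤ) - 2 ^ o := by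
    unfold tv
    rw [hdiv, hmod]
    push_cast
    ring
  have hsub : ((d - 2 ^ c : ℕ) : ℤ) = (d : ℤ) - 2 ^ c := by
    rw [Nat.cast_sub h1]
    push_cast
    ring
  have h1' : (2 : ℤ) ^ c ≤ d := by exact_mod_cast h1
  have h2' : (d : ℤ) < 2 ^ c + 2 ^ (o + 1) := by exact_mod_cast h2
  refine ⟨1, le_refl 1, ?_, ?_, Or.inr ?_⟩
  · rw [htv, hsub]; push_cast; ring
  · rw [htv, hsub]; push_cast; linarith
  · rw [htv, hsub]; push_cast; linarith

theorem cod_zero (c o : ℕ) : Cod c o 1 0 (tv c o 0) := by
  rw [tv_zero]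
  exact ⟨0, by norm_num, by simp, by simp, Or.inl (by simp)⟩

end MAT

open MAT in
theorem pr_MAT : MAT := by
  intro W c o NT t0 R b hoc hT hb hb1
  have hsplit : ∀ a : ℕ, 256 * (a / 256) + a % 256 = a := fun a => Nat.div_add_mod a 256
  refine ⟨?_, ?_, ?_⟩
  · -- semidefiniteness
    have key : ∀ t ≤ 256, PSDn 65536 (fun a a' => if a / 256 = a' / 256 ∧ a / 256 < t then
        tv c o (dig W NT R a a') - b a * b a' else 0) := by
      intro t
      induction t with
      | zero =>
        intro _
        refine psd_congr (Y' := fun _ _ => 0) (fun a _ a' _ => ?_) (psd_zero _)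
        rw [if_neg (fun h => Nat.not_lt_zero _ h.2)]
      | succ t ih =>
        intro ht
        have h1 := ih (by omega)
        have h2 : PSDn 65536 (fun a a' => if a / 256 = t ∧ a' / 256 = t then
            tv c o (dig W NT R a a') - b a * b a' else 0) := by
          refine psd_ext (n := 65536) (t := t) (hT t (by omega)).2.2.2 ?_ ?_
          · intro p _ q _ hp hq hpm hqm
            have hdig : dig W NT R p q = dg W (W * (p % 256)) (R q) := by
              unfold dig
              rw [hq]
              rw [if_pos ⟨hp, hpm, hqm⟩]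
            have e1 : 256 * t + q % 256 = q := by rw [← hq]; exact hsplit q
            have e2 : 256 * t + p % 256 = p := by rw [← hp]; exact hsplit p
            rw [if_pos ⟨hp, hq⟩, hdig]
            show _ = tv c o (dg W (W * (p % 256)) (R (256 * t + q % 256))) -
              b (256 * t + p % 256) * b (256 * t + q % 256)
            rw [e1, e2]
          · intro p _ q _ h
            by_cases hpq : p / 256 = t ∧ q / 256 = t
            · rw [if_pos hpq]
              obtain ⟨hp, hq⟩ := hpq
              have hdig : dig W NT R p q = 0 := by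
                unfold dig
                rw [hq]
                rw [if_neg]
                rintro ⟨_, h3, h4⟩
                exact h ⟨hp, h3, hq, h4⟩
              rw [hdig, tv_zero]
              have hz : b p = 0 ∨ b q = 0 := by
                by_cases h3 : p % 256 < dg 8 (8 * t) NT
                · right
                  apply hb1
                  rw [hq]
                  by_contra h4
                  exact h ⟨hp, h3, hq, not_le.1 h4⟩
                · left
                  apply hb1
                  rw [hp]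
                  exact not_lt.1 h3
              rcases hz with hz | hz
              · rw [hz]; ring
              · rw [hz]; ring
            · rw [if_neg hpq]
        refine psd_congr (fun a _ a' _ => ?_) (psd_add h1 h2)
        generalize tv c o (dig W NT R a a') - b a * b a' = X
        generalize a / 256 = u
        generalize a' / 256 = v
        split_ifs with g1 g2 g3 g4 g5 g6
        all_goals first | (exfalso; omega) | simp
    refine psd_congr (fun a ha a' ha' => ?_) (key 256 (le_refl _))
    by_cases h3 : a / 256 = a' / 256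
    · rw [if_pos ⟨h3, by omega⟩]
    · rw [if_neg (fun h => h3 h.1)]
      have hdig : dig W NT R a a' = 0 := by
        unfold dig
        rw [if_neg (fun h => h3 h.1)]
      rw [hdig, tv_zero]
      by_cases h4 : a / 256 = t0
      · rw [hb a' (fun h5 => h3 (h4.trans h5.symm))]; ring
      · rw [hb a h4]; ring
  · -- symmetry
    intro a ha a' ha'
    unfold dig
    by_cases h : a / 256 = a' / 256 ∧ a % 256 < dg 8 (8 * (a' / 256)) NT ∧
        a' % 256 < dg 8 (8 * (a' / 256)) NT
    · obtain ⟨h1, h2, h3⟩ := h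
      rw [if_pos ⟨h1, h2, h3⟩]
      rw [h1, if_pos ⟨rfl, h3, h2⟩]
      have hs := (hT (a' / 256) (by omega)).2.2.1 (a' % 256) h3 (a % 256) h2
      have e1 : 256 * (a' / 256) + a' % 256 = a' := hsplit a'
      have e2 : 256 * (a' / 256) + a % 256 = a := by rw [← h1]; exact hsplit a
      simp only [e1, e2] at hs
      exact hs
    · rw [if_neg h, if_neg]
      rintro ⟨h1, h2, h3⟩
      rw [← h1] at h2 h3
      exact h ⟨h1.symm, h3, h2⟩
  · -- codes
    intro a ha a' ha'
    unfold dig
    by_cases h : a / 256 = a' / 256 ∧ a % 256 < dg 8 (8 * (a' / 256)) NT ∧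
        a' % 256 < dg 8 (8 * (a' / 256)) NT
    · rw [if_pos h]
      obtain ⟨h1, h2, h3⟩ := h
      have hs := (hT (a' / 256) (by omega)).2.1 (a' % 256) h3 (a % 256) h2
      have e1 : 256 * (a' / 256) + a' % 256 = a' := hsplit a'
      simp only [e1] at hs
      exact cod_one hoc hs.1 hs.2
    · rw [if_neg h]
      exact cod_zero c o

end Pool.Agent.Work.MP_f94384_co.Big
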