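import Pool.Agent.Work.MP_f94384_co.Big.Stmts2
import Pool.Agent.Work.MP_f94384_co.Big.P_DGS

/-!
# Digits of a bundle
-/

set_option autoImplicit false

open Finset

namespace Pool.Agent.Work.MP_f94384_co.Big

namespace BUN

theorem b255 (x t : ℕ) : bts 255 x t = dg 8 t x := bts_eq 8 x t

theorem b65535 (x t : ℕ) : bts 65535 x t = dg 16 t x := bts_eq 16 x t

theorem rowP_lt (W Z8 NT : ℕ) (B WH : Tr) (id : ℕ) :
    rowP W Z8 NT B WH id < 2 ^ strd W Z8 (dg 8 (8 * (id >>> 8)) NT) := by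
  unfold rowP
  rw [fc_eq, fc_eq, fc_eq, b255]
  show _ % (1 <<< _) < _
  rw [Nat.shiftLeft_eq, one_mul]
  exact Nat.mod_lt _ (by positivity)

theorem cond_eq (b : Bool) (x y : ℕ) : cond b x y = if b = true then x else y := by
  cases b <;> rfl

theorem ckb_of (W Z8 NT : ℕ) (B WH FS : Tr) (F : ℕ) (h : ckb W Z8 NT B WH FS F = true) :
    (∀ s < 8, dg 16 (16 * s) (get FS F) ≠ 65535 →
      dg 16 (16 * s) (get FS F) >>> 8 = dg 8 8 (get FS F)) ∧
    get B F = ∑ s ∈ range 8, (if dg 16 (16 * s) (get FS F) = 65535 then 0 else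
      rowP W Z8 NT B WH (dg 16 (16 * s) (get FS F))) *
        2 ^ (strd W Z8 (dg 8 (8 * dg 8 8 (get FS F)) NT) * s) := by
  unfold ckb at h
  rw [fc_eq, fc_eq, fc_eq, fc_eq, cond_true_iff, allL_iff, beq_iff, b255, b255, sumL_eq,
    Nat.zero_add] at h
  obtain ⟨h1, h2⟩ := h
  refine ⟨fun s hs hne => ?_, ?_⟩
  · have h3 := h1 s hs
    rw [fc_eq, b65535, show Nat.mul 16 s = 16 * s from rfl] at h3
    have h4 : Nat.beq (dg 16 (16 * s) (get FS F)) 65535 = false := by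
      rw [← Bool.not_eq_true, beq_iff]
      exact hne
    rw [h4, cond_false, beq_iff] at h3
    exact h3
  · rw [h2]
    apply Finset.sum_congr rfl
    intro s _
    rw [fc_eq, b65535, show Nat.mul 16 s = 16 * s from rfl, fc_eq, cond_eq]
    by_cases hc : dg 16 (16 * s) (get FS F) = 65535
    · rw [if_pos hc, if_pos ((beq_iff _ _).2 hc), Nat.zero_mul]
    · rw [if_neg hc, if_neg fun h5 => hc ((beq_iff _ _).1 h5)]
      exact Nat.shiftLeft_eq _ _

end BUN

theorem pr_BUN : BUN := by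
  intro W Z8 NT nB B WH FS e r hB hE j hj hr k hk
  obtain ⟨h1, h2⟩ := BUN.ckb_of W Z8 NT B WH FS _ (hB _ hE.bun)
  obtain ⟨p1, p2, p3, p4⟩ := hE.pr j hj hr
  have hlt : dg 8 (8 * dg 8 168 e) NT < 256 := dg_lt _ _ _
  have hty : r j >>> 8 = dg 8 168 e := by
    rw [Nat.shiftRight_eq_div_pow]
    omega
  have hid : dg 8 168 e = dg 8 8 (get FS (dg 16 128 e)) := by
    rw [← hty, ← p4]
    exact h1 _ p3 (by rw [p4]; exact hr)
  have hS : strd W Z8 (dg 8 (8 * dg 8 8 (get FS (dg 16 128 e))) NT) = dg 24 144 e := by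
    rw [← hid]
    exact hE.st.symm
  rw [hS] at h2
  have hf : ∀ s < 8, (if dg 16 (16 * s) (get FS (dg 16 128 e)) = 65535 then 0 else
      rowP W Z8 NT B WH (dg 16 (16 * s) (get FS (dg 16 128 e)))) < 2 ^ dg 24 144 e := by
    intro s hs
    by_cases hc : dg 16 (16 * s) (get FS (dg 16 128 e)) = 65535
    · rw [if_pos hc]
      positivity
    · rw [if_neg hc, ← hS, ← h1 s hs hc]
      exact BUN.rowP_lt _ _ _ _ _ _
  have h3 := (pr_DGS 8 (dg 24 144 e) W (W * k) (esl e j) _ hf hk).1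
  rw [Nat.add_comm (W * k), h2, h3, if_pos p3, p4, if_neg hr]

end Pool.Agent.Work.MP_f94384_co.Big
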