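import Pool.Agent.Work.MP_f94384_co.Big.Stmts2
import Pool.Agent.Work.MP_f94384_co.Big.P_NST
import Pool.Agent.Work.MP_f94384_co.Big.P_DGG
import Pool.Agent.Work.MP_f94384_co.Big.P_DGS

/-!
# Kernel program for the certificates of order 7 and 8: one contribution (item PEE)
-/

set_option autoImplicit false

open Finset

namespace Pool.Agent.Work.MP_f94384_co.Big

open Pool.Agent.Work.MP_f94384_co.Flag

namespace PEE

theorem msk : MSK := by
  intro n s x M hM
  rcases Nat.eq_zero_or_pos s with rfl | hs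
  · have h0 : ∀ i < n, M i = 0 := fun i hi => by
      have := hM i hi
      simpa using this
    rw [Finset.sum_eq_zero fun i hi => by rw [h0 i (Finset.mem_range.1 hi), zero_mul],
      Finset.sum_eq_zero fun i hi => by rw [h0 i (Finset.mem_range.1 hi)]; simp]
    simp
  · have hA : ∀ i < n, dg s (s * i) x &&& M i < 2 ^ s := fun i hi =>
      Nat.and_le_right.trans_lt (hM i hi)
    show x &&& NST.S s n M = NST.S s n fun i => dg s (s * i) x &&& M i
    refine NST.ext_bits (n := n) hs (fun k hk r hr => ?_) fun p hp => ?_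
    · rw [Nat.testBit_and, NST.S_bit s n M hM k r hk hr, NST.S_bit s n _ hA k r hk hr,
        Nat.testBit_and]
      congr 1
      unfold dg
      rw [Nat.testBit_mod_two_pow, Nat.testBit_div_two_pow]
      simp [hr, Nat.add_comm]
    · rw [Nat.testBit_and, NST.S_bit_ge s n M hM p hp, NST.S_bit_ge s n _ hA p hp, Bool.and_false]

theorem pE_eq (W m Z Z8 M8 : ℕ) (T : Tr) (el er : ℕ) : pE W m Z Z8 M8 T el er =
    if dg 8 168 el = dg 8 168 er then
      gS (dg 24 144 er) Z8 M8 er (gC W Z (kS m (dg 24 144 er)) el (get T (dg 16 128 er)))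
    else 0 := by
  have h1 : bts 255 el 168 = dg 8 168 el := bts_eq 8 el 168
  have h2 : bts 255 er 168 = dg 8 168 er := bts_eq 8 er 168
  have h3 : bts 65535 er 128 = dg 16 128 er := bts_eq 16 er 128
  have h4 : bts 16777215 er 144 = dg 24 144 er := bts_eq 24 er 144
  unfold pE
  rw [h1, h2, h3, h4, fc_eq, fc_eq, fc_eq, fc_eq]
  by_cases h : dg 8 168 el = dg 8 168 er
  · rw [if_pos h, (beq_iff _ _).2 h, cond_true]
  · have h5 : Nat.beq (dg 8 168 el) (dg 8 168 er) = false := by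
      cases h6 : Nat.beq (dg 8 168 el) (dg 8 168 er) with
      | false => rfl
      | true => exact absurd ((beq_iff _ _).1 h6) h
    rw [if_neg h, h5, cond_false]

theorem main (hM : MSK) (hD : DGS) (hG : DGG) (W Z S R el er : ℕ) (h1 : W ≤ Z)
    (h2 : 8 * Z ≤ S) : gS S (8 * Z) (2 ^ (8 * Z) - 1) er (gC W Z (kS (2 ^ W - 1) S) el R) =
    nst Z fun i j => if esl er j < 8 then dg W (W * eco el i + S * esl er j) R else 0 := by
  obtain ⟨-, g2, g3, -, g5, -⟩ := hG
  have hWS : W ≤ S := by omega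
  have hpW : 2 ^ W - 1 < 2 ^ S :=
    (Nat.sub_lt (by positivity) one_pos).trans_le (Nat.pow_le_pow_right (by norm_num) hWS)
  have hmask : ∀ x : ℕ, x &&& kS (2 ^ W - 1) S = ∑ s ∈ range 8, dg W (S * s) x * 2 ^ (S * s) := by
    intro x
    rw [kS_eq, hM 8 S x (fun _ => 2 ^ W - 1) fun _ _ => hpW]
    refine Finset.sum_congr rfl fun s _ => ?_
    rw [Nat.and_two_pow_sub_one_eq_mod, g3 W S (S * s) x hWS]
  set f : ℕ → ℕ := fun s => ∑ i ∈ range 8, dg W (W * eco el i + S * s) R * 2 ^ (Z * i) with hf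
  have hL : gC W Z (kS (2 ^ W - 1) S) el R = ∑ s ∈ range 8, f s * 2 ^ (S * s) := by
    rw [gC_eq]
    have h3 : ∀ i, (R >>> (W * eco el i) &&& kS (2 ^ W - 1) S) * 2 ^ (Z * i) =
        ∑ s ∈ range 8, dg W (W * eco el i + S * s) R * 2 ^ (Z * i) * 2 ^ (S * s) := by
      intro i
      rw [hmask, Finset.sum_mul]
      refine Finset.sum_congr rfl fun s _ => ?_
      rw [g2]
      ring
    rw [Finset.sum_congr rfl fun i _ => h3 i, Finset.sum_comm]
    refine Finset.sum_congr rfl fun s _ => ?_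
    rw [hf, Finset.sum_mul]
  have hflt : ∀ s, f s < 2 ^ (8 * Z) := by
    intro s
    have h3 := (hD 8 Z 0 0 0 (fun i => dg W (W * eco el i + S * s) R) (fun i _ =>
      (dg_lt _ _ _).trans_le (Nat.pow_le_pow_right (by norm_num) h1)) (Nat.zero_le _)).2
    rw [mul_comm Z 8] at h3
    exact h3
  have hdig : ∀ σ, (gC W Z (kS (2 ^ W - 1) S) el R >>> (S * σ) &&& (2 ^ (8 * Z) - 1)) =
      if σ < 8 then f σ else 0 := by
    intro σ
    have h3 : (gC W Z (kS (2 ^ W - 1) S) el R >>> (S * σ) &&& (2 ^ (8 * Z) - 1)) =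
        dg (8 * Z) (S * σ) (gC W Z (kS (2 ^ W - 1) S) el R) := bts_eq (8 * Z) _ _
    have h4 := (hD 8 S (8 * Z) 0 σ f (fun i _ =>
      (hflt i).trans_le (Nat.pow_le_pow_right (by norm_num) h2)) (by omega)).1
    rw [add_zero] at h4
    rw [h3, hL, h4, g5 _ _ (hflt σ)]
  rw [gS_eq]
  unfold nst
  refine Finset.sum_congr rfl fun j _ => ?_
  rw [hdig]
  congr 1
  by_cases h : esl er j < 8
  · simp only [if_pos h]
    rfl
  · simp only [if_neg h, zero_mul, Finset.sum_const_zero]

end PEE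

theorem pr_PEE : PEE := by
  intro W Z el er T h1 h2
  rw [PEE.pE_eq, PEE.main PEE.msk pr_DGS pr_DGG W Z _ _ el er h1 h2]

end Pool.Agent.Work.MP_f94384_co.Big
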