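import Pool.Agent.Work.MP_f94384_co.Big.Stmts2
import Pool.Agent.Work.MP_f94384_co.Big.P_DGG
import Pool.Agent.Work.MP_f94384_co.Big.P_PEE
import Pool.Agent.Work.MP_f94384_co.Big.P_BUN

/-!
# One contribution in terms of rows
-/

set_option autoImplicit false

open Finset

namespace Pool.Agent.Work.MP_f94384_co.Big

namespace PE2

theorem nst_congr {Z : ℕ} {A B : ℕ → ℕ → ℕ} (h : ∀ i < 8, ∀ j < 8, A i j = B i j) :
    nst Z A = nst Z B := by
  unfold nst
  refine Finset.sum_congr rfl fun j hj => ?_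
  rw [Finset.mem_range] at hj
  congr 1
  refine Finset.sum_congr rfl fun i hi => ?_
  rw [Finset.mem_range] at hi
  rw [h i hi j hj]

theorem nst_zero (Z : ℕ) : nst Z (fun _ _ => 0) = 0 := by
  unfold nst
  simp

theorem strd_eq (W Z8 k : ℕ) : strd W Z8 k = if Z8 ≤ W * (k + 1) then W * (k + 1) else Z8 := by
  unfold strd
  rw [fc_eq]
  show cond (Nat.ble Z8 (W * (k + 1))) (W * (k + 1)) Z8 = _
  by_cases h : Z8 ≤ W * (k + 1)
  · rw [if_pos h, (ble_iff _ _).2 h]
    rfl
  · rw [if_neg h]
    have h2 : Nat.ble Z8 (W * (k + 1)) = false := by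
      by_contra h3
      exact h ((ble_iff _ _).1 (Bool.eq_true_of_not_eq_false h3))
    rw [h2]
    rfl

theorem le_strd (W Z8 k : ℕ) : Z8 ≤ strd W Z8 k := by
  rw [strd_eq]
  split_ifs with h
  · exact h
  · exact le_rfl

theorem le_strd2 (W Z8 k j : ℕ) (h : j ≤ k) : W * j + W ≤ strd W Z8 k := by
  have h1 : W * j + W ≤ W * (k + 1) := by
    have : W * j ≤ W * k := Nat.mul_le_mul_left W h
    rw [Nat.mul_succ]
    omega
  rw [strd_eq]
  split_ifs with h2
  · exact h1
  · omega

theorem main (h1 : PEE) (h2 : BUN) : PE2 := by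
  intro W Z NT nB el er B WH FS rl rr hWZ hB hNT hR hl hr
  rw [h1 W Z el er B hWZ (by rw [hr.st]; exact le_strd _ _ _)]
  have hkl : ∀ t, dg 8 t NT < 256 := fun t => dg_lt 8 t NT
  have htl : dg 8 168 el < 256 := dg_lt 8 168 el
  have htr : dg 8 168 er < 256 := dg_lt 8 168 er
  have hel : ∀ i, eco el i < 256 := fun i => dg_lt 8 (16 * i) el
  have her : ∀ i, eco er i < 256 := fun i => dg_lt 8 (16 * i) er
  have hz1 : ∀ (R : ℕ → ℕ) (b : ℕ), dig W NT R 65535 b = 0 := by
    intro R b
    unfold dig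
    rw [if_neg]
    rintro ⟨_, h4, _⟩
    have := hkl (8 * (b / 256))
    have h5 : 65535 % 256 = 255 := rfl
    omega
  have hz2 : ∀ (R : ℕ → ℕ) (a : ℕ), dig W NT R a 65535 = 0 := by
    intro R a
    unfold dig
    rw [if_neg]
    rintro ⟨_, _, h4⟩
    have h5 : 65535 / 256 = 255 := rfl
    rw [h5, hNT] at h4
    exact Nat.not_lt_zero _ h4
  by_cases hty : dg 8 168 el = dg 8 168 er
  · rw [if_pos hty]
    refine nst_congr fun i hi j hj => ?_
    by_cases hj2 : rr j = 65535
    · rw [hj2, hz2, (hr.ab j hj hj2).2, if_neg (by norm_num)]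
    · obtain ⟨a1, a2, a3, _⟩ := hr.pr j hj hj2
      rw [if_pos a3]
      have hlt : eco el i ≤ dg 8 (8 * dg 8 168 er) NT := by
        by_cases hi2 : rl i = 65535
        · rw [(hl.ab i hi hi2).1, hty]
        · rw [← hty]
          exact (hl.pr i hi hi2).2.1.le
      rw [h2 W (8 * Z) NT nB B WH FS er rr hB hr j hj hj2 (eco el i)
        (by rw [hr.st]; exact le_strd2 _ _ _ _ hlt)]
      have hb1 : rr j / 256 = dg 8 168 er := by
        have := her j
        omega
      have hb2 : rr j % 256 = eco er j := by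
        have := her j
        omega
      by_cases hi2 : rl i = 65535
      · rw [hi2, hz1, (hl.ab i hi hi2).1, hty]
        have h6 := hR (rr j) (by have := her j; omega) (by rw [hb1, hb2]; exact a2)
        rw [hb1] at h6
        exact pr_DGG.2.2.2.1 _ _ _ h6
      · obtain ⟨c1, c2, _, _⟩ := hl.pr i hi hi2
        have hc1 : rl i / 256 = dg 8 168 el := by
          have := hel i
          omega
        have hc2 : rl i % 256 = eco el i := by
          have := hel i
          omega
        unfold dig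
        rw [if_pos ⟨by rw [hc1, hb1, hty], by rw [hc2, hb1, ← hty]; exact c2,
          by rw [hb2, hb1]; exact a2⟩, hc2]
  · rw [if_neg hty, ← nst_zero Z]
    refine nst_congr fun i hi j hj => ?_
    by_cases hj2 : rr j = 65535
    · rw [hj2, hz2]
    · by_cases hi2 : rl i = 65535
      · rw [hi2, hz1]
      · obtain ⟨a1, _, _, _⟩ := hr.pr j hj hj2
        obtain ⟨c1, _, _, _⟩ := hl.pr i hi hi2
        unfold dig
        rw [if_neg]
        rintro ⟨h7, _, _⟩
        have := hel i
        have := her j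
        apply hty
        omega

end PE2

theorem pr_PE2 : PE2 := PE2.main pr_PEE pr_BUN

end Pool.Agent.Work.MP_f94384_co.Big
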