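import Pool.Agent.Work.MP_f94384_co.Big.P_PST

/-!
# The check of a type with a square subtracted
-/

set_option autoImplicit false

open Finset

namespace Pool.Agent.Work.MP_f94384_co.Big

open Pool.Agent.Work.MP_f94384_co.Flag

/-- the row after the subtraction -/
def rs (W bp bn : ℕ) (ro : ℕ → ℕ) (r : ℕ) : ℕ :=
  (ro r + (dg W (W * r) bp * bn + dg W (W * r) bn * bp)) -
    (dg W (W * r) bp * bp + dg W (W * r) bn * bn)

theorem subB_eq (W bp bn : ℕ) (ro : ℕ → ℕ) (k : List ℕ → Bool) (n : ℕ) : ∀ acc : List ℕ,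
    subB W (2 ^ W - 1) bp bn ((List.range n).map ro).reverse (W * (n - 1)) acc k =
      k ((List.range n).map (rs W bp bn ro) ++ acc) := by
  induction n with
  | zero =>
    intro acc
    rfl
  | succ n ih =>
    intro acc
    have hl : ((List.range (n + 1)).map ro).reverse = ro n :: ((List.range n).map ro).reverse := by
      rw [List.range_succ, List.map_append, List.reverse_append]
      rfl
    rw [hl]
    have h : subB W (2 ^ W - 1) bp bn (ro n :: ((List.range n).map ro).reverse) (W * (n + 1 - 1))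
        acc k =
      fc ((ro n + (bts (2 ^ W - 1) bp (W * (n + 1 - 1)) * bn +
          bts (2 ^ W - 1) bn (W * (n + 1 - 1)) * bp)) -
        (bts (2 ^ W - 1) bp (W * (n + 1 - 1)) * bp + bts (2 ^ W - 1) bn (W * (n + 1 - 1)) * bn))
        fun v' => fc (W * (n + 1 - 1) - W) fun t' =>
          subB W (2 ^ W - 1) bp bn ((List.range n).map ro).reverse t' (v' :: acc) k := rfl
    rw [h, fc_eq, fc_eq, bts_eq, bts_eq, Nat.add_sub_cancel]
    have ht : W * n - W = W * (n - 1) := by
      rw [Nat.mul_sub, Nat.mul_one]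
    rw [ht, ih, List.range_succ, List.map_append, List.append_assoc]
    rfl

/-- Item PSB -/
theorem pr_PSB : PSB := by
  intro W c o n bp bn m s bl Δ ε e w co Λ ro hoW ho hoc hcW hbp hbn hv h
  have hM := pr_MSK
  rw [subB_eq, List.append_nil] at h
  have hT := pr_PST W c o n m s bl Δ ε e w co Λ (rs W bp bn ro) hoW hoc hcW h
  obtain ⟨hlt', hd', hsym', hpsd'⟩ := hT
  -- digits of the rows
  have hrow : ∀ k < n, ro k < 2 ^ (W * n) ∧
      ∀ j < n, 2 ^ c ≤ dg W (W * j) (ro k) ∧ dg W (W * j) (ro k) < 2 ^ c + 2 ^ (o + 1) := by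
    intro k hk
    refine vld_iff hM hoc hcW ((vldL_iff _ _ _ _).1 hv (ro k) ?_)
    rw [List.mem_reverse, List.mem_map]
    exact ⟨k, List.mem_range.2 hk, rfl⟩
  have hlt : ∀ k < n, ro k < 2 ^ (W * n) := fun k hk => (hrow k hk).1
  have hd := fun k hk => (hrow k hk).2
  have h16 : 65535 < 2 ^ W := by
    have : 2 ^ 16 ≤ 2 ^ W := Nat.pow_le_pow_right (by norm_num) (by omega)
    omega
  obtain ⟨_, hbp2, hbp3⟩ := of_land hM h16 hbp
  obtain ⟨_, hbn2, hbn3⟩ := of_land hM h16 hbn
  have hbpl : ∀ k < n, dg W (W * k) bp < 2 ^ 16 := fun k hk => land_lt (hbp3 k hk)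
  have hbnl : ∀ k < n, dg W (W * k) bn < 2 ^ 16 := fun k hk => land_lt (hbn3 k hk)
  set b : ℕ → ℤ := fun a => (dg W (W * a) bp : ℤ) - dg W (W * a) bn with hb
  have hbabs : ∀ k < n, |b k| ≤ 65535 := by
    intro k hk
    have a1 := hbpl k hk
    have a2 := hbnl k hk
    simp only [hb]
    rw [abs_le]
    constructor <;> omega
  -- the values
  have hval : ∀ r < n, ((rs W bp bn ro r : ℕ) : ℤ) = (ro r : ℤ) - b r * ((bp : ℤ) - bn) := by
    intro r hr
    have hpos : 0 < rs W bp bn ro r := by
      by_contra h0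
      have h0' : rs W bp bn ro r = 0 := by omega
      have := (hd' r hr r hr).1
      rw [h0'] at this
      have h1 : dg W (W * r) 0 = 0 := by
        unfold dg
        rw [Nat.zero_div, Nat.zero_mod]
      rw [h1] at this
      have := Nat.two_pow_pos c
      omega
    unfold rs at hpos ⊢
    rw [Nat.cast_sub (by omega)]
    simp only [hb]
    push_cast
    ring
  have hbsum : (bp : ℤ) - bn = ∑ k ∈ range n, b k * 2 ^ (W * k) := by
    have e1 : (bp : ℤ) = ∑ k ∈ range n, (dg W (W * k) bp : ℤ) * 2 ^ (W * k) := by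
      have : (bp : ℤ) = ((pk W n fun k => dg W (W * k) bp : ℕ) : ℤ) := by exact_mod_cast hbp2
      rw [this]
      unfold pk
      push_cast
      rfl
    have e2 : (bn : ℤ) = ∑ k ∈ range n, (dg W (W * k) bn : ℤ) * 2 ^ (W * k) := by
      have : (bn : ℤ) = ((pk W n fun k => dg W (W * k) bn : ℕ) : ℤ) := by exact_mod_cast hbn2
      rw [this]
      unfold pk
      push_cast
      rfl
    rw [e1, e2, ← sum_sub_distrib]
    refine sum_congr rfl fun k _ => ?_
    simp only [hb]
    ring
  -- the digits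
  have hdig : ∀ r < n, ∀ j < n, tv c o (dg W (W * j) (rs W bp bn ro r)) =
      tv c o (dg W (W * j) (ro r)) - b r * b j := by
    intro r hr
    have key := pr_BAL W n (fun j => tv c o (dg W (W * j) (rs W bp bn ro r)) -
      tv c o (dg W (W * j) (ro r)) + b r * b j) (by omega) (by
      intro j hj
      have a1 := (tv_valid hoc (hd' r hr j hj).1 (hd' r hr j hj).2).2
      have a2 := (tv_valid hoc (hd r hr j hj).1 (hd r hr j hj).2).2
      have a3 : |b r * b j| ≤ 65535 * 65535 := by
        rw [abs_mul]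
        exact mul_le_mul (hbabs r hr) (hbabs j hj) (abs_nonneg _) (by norm_num)
      have a4 : (65535 : ℤ) * 65535 ≤ 2 ^ o := by
        have : (2 : ℤ) ^ 40 ≤ 2 ^ o := pow_le_pow_right₀ (by norm_num) ho
        have e : (65535 : ℤ) * 65535 ≤ 2 ^ 40 := by norm_num
        exact e.trans this
      have a5 : (2 : ℤ) ^ (o + 12) ≤ 2 ^ (W - 1) := pow_le_pow_right₀ (by norm_num) (by omega)
      have a6 : (2 : ℤ) ^ (o + 12) = 4096 * 2 ^ o := by rw [pow_add]; norm_num; ring
      have a7 : (0 : ℤ) < 2 ^ o := by positivity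
      refine lt_of_le_of_lt (abs_add_le _ _) ?_
      have a8 := abs_sub (tv c o (dg W (W * j) (rs W bp bn ro r))) (tv c o (dg W (W * j) (ro r)))
      linarith) (by
      have h1 := row_value hoc (hlt r hr) (hd r hr)
      have h2 := row_value hoc (hlt' r hr) (hd' r hr)
      have h3 : ∑ k ∈ range n, (tv c o (dg W (W * k) (rs W bp bn ro r)) -
          tv c o (dg W (W * k) (ro r)) + b r * b k) * 2 ^ (W * k) =
          ∑ k ∈ range n, tv c o (dg W (W * k) (rs W bp bn ro r)) * 2 ^ (W * k) -
          ∑ k ∈ range n, tv c o (dg W (W * k) (ro r)) * 2 ^ (W * k) +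
          b r * ∑ k ∈ range n, b k * 2 ^ (W * k) := by
        rw [mul_sum, ← sum_sub_distrib, ← sum_add_distrib]
        exact sum_congr rfl fun k _ => by ring
      rw [h3, ← h1, ← h2, ← hbsum, hval r hr]
      ring)
    intro j hj
    have := key j hj
    linarith
  refine ⟨hlt, hd, ?_, ?_⟩
  · intro k hk j hj
    have h1 := hsym' k hk j hj
    have h2 := hdig k hk j hj
    have h3 := hdig j hj k hk
    rw [h1, h3] at h2
    have h4 := (tv_valid hoc (hd k hk j hj).1 (hd k hk j hj).2).1
    have h5 := (tv_valid hoc (hd j hj k hk).1 (hd j hj k hk).2).1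
    have h6 : tv c o (dg W (W * j) (ro k)) = tv c o (dg W (W * k) (ro j)) := by
      have : b k * b j = b j * b k := mul_comm _ _
      linarith
    rw [h4, h5] at h6
    have h7 : ((dg W (W * j) (ro k) : ℕ) : ℤ) = ((dg W (W * k) (ro j) : ℕ) : ℤ) := by linarith
    exact_mod_cast h7
  · refine PSDn_congr' (fun a ha a' ha' => ?_) hpsd'
    rw [hdig a' ha' a ha]
    simp only [hb]
    ring

end Pool.Agent.Work.MP_f94384_co.Big
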