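import Pool.Agent.Work.MP_f94384_co.Big.PST2

/-!
# The check of one row
-/

set_option autoImplicit false

open Finset

namespace Pool.Agent.Work.MP_f94384_co.Big

/-- code of the entry `(i, a)` of the triangular factor -/
def Lc (W : ℕ) (Λ : List ℕ) (a i : ℕ) : ℕ := dg W (W * (i - a)) (Λ.getD a 0)

theorem land_mW (W x : ℕ) : x &&& (2 ^ W - 1) = dg W 0 x := by
  have := bts_eq W x 0
  exact this

theorem tv_mod {c o d : ℕ} (hoc : o < c) (h1 : 2 ^ c ≤ d) (h2 : d < 2 ^ c + 2 ^ (o + 1)) :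
    ((d &&& (2 ^ (o + 1) - 1) : ℕ) : ℤ) = tv c o d + 2 ^ o ∧ (d &&& (2 ^ (o + 1) - 1)) < 2 ^ (o + 1) := by
  obtain ⟨u, rfl⟩ := Nat.exists_eq_add_of_le h1
  have hu : u < 2 ^ (o + 1) := by omega
  have e1 : (2 ^ c + u) &&& (2 ^ (o + 1) - 1) = u := by
    rw [Nat.and_two_pow_sub_one_eq_mod]
    obtain ⟨t, rfl⟩ := Nat.exists_eq_add_of_le (Nat.succ_le_of_lt hoc)
    rw [Nat.succ_eq_add_one, Nat.pow_add, Nat.mul_add_mod, Nat.mod_eq_of_lt hu]
  rw [(tv_valid hoc h1 h2).1, e1]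
  refine ⟨?_, hu⟩
  push_cast
  ring

theorem row_ok (hM : MSK) {W c o n m s bl Δ ε e r v : ℕ} {Λ : List ℕ} (hoc : o < c) (hW : 1 ≤ W)
    (hoW : o < W) (hmn : m ≤ n) (hr : r < m)
    (h4 : s * 2 ^ (o + 1) + (2 * 2 ^ (bl - 1) * (m * 2 ^ bl) + ε) ≤ 2 ^ W - 1)
    (h5 : m * (2 ^ bl * 2 ^ bl) + (s * 2 ^ (o + 1) + (m * (2 ^ (bl - 1) * 2 ^ (bl - 1)) +
      (Δ + 2 ^ e))) ≤ 2 ^ W - 1)
    (hv : ∀ k < n, 2 ^ c ≤ dg W (W * k) v ∧ dg W (W * k) v < 2 ^ c + 2 ^ (o + 1))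
    (hΛl : m ≤ Λ.length)
    (hΛ : ∀ a < m, Λ.getD a 0 &&& (ones W (m - a) * (2 ^ bl - 1)) = Λ.getD a 0)
    (h : rwP W (2 ^ W - 1) (2 ^ (o + 1) - 1) s (2 ^ o) (2 ^ (bl - 1)) Δ ε (2 ^ e - 1) Λ v r
      (ones W (m - r)) = true) :
    ∀ k < m - r, ∃ D : ℕ, D < 2 ^ e ∧ (D : ℤ) = s * tv c o (dg W (W * (r + k)) v) + ε -
      (if k = 0 then (Δ : ℤ) else 0) -
      ∑ a ∈ range (r + 1), ((Lc W Λ a r : ℤ) - 2 ^ (bl - 1)) * ((Lc W Λ a (r + k) : ℤ) - 2 ^ (bl - 1)) := by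
  have hWp := Nat.two_pow_pos W
  have hblp := Nat.two_pow_pos bl
  have holp := Nat.two_pow_pos (bl - 1)
  have hep := Nat.two_pow_pos e
  have hop := Nat.two_pow_pos (o + 1)
  have hm1 : 1 ≤ m := by omega
  -- the width of the fields of Λ
  have hml : m * 2 ^ bl ≤ 2 ^ W - 1 := by
    have : 1 * (m * 2 ^ bl) ≤ 2 * 2 ^ (bl - 1) * (m * 2 ^ bl) := Nat.mul_le_mul_right _ (by omega)
    omega
  have hblW : 2 ^ bl - 1 < 2 ^ W := by
    have : 1 * 2 ^ bl ≤ m * 2 ^ bl := Nat.mul_le_mul_right _ hm1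
    omega
  -- columns
  have hcol : ∀ a < m, Λ.getD a 0 = pk W (m - a) (fun k => dg W (W * k) (Λ.getD a 0)) ∧
      ∀ k < m - a, dg W (W * k) (Λ.getD a 0) < 2 ^ bl := by
    intro a ha
    obtain ⟨_, h2, h3⟩ := of_land hM hblW (hΛ a ha)
    exact ⟨h2, fun k hk => land_lt (h3 k hk)⟩
  have hLc : ∀ a < r + 1, ∀ k < m - r, Lc W Λ a (r + k) < 2 ^ bl := by
    intro a ha k hk
    exact (hcol a (by omega)).2 _ (by omega)
  have hLc' : ∀ a < r + 1, ∀ k < m - r, Lc W Λ a (r + k) < 2 ^ W := by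
    intro a ha k hk
    have := hLc a ha k hk
    omega
  have hy : ∀ a < r + 1, Λ.getD a 0 >>> (W * (r - a)) = pk W (m - r) fun k => Lc W Λ a (r + k) := by
    intro a ha
    obtain ⟨h2, h3⟩ := hcol a (by omega)
    rw [h2, pk_shift (fun i hi => by have := h3 i hi; omega) (by omega)]
    rw [show m - a - (r - a) = m - r by omega]
    refine pk_congr fun k hk => ?_
    unfold Lc
    rw [show r + k - a = r - a + k by omega]
  have hy0 : ∀ a < r + 1, (Λ.getD a 0 >>> (W * (r - a))) &&& (2 ^ W - 1) = Lc W Λ a r := by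
    intro a ha
    rw [hy a ha, land_mW]
    have := dg_pk (W := W) (n := m - r) (f := fun k => Lc W Λ a (r + k)) (fun i hi => hLc' a ha i hi)
      (j := 0) (by omega)
    rw [Nat.mul_zero] at this
    rw [this, Nat.add_zero]
  -- unfold the check
  unfold rwP at h
  rw [fc_eq, prd_eq W (2 ^ W - 1) _ Λ r 0 0 (by omega), fc_eq, fc_eq] at h
  rw [cond_true_iff, ble_iff, fc_eq, beq_iff] at h
  have hP : 0 + ∑ a ∈ range (r + 1), ((Λ.getD a 0 >>> (W * (r - a))) &&& (2 ^ W - 1)) *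
      (Λ.getD a 0 >>> (W * (r - a))) =
      pk W (m - r) fun k => ∑ a ∈ range (r + 1), Lc W Λ a r * Lc W Λ a (r + k) := by
    rw [Nat.zero_add, ← pk_sum W (m - r) (r + 1) fun a k => Lc W Λ a r * Lc W Λ a (r + k)]
    refine sum_congr rfl fun a ha => ?_
    rw [mem_range] at ha
    rw [hy0 a ha, hy a ha, mul_pk]
  have hS : 0 + ∑ a ∈ range (r + 1), Λ.getD a 0 >>> (W * (r - a)) =
      pk W (m - r) fun k => ∑ a ∈ range (r + 1), Lc W Λ a (r + k) := by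
    rw [Nat.zero_add, ← pk_sum W (m - r) (r + 1) fun a k => Lc W Λ a (r + k)]
    refine sum_congr rfl fun a ha => ?_
    rw [mem_range] at ha
    rw [hy a ha]
  rw [hP, hS] at h
  have hSb : ∀ k < m - r, ∑ a ∈ range (r + 1), Lc W Λ a (r + k) ≤ m * 2 ^ bl := by
    intro k hk
    calc ∑ a ∈ range (r + 1), Lc W Λ a (r + k) ≤ ∑ a ∈ range (r + 1), 2 ^ bl :=
          sum_le_sum fun a ha => (hLc a (mem_range.1 ha) k hk).le
      _ = (r + 1) * 2 ^ bl := by rw [sum_const, card_range, smul_eq_mul]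
      _ ≤ m * 2 ^ bl := Nat.mul_le_mul_right _ (by omega)
  have hσ : (pk W (m - r) fun k => ∑ a ∈ range (r + 1), Lc W Λ a (r + k)) &&& (2 ^ W - 1) =
      ∑ a ∈ range (r + 1), Lc W Λ a r := by
    rw [land_mW]
    have := dg_pk (W := W) (n := m - r) (f := fun k => ∑ a ∈ range (r + 1), Lc W Λ a (r + k))
      (fun i hi => by have := hSb i hi; omega) (j := 0) (by omega)
    rw [Nat.mul_zero] at this
    rw [this]
    simp only [Nat.add_zero]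
  have hvbW : 2 ^ (o + 1) - 1 < 2 ^ W := by
    have : 2 ^ (o + 1) ≤ 2 ^ W := Nat.pow_le_pow_right (by norm_num) hoW
    omega
  have hsp : (v >>> (W * r)) &&& (ones W (m - r) * (2 ^ (o + 1) - 1)) =
      pk W (m - r) fun k => dg W (W * (r + k)) v &&& (2 ^ (o + 1) - 1) := by
    rw [land_pk hM hvbW]
    refine pk_congr fun k _ => ?_
    rw [pr_DGG.2.1, Nat.mul_add]
  set U : ℕ → ℕ := fun k => dg W (W * (r + k)) v &&& (2 ^ (o + 1) - 1) with hU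
  set Sk : ℕ → ℕ := fun k => ∑ a ∈ range (r + 1), Lc W Λ a (r + k) with hSk
  set Pk : ℕ → ℕ := fun k => ∑ a ∈ range (r + 1), Lc W Λ a r * Lc W Λ a (r + k) with hPk
  set σ := ∑ a ∈ range (r + 1), Lc W Λ a r with hσd
  set A := s * ((v >>> (W * r)) &&& (ones W (m - r) * (2 ^ (o + 1) - 1))) +
      (2 ^ (bl - 1) * pk W (m - r) Sk +
        (2 ^ (bl - 1) * (pk W (m - r) Sk &&& (2 ^ W - 1)) + ε) * ones W (m - r)) with hA
  set B := pk W (m - r) Pk + ((s * 2 ^ o + (r + 1) * (2 ^ (bl - 1) * 2 ^ (bl - 1))) *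
      ones W (m - r) + Δ) with hB
  obtain ⟨hBA, hD⟩ := h
  have hBA' : B ≤ A := hBA
  have hD' : (A - B) &&& (ones W (m - r) * (2 ^ e - 1)) = A - B := hD
  have hAp : A = pk W (m - r) fun k => s * U k + (2 ^ (bl - 1) * Sk k + (2 ^ (bl - 1) * σ + ε)) := by
    rw [hA, hsp, hσ, mul_pk, mul_pk, Nat.mul_comm (2 ^ (bl - 1) * σ + ε), ones_mul, pk_add, pk_add]
  have hBp : B = pk W (m - r) fun k => Pk k +
      ((s * 2 ^ o + (r + 1) * (2 ^ (bl - 1) * 2 ^ (bl - 1))) + (if k = 0 then Δ else 0)) := by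
    rw [hB, Nat.mul_comm (s * 2 ^ o + (r + 1) * (2 ^ (bl - 1) * 2 ^ (bl - 1))), ones_mul]
    nth_rewrite 1 [pk_single (W := W) (n := m - r) (by omega) Δ]
    rw [pk_add, pk_add]
  have heW : 2 ^ e - 1 < 2 ^ W := by omega
  obtain ⟨_, hDp, hDl⟩ := of_land hM heW hD'
  have hsum : (pk W (m - r) fun k => s * U k + (2 ^ (bl - 1) * Sk k + (2 ^ (bl - 1) * σ + ε))) =
      pk W (m - r) fun i => Pk i + ((s * 2 ^ o + (r + 1) * (2 ^ (bl - 1) * 2 ^ (bl - 1))) +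
        (if i = 0 then Δ else 0)) + dg W (W * i) (A - B) := by
    have e1 : A = B + (A - B) := by omega
    rw [← pk_add W (m - r) (fun i => Pk i + ((s * 2 ^ o + (r + 1) * (2 ^ (bl - 1) *
      2 ^ (bl - 1))) + (if i = 0 then Δ else 0))) (fun i => dg W (W * i) (A - B)), ← hDp, ← hBp,
      ← hAp]
    exact e1
  have hA_lt : ∀ i < m - r, s * U i + (2 ^ (bl - 1) * Sk i + (2 ^ (bl - 1) * σ + ε)) < 2 ^ W := by
    intro i hi
    have a1 : s * U i ≤ s * 2 ^ (o + 1) := Nat.mul_le_mul_left _ (by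
      have := (tv_mod hoc (hv (r + i) (by omega)).1 (hv (r + i) (by omega)).2).2
      exact this.le)
    have a2 : 2 ^ (bl - 1) * Sk i ≤ 2 ^ (bl - 1) * (m * 2 ^ bl) := Nat.mul_le_mul_left _ (hSb i hi)
    have a3 : 2 ^ (bl - 1) * σ ≤ 2 ^ (bl - 1) * (m * 2 ^ bl) := Nat.mul_le_mul_left _ (by
      have := hSb 0 (by omega)
      simpa using this)
    have a4 : 2 * 2 ^ (bl - 1) * (m * 2 ^ bl) = 2 ^ (bl - 1) * (m * 2 ^ bl) +
      2 ^ (bl - 1) * (m * 2 ^ bl) := by ring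
    omega
  have hDlt : ∀ i < m - r, dg W (W * i) (A - B) < 2 ^ e := fun i hi => land_lt (hDl i hi)
  have hB_lt : ∀ i < m - r, Pk i +
      ((s * 2 ^ o + (r + 1) * (2 ^ (bl - 1) * 2 ^ (bl - 1))) + (if i = 0 then Δ else 0)) +
      dg W (W * i) (A - B) < 2 ^ W := by
    intro i hi
    have a1 : Pk i ≤ m * (2 ^ bl * 2 ^ bl) := by
      calc Pk i ≤ ∑ a ∈ range (r + 1), 2 ^ bl * 2 ^ bl := sum_le_sum fun a ha =>
            Nat.mul_le_mul (by simpa using (hLc a (mem_range.1 ha) 0 (by omega)).le)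
              (hLc a (mem_range.1 ha) i hi).le
        _ = (r + 1) * (2 ^ bl * 2 ^ bl) := by rw [sum_const, card_range, smul_eq_mul]
        _ ≤ m * (2 ^ bl * 2 ^ bl) := Nat.mul_le_mul_right _ (by omega)
    have a2 : s * 2 ^ o ≤ s * 2 ^ (o + 1) := Nat.mul_le_mul_left _
      (Nat.pow_le_pow_right (by norm_num) (by omega))
    have a3 : (r + 1) * (2 ^ (bl - 1) * 2 ^ (bl - 1)) ≤ m * (2 ^ (bl - 1) * 2 ^ (bl - 1)) :=
      Nat.mul_le_mul_right _ (by omega)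
    have a4 : (if i = 0 then Δ else 0) ≤ Δ := by split_ifs <;> omega
    have a5 := hDlt i hi
    omega
  have heq := pk_inj hA_lt hB_lt hsum
  intro k hk
  refine ⟨dg W (W * k) (A - B), hDlt k hk, ?_⟩
  have h6 := heq k hk
  have h7 := (tv_mod hoc (hv (r + k) (by omega)).1 (hv (r + k) (by omega)).2).1
  have h8 : ((U k : ℕ) : ℤ) = tv c o (dg W (W * (r + k)) v) + 2 ^ o := h7
  have h9 : (s : ℤ) * (U k : ℤ) + (2 ^ (bl - 1) * (Sk k : ℤ) + (2 ^ (bl - 1) * (σ : ℤ) + ε)) =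
      (Pk k : ℤ) + ((s * 2 ^ o + ((r : ℤ) + 1) * (2 ^ (bl - 1) * 2 ^ (bl - 1))) +
        (if k = 0 then (Δ : ℤ) else 0)) + (dg W (W * k) (A - B) : ℤ) := by
    have : ((if k = 0 then Δ else 0 : ℕ) : ℤ) = if k = 0 then (Δ : ℤ) else 0 := by
      split_ifs <;> simp
    rw [← this]
    exact_mod_cast h6
  have h10 : ∑ a ∈ range (r + 1), ((Lc W Λ a r : ℤ) - 2 ^ (bl - 1)) *
      ((Lc W Λ a (r + k) : ℤ) - 2 ^ (bl - 1)) =
      (Pk k : ℤ) - 2 ^ (bl - 1) * (Sk k : ℤ) - 2 ^ (bl - 1) * (σ : ℤ) +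
        ((r : ℤ) + 1) * (2 ^ (bl - 1) * 2 ^ (bl - 1)) := by
    simp only [hPk, hSk, hσd]
    push_cast
    rw [mul_sum, mul_sum, ← sum_sub_distrib, ← sum_sub_distrib]
    have : ((r : ℤ) + 1) * (2 ^ (bl - 1) * 2 ^ (bl - 1)) =
        ∑ a ∈ range (r + 1), ((2 : ℤ) ^ (bl - 1) * 2 ^ (bl - 1)) := by
      rw [sum_const, card_range, nsmul_eq_mul]
      push_cast
      ring
    rw [this, ← sum_add_distrib]
    exact sum_congr rfl fun a _ => by ring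
  rw [h10]
  rw [h8] at h9
  linarith

end Pool.Agent.Work.MP_f94384_co.Big
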