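import Pool.Agent.Work.MP_f94384_co.Big.Stmts

/-!
# MP_f94384_co, kernel program: balanced digits are unique
-/

namespace Pool.Agent.Work.MP_f94384_co.Big

open Finset

theorem pr_BAL : BAL := by
  intro W n
  induction n with
  | zero =>
    intro x _ _ _ k hk
    exact absurd hk (Nat.not_lt_zero k)
  | succ n ih =>
    intro x hW hx hs
    have hP : (2 : ℤ) ^ W = 2 * 2 ^ (W - 1) := by
      rw [← pow_succ']
      congr 1
      omega
    have hP0 : (0 : ℤ) < 2 ^ (W - 1) := by positivity
    have hs' : x 0 + 2 ^ W * ∑ k ∈ range n, x (k + 1) * 2 ^ (W * k) = 0 := by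
      rw [sum_range_succ', mul_zero, pow_zero, mul_one] at hs
      rw [add_comm, mul_sum]
      rw [← hs]
      congr 1
      refine sum_congr rfl fun k _ => ?_
      rw [mul_add, mul_one, pow_add]
      ring
    obtain ⟨T, hT⟩ : ∃ T, T = ∑ k ∈ range n, x (k + 1) * 2 ^ (W * k) := ⟨_, rfl⟩
    rw [← hT] at hs'
    have h0 := hx 0 (Nat.succ_pos n)
    have hT0 : T = 0 := by
      by_contra hne
      have h1 : 1 ≤ |T| := Int.one_le_abs hne
      have h2 : |x 0| = 2 ^ W * |T| := by
        have : x 0 = -(2 ^ W * T) := by linarith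
        rw [this, abs_neg, abs_mul, abs_of_pos (by positivity : (0 : ℤ) < 2 ^ W)]
      rw [h2, hP] at h0
      nlinarith
    have hx0 : x 0 = 0 := by
      rw [hT0, mul_zero, add_zero] at hs'
      exact hs'
    have h3 := ih (fun k => x (k + 1)) hW (fun k hk => hx (k + 1) (Nat.succ_lt_succ hk))
      (by rw [← hT]; exact hT0)
    intro k hk
    rcases k with _ | k
    · exact hx0
    · exact h3 k (Nat.lt_of_succ_lt_succ hk)

end Pool.Agent.Work.MP_f94384_co.Big
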