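import Pool.Agent.Work.MP_f94384_co.Big.Stmts

/-!
# Mask with separated fields
-/

set_option autoImplicit false

open Finset

namespace Pool.Agent.Work.MP_f94384_co.Big

namespace MSK

theorem split (s x A B : ℕ) (hA : A < 2 ^ s) :
    x &&& (2 ^ s * B + A) = 2 ^ s * (x / 2 ^ s &&& B) + (x % 2 ^ s &&& A) := by
  have h1 : (x % 2 ^ s &&& A) < 2 ^ s := Nat.and_lt_two_pow _ hA
  apply Nat.eq_of_testBit_eq
  intro i
  rw [Nat.testBit_and, Nat.testBit_two_pow_mul_add _ hA, Nat.testBit_two_pow_mul_add _ h1]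
  by_cases h : i < s
  · simp [h, Nat.testBit_and, Nat.testBit_mod_two_pow]
  · have h2 : i - s + s = i := by omega
    simp [h, Nat.testBit_and, Nat.testBit_div_two_pow, h2]

theorem dg_step (s t x : ℕ) : dg s (s + t) x = dg s t (x / 2 ^ s) := by
  unfold dg
  rw [Nat.pow_add, Nat.div_div_eq_div_mul]

theorem main (n s : ℕ) : ∀ (x : ℕ) (M : ℕ → ℕ), (∀ i < n, M i < 2 ^ s) →
    x &&& (∑ i ∈ range n, M i * 2 ^ (s * i)) =
      ∑ i ∈ range n, (dg s (s * i) x &&& M i) * 2 ^ (s * i) := by
  induction n with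
  | zero => intro x M _; simp
  | succ n ih =>
    intro x M hM
    have hA : M 0 < 2 ^ s := hM 0 (Nat.succ_pos n)
    have hB := ih (x / 2 ^ s) (fun i => M (i + 1)) (fun i hi => hM (i + 1) (by omega))
    have e1 : (∑ i ∈ range (n + 1), M i * 2 ^ (s * i))
        = 2 ^ s * (∑ i ∈ range n, M (i + 1) * 2 ^ (s * i)) + M 0 := by
      rw [Finset.sum_range_succ', Finset.mul_sum]
      congr 1
      · apply Finset.sum_congr rfl
        intro i _
        rw [Nat.mul_succ, Nat.pow_add]
        ring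
      · simp
    have e2 : (∑ i ∈ range (n + 1), (dg s (s * i) x &&& M i) * 2 ^ (s * i))
        = 2 ^ s * (∑ i ∈ range n, (dg s (s * i) (x / 2 ^ s) &&& M (i + 1)) * 2 ^ (s * i))
          + (x % 2 ^ s &&& M 0) := by
      rw [Finset.sum_range_succ', Finset.mul_sum]
      congr 1
      · apply Finset.sum_congr rfl
        intro i _
        rw [← dg_step, Nat.mul_succ, Nat.pow_add, Nat.add_comm s (s * i)]
        ring
      · simp [dg]
    rw [e1, e2, split _ _ _ _ hA, hB]

end MSK

theorem pr_MSK : MSK := fun n s x M hM => MSK.main n s x M hM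

end Pool.Agent.Work.MP_f94384_co.Big
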