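import Pool.Agent.Work.MP_f94384_co.Big.PST3
import Pool.Agent.Work.MP_f94384_co.Big.PST4
import Pool.Agent.Work.MP_f94384_co.Big.P_MSK
import Pool.Agent.Work.MP_f94384_co.Big.P_BAL

/-!
# The check of a type
-/

set_option autoImplicit false

open Finset

namespace Pool.Agent.Work.MP_f94384_co.Big

open Pool.Agent.Work.MP_f94384_co.Flag

/-- a valid row minus the offset -/
theorem row_value {W c o n v : ℕ} (hoc : o < c) (hv : v < 2 ^ (W * n))
    (hd : ∀ k < n, 2 ^ c ≤ dg W (W * k) v ∧ dg W (W * k) v < 2 ^ c + 2 ^ (o + 1)) :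
    (v : ℤ) - (pk W n (fun _ => 2 ^ c + 2 ^ o) : ℕ) =
      ∑ k ∈ range n, tv c o (dg W (W * k) v) * 2 ^ (W * k) := by
  have h1 := eq_pk hv
  have h2 : (v : ℤ) = ∑ k ∈ range n, (dg W (W * k) v : ℤ) * 2 ^ (W * k) := by
    have : (v : ℤ) = ((pk W n fun k => dg W (W * k) v : ℕ) : ℤ) := by exact_mod_cast h1
    rw [this]
    unfold pk
    push_cast
    rfl
  have h3 : ((pk W n (fun _ => 2 ^ c + 2 ^ o) : ℕ) : ℤ) =
      ∑ k ∈ range n, ((2 : ℤ) ^ c + 2 ^ o) * 2 ^ (W * k) := by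
    unfold pk
    push_cast
    rfl
  rw [h3]
  nth_rewrite 1 [h2]
  rw [← sum_sub_distrib]
  refine sum_congr rfl fun k hk => ?_
  rw [mem_range] at hk
  rw [(tv_valid hoc (hd k hk).1 (hd k hk).2).1]
  ring

/-- digits of an integer relation between valid rows -/
theorem rel_digits (hB : BAL) {W c o n m : ℕ} (hoc : o < c) (hoW : o + 13 ≤ W) (hmn : m ≤ n)
    {ro : ℕ → ℕ} (hlt : ∀ k < n, ro k < 2 ^ (W * n))
    (hd : ∀ k < n, ∀ j < n, 2 ^ c ≤ dg W (W * j) (ro k) ∧ dg W (W * j) (ro k) < 2 ^ c + 2 ^ (o + 1))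
    {v : ℕ} (hv : v < n) {cc : ℤ} (hcc : 0 ≤ cc) {β : ℕ → ℤ}
    (hsz : cc + ∑ x ∈ range m, |β x| ≤ 4095)
    (h : cc * ((ro v : ℤ) - (pk W n (fun _ => 2 ^ c + 2 ^ o) : ℕ)) =
      ∑ x ∈ range m, β x * ((ro x : ℤ) - (pk W n (fun _ => 2 ^ c + 2 ^ o) : ℕ))) :
    ∀ j < n, cc * tv c o (dg W (W * j) (ro v)) =
      ∑ x ∈ range m, β x * tv c o (dg W (W * j) (ro x)) := by
  set T : ℕ → ℕ → ℤ := fun x j => tv c o (dg W (W * j) (ro x)) with hT
  have hTb : ∀ x < n, ∀ j < n, |T x j| ≤ 2 ^ o := fun x hx j hj =>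
    (tv_valid hoc (hd x hx j hj).1 (hd x hx j hj).2).2
  have key := hB W n (fun j => cc * T v j - ∑ x ∈ range m, β x * T x j) (by omega) (by
    intro j hj
    have h1 : |cc * T v j| ≤ cc * 2 ^ o := by
      rw [abs_mul, abs_of_nonneg hcc]
      exact mul_le_mul_of_nonneg_left (hTb v hv j hj) hcc
    have h2 : |∑ x ∈ range m, β x * T x j| ≤ (∑ x ∈ range m, |β x|) * 2 ^ o := by
      refine (abs_sum_le_sum_abs _ _).trans ?_
      rw [sum_mul]
      refine sum_le_sum fun x hx => ?_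
      rw [mem_range] at hx
      rw [abs_mul]
      exact mul_le_mul_of_nonneg_left (hTb x (by omega) j hj) (abs_nonneg _)
    have h3 : |cc * T v j - ∑ x ∈ range m, β x * T x j| ≤ 4095 * 2 ^ o := by
      refine (abs_sub _ _).trans ?_
      have : (cc + ∑ x ∈ range m, |β x|) * 2 ^ o ≤ 4095 * 2 ^ o :=
        mul_le_mul_of_nonneg_right hsz (by positivity)
      linarith [add_mul cc (∑ x ∈ range m, |β x|) ((2 : ℤ) ^ o)]
    refine lt_of_le_of_lt h3 ?_
    have h4 : (2 : ℤ) ^ (o + 12) ≤ 2 ^ (W - 1) := pow_le_pow_right₀ (by norm_num) (by omega)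
    have h5 : (2 : ℤ) ^ (o + 12) = 4096 * 2 ^ o := by rw [pow_add]; norm_num; ring
    have h6 : (0 : ℤ) < 2 ^ o := by positivity
    linarith) (by
    rw [row_value hoc (hlt v hv) (hd v hv)] at h
    have h1 : ∑ x ∈ range m, β x * ((ro x : ℤ) - (pk W n (fun _ => 2 ^ c + 2 ^ o) : ℕ)) =
        ∑ x ∈ range m, β x * ∑ k ∈ range n, T x k * 2 ^ (W * k) := by
      refine sum_congr rfl fun x hx => ?_
      rw [mem_range] at hx
      rw [row_value hoc (hlt x (by omega)) (hd x (by omega))]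
    rw [h1] at h
    have h2 : ∑ k ∈ range n, (cc * T v k - ∑ x ∈ range m, β x * T x k) * 2 ^ (W * k) =
        cc * ∑ k ∈ range n, T v k * 2 ^ (W * k) -
          ∑ x ∈ range m, β x * ∑ k ∈ range n, T x k * 2 ^ (W * k) := by
      have h3 : ∑ x ∈ range m, β x * ∑ k ∈ range n, T x k * 2 ^ (W * k) =
          ∑ k ∈ range n, (∑ x ∈ range m, β x * T x k) * 2 ^ (W * k) := by
        simp only [mul_sum, sum_mul]
        rw [sum_comm]
        exact sum_congr rfl fun x _ => sum_congr rfl fun k _ => by ring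
      rw [h3, mul_sum, ← sum_sub_distrib]
      exact sum_congr rfl fun k _ => by ring
    rw [h2, h, sub_self])
  intro j hj
  have := key j hj
  simp only [hT] at this ⊢
  linarith

/-- the check of a relation -/
theorem rlP_imp {W c o n m cc bp bn w : ℕ} {ro : ℕ → ℕ} (hmn : m ≤ n) (hw : w ≤ 16 * m)
    (hbp : bp < 2 ^ w) (hbn : bn < 2 ^ w) {v : ℕ}
    (h : rlP (ones W n * (2 ^ c + 2 ^ o)) m ((List.range n).map ro) (ro v) cc bp bn = true) :
    ∃ β : ℕ → ℤ, 1 ≤ (cc : ℤ) ∧ (cc : ℤ) + ∑ x ∈ range m, |β x| ≤ 4095 ∧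
      (cc : ℤ) * ((ro v : ℤ) - (pk W n (fun _ => 2 ^ c + 2 ^ o) : ℕ)) =
      ∑ x ∈ range m, β x * ((ro x : ℤ) - (pk W n (fun _ => 2 ^ c + 2 ^ o) : ℕ)) := by
  unfold rlP at h
  rw [fc_eq, fc_eq, cond_true_iff, cond_true_iff, ble_iff, ble_iff, beq_iff] at h
  obtain ⟨h1, h2, h3⟩ := h
  have h1' : cc + (sf bp m + sf bn m) ≤ 4095 := h1
  have h3' : cc * ro v + (lin ((List.range n).map ro) bn + sf bp m * (ones W n * (2 ^ c + 2 ^ o))) =
    lin ((List.range n).map ro) bp + (cc + sf bn m) * (ones W n * (2 ^ c + 2 ^ o)) := h3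
  have hlin : ∀ b : ℕ, b < 2 ^ w → lin ((List.range n).map ro) b =
      ∑ x ∈ range m, dg 16 (16 * x) b * ro x := by
    intro b hb
    rw [lin_eq, List.length_map, List.length_range]
    rw [← sum_subset (s₁ := range m) (s₂ := range n)
      (fun a ha => by rw [mem_range] at ha ⊢; omega)]
    · refine sum_congr rfl fun x hx => ?_
      rw [mem_range] at hx
      rw [List.getD_eq_getElem _ _ (by simpa using (by omega : x < n))]
      simp
    · intro x _ hx
      rw [mem_range] at hx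
      have : b < 2 ^ (16 * x) := lt_of_lt_of_le hb (Nat.pow_le_pow_right (by norm_num) (by omega))
      rw [pr_DGG.2.2.2.1 16 (16 * x) b this, zero_mul]
  rw [hlin bn hbn, hlin bp hbp, sf_eq, sf_eq, ones_mul] at h3'
  rw [sf_eq, sf_eq] at h1'
  refine ⟨fun x => (dg 16 (16 * x) bp : ℤ) - dg 16 (16 * x) bn, by exact_mod_cast h2, ?_, ?_⟩
  · have h4 : ∑ x ∈ range m, |(dg 16 (16 * x) bp : ℤ) - dg 16 (16 * x) bn| ≤
        ∑ x ∈ range m, ((dg 16 (16 * x) bp : ℤ) + dg 16 (16 * x) bn) := by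
      refine sum_le_sum fun x _ => ?_
      have a1 : (0 : ℤ) ≤ (dg 16 (16 * x) bp : ℤ) := Int.natCast_nonneg _
      have a2 : (0 : ℤ) ≤ (dg 16 (16 * x) bn : ℤ) := Int.natCast_nonneg _
      rw [abs_le]
      constructor <;> linarith
    have h5 : ((cc + (∑ x ∈ range m, dg 16 (16 * x) bp + ∑ x ∈ range m, dg 16 (16 * x) bn) : ℕ) : ℤ) ≤
        4095 := by exact_mod_cast h1'
    push_cast at h5
    rw [sum_add_distrib] at h4
    linarith
  · set O : ℕ := pk W n (fun _ => 2 ^ c + 2 ^ o) with hO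
    have h6 : (cc : ℤ) * ro v + (∑ x ∈ range m, (dg 16 (16 * x) bn : ℤ) * ro x +
        (∑ x ∈ range m, (dg 16 (16 * x) bp : ℤ)) * O) =
        ∑ x ∈ range m, (dg 16 (16 * x) bp : ℤ) * ro x +
          ((cc : ℤ) + ∑ x ∈ range m, (dg 16 (16 * x) bn : ℤ)) * O := by exact_mod_cast h3'
    have h7 : ∑ x ∈ range m, ((dg 16 (16 * x) bp : ℤ) - dg 16 (16 * x) bn) * ((ro x : ℤ) - O) =
        ∑ x ∈ range m, (dg 16 (16 * x) bp : ℤ) * ro x -
        ∑ x ∈ range m, (dg 16 (16 * x) bn : ℤ) * ro x -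
        (∑ x ∈ range m, (dg 16 (16 * x) bp : ℤ)) * O +
        (∑ x ∈ range m, (dg 16 (16 * x) bn : ℤ)) * O := by
      rw [sum_mul, sum_mul, ← sum_sub_distrib, ← sum_sub_distrib, ← sum_add_distrib]
      exact sum_congr rfl fun x _ => by ring
    rw [h7]
    linarith

theorem getD_map_range {n k : ℕ} (ro : ℕ → ℕ) (hk : k < n) :
    ((List.range n).map ro).getD k 0 = ro k := by
  rw [List.getD_eq_getElem _ _ (by simpa using hk)]
  simp

/-- Item PST -/
theorem pr_PST : PST := by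
  intro W c o n m s bl Δ ε e w co Λ ro hoW hoc hcW h
  have hM := pr_MSK
  have hW : 1 ≤ W := by omega
  have hblp := Nat.two_pow_pos bl
  have hop := Nat.two_pow_pos (o + 1)
  have hep := Nat.two_pow_pos e
  set l := (List.range n).map ro with hl
  have hlen : l.length = n := by rw [hl, List.length_map, List.length_range]
  unfold psT at h
  simp only [fc_eq, cond_true_iff, ble_iff] at h
  obtain ⟨h1, h2, h3, h4, h5, hv, hs, hΛ, hΔ, he, hr, hrl⟩ := h
  have e1 : 2 ^ (o + 1) - 1 + 1 = 2 ^ (o + 1) := by omega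
  have e2 : 2 ^ bl - 1 + 1 = 2 ^ bl := by omega
  have e3 : (2 ^ (o + 1) - 1 + 1) / 2 = 2 ^ o := by
    rw [e1, Nat.pow_succ, Nat.mul_div_cancel _ (by norm_num)]
  have e4 : 1 <<< e = 2 ^ e := by rw [Nat.shiftLeft_eq, one_mul]
  have h4' : s * (2 ^ (o + 1) - 1 + 1) + (2 * 2 ^ (bl - 1) * (m * (2 ^ bl - 1 + 1)) + ε) ≤
    2 ^ W - 1 := h4
  have h5' : m * ((2 ^ bl - 1 + 1) * (2 ^ bl - 1 + 1)) + (s * (2 ^ (o + 1) - 1 + 1) +
    (m * (2 ^ (bl - 1) * 2 ^ (bl - 1)) + (Δ + 1 <<< e))) ≤ 2 ^ W - 1 := h5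
  have he' : 1 <<< e ≤ 2 * ε := he
  have hΔ' : m * ε ≤ Δ := hΔ
  rw [e1, e2] at h4' h5'
  rw [e4] at h5' he'
  -- digits of the rows
  have hrow : ∀ k < n, ro k < 2 ^ (W * n) ∧
      ∀ j < n, 2 ^ c ≤ dg W (W * j) (ro k) ∧ dg W (W * j) (ro k) < 2 ^ c + 2 ^ (o + 1) := by
    intro k hk
    refine vld_iff hM hoc hcW ((vldL_iff _ _ _ _).1 hv (ro k) ?_)
    rw [hl, List.mem_map]
    exact ⟨k, List.mem_range.2 hk, rfl⟩
  have hlt : ∀ k < n, ro k < 2 ^ (W * n) := fun k hk => (hrow k hk).1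
  have hd := fun k hk => (hrow k hk).2
  -- symmetry
  have hsym : ∀ k < n, ∀ j < n, dg W (W * j) (ro k) = dg W (W * k) (ro j) := by
    intro k hk j hj
    have h6 := symP_imp W (2 ^ W - 1) l l 0 hs k (by rw [hlen]; exact hk)
    rw [Nat.zero_add, colP_eq, hlen, hl, getD_map_range ro hk] at h6
    have h7 : pk W n (fun j => dg W (W * k) (ro j)) = pk W n (fun j => dg W (W * j) (ro k)) := by
      rw [← eq_pk (hlt k hk), ← h6]
      refine pk_congr fun i hi => ?_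
      rw [getD_map_range ro hi]
    exact (pk_inj (fun _ _ => dg_lt _ _ _) (fun _ _ => dg_lt _ _ _) h7 j hj).symm
  refine ⟨hlt, hd, hsym, ?_⟩
  set M : ℕ → ℕ → ℤ := fun a b => tv c o (dg W (W * a) (ro b)) with hMd
  have hMs : ∀ i < n, ∀ j < n, M i j = M j i := by
    intro i hi j hj
    simp only [hMd]
    rw [hsym j hj i hi]
  -- the columns of the factor
  obtain ⟨hΛl, hΛc⟩ := vlL_imp hW (2 ^ bl - 1) Λ m hΛ
  -- the leading minor
  have hpsd : PSDn m M := by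
    refine psd_chol (m := m) (s := (s : ℤ)) (ε := (ε : ℤ)) (Δ := (Δ : ℤ)) (by exact_mod_cast h1)
      (by exact_mod_cast hΔ') (M := M) (L := fun i a => (Lc W Λ a i : ℤ) - 2 ^ (bl - 1))
      (fun i hi j hj => hMs i (by omega) j (by omega)) ?_
    intro r hr' i hi hri
    have hr'' : rwsP W (2 ^ W - 1) (2 ^ (o + 1) - 1) s ((2 ^ (o + 1) - 1 + 1) / 2) (2 ^ (bl - 1)) Δ ε
      (1 <<< e - 1) Λ l 0 (ones W (m - 0)) = true := by
      rw [Nat.sub_zero]
      exact hr
    rw [e3, e4] at hr''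
    have h6 := rwsP_imp hW _ _ _ _ _ _ _ _ m Λ l 0 hr'' r (by rw [hlen]; omega) (by omega)
    rw [Nat.zero_add, hl, getD_map_range ro (by omega)] at h6
    obtain ⟨D, hD, hDe⟩ := row_ok hM hoc hW (by omega) h2 hr' h4' h5' (hd r (by omega)) hΛl hΛc h6
      (i - r) (by omega)
    rw [show r + (i - r) = i by omega] at hDe
    have h7 : tv c o (dg W (W * i) (ro r)) = M r i := by
      simp only [hMd]
      rw [hsym r (by omega) i (by omega)]
    rw [h7] at hDe
    have hD0 : (0 : ℤ) ≤ D := Int.natCast_nonneg _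
    have hD1 : (D : ℤ) < 2 * ε := by
      have : D < 2 * ε := lt_of_lt_of_le hD he'
      exact_mod_cast this
    constructor
    · intro hri'
      rw [if_pos (by omega)] at hDe
      linarith
    · intro hri'
      rw [if_neg (by omega)] at hDe
      rw [abs_le]
      constructor <;> linarith
  -- dependent rows
  have hfull : PSDn n M := by
    refine psd_ext hMs h2 hpsd ?_
    intro v hv' hmv
    have hrl' : rlsP (ones W n * (2 ^ c + (2 ^ (o + 1) - 1 + 1) / 2)) m w l (drp m l) co = true := hrl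
    rw [e3, drp_eq] at hrl'
    have hi : v - m < (l.drop m).length := by
      rw [List.length_drop, hlen]
      omega
    obtain ⟨cc, bp, bn, hbp, hbn, h6⟩ := rlsP_imp _ _ _ _ _ _ hrl' (v - m) hi
    have h7 : (l.drop m).getD (v - m) 0 = ro v := by
      rw [List.getD_eq_getElem _ _ hi, List.getElem_drop]
      have : l.getD v 0 = ro v := by rw [hl]; exact getD_map_range ro hv'
      rw [← this, List.getD_eq_getElem _ _ (by rw [hlen]; exact hv')]
      congr 1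
      omega
    rw [h7, hl] at h6
    obtain ⟨β, hc1, hsz, hrel⟩ := rlP_imp h2 h3 hbp hbn h6
    refine ⟨cc, β, hc1, fun j hj => ?_⟩
    have h8 := rel_digits pr_BAL hoc hoW h2 hlt hd hv' (by omega) hsz hrel j hj
    have h9 : ∀ x < n, tv c o (dg W (W * j) (ro x)) = M x j := by
      intro x hx
      simp only [hMd]
      rw [hsym x hx j hj]
    rw [h9 v hv'] at h8
    rw [h8]
    refine sum_congr rfl fun x hx => ?_
    rw [mem_range] at hx
    rw [h9 x (by omega)]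
  refine PSDn_congr' (fun a _ b _ => ?_) hfull
  simp only [hMd]
  ring

end Pool.Agent.Work.MP_f94384_co.Big
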