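import Pool.Agent.Work.MP_f94384_co.Big.Stmts3

/-!
# Kernel program for the certificates of order 7 and 8: item SDS
-/

set_option autoImplicit false

open Finset

namespace Pool.Agent.Work.MP_f94384_co.Big

open Pool.Agent.Work.MP_f94384_co.Flag

namespace SDS

theorem nst_zero (Z : ℕ) : nst Z (fun _ _ => 0) = 0 := by
  unfold nst
  simp only [zero_mul, Finset.sum_const_zero]

theorem nst_sum (Z : ℕ) (s : Finset ℕ) (f : ℕ → ℕ → ℕ → ℕ) :
    nst Z (fun i j => ∑ a ∈ s, f a i j) = ∑ a ∈ s, nst Z (f a) := by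
  unfold nst
  rw [Finset.sum_comm]
  refine Finset.sum_congr rfl fun j _ => ?_
  rw [← Finset.sum_mul, Finset.sum_comm]
  congr 1
  refine Finset.sum_congr rfl fun i _ => ?_
  rw [Finset.sum_mul]

theorem nst_ite (Z : ℕ) (c : Prop) [Decidable c] (f : ℕ → ℕ → ℕ) :
    nst Z (fun i j => if c then f i j else 0) = if c then nst Z f else 0 := by
  by_cases h : c
  · simp only [h, if_true]
  · simp only [h, if_false]
    exact nst_zero Z

theorem ent_eq (G t : ℕ) : ent G t = dg 192 t G := by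
  rw [← bts_eq]
  unfold ent
  congr 1

theorem term (h2 : PE2) {n W Z NT nB G : ℕ} {B WH FS : Tr} {r : ℕ → ℕ → ℕ → ℕ → ℕ}
    (hR : RW W Z NT nB B WH FS)
    (hE : ∀ w < n, ∀ z < n, ∀ y < n, w ≠ z → w ≠ y → z ≠ y →
      EOK W (8 * Z) NT nB FS (dg 192 (12288 * y + 1536 * w + 192 * z) G) (r w z y))
    {w z y : ℕ} (hw : w < n) (hz : z < n) (hy : y < n) (h1 : w ≠ z) (h3 : w ≠ y) (h4 : z ≠ y) :
    pE W (2 ^ W - 1) Z (8 * Z) (2 ^ (8 * Z) - 1) B
      (ent G (12288 * y + (1536 * w + 192 * z)))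
      (ent G (12288 * z + (1536 * w + 192 * y))) =
    nst Z fun i j => dig W NT (rowP W (8 * Z) NT B WH) (r w z y i) (r w y z j) := by
  rw [ent_eq, ent_eq, ← Nat.add_assoc, ← Nat.add_assoc]
  exact h2 W Z NT nB _ _ B WH FS _ _ hR.WZ hR.bu hR.nt hR.sh
    (hE w hw z hz y hy h1 h3 h4) (hE w hw y hy z hz h3 h1 h4.symm)

theorem sD_eq (n W m Z Z8 M8 : ℕ) (T : Tr) (G : ℕ) :
    sD n W m Z Z8 M8 T G = ∑ w ∈ range n, ∑ z ∈ range n, cond (Nat.beq z w) 0
      (∑ y ∈ range n, cond (Nat.beq y w) 0 (cond (Nat.beq y z) 0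
        (pE W m Z Z8 M8 T
          (ent G (12288 * y + (1536 * w + 192 * z)))
          (ent G (12288 * z + (1536 * w + 192 * y)))))) := by
  unfold sD
  simp only [fc_eq, sumL_eq, Nat.zero_add]
  rfl

theorem beq_false {a b : ℕ} (h : a ≠ b) : Nat.beq a b = false := by
  cases h' : Nat.beq a b with
  | false => rfl
  | true => exact absurd ((beq_iff a b).1 h') h

end SDS

theorem SDS_of (h2 : PE2) : SDS := by
  intro n W Z NT nB G B WH FS r hn hR hE
  rw [SDS.sD_eq]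
  simp only [SDS.nst_sum, SDS.nst_ite]
  refine Finset.sum_congr rfl fun w hw => Finset.sum_congr rfl fun z hz => ?_
  rw [Finset.mem_range] at hw hz
  by_cases h1 : z = w
  · subst h1
    rw [(beq_iff z z).2 rfl]
    refine (Finset.sum_eq_zero fun y _ => ?_).symm
    rw [if_neg (fun h : z ≠ z ∧ z ≠ y ∧ z ≠ y => h.1 rfl)]
  rw [SDS.beq_false h1]
  show ∑ y ∈ range n, _ = _
  refine Finset.sum_congr rfl fun y hy => ?_
  rw [Finset.mem_range] at hy
  by_cases h4 : y = w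
  · subst h4
    rw [(beq_iff y y).2 rfl, if_neg (fun h : y ≠ z ∧ y ≠ y ∧ z ≠ y => h.2.1 rfl)]
    rfl
  rw [SDS.beq_false h4]
  by_cases h6 : y = z
  · subst h6
    rw [(beq_iff y y).2 rfl, if_neg (fun h : w ≠ y ∧ w ≠ y ∧ y ≠ y => h.2.2 rfl)]
    rfl
  rw [SDS.beq_false h6]
  rw [if_pos ⟨Ne.symm h1, Ne.symm h4, Ne.symm h6⟩]
  exact SDS.term h2 hR hE hw hz hy (Ne.symm h1) (Ne.symm h4) (Ne.symm h6)

end Pool.Agent.Work.MP_f94384_co.Big
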