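import Pool.Agent.Work.MP_f94384_co.Big.Stmts3
import Pool.Agent.Work.MP_f94384_co.Big.P_DGG
import Pool.Agent.Work.MP_f94384_co.Big.P_PE2

/-!
# Kernel program for the certificates of order 7 and 8: item SES
-/

set_option autoImplicit false

open Finset

namespace Pool.Agent.Work.MP_f94384_co.Big

open Pool.Agent.Work.MP_f94384_co.Flag

namespace SES

theorem nst_zero (Z : ℕ) : nst Z (fun _ _ => 0) = 0 := by
  unfold nst
  simp only [zero_mul, Finset.sum_const_zero]

theorem nst_sum (Z : ℕ) (s : Finset ℕ) (f : ℕ → ℕ → ℕ → ℕ) :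
    nst Z (fun i j => ∑ a ∈ s, f a i j) = ∑ a ∈ s, nst Z (f a) := by
  unfold nst
  rw [Finset.sum_comm]
  refine Finset.sum_congr rfl fun j _ => ?_
  rw [← Finset.sum_mul, Finset.sum_comm]
  congr 1
  refine Finset.sum_congr rfl fun i _ => ?_
  rw [Finset.sum_mul]

theorem nst_ite (Z : ℕ) (c : Prop) [Decidable c] (f : ℕ → ℕ → ℕ) :
    nst Z (fun i j => if c then f i j else 0) = if c then nst Z f else 0 := by
  by_cases h : c
  · simp only [h, if_true]
  · simp only [h, if_false]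
    exact nst_zero Z

theorem ent_eq (G t : ℕ) : ent G t = dg 192 t G := by
  rw [← bts_eq]
  unfold ent
  congr 1

/-- an entry inside a block -/
theorem ent_blk (G x t : ℕ) (ht : t + 192 ≤ 98304) :
    ent (bts (2 ^ 98304 - 1) G (98304 * x)) t = dg 192 (98304 * x + t) G := by
  rw [ent_eq, bts_eq 98304 G]
  exact pr_DGG.1 192 t 98304 (98304 * x) G ht

theorem term (h2 : PE2) {N W Z NT nB G : ℕ} {B WH FS : Tr} {r : ℕ → ℕ → ℕ → ℕ → ℕ → ℕ}
    (hN : N ≤ 8) (hR : RW W Z NT nB B WH FS)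
    (hE : ∀ w < N, ∀ z < N, ∀ x < N, ∀ y < N, Dis w z x y →
      EOK W (8 * Z) NT nB FS (dg 192 (98304 * x + 12288 * y + 1536 * w + 192 * z) G) (r w z x y))
    {w x z y : ℕ} (hw : w < N) (hx : x < N) (hz : z < N) (hy : y < N) (hD : Dis w z x y) :
    pE W (2 ^ W - 1) Z (8 * Z) (2 ^ (8 * Z) - 1) B
      (ent (bts (2 ^ 98304 - 1) G (98304 * x)) (12288 * y + (1536 * w + 192 * z)))
      (ent (bts (2 ^ 98304 - 1) G (98304 * w)) (12288 * z + (1536 * x + 192 * y))) =
    nst Z fun i j => dig W NT (rowP W (8 * Z) NT B WH) (r w z x y i) (r x y w z j) := by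
  rw [ent_blk G x _ (by omega), ent_blk G w _ (by omega)]
  have e1 : 98304 * x + (12288 * y + (1536 * w + 192 * z)) =
      98304 * x + 12288 * y + 1536 * w + 192 * z := by ring
  have e2 : 98304 * w + (12288 * z + (1536 * x + 192 * y)) =
      98304 * w + 12288 * z + 1536 * x + 192 * y := by ring
  rw [e1, e2]
  obtain ⟨d1, d2, d3, d4, d5, d6⟩ := hD
  exact h2 W Z NT nB _ _ B WH FS _ _ hR.WZ hR.bu hR.nt hR.sh
    (hE w hw z hz x hx y hy ⟨d1, d2, d3, d4, d5, d6⟩)
    (hE x hx y hy w hw z hz ⟨d6, d2.symm, d4.symm, d3.symm, d5.symm, d1⟩)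

theorem sE_eq (N W m Z Z8 M8 M2 : ℕ) (T : Tr) (A G : ℕ) :
    sE N W m Z Z8 M8 M2 T A G = ∑ w ∈ range N, ∑ x ∈ range w,
      cond (bt A (8 * w + x)) (∑ z ∈ range N, cond (Nat.beq z w) 0 (cond (Nat.beq z x) 0
        (∑ y ∈ range N, cond (Nat.beq y w) 0 (cond (Nat.beq y x) 0 (cond (Nat.beq y z) 0
          (pE W m Z Z8 M8 T
            (ent (bts M2 G (98304 * x)) (12288 * y + (1536 * w + 192 * z)))
            (ent (bts M2 G (98304 * w)) (12288 * z + (1536 * x + 192 * y))))))))) 0 := by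
  unfold sE
  simp only [fc_eq, sumL_eq, Nat.zero_add]
  rfl

theorem beq_false {a b : ℕ} (h : a ≠ b) : Nat.beq a b = false := by
  cases h' : Nat.beq a b with
  | false => rfl
  | true => exact absurd ((beq_iff a b).1 h') h

end SES

theorem SES_of (h2 : PE2) : SES := by
  intro N W Z NT nB A G B WH FS r hN hR hE
  rw [SES.sE_eq]
  simp only [SES.nst_sum, SES.nst_ite]
  refine Finset.sum_congr rfl fun w hw => Finset.sum_congr rfl fun x hx => ?_
  rw [Finset.mem_range] at hw hx
  have hxN : x < N := hx.trans hw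
  rw [bt_eq]
  cases A.testBit (8 * w + x) with
  | false => rfl
  | true =>
    rw [if_pos rfl]
    show ∑ z ∈ range N, _ = _
    refine Finset.sum_congr rfl fun z hz => ?_
    rw [Finset.mem_range] at hz
    by_cases h1 : z = w
    · subst h1
      rw [(beq_iff z z).2 rfl]
      refine (Finset.sum_eq_zero fun y _ => ?_).symm
      rw [if_neg (fun h : Dis z z x y => h.1 rfl)]
    rw [SES.beq_false h1]
    by_cases h3 : z = x
    · subst h3
      rw [(beq_iff z z).2 rfl]
      refine (Finset.sum_eq_zero fun y _ => ?_).symm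
      rw [if_neg (fun h : Dis w z z y => h.2.2.2.1 rfl)]
    rw [SES.beq_false h3]
    show ∑ y ∈ range N, _ = _
    refine Finset.sum_congr rfl fun y hy => ?_
    rw [Finset.mem_range] at hy
    by_cases h4 : y = w
    · subst h4
      rw [(beq_iff y y).2 rfl, if_neg (fun h : Dis y z x y => h.2.2.1 rfl)]
      rfl
    rw [SES.beq_false h4]
    by_cases h5 : y = x
    · subst h5
      rw [(beq_iff y y).2 rfl, if_neg (fun h : Dis w z y y => h.2.2.2.2.2 rfl)]
      rfl
    rw [SES.beq_false h5]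
    by_cases h6 : y = z
    · subst h6
      rw [(beq_iff y y).2 rfl, if_neg (fun h : Dis w y x y => h.2.2.2.2.1 rfl)]
      rfl
    rw [SES.beq_false h6]
    have hD : Dis w z x y := ⟨Ne.symm h1, (ne_of_lt hx).symm, Ne.symm h4, h3, Ne.symm h6,
      Ne.symm h5⟩
    rw [if_pos hD]
    exact SES.term h2 hN hR hE hw hxN hz hy hD

theorem pr_SES : SES := SES_of pr_PE2

end Pool.Agent.Work.MP_f94384_co.Big
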