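import Pool.Agent.Work.MP_f94384_co.Big.CKU0

/-!
# Item CKF: check of the entries of `w, z` (from CKE, HSP)
-/

set_option autoImplicit false

open Finset

namespace Pool.Agent.Work.MP_f94384_co.Big

open Pool.Agent.Work.MP_f94384_co.Flag

namespace CKF

/-- the colours of the positions: two points -/
theorem col (n w z i v : ℕ) (hn : n ≤ 8) (hw : w < n) (hz : z < n) (hwz : w ≠ z) (hi : i < n)
    (hv : v < 8) :
    dg 8 (8 * v) (cb n + 1 <<< (8 * w) + 3 <<< (8 * z) + 10 <<< (8 * i)) = cE n w z n n i v := by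
  have h := CKU.dg_col n w z i 2 1 3 10 hn (by omega) (by omega) (by omega) (by norm_num) v hv
  rw [CKU.cb_eq, Nat.shiftLeft_eq, Nat.shiftLeft_eq, Nat.shiftLeft_eq, h]
  unfold cE
  split_ifs <;> omega

theorem cE_le (n w z x y i v : ℕ) : cE n w z x y i v ≤ 15 := by
  unfold cE
  split_ifs <;> omega

theorem main (hE : CKE) (hH : HSP) : CKF := by
  intro W Z8 NT n nB v FS FV H HV A T hn h w hw z hz hwz
  unfold ckE at h
  rw [fc_eq, fc_eq, fc_eq, allL_iff] at h
  have h1 := h w hw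
  rw [fc_eq, allL_iff] at h1
  have h2 := h1 z hz
  have hb : Nat.beq z w = false := by
    cases hb : Nat.beq z w with
    | false => rfl
    | true => exact absurd ((beq_iff z w).1 hb).symm hwz
  rw [hb, cond_false, fc_eq, fc_eq, cond_true_iff] at h2
  have hent : ent T (Nat.add (Nat.mul 1536 w) (Nat.mul 192 z)) =
      dg 192 (1536 * w + 192 * z) T := CKU.ent_eq T (1536 * w + 192 * z)
  rw [hent] at h2
  obtain ⟨h3, h4⟩ := h2
  obtain ⟨h5, h6, -⟩ := hE true W Z8 NT n nB FS _ _ h3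
  have hsh : ∀ i < n, hsP (mkM 16 65535 A) (mkM 40 1099511627775 A)
      (Nat.add (Nat.add (Nat.add (cb n) (Nat.shiftLeft 1 (Nat.mul 8 w)))
        (Nat.shiftLeft 3 (Nat.mul 8 z))) (Nat.shiftLeft 10 (Nat.mul 8 i))) =
      hs (pa A) (cE n w z n n i) := by
    intro i hi
    have e : Nat.add (Nat.add (Nat.add (cb n) (Nat.shiftLeft 1 (Nat.mul 8 w)))
        (Nat.shiftLeft 3 (Nat.mul 8 z))) (Nat.shiftLeft 10 (Nat.mul 8 i)) =
        cb n + 1 <<< (8 * w) + 3 <<< (8 * z) + 10 <<< (8 * i) := rfl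
    rw [e, hH A _ (fun v hv => by rw [col n w z i v hn hw hz hwz hi hv]; exact cE_le _ _ _ _ _ _ _),
      CKU.hs_congr (pa A) _ _ (fun v hv => col n w z i v hn hw hz hwz hi hv)]
  have key : ∀ i < n, fc (Nat.add (Nat.add (Nat.add (cb n) (Nat.shiftLeft 1 (Nat.mul 8 w)))
        (Nat.shiftLeft 3 (Nat.mul 8 z))) (Nat.shiftLeft 10 (Nat.mul 8 i))) (fun C =>
        fc (hsP (mkM 16 65535 A) (mkM 40 1099511627775 A) C) fun h => fnd H h) =
      fnd H (hs (pa A) (cE n w z n n i)) := by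
    intro i hi
    rw [fc_eq, fc_eq, hsh i hi]
  refine ⟨?_, ?_, ?_⟩
  · have e2 : (fun i => if i < n then fnd H (hs (pa A) (cE n w z n n i)) else 65535) =
        fun i => if i < n then (fc (Nat.add (Nat.add (Nat.add (cb n)
          (Nat.shiftLeft 1 (Nat.mul 8 w))) (Nat.shiftLeft 3 (Nat.mul 8 z)))
          (Nat.shiftLeft 10 (Nat.mul 8 i))) (fun C =>
        fc (hsP (mkM 16 65535 A) (mkM 40 1099511627775 A) C) fun h => fnd H h)) else 65535 := by
      funext i
      by_cases hi : i < n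
      · rw [if_pos hi, if_pos hi, key i hi]
      · rw [if_neg hi, if_neg hi]
    rw [e2]
    exact h5
  · intro i hi
    have h7 := h6 i (by omega) hi
    rw [← key i hi]
    exact h7
  · intro hv0
    have hb0 : Nat.beq v 0 = false := by
      cases hb0 : Nat.beq v 0 with
      | false => rfl
      | true => exact absurd ((beq_iff v 0).1 hb0) hv0
    rw [hb0, cond_false, fc_eq, fc_eq, fc_eq, cond_true_iff, beq_iff, beq_iff, hsh w hw] at h4
    have e16 : (65535 : ℕ) = 2 ^ 16 - 1 := by norm_num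
    rw [e16, bts_eq, bts_eq] at h4
    exact h4

end CKF

end Pool.Agent.Work.MP_f94384_co.Big
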