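import Pool.Agent.Work.MP_f94384_co.Big.Stmts3
import Pool.Agent.Work.MP_f94384_co.Big.P_HSP
import Pool.Agent.Work.MP_f94384_co.Big.P_RST
import Pool.Agent.Work.MP_f94384_co.Big.CKF0

/-!
# Kernel program for the certificates of order 7 and 8: item STR
-/

set_option autoImplicit false

open Finset

namespace Pool.Agent.Work.MP_f94384_co.Big

open Pool.Agent.Work.MP_f94384_co.Flag

namespace STR

theorem bv_eq (ty W b r : ℕ) : bv ty W b r = if r / 256 = ty then dg W (W * (r % 256)) b else 0 := by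
  unfold bv
  have h1 : Nat.shiftRight r 8 = r / 256 := by
    show r >>> 8 = _
    rw [Nat.shiftRight_eq_div_pow]
  have h2 : Nat.land r 255 = r % 256 := by
    show r &&& (2 ^ 8 - 1) = _
    rw [Nat.and_two_pow_sub_one_eq_mod]
  rw [h1, h2, mk_eq]
  have h3 : bts (2 ^ W - 1) b (Nat.mul W (r % 256)) = dg W (W * (r % 256)) b := bts_eq _ _ _
  rw [h3]
  by_cases h : r / 256 = ty
  · rw [if_pos h, (beq_iff _ _).2 h, cond_true]
  · rw [if_neg h]
    have h4 : Nat.beq (r / 256) ty = false := by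
      cases hb : Nat.beq (r / 256) ty with
      | false => rfl
      | true => exact absurd ((beq_iff _ _).1 hb) h
    rw [h4, cond_false]

theorem hs_pat (p p' : Pat) (c : ℕ → ℕ) (h : ∀ v < 8, c v ≠ 0 → ∀ u < 8, c u ≠ 0 → p v u = p' v u) :
    hs p c = hs p' c :=
  pr_RST p p' c c id (fun _ hv _ => ⟨hv, rfl⟩) (fun _ _ _ _ _ _ he => he) h
    (fun a ha hc => ⟨a, ha, hc, rfl⟩)

end STR

theorem pr_STR : STR := by
  intro D t0 bp bn A s t hN5 hN8 ht hW hq hck
  unfold ckS at hck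
  rw [fc_eq, fc_eq, fc_eq, allL_iff] at hck
  have hc : ∀ i < D.N - 2, ∀ v, cE (D.N - 2) (D.N - 4) (D.N - 3) (D.N - 2) (D.N - 2) i v =
      cE D.N (D.N - 4) (D.N - 3) (D.N - 2) (D.N - 1) i v := by
    intro i hi v
    unfold cE
    split_ifs <;> omega
  have hh : ∀ i < D.N - 2, hsP (mkM 16 65535 A) (mkM 40 1099511627775 A)
      (Nat.add (Nat.add (cb (Nat.add (D.N - 4) 2)) (Nat.add (Nat.shiftLeft 1 (Nat.mul 8 (D.N - 4)))
        (Nat.shiftLeft 3 (Nat.mul 8 (Nat.add (D.N - 4) 1))))) (Nat.shiftLeft 10 (Nat.mul 8 i))) =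
      hs (qpat (D.N - 4) s t) (cE D.N (D.N - 4) (D.N - 3) (D.N - 2) (D.N - 1) i) := by
    intro i hi
    have e0 : Nat.add (Nat.add (cb (Nat.add (D.N - 4) 2))
        (Nat.add (Nat.shiftLeft 1 (Nat.mul 8 (D.N - 4)))
        (Nat.shiftLeft 3 (Nat.mul 8 (Nat.add (D.N - 4) 1))))) (Nat.shiftLeft 10 (Nat.mul 8 i)) =
        cb (D.N - 4 + 2) + (1 <<< (8 * (D.N - 4)) + 3 <<< (8 * (D.N - 4 + 1))) +
          10 <<< (8 * i) := rfl
    rw [e0, show D.N - 4 + 2 = D.N - 2 by omega, show D.N - 4 + 1 = D.N - 3 by omega, ← add_assoc]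
    have hcol := fun v hv => CKF.col (D.N - 2) (D.N - 4) (D.N - 3) i v (by omega) (by omega) (by omega)
      (by omega) hi hv
    rw [pr_HSP A _ (fun v hv => by rw [hcol v hv]; exact CKF.cE_le _ _ _ _ _ _ _),
      CKU.hs_congr (pa A) _ _ (fun v hv => (hcol v hv).trans (hc i hi v))]
    refine STR.hs_pat _ _ _ fun v hv h1 u hu h2 => ?_
    have h3 : ∀ v, cE D.N (D.N - 4) (D.N - 3) (D.N - 2) (D.N - 1) i v ≠ 0 → v < D.N - 2 := by
      intro v h
      by_contra h4
      apply h
      unfold cE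
      rw [if_neg (by omega)]
    exact (hq v (h3 v h1) u (h3 u h2)).symm
  have key : ∀ i < D.N - 2, (if i = D.N - 4 then (1 : ℤ) else 0) ≤ bvec D.W t0 bp bn
      (D.bc.rE D.N (qpat (D.N - 4) s t) (D.N - 4) (D.N - 3) (D.N - 2) (D.N - 1) i) := by
    intro i hi
    have h1 := hck i (by show i < D.N - 4 + 2; omega)
    rw [fc_eq, fc_eq, fc_eq, ble_iff, hh i hi, STR.bv_eq, STR.bv_eq] at h1
    have hr : D.bc.rE D.N (qpat (D.N - 4) s t) (D.N - 4) (D.N - 3) (D.N - 2) (D.N - 1) i =
        min (fnd D.HE (hs (qpat (D.N - 4) s t)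
          (cE D.N (D.N - 4) (D.N - 3) (D.N - 2) (D.N - 1) i))) 65535 := rfl
    rw [hr]
    generalize fnd D.HE (hs (qpat (D.N - 4) s t)
          (cE D.N (D.N - 4) (D.N - 3) (D.N - 2) (D.N - 1) i)) = r at *
    have hi1 : cond (Nat.beq i (D.N - 4)) 1 0 = if i = D.N - 4 then 1 else 0 := by
      by_cases h : i = D.N - 4
      · rw [if_pos h, (beq_iff _ _).2 h, cond_true]
      · rw [if_neg h]
        have h4 : Nat.beq i (D.N - 4) = false := by
          cases hb : Nat.beq i (D.N - 4) with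
          | false => rfl
          | true => exact absurd ((beq_iff _ _).1 hb) h
        rw [h4, cond_false]
    rw [hi1] at h1
    have h2 : (if r / 256 = t0 then dg D.W (D.W * (r % 256)) bn else 0) +
        (if i = D.N - 4 then 1 else 0) ≤ if r / 256 = t0 then dg D.W (D.W * (r % 256)) bp else 0 := h1
    unfold bvec
    rcases Nat.lt_or_ge r 65536 with h3 | h3
    · rw [min_eq_left (by omega)]
      split_ifs at h2 ⊢ <;> push_cast <;> omega
    · have h6 : ¬ (65535 / 256 = t0) := by omega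
      rw [min_eq_right (by omega), if_neg h6]
      have h4 : r / 256 ≠ t0 := by omega
      rw [if_neg h4, if_neg h4] at h2
      clear h1
      by_cases h5 : i = D.N - 4
      · rw [if_pos h5] at h2
        omega
      · rw [if_neg h5]
  constructor
  · have h1 := key (D.N - 4) (by omega)
    rw [if_pos rfl] at h1
    exact lt_of_lt_of_le one_pos h1
  · intro c hc'
    have h1 := key c hc'
    refine le_trans ?_ h1
    split_ifs <;> norm_num

end Pool.Agent.Work.MP_f94384_co.Big
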