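import Pool.Agent.Work.MP_f94384_co.Big.Stmts3

/-!
# Item SUS: the usual squares
-/

set_option autoImplicit false

open Finset

namespace Pool.Agent.Work.MP_f94384_co.Big

open Pool.Agent.Work.MP_f94384_co.Flag

namespace SUS

theorem nst_sum {ι : Type} (Z : ℕ) (S : Finset ι) (A : ι → ℕ → ℕ → ℕ) :
    (∑ a ∈ S, nst Z (A a)) = nst Z fun i j => ∑ a ∈ S, A a i j := by
  unfold nst
  rw [Finset.sum_comm]
  refine Finset.sum_congr rfl fun j _ => ?_
  rw [← Finset.sum_mul, Finset.sum_comm]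
  congr 1
  refine Finset.sum_congr rfl fun i _ => ?_
  rw [Finset.sum_mul]

theorem ent_eq (G t : ℕ) : ent G t = dg 192 t G := by
  unfold ent
  have h : (6277101735386680763835789423207666416102355444464034512895 : ℕ) = 2 ^ 192 - 1 := by
    norm_num
  rw [h, bts_eq]

end SUS

open SUS in
theorem SUS_of (h2 : PE2) : SUS := by
  intro N W Z NT nB G B WH FS r hN hRW hE
  have key : ∀ w < N, ∀ x < w,
      pE W (2 ^ W - 1) Z (8 * Z) (2 ^ (8 * Z) - 1) B (ent G (1536 * x + 192 * w))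
        (ent G (1536 * w + 192 * x)) =
      nst Z fun i j => dig W NT (rowP W (8 * Z) NT B WH) (r w x i) (r x w j) := by
    intro w hw x hx
    rw [ent_eq, ent_eq]
    exact h2 W Z NT nB _ _ B WH FS (r w x) (r x w) hRW.WZ hRW.bu hRW.nt hRW.sh
      (hE w hw x (lt_trans hx hw) (ne_of_gt hx)) (hE x (lt_trans hx hw) w hw (ne_of_lt hx))
  unfold sU
  rw [sumL_eq, zero_add]
  have step : ∀ w ∈ range N, sumL (fun x =>
      fc (ent G (Nat.add (Nat.mul 1536 x) (Nat.mul 192 w))) fun el =>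
      fc (ent G (Nat.add (Nat.mul 1536 w) (Nat.mul 192 x))) fun er =>
        pE W (2 ^ W - 1) Z (8 * Z) (2 ^ (8 * Z) - 1) B el er) w 0 =
      ∑ x ∈ range w, nst Z fun i j => dig W NT (rowP W (8 * Z) NT B WH) (r w x i) (r x w j) := by
    intro w hw
    rw [sumL_eq, zero_add]
    refine Finset.sum_congr rfl fun x hx => ?_
    rw [fc_eq, fc_eq]
    exact key w (Finset.mem_range.1 hw) x (Finset.mem_range.1 hx)
  rw [Finset.sum_congr rfl step]
  simp only [nst_sum]

end Pool.Agent.Work.MP_f94384_co.Big
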