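import Pool.Agent.Work.MP_f94384_co.Big.Stmts3

/-!
# The checks of the types of the data
-/

set_option autoImplicit false

open Finset

namespace Pool.Agent.Work.MP_f94384_co.Big

open Pool.Agent.Work.MP_f94384_co.Flag

namespace TYC

theorem sh1 (c : ℕ) : Nat.shiftLeft 1 c = 2 ^ c := by
  show 1 <<< c = _
  rw [Nat.shiftLeft_eq, one_mul]

theorem b255 (x t : ℕ) : bts 255 x t = dg 8 t x := bts_eq 8 x t

theorem ones_eq (W n : ℕ) : ones W n = ∑ k ∈ range n, 2 ^ (W * k) := by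
  unfold ones
  rw [sumL_eq, Nat.zero_add]
  exact Finset.sum_congr rfl fun k _ => sh1 _

theorem ones_lt (W n : ℕ) (hW : 16 ≤ W) : ones W n * 65535 < 2 ^ (W * n) := by
  rw [ones_eq]
  induction n with
  | zero => simp
  | succ n ih =>
    have e0 : W * (n + 1) = W * n + W := by ring
    rw [Finset.sum_range_succ, Nat.add_mul, e0, Nat.pow_add]
    have h1 : 65536 ≤ 2 ^ W := by
      have h2 : 2 ^ 16 ≤ 2 ^ W := Nat.pow_le_pow_right (by norm_num) hW
      have e2 : 2 ^ 16 = 65536 := by norm_num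
      rwa [e2] at h2
    have h2 : 2 ^ (W * n) * 65536 ≤ 2 ^ (W * n) * 2 ^ W := Nat.mul_le_mul_left _ h1
    generalize 2 ^ (W * n) = X at ih h2 ⊢
    generalize X * 2 ^ W = Y at h2 ⊢
    generalize ∑ k ∈ range n, 2 ^ (W * k) = S at ih ⊢
    linarith

theorem dig0 (W n k b : ℕ) (hW : 16 ≤ W) (hb : b &&& (ones W n * 65535) = b) (hk : n ≤ k) :
    dg W (W * k) b = 0 := by
  have h1 : b ≤ ones W n * 65535 := by
    rw [← hb]
    exact Nat.and_le_right
  have h2 : b < 2 ^ (W * k) := lt_of_le_of_lt h1 (lt_of_lt_of_le (ones_lt W n hW)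
    (Nat.pow_le_pow_right (by norm_num) (Nat.mul_le_mul_left _ hk)))
  unfold dg
  rw [Nat.div_eq_of_lt h2, Nat.zero_mod]

theorem rev (g : ℕ → ℕ) (n : ℕ) :
    (List.range n).map (fun k => g (n - 1 - k)) = ((List.range n).map g).reverse := by
  apply List.ext_getElem
  · simp
  · intro i h1 h2
    simp

theorem bvec_eq (W ty bp bn k : ℕ) (hk : k < 256) :
    bvec W ty bp bn (256 * ty + k) = (dg W (W * k) bp : ℤ) - dg W (W * k) bn := by
  unfold bvec
  have h1 : (256 * ty + k) / 256 = ty := by omega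
  have h2 : (256 * ty + k) % 256 = k := by omega
  rw [h1, h2, if_pos rfl]

theorem tok_congr {W c o n : ℕ} {ro : ℕ → ℕ} {B B' : ℕ → ℤ} (h : TOK W c o n ro B)
    (hB : ∀ k < n, B k = B' k) : TOK W c o n ro B' := by
  refine ⟨h.1, h.2.1, h.2.2.1, ?_⟩
  obtain ⟨s, b, h4⟩ := h.2.2.2
  refine ⟨s, b, fun p hp q hq => ?_⟩
  rw [← h4 p hp q hq]
  show (((tv c o (dg W (W * p) (ro q)) - B' p * B' q : ℤ)) : ℝ) =
    ((tv c o (dg W (W * p) (ro q)) - B p * B q : ℤ) : ℝ)
  rw [hB p hp, hB q hq]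

theorem main (hPST : PST) (hPSB : PSB) (hLSK : LSK) : TYC := by
  intro D zb hw ty m s bl Δ ε e w co Λ
  have h1 : D.o < D.c := by have := hw.oc; omega
  refine ⟨?_, ?_, ?_, ?_, ?_⟩
  · intro h
    unfold cTU at h
    simp only [fc_eq] at h
    rw [hLSK, b255, mk_eq, mk_eq, mk_eq, sh1, sh1] at h
    exact hPST _ _ _ _ m s bl Δ ε e w co Λ _ hw.oW h1 hw.cW h
  · intro h
    unfold cTE at h
    simp only [fc_eq] at h
    rw [hLSK, b255, mk_eq, mk_eq, mk_eq, sh1, sh1] at h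
    exact hPST _ _ _ _ m s bl Δ ε e w co Λ _ hw.oW h1 hw.cW h
  · intro h
    unfold cTV at h
    simp only [fc_eq] at h
    rw [hLSK, b255, mk_eq, mk_eq, mk_eq, sh1, sh1] at h
    exact hPST _ _ _ _ m s bl Δ ε e w co Λ _ hw.oW h1 hw.cW h
  · intro bp bn h
    unfold cTB at h
    simp only [fc_eq, Nat.mul_eq, Nat.add_eq, Nat.sub_eq] at h
    rw [b255] at h
    have hW : 16 ≤ D.W := by have := hw.oW; have := hw.o40; omega
    have hn : dg 8 (8 * ty) D.NE < 256 := dg_lt _ _ _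
    rw [cond_true_iff, cond_true_iff, hLSK, cond_true_iff, beq_iff, beq_iff] at h
    obtain ⟨a1, a2, a3, a4⟩ := h
    have e1 : (List.range (dg 8 (8 * ty) D.NE)).map (fun k => rowP D.W (8 * D.Z) D.NE D.BE D.WE
        (256 * ty + (dg 8 (8 * ty) D.NE - 1 - k))) =
        ((List.range (dg 8 (8 * ty) D.NE)).map (fun k => rowP D.W (8 * D.Z) D.NE D.BE D.WE
          (256 * ty + k))).reverse := rev (fun k => rowP D.W (8 * D.Z) D.NE D.BE D.WE
          (256 * ty + k)) _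
    rw [e1] at a3 a4
    rw [sh1, mk_eq] at a3
    rw [mk_eq, mk_eq, mk_eq, sh1, sh1] at a4
    have h5 := hPSB D.W D.c D.o (dg 8 (8 * ty) D.NE) bp bn m s bl Δ ε e w co Λ
      (fun k => rowP D.W (8 * D.Z) D.NE D.BE D.WE (256 * ty + k)) hw.oW hw.o40 h1 hw.cW a1 a2 a3 a4
    refine ⟨tok_congr h5 fun k hk => ?_, ?_⟩
    · rw [bvec_eq _ _ _ _ _ (by omega)]
    · intro a ha hak
      rw [ha] at hak
      unfold bvec
      rw [if_pos ha, dig0 _ _ _ bp hW a1 hak, dig0 _ _ _ bn hW a2 hak]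
      simp
  · intro NT h0 R B
    rw [h0]
    refine ⟨fun k hk => absurd hk (Nat.not_lt_zero k), fun k hk => absurd hk (Nat.not_lt_zero k),
      fun k hk => absurd hk (Nat.not_lt_zero k), ?_⟩
    exact ⟨0, fun _ _ => 0, fun p hp => absurd hp (Nat.not_lt_zero p)⟩

end TYC

/-- from the items PST, PSB, LSK -/
theorem TYC_of (hPST : PST) (hPSB : PSB) (hLSK : LSK) : TYC := TYC.main hPST hPSB hLSK

end Pool.Agent.Work.MP_f94384_co.Big
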