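import Pool.Agent.Work.MP_f94384_co.Big.P_CGN
import Pool.Agent.Work.MP_f94384_co.Big.P_SUS
import Pool.Agent.Work.MP_f94384_co.Big.P_SES
import Pool.Agent.Work.MP_f94384_co.Big.P_SDS
import Pool.Agent.Work.MP_f94384_co.Big.P_PE2
import Pool.Agent.Work.MP_f94384_co.Big.P_ENU
import Pool.Agent.Work.MP_f94384_co.Big.P_ENE
import Pool.Agent.Work.MP_f94384_co.Big.P_END
import Pool.Agent.Work.MP_f94384_co.Big.P_CKU
import Pool.Agent.Work.MP_f94384_co.Big.P_CKF
import Pool.Agent.Work.MP_f94384_co.Big.P_GDT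
import Pool.Agent.Work.MP_f94384_co.Big.P_DTB
import Pool.Agent.Work.MP_f94384_co.Big.P_GET
import Pool.Agent.Work.MP_f94384_co.Big.P_GFT
import Pool.Agent.Work.MP_f94384_co.Big.P_PEN
import Pool.Agent.Work.MP_f94384_co.Big.P_ER2
import Pool.Agent.Work.MP_f94384_co.Big.P_DKX
import Pool.Agent.Work.MP_f94384_co.Big.P_GUD
import Pool.Agent.Work.MP_f94384_co.Big.P_TYC
import Pool.Agent.Work.MP_f94384_co.Big.P_PST
import Pool.Agent.Work.MP_f94384_co.Big.P_PSB
import Pool.Agent.Work.MP_f94384_co.Big.P_LSK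
import Pool.Agent.Work.MP_f94384_co.Big.P_MAT
import Pool.Agent.Work.MP_f94384_co.Big.P_STR
import Pool.Agent.Work.MP_f94384_co.Big.P_CKA
import Pool.Agent.Work.MP_f94384_co.Big.P_CLX
import Pool.Agent.Work.MP_f94384_co.Big.Asm

/-!
# Kernel program for the certificates of order 7 and 8: all items
-/

set_option autoImplicit false

namespace Pool.Agent.Work.MP_f94384_co.Big

theorem pr_TYC : TYC := TYC_of pr_PST pr_PSB pr_LSK

theorem pr_SUS : SUS := SUS_of pr_PE2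

theorem pr_SDS : SDS := SDS_of pr_PE2

theorem pr_END : END := END.of pr_GET pr_PEN pr_ER2 pr_DKX pr_GUD

theorem pr_ENE : ENE := ENE.of pr_ER2 pr_DKX pr_GUD

theorem pr_DTB : DTB := DTB_of pr_SDS pr_END pr_CKU

theorem pr_GDT : GDT := GDT_of pr_DTB

theorem pr_CGN : CGN := CGN_of pr_SUS pr_SES pr_ENU pr_ENE pr_GDT

end Pool.Agent.Work.MP_f94384_co.Big
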