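import Pool.Agent.Work.MP_f94384_co.Big.Prog

/-!
# Kernel program for the certificates of order 7 and 8: data and checks
-/

set_option autoImplicit false
set_option maxRecDepth 100000

namespace Pool.Agent.Work.MP_f94384_co.Big

/-- Data of a certificate of order `N` (for graphs without complete subgraph on `s` vertices).
`m, q`: the constant is `q / m`. Widths: rows have fields of `W` bits, value below `2 ^ (o + 1)`
with offset `2 ^ o`, and the bit `c`; tables have fields of `Z` bits; the tables `DT`, `PT` have the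
bit `c2` and the offset `2 ^ o2`. -/
structure Dt where
  (N s m q W c o Z c2 o2 v : ℕ)
  /-- numbers of the representatives of order `N - 1`, `N - 2`, numbers of bundles -/
  (nR1 nR2 nBU nBE : ℕ)
  /-- numbers of columns of the types, fields of 8 bits -/
  (NU NE NV : ℕ)
  /-- representatives of order `N - 1`, `N - 2` (numbers of 64 bits) and their entries -/
  (R1 R2 TU TE : Tr)
  /-- bundles, rows of the slots of the bundles, place of a row -/
  (BU BE FU FE WU WE : Tr)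
  /-- rows of `V` of the flags; the row of a flag, the flag of a row -/
  (BV FV WV : Tr)
  /-- row functions -/
  (HU HE HV : St)
  /-- deletions of the representatives of order `N - 1`; tables; multipliers -/
  (C0 DT PT ZT : Tr)
  /-- representatives of order `N`, deletions of one and of two positions -/
  (R0 C1 C2 : Tr)

/-- `2 ^ w - 1` -/
def mk (w : ℕ) : ℕ := Nat.sub (Nat.shiftLeft 1 w) 1

/-- `m` at the positions `Z i + 8 Z j`, `i, j < 8` -/
def kk (m Z : ℕ) : ℕ := fc (kS m Z) fun a => kS a (Nat.mul 8 Z)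

/-- fields of the absent positions -/
def tl (n : ℕ) : ℕ := Nat.shiftLeft (mk (Nat.sub 32 (Nat.mul 4 n))) (Nat.mul 4 n)

/-- check of the representative `k` of order `N` -/
noncomputable def cG (D : Dt) (k : ℕ) : Bool :=
  fc D.N fun N => fc D.W fun W => fc D.Z fun Z => fc (Nat.mul 8 Z) fun Z8 =>
  fc (get D.R0 k) fun A => fc (get D.C1 k) fun c1 => fc (get D.C2 k) fun c2 =>
  fc (tl N) fun t =>
  cond (dk1 N (Nat.sub N 1) D.nR1 t D.R1 A c1) (cond (dk2 N (Nat.sub N 2) D.nR2 t D.R2 A c2)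
    (fc (mk W) fun mW => fc (mk Z) fun mZ => fc (mk Z8) fun M8 => fc (kS mZ Z8) fun MZ =>
      fc (kk 65535 192) fun M16 => fc (kk (Nat.sub (Nat.shiftLeft 1 192) (Nat.shiftLeft 1 128)) 192)
        fun MU => fc (mk 192) fun m192 => fc (kS m192 1536) fun M192 => fc (mk 1536) fun M1536 =>
      fc (mk 98304) fun M2 =>
      fc (gU N M16 MU m192 D.TU c1) fun GU => fc (gE2 N M16 MU M192 M1536 D.TE c2) fun GE =>
      fc (Nat.add (sU N W mW Z Z8 M8 D.BU GU)
        (cond (Nat.beq D.v 0) 0 (sV N W mW Z Z8 M2 D.BV GE))) fun XU =>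
      fc (sE N W mW Z Z8 M8 M2 D.BE A GE) fun XE =>
      fc (gD N Z Z8 MZ M8 D.DT c1) fun XD => fc (gL N Z Z8 MZ M8 D.PT A c1) fun XP =>
      fin N Z Z8 mZ D.c (kk (mk D.c) Z) (kk (mk (Nat.sub Z D.c)) Z) (Nat.shiftLeft 1 D.o)
        D.c2 (kk (mk D.c2) Z) (kk (mk (Nat.sub Z D.c2)) Z) (Nat.shiftLeft 1 D.o2) D.m D.q
        XU XE XD XP) false) false

/-- multipliers of a pattern of order `n`: `f a b` at `Z a + 8 Z b` -/
noncomputable def tz (n Z : ℕ) (f : ℕ → ℕ → ℕ) : ℕ :=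
  sumL (fun a => sumL (fun b => Nat.shiftLeft (f a b)
    (Nat.add (Nat.mul Z a) (Nat.mul (Nat.mul 8 Z) b))) n 0) n 0

/-- row of the flag with the point `a` and weight `b`, from the entries -/
def rid (T a b : ℕ) : ℕ :=
  fc (ent T (Nat.mul 192 a)) fun e =>
    Nat.add (Nat.mul 256 (bts 255 e 168)) (bts 255 e (Nat.mul 16 b))

/-- check of the representative `j` of order `n = N - 1` -/
noncomputable def cH (D : Dt) (j : ℕ) : Bool :=
  fc (Nat.sub D.N 1) fun n => fc D.W fun W => fc D.Z fun Z => fc (Nat.mul 8 Z) fun Z8 =>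
  fc (get D.R1 j) fun A => fc (get D.C0 j) fun c0 => fc (get D.TU j) fun T =>
  cond (ckU W Z8 D.NU n D.nBU D.FU D.HU A T)
    (cond (dk1 n (Nat.sub n 1) D.nR2 (tl n) D.R2 A c0)
      (fc (mk W) fun mW => fc (mk Z8) fun M8 =>
        fc (kk 65535 192) fun M16 => fc (kk (Nat.sub (Nat.shiftLeft 1 192) (Nat.shiftLeft 1 128)) 192)
          fun MU => fc (kS (mk 192) 1536) fun M192 => fc (mk 1536) fun M1536 =>
        fc (gE1 n M16 MU M192 M1536 D.TE c0) fun GE => fc (sD n W mW Z Z8 M8 D.BE GE) fun X =>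
        fc (Nat.land X (kk (mk D.c) Z)) fun lo =>
        fc (Nat.shiftLeft (bts (kk (mk (Nat.sub Z D.c)) Z) X D.c) D.o) fun hi =>
        fc (Nat.mul (tz n Z fun _ _ => 1) (Nat.add (Nat.shiftLeft 1 D.c2) (Nat.shiftLeft 1 D.o2)))
          fun on =>
        cond (Nat.beq (Nat.add (get D.DT j) hi) (Nat.add lo on))
          (Nat.beq (Nat.add (get D.PT j) (Nat.add (Nat.mul D.m hi)
              (tz n Z fun a b => get D.ZT (rid T b a))))
            (Nat.add (Nat.mul D.m lo) (Nat.add (tz n Z fun a b => get D.ZT (rid T a b)) on))) false)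
      false) false

/-- check of the representative `j` of order `N - 2` -/
noncomputable def cJ (D : Dt) (j : ℕ) : Bool :=
  ckE D.W (Nat.mul 8 D.Z) D.NE (Nat.sub D.N 2) D.nBE D.v D.FE D.FV D.HE D.HV (get D.R2 j) (get D.TE j)

/-- check of the bundle `F` -/
noncomputable def cBU (D : Dt) (F : ℕ) : Bool :=
  fc D.W fun W => ckb W (Nat.mul 8 D.Z) D.NU D.BU D.WU D.FU F

/-- check of the bundle `F` -/
noncomputable def cBE (D : Dt) (F : ℕ) : Bool :=
  fc D.W fun W => ckb W (Nat.mul 8 D.Z) D.NE D.BE D.WE D.FE F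

/-- check of the flag `F` for `V` -/
noncomputable def cBV (D : Dt) (F : ℕ) : Bool :=
  fc (get D.FV F) fun r => cond (Nat.beq (get D.WV r) F)
    (Nat.ble (Nat.succ (Nat.land r 255)) (bts 255 D.NV (Nat.mul 8 (Nat.shiftRight r 8)))) false

/-- check of the type `ty` of `V` -/
noncomputable def cTV (D : Dt) (ty m s bl Δ ε e w co : ℕ) (Λ : List ℕ) : Bool :=
  fc D.W fun W => fc (bts 255 D.NV (Nat.mul 8 ty)) fun n =>
  lstK (fun k => get D.BV (get D.WV (Nat.add (Nat.mul 256 ty) k))) (fun l =>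
    psT W (mk W) (Nat.shiftLeft 1 D.c) (mk (Nat.succ D.o)) n m s
      (Nat.shiftLeft 1 (Nat.pred bl)) Δ ε e (mk bl) w co Λ l) n []

/-- check of the type `ty`: matrix rows from the bundles; see `psT` -/
noncomputable def cTU (D : Dt) (ty m s bl Δ ε e w co : ℕ) (Λ : List ℕ) : Bool :=
  fc D.W fun W => fc (Nat.mul 8 D.Z) fun Z8 => fc (bts 255 D.NU (Nat.mul 8 ty)) fun n =>
  lstK (fun k => rowP W Z8 D.NU D.BU D.WU (Nat.add (Nat.mul 256 ty) k)) (fun l =>
    psT W (mk W) (Nat.shiftLeft 1 D.c) (mk (Nat.succ D.o)) n m s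
      (Nat.shiftLeft 1 (Nat.pred bl)) Δ ε e (mk bl) w co Λ l) n []

/-- check of the type `ty` -/
noncomputable def cTE (D : Dt) (ty m s bl Δ ε e w co : ℕ) (Λ : List ℕ) : Bool :=
  fc D.W fun W => fc (Nat.mul 8 D.Z) fun Z8 => fc (bts 255 D.NE (Nat.mul 8 ty)) fun n =>
  lstK (fun k => rowP W Z8 D.NE D.BE D.WE (Nat.add (Nat.mul 256 ty) k)) (fun l =>
    psT W (mk W) (Nat.shiftLeft 1 D.c) (mk (Nat.succ D.o)) n m s
      (Nat.shiftLeft 1 (Nat.pred bl)) Δ ε e (mk bl) w co Λ l) n []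

/-- check of the type `ty` with `b = bp - bn` subtracted -/
noncomputable def cTB (D : Dt) (ty bp bn m s bl Δ ε e w co : ℕ) (Λ : List ℕ) : Bool :=
  fc D.W fun W => fc (Nat.mul 8 D.Z) fun Z8 => fc (bts 255 D.NE (Nat.mul 8 ty)) fun n =>
  fc (Nat.mul (ones W n) 65535) fun on =>
  cond (Nat.beq (Nat.land bp on) bp) (cond (Nat.beq (Nat.land bn on) bn)
  (lstK (fun k => rowP W Z8 D.NE D.BE D.WE
      (Nat.add (Nat.mul 256 ty) (Nat.sub (Nat.sub n 1) k))) (fun l' =>
    cond (vldL (ones W n) (Nat.shiftLeft 1 D.c) (mk (Nat.succ D.o)) l')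
    (subB W (mk W) bp bn l' (Nat.mul W (Nat.sub n 1)) [] fun l =>
    psT W (mk W) (Nat.shiftLeft 1 D.c) (mk (Nat.succ D.o)) n m s
      (Nat.shiftLeft 1 (Nat.pred bl)) Δ ε e (mk bl) w co Λ l) false) n []) false) false

/-- value of `b` -/
def bv (ty W b r : ℕ) : ℕ :=
  cond (Nat.beq (Nat.shiftRight r 8) ty) (bts (mk W) b (Nat.mul W (Nat.land r 255))) 0

/-- strictness: `b` at the rows of the flags with the pattern `A`: roots `0, .., k - 1`, points
`k`, `k + 1` -/
noncomputable def ckS (D : Dt) (ty bp bn k A : ℕ) : Bool :=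
  fc (mkM 16 65535 A) fun MV => fc (mkM 40 1099511627775 A) fun MW =>
  fc (Nat.add (cb (Nat.add k 2)) (Nat.add (Nat.shiftLeft 1 (Nat.mul 8 k))
    (Nat.shiftLeft 3 (Nat.mul 8 (Nat.add k 1))))) fun B =>
  allL (fun i => fc (Nat.add B (Nat.shiftLeft 10 (Nat.mul 8 i))) fun C =>
    fc (hsP MV MW C) fun h => fc (fnd D.HE h) fun r =>
      Nat.ble (Nat.add (bv ty D.W bn r) (cond (Nat.beq i k) 1 0)) (bv ty D.W bp r)) (Nat.add k 2)

end Pool.Agent.Work.MP_f94384_co.Big
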