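import Pool.Agent.Work.MP_f94384_co.Big.Defs
import Pool.Agent.Work.MP_f94384_co.Big.Prog2

/-!
# Kernel program for the certificates of order 7 and 8: basic facts
-/

set_option autoImplicit false

open Finset

namespace Pool.Agent.Work.MP_f94384_co.Big

open Pool.Agent.Work.MP_f94384_co.Flag

theorem fc_eq {α : Type} (n : ℕ) (f : ℕ → α) : fc n f = f n := by
  cases n <;> rfl

theorem sumL_eq (f : ℕ → ℕ) (n a : ℕ) : sumL f n a = a + ∑ k ∈ range n, f k := by
  induction n generalizing a with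
  | zero => simp [sumL]
  | succ n ih =>
    have h : sumL f (n + 1) a = fc (Nat.add a (f n)) (sumL f n) := rfl
    rw [h, fc_eq, ih, Finset.sum_range_succ]
    show a + f n + _ = _
    ring

theorem allL_iff (f : ℕ → Bool) (n : ℕ) : allL f n = true ↔ ∀ k < n, f k = true := by
  induction n with
  | zero => simp [allL]
  | succ n ih =>
    have h : allL f (n + 1) = cond (f n) (allL f n) false := rfl
    rw [h]
    constructor
    · intro h1 k hk
      cases h2 : f n with
      | false => rw [h2] at h1; simp at h1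
      | true =>
        rw [h2, cond_true, ih] at h1
        rcases Nat.lt_succ_iff_lt_or_eq.1 hk with h3 | rfl
        · exact h1 k h3
        · exact h2
    · intro h1
      rw [h1 n (Nat.lt_succ_self n), cond_true, ih]
      exact fun k hk => h1 k (Nat.lt_succ_of_lt hk)

theorem cond_true_iff (b c : Bool) : (cond b c false = true) ↔ (b = true ∧ c = true) := by
  cases b <;> simp

theorem beq_iff (a b : ℕ) : Nat.beq a b = true ↔ a = b :=
  ⟨Nat.eq_of_beq_eq_true, fun h => by rw [h]; exact Nat.beq_refl b⟩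

theorem ble_iff (a b : ℕ) : Nat.ble a b = true ↔ a ≤ b :=
  ⟨Nat.le_of_ble_eq_true, fun h => Nat.ble_eq_true_of_le h⟩

/-- the `w` bits of `x` from the bit `t` on -/
def dg (w t x : ℕ) : ℕ := x / 2 ^ t % 2 ^ w

theorem dg_lt (w t x : ℕ) : dg w t x < 2 ^ w := Nat.mod_lt _ (by positivity)

theorem bts_eq (w x t : ℕ) : bts (2 ^ w - 1) x t = dg w t x := by
  show (x >>> t) &&& (2 ^ w - 1) = _
  rw [Nat.and_two_pow_sub_one_eq_mod, Nat.shiftRight_eq_div_pow]
  rfl

theorem bt_eq (A i : ℕ) : bt A i = A.testBit i := by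
  show Nat.beq ((A >>> i) &&& 1) 1 = _
  have h : (A >>> i) &&& 1 = (A >>> i) % 2 := Nat.and_one_is_mod _
  rw [h, Nat.testBit, Nat.one_and_eq_mod_two]
  have h2 : (A >>> i) % 2 < 2 := Nat.mod_lt _ (by norm_num)
  interval_cases (A >>> i) % 2 <;> rfl

theorem mk_eq (w : ℕ) : mk w = 2 ^ w - 1 := by
  show Nat.sub (1 <<< w) 1 = _
  rw [Nat.shiftLeft_eq, one_mul]
  rfl

theorem kS_eq (m S : ℕ) : kS m S = ∑ s ∈ range 8, m * 2 ^ (S * s) := by
  unfold kS
  rw [fc_eq, fc_eq]
  show m + m <<< S + (m + m <<< S) <<< (2 * S) + (m + m <<< S + (m + m <<< S) <<< (2 * S)) <<<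
    (4 * S) = _
  simp only [Nat.shiftLeft_eq, Finset.sum_range_succ, Finset.range_zero, Finset.sum_empty]
  ring

theorem kk_eq (m Z : ℕ) : kk m Z = ∑ j ∈ range 8, (∑ i ∈ range 8, m * 2 ^ (Z * i)) *
    2 ^ (8 * Z * j) := by
  unfold kk
  rw [fc_eq, kS_eq, kS_eq]
  rfl

/-- field `i` of a permutation -/
def pf (π i : ℕ) : ℕ := dg 4 (4 * i) π

/-- column of the position `i` in an entry -/
def eco (e i : ℕ) : ℕ := dg 8 (16 * i) e

/-- slot of the position `i` in an entry -/
def esl (e i : ℕ) : ℕ := dg 4 (16 * i + 8) e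

theorem gst_eq (a b M m π x s acc : ℕ) : gst a b M m π x s acc =
    acc * 2 ^ b + (x >>> (a * ((π >>> s) &&& m)) &&& M) := by
  show acc <<< b + _ = _
  rw [Nat.shiftLeft_eq]
  rfl

theorem gP_eq (a M π x : ℕ) : gP a M π x =
    ∑ i ∈ range 8, (x >>> (a * pf π i) &&& M) * 2 ^ (a * i) := by
  have h : ∀ s, (π >>> s) &&& 15 = dg 4 s π := fun s => bts_eq 4 π s
  unfold gP pf
  simp only [gst_eq, h, Finset.sum_range_succ, Finset.range_zero, Finset.sum_empty, Nat.zero_mul]
  ring

theorem gC_eq (a b M e x : ℕ) : gC a b M e x =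
    ∑ i ∈ range 8, (x >>> (a * eco e i) &&& M) * 2 ^ (b * i) := by
  have h : ∀ s, (e >>> s) &&& 255 = dg 8 s e := fun s => bts_eq 8 e s
  unfold gC eco
  simp only [gst_eq, h, Finset.sum_range_succ, Finset.range_zero, Finset.sum_empty, Nat.zero_mul]
  ring

theorem gS_eq (a b M e x : ℕ) : gS a b M e x =
    ∑ i ∈ range 8, (x >>> (a * esl e i) &&& M) * 2 ^ (b * i) := by
  have h : ∀ s, (e >>> s) &&& 15 = dg 4 s e := fun s => bts_eq 4 e s
  unfold gS esl
  simp only [gst_eq, h, Finset.sum_range_succ, Finset.range_zero, Finset.sum_empty, Nat.zero_mul]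
  ring

end Pool.Agent.Work.MP_f94384_co.Big
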