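import Pool.Agent.Work.MP_f94384_co.Big.DT0

/-!
# Check of a representative: the sums of the contributions
-/

set_option autoImplicit false

open Finset

namespace Pool.Agent.Work.MP_f94384_co.Big

open Pool.Agent.Work.MP_f94384_co.Flag

namespace CG

theorem gU_lt (D : Dt) (N : ℕ) (p : Pat) (w x i : ℕ) : D.bc.gU N p w x i < 65536 := by
  unfold BC.gU
  split_ifs
  · exact DT.rU_lt _ _ _ _ _ _
  · norm_num

theorem gE_lt (D : Dt) (N : ℕ) (p : Pat) (w z x y i : ℕ) : D.bc.gE N p w z x y i < 65536 := by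
  unfold BC.gE
  split_ifs
  · exact DT.rE_lt _ _ _ _ _ _ _ _
  · norm_num

theorem U_absent {D : Dt} {zb t0 : ℕ} {b : ℕ → ℤ} (h : AOK D zb t0 b) (a : ℕ) :
    D.bc.U 65535 a = 0 ∧ D.bc.U a 65535 = 0 := by
  have h1 := DT.dig_absent D.W D.NU (rowP D.W (8 * D.Z) D.NU D.BU D.WU) h.w.tU a
  constructor
  · show tv D.c D.o (dig _ _ _ _ _) = 0
    rw [h1.1, MAT.tv_zero]
  · show tv D.c D.o (dig _ _ _ _ _) = 0
    rw [h1.2, MAT.tv_zero]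

theorem E_absent {D : Dt} {zb t0 : ℕ} {b : ℕ → ℤ} (h : AOK D zb t0 b) (a : ℕ) :
    D.bc.E 65535 a = 0 ∧ D.bc.E a 65535 = 0 := by
  have h1 := DT.dig_absent D.W D.NE (rowP D.W (8 * D.Z) D.NE D.BE D.WE) h.w.tE a
  constructor
  · show tv D.c D.o (dig _ _ _ _ _) = 0
    rw [h1.1, MAT.tv_zero]
  · show tv D.c D.o (dig _ _ _ _ _) = 0
    rw [h1.2, MAT.tv_zero]

theorem U_gU {D : Dt} {zb t0 : ℕ} {b : ℕ → ℤ} (h : AOK D zb t0 b) (p : Pat) {N w x i j : ℕ}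
    (hw : w ≠ x) (hi : i < N) (hj : j < N) :
    D.bc.U (D.bc.gU N p w x i) (D.bc.gU N p x w j) = D.bc.pU N p w x i j := by
  unfold BC.pU BC.gU
  by_cases h1 : i ≠ x
  · by_cases h2 : j ≠ w
    · rw [if_pos ⟨hi, h1⟩, if_pos ⟨hj, h2⟩, if_pos ⟨hw, h1, h2⟩]
    · rw [if_neg (c := j < N ∧ j ≠ w) (fun h4 => h2 h4.2),
        if_neg (c := w ≠ x ∧ i ≠ x ∧ j ≠ w) (fun h4 => h2 h4.2.2)]
      exact (U_absent h _).2
  · rw [if_neg (c := i < N ∧ i ≠ x) (fun h4 => h1 h4.2),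
      if_neg (c := w ≠ x ∧ i ≠ x ∧ j ≠ w) (fun h4 => h1 h4.2.1)]
    exact (U_absent h _).1

theorem E_gE {D : Dt} {zb t0 : ℕ} {b : ℕ → ℤ} (h : AOK D zb t0 b) (p : Pat) {N w z x y i j : ℕ}
    (hd : Dis w z x y) (hi : i < N) (hj : j < N) :
    D.bc.E (D.bc.gE N p w z x y i) (D.bc.gE N p x y w z j) = D.bc.pE N p w z x y i j := by
  obtain ⟨d1, d2, d3, d4, d5, d6⟩ := hd
  unfold BC.pE BC.gE
  by_cases h1 : i ≠ x ∧ i ≠ y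
  · by_cases h2 : j ≠ w ∧ j ≠ z
    · rw [if_pos ⟨hi, h1⟩, if_pos ⟨hj, h2⟩,
        if_pos ⟨d1, d2, d3, d4, d5, d6, h1.1, h1.2, h2.1, h2.2⟩]
    · rw [if_neg (c := j < N ∧ j ≠ w ∧ j ≠ z) (fun h4 => h2 h4.2),
        if_neg (c := w ≠ z ∧ w ≠ x ∧ w ≠ y ∧ z ≠ x ∧ z ≠ y ∧ x ≠ y ∧ i ≠ x ∧ i ≠ y ∧ j ≠ w ∧ j ≠ z)
        (fun h4 => h2 ⟨h4.2.2.2.2.2.2.2.2.1, h4.2.2.2.2.2.2.2.2.2⟩)]
      exact (E_absent h _).2
  · rw [if_neg (c := i < N ∧ i ≠ x ∧ i ≠ y) (fun h4 => h1 h4.2),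
      if_neg (c := w ≠ z ∧ w ≠ x ∧ w ≠ y ∧ z ≠ x ∧ z ≠ y ∧ x ≠ y ∧ i ≠ x ∧ i ≠ y ∧ j ≠ w ∧ j ≠ z)
      (fun h4 => h1 ⟨h4.2.2.2.2.2.2.1, h4.2.2.2.2.2.2.2.1⟩)]
    exact (E_absent h _).1

theorem pE_dis (C : BC) (N : ℕ) (p : Pat) {w z x y i j : ℕ} (hd : ¬ Dis w z x y) :
    C.pE N p w z x y i j = 0 := by
  unfold BC.pE
  exact if_neg fun h => hd ⟨h.1, h.2.1, h.2.2.1, h.2.2.2.1, h.2.2.2.2.1, h.2.2.2.2.2.1⟩

theorem pV_dis (C : BC) (N : ℕ) (p : Pat) {w z x y i j : ℕ}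
    (hd : ¬ (Dis w z x y ∧ i = w ∧ j = x)) : C.pV N p w z x y i j = 0 := by
  unfold BC.pV
  exact if_neg fun h => hd ⟨⟨h.1, h.2.1, h.2.2.1, h.2.2.2.1, h.2.2.2.2.1, h.2.2.2.2.2.1⟩,
    h.2.2.2.2.2.2⟩

theorem pV_eq (C : BC) (N : ℕ) (p : Pat) {w z x y i j : ℕ}
    (hd : Dis w z x y ∧ i = w ∧ j = x) : C.pV N p w z x y i j =
      C.V (C.rV N p w z x y) (C.rV N p x y w z) := by
  obtain ⟨⟨d1, d2, d3, d4, d5, d6⟩, h1, h2⟩ := hd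
  unfold BC.pV
  exact if_pos ⟨d1, d2, d3, d4, d5, d6, h1, h2⟩

/-! ### usual squares -/

/-- digits of the usual squares -/
noncomputable def XU (D : Dt) (p : Pat) (i j : ℕ) : ℕ :=
  ∑ w ∈ range D.N, ∑ x ∈ range w, dig D.W D.NU (rowP D.W (8 * D.Z) D.NU D.BU D.WU)
    (D.bc.gU D.N p w x i) (D.bc.gU D.N p x w j)

/-- digits of the usual squares `V` -/
noncomputable def XV (D : Dt) (p : Pat) (i j : ℕ) : ℕ :=
  ∑ w ∈ range D.N, ∑ x ∈ range w, ∑ z ∈ range D.N, ∑ y ∈ range D.N,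
    if Dis w z x y ∧ i = w ∧ j = x then dig D.W D.NV (fun b => get D.BV (get D.WV b))
      (D.bc.rV D.N p w z x y) (D.bc.rV D.N p x y w z) else 0

/-- digits of the eigenvalue squares -/
noncomputable def XE (D : Dt) (p : Pat) (i j : ℕ) : ℕ :=
  ∑ w ∈ range D.N, ∑ x ∈ range w, if p w x = true then
    ∑ z ∈ range D.N, ∑ y ∈ range D.N, if Dis w z x y then
      dig D.W D.NE (rowP D.W (8 * D.Z) D.NE D.BE D.WE) (D.bc.gE D.N p w z x y i)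
        (D.bc.gE D.N p x y w z j) else 0
    else 0

theorem cardU (N : ℕ) (hN : N ≤ 8) : (∑ w ∈ range N, ∑ _x ∈ range w, 1) ≤ 28 := by
  interval_cases N <;> decide

/-- number of the placements -/
def nE (N : ℕ) : ℕ :=
  ∑ w ∈ range N, ∑ x ∈ range w, ∑ z ∈ range N, ∑ y ∈ range N, if Dis w z x y then 1 else 0

theorem cardE (N : ℕ) (hN : N ≤ 8) : nE N ≤ 1024 := by
  have h1 : ∀ N < 9, nE N ≤ 1024 := by decide +kernel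
  exact h1 N (by omega)

end CG

end Pool.Agent.Work.MP_f94384_co.Big
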