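import Pool.Agent.Work.MP_f94384_co.Big.CG1

/-!
# Check of a representative: values of the sums
-/

set_option autoImplicit false

open Finset

namespace Pool.Agent.Work.MP_f94384_co.Big

open Pool.Agent.Work.MP_f94384_co.Flag

namespace CG

section

variable {D : Dt} {zb t0 : ℕ} {b : ℕ → ℤ}

theorem XU_cod (h : AOK D zb t0 b) (p : Pat) (i j : ℕ) :
    Cod D.c D.o 28 (XU D p i j) (∑ w ∈ range D.N, ∑ x ∈ range w,
      D.bc.U (D.bc.gU D.N p w x i) (D.bc.gU D.N p x w j)) := by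
  refine DT.cod_mono (cardU D.N h.w.N8) ?_
  unfold XU
  refine pr_COD.2.2.2.1 _ _ _ _ _ _ fun w _ => ?_
  refine pr_COD.2.2.2.1 _ _ _ _ _ _ fun x _ => ?_
  exact DT.codU h (gU_lt _ _ _ _ _ _) (gU_lt _ _ _ _ _ _)

theorem XE_cod (h : AOK D zb t0 b) (p : Pat) (i j : ℕ) :
    Cod D.c D.o 1024 (XE D p i j) (∑ w ∈ range D.N, ∑ x ∈ range w, if p w x = true then
      ∑ z ∈ range D.N, ∑ y ∈ range D.N, if Dis w z x y then
        D.bc.E (D.bc.gE D.N p w z x y i) (D.bc.gE D.N p x y w z j) else 0 else 0) := by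
  refine DT.cod_mono (cardE D.N h.w.N8) ?_
  unfold XE nE
  refine pr_COD.2.2.2.1 _ _ _ _ _ _ fun w _ => ?_
  refine pr_COD.2.2.2.1 _ _ _ _ _ _ fun x _ => ?_
  refine DT.cod_ite _ fun _ => ?_
  refine pr_COD.2.2.2.1 _ _ _ _ _ _ fun z _ => ?_
  refine pr_COD.2.2.2.1 _ _ _ _ _ _ fun y _ => ?_
  by_cases hd : Dis w z x y
  · rw [if_pos hd, if_pos hd, if_pos hd]
    exact DT.codE h (gE_lt _ _ _ _ _ _ _ _) (gE_lt _ _ _ _ _ _ _ _)
  · rw [if_neg hd, if_neg hd, if_neg hd]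
    exact pr_COD.1 _ _

theorem XV_card (N i j : ℕ) :
    (∑ w ∈ range N, ∑ x ∈ range w, if i = w ∧ j = x then 64 else 0) ≤ 64 := by
  have h1 : ∀ w ∈ range N, (∑ x ∈ range w, if i = w ∧ j = x then 64 else 0) ≤
      if i = w then 64 else 0 := by
    intro w _
    by_cases hw : i = w
    · simp only [hw, true_and, if_true]
      rw [sum_ite_eq]
      split_ifs <;> norm_num
    · simp [hw]
  refine (sum_le_sum h1).trans ?_
  rw [sum_ite_eq]
  split_ifs <;> norm_num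

theorem XV_cod (h : AOK D zb t0 b) (hv : D.v ≠ 0) (p : Pat) (i j : ℕ) :
    Cod D.c D.o 64 (XV D p i j) (∑ w ∈ range D.N, ∑ x ∈ range w, ∑ z ∈ range D.N,
      ∑ y ∈ range D.N, if Dis w z x y ∧ i = w ∧ j = x then
        D.bc.V (D.bc.rV D.N p w z x y) (D.bc.rV D.N p x y w z) else 0) := by
  refine DT.cod_mono (XV_card D.N i j) ?_
  unfold XV
  refine pr_COD.2.2.2.1 _ _ _ _ _ _ fun w _ => ?_
  refine pr_COD.2.2.2.1 _ _ _ _ _ _ fun x _ => ?_
  by_cases hwx : i = w ∧ j = x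
  · rw [if_pos hwx]
    have h1 : (∑ _z ∈ range D.N, ∑ _y ∈ range D.N, 1) ≤ 64 := by
      have h8 := h.w.N8
      simp only [sum_const, card_range, smul_eq_mul, mul_one]
      nlinarith
    refine DT.cod_mono h1 ?_
    refine pr_COD.2.2.2.1 _ _ _ _ _ _ fun z _ => ?_
    refine pr_COD.2.2.2.1 _ _ _ _ _ _ fun y _ => ?_
    refine DT.cod_ite _ fun _ => ?_
    exact DT.codV h hv (DT.rV_lt _ _ _ _ _ _ _) (DT.rV_lt _ _ _ _ _ _ _)
  · rw [if_neg hwx, sum_eq_zero fun z _ => sum_eq_zero fun y _ => if_neg fun h => hwx h.2,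
      sum_eq_zero fun z _ => sum_eq_zero fun y _ => if_neg fun h => hwx h.2]
    exact pr_COD.1 _ _

/-- sums of the usual squares -/
noncomputable def XT (D : Dt) (p : Pat) (i j : ℕ) : ℕ :=
  XU D p i j + if D.v = 0 then 0 else XV D p i j

theorem XT_cod (h : AOK D zb t0 b) (p : Pat) {i j : ℕ} (hi : i < D.N) (hj : j < D.N) :
    Cod D.c D.o 1024 (XT D p i j) ((∑ w ∈ range D.N, ∑ x ∈ range w, D.bc.pU D.N p w x i j) +
      ∑ w ∈ range D.N, ∑ x ∈ range w, ∑ z ∈ range D.N, ∑ y ∈ range D.N,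
        D.bc.pV D.N p w z x y i j) := by
  have e1 : (∑ w ∈ range D.N, ∑ x ∈ range w, D.bc.pU D.N p w x i j) =
      ∑ w ∈ range D.N, ∑ x ∈ range w, D.bc.U (D.bc.gU D.N p w x i) (D.bc.gU D.N p x w j) := by
    refine sum_congr rfl fun w _ => sum_congr rfl fun x hx => ?_
    rw [mem_range] at hx
    rw [U_gU h p (by omega) hi hj]
  have h1 := XU_cod h p i j
  rw [← e1] at h1
  unfold XT
  by_cases hv : D.v = 0
  · rw [if_pos hv]
    have e2 : (∑ w ∈ range D.N, ∑ x ∈ range w, ∑ z ∈ range D.N, ∑ y ∈ range D.N,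
        D.bc.pV D.N p w z x y i j) = 0 := by
      refine sum_eq_zero fun w _ => sum_eq_zero fun x _ => sum_eq_zero fun z _ =>
        sum_eq_zero fun y _ => ?_
      by_cases hd : Dis w z x y ∧ i = w ∧ j = x
      · rw [pV_eq _ _ _ hd]
        show (if D.v = 0 then _ else _) = (0 : ℤ)
        rw [if_pos hv]
      · exact pV_dis _ _ _ hd
    rw [e2, add_zero, add_zero]
    exact DT.cod_mono (by norm_num) h1
  · rw [if_neg hv]
    have e2 : (∑ w ∈ range D.N, ∑ x ∈ range w, ∑ z ∈ range D.N, ∑ y ∈ range D.N,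
        D.bc.pV D.N p w z x y i j) = ∑ w ∈ range D.N, ∑ x ∈ range w, ∑ z ∈ range D.N,
        ∑ y ∈ range D.N, if Dis w z x y ∧ i = w ∧ j = x then
          D.bc.V (D.bc.rV D.N p w z x y) (D.bc.rV D.N p x y w z) else 0 := by
      refine sum_congr rfl fun w _ => sum_congr rfl fun x _ => sum_congr rfl fun z _ =>
        sum_congr rfl fun y _ => ?_
      by_cases hd : Dis w z x y ∧ i = w ∧ j = x
      · rw [pV_eq _ _ _ hd, if_pos hd]
      · rw [pV_dis _ _ _ hd, if_neg hd]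
    rw [e2]
    exact DT.cod_mono (by norm_num) (COD.add h1 (XV_cod h hv p i j))

theorem XE_cod' (h : AOK D zb t0 b) (p : Pat) {i j : ℕ} (hi : i < D.N) (hj : j < D.N) :
    Cod D.c D.o 1024 (XE D p i j) (∑ w ∈ range D.N, ∑ x ∈ range w, if p w x = true then
      ∑ z ∈ range D.N, ∑ y ∈ range D.N, D.bc.pE D.N p w z x y i j else 0) := by
  have e1 : (∑ w ∈ range D.N, ∑ x ∈ range w, if p w x = true then
      ∑ z ∈ range D.N, ∑ y ∈ range D.N, D.bc.pE D.N p w z x y i j else 0) =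
      ∑ w ∈ range D.N, ∑ x ∈ range w, if p w x = true then
      ∑ z ∈ range D.N, ∑ y ∈ range D.N, if Dis w z x y then
        D.bc.E (D.bc.gE D.N p w z x y i) (D.bc.gE D.N p x y w z j) else 0 else 0 := by
    refine sum_congr rfl fun w _ => sum_congr rfl fun x _ => ?_
    by_cases hp : p w x = true
    · rw [if_pos hp, if_pos hp]
      refine sum_congr rfl fun z _ => sum_congr rfl fun y _ => ?_
      by_cases hd : Dis w z x y
      · rw [if_pos hd, E_gE h p hd hi hj]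
      · rw [if_neg hd, pE_dis _ _ _ hd]
    · rw [if_neg hp, if_neg hp]
  rw [e1]
  exact XE_cod h p i j

theorem XT_cod0 (h : AOK D zb t0 b) (p : Pat) (i j : ℕ) :
    ∃ v, Cod D.c D.o 1024 (XT D p i j) v := by
  unfold XT
  by_cases hv : D.v = 0
  · rw [if_pos hv, add_zero]
    exact ⟨_, DT.cod_mono (by norm_num) (XU_cod h p i j)⟩
  · rw [if_neg hv]
    exact ⟨_, DT.cod_mono (by norm_num) (COD.add (XU_cod h p i j) (XV_cod h hv p i j))⟩

/-- size of the sums -/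
theorem cod_sz (w : WOK D zb) {d : ℕ} {v : ℤ} (h : Cod D.c D.o 1024 d v) :
    d < 2 ^ D.Z ∧ d / 2 ^ D.c ≤ 2 ^ 10 ∧ tv D.c D.o d = v := by
  have h1 : 1024 * 2 ^ (D.o + 1) ≤ 2 ^ D.c := by
    calc 1024 * 2 ^ (D.o + 1) = 2 ^ (D.o + 11) := by rw [pow_add, pow_add]; ring
      _ ≤ 2 ^ D.c := Nat.pow_le_pow_right (by norm_num) (by have := w.oc; omega)
  obtain ⟨a, b, _⟩ := pr_COD.2.2.2.2 _ _ _ _ _ h h1
  refine ⟨?_, b, a⟩
  have h2 := DT.cod_lt (by have := w.oc; omega) h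
  calc d ≤ 1024 * 2 ^ (D.c + 1) := h2
    _ = 2 ^ (D.c + 11) := by rw [pow_add, pow_add]; ring
    _ < 2 ^ D.Z := Nat.pow_lt_pow_right (by norm_num) (by have := w.cZ; omega)

end

end CG

end Pool.Agent.Work.MP_f94384_co.Big
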