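import Pool.Agent.Work.MP_f94384_co.Big.CG2

/-!
# Check of a representative: the sums of the tables
-/

set_option autoImplicit false

open Finset

namespace Pool.Agent.Work.MP_f94384_co.Big

open Pool.Agent.Work.MP_f94384_co.Flag

namespace CG

theorem dec2 {c o K d : ℕ} {v : ℤ} (hd : (d : ℤ) = K * 2 ^ c + (K * 2 ^ o + v))
    (hv : |v| ≤ K * 2 ^ o) (hK : K * 2 ^ (o + 1) < 2 ^ c) : tv c o d = v ∧ d / 2 ^ c = K := by
  obtain ⟨h1, h2⟩ := abs_le.1 hv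
  obtain ⟨r, hr⟩ := Int.eq_ofNat_of_zero_le (a := K * 2 ^ o + v) (by linarith)
  have hK' : (K : ℤ) * 2 ^ (o + 1) < 2 ^ c := by exact_mod_cast hK
  have hrc : r < 2 ^ c := by
    have : (r : ℤ) < 2 ^ c := by
      rw [← hr]
      rw [pow_succ] at hK'
      linarith
    exact_mod_cast this
  have hd' : d = 2 ^ c * K + r := by
    have : (d : ℤ) = ((2 ^ c * K + r : ℕ) : ℤ) := by
      rw [hd, hr]; push_cast; ring
    exact_mod_cast this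
  have e1 : d / 2 ^ c = K := by
    rw [hd', Nat.mul_add_div (by positivity), Nat.div_eq_of_lt hrc, add_zero]
  have e2 : d % 2 ^ c = r := by
    rw [hd', Nat.mul_add_mod, Nat.mod_eq_of_lt hrc]
  refine ⟨?_, e1⟩
  unfold tv
  rw [e1, e2, ← hr]
  ring

theorem sum2 (c o : ℕ) (S : Finset ℕ) (P : ℕ → Prop) [DecidablePred P] (v : ℕ → ℤ)
    (hv : ∀ x ∈ S, P x → |v x| ≤ 2 ^ o) :
    ((∑ x ∈ S, if P x then dD c o (v x) else 0 : ℕ) : ℤ) =
      (#(S.filter P) : ℤ) * 2 ^ c + (#(S.filter P) * 2 ^ o + ∑ x ∈ S, if P x then v x else 0) ∧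
    |∑ x ∈ S, if P x then v x else 0| ≤ #(S.filter P) * 2 ^ o := by
  have hv' : ∀ x ∈ S.filter P, |v x| ≤ 2 ^ o := fun x hx => by
    rw [mem_filter] at hx
    exact hv x hx.1 hx.2
  rw [← sum_filter, ← sum_filter]
  constructor
  · rw [Nat.cast_sum, sum_congr rfl fun x hx => DT.dD_cast (c2 := c) (hv' x hx), sum_add_distrib,
      sum_const, nsmul_eq_mul]
    ring
  · refine (abs_sum_le_sum_abs _ _).trans ?_
    refine (sum_le_sum hv').trans ?_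
    rw [sum_const, nsmul_eq_mul]

theorem tab {D : Dt} {zb : ℕ} (w : WOK D zb) (S : Finset ℕ) (P : ℕ → Prop) [DecidablePred P]
    (v : ℕ → ℤ) (hv : ∀ x ∈ S, P x → |v x| ≤ 2 ^ D.o2) (hK : #(S.filter P) ≤ 7) :
    (∑ x ∈ S, if P x then dD D.c2 D.o2 (v x) else 0) < 2 ^ D.Z ∧
    (∑ x ∈ S, if P x then dD D.c2 D.o2 (v x) else 0) / 2 ^ D.c2 ≤ 8 ∧
    tv D.c2 D.o2 (∑ x ∈ S, if P x then dD D.c2 D.o2 (v x) else 0) =
      ∑ x ∈ S, if P x then v x else 0 := by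
  obtain ⟨h1, h2⟩ := sum2 D.c2 D.o2 S P v hv
  have h3 : #(S.filter P) * 2 ^ (D.o2 + 1) < 2 ^ D.c2 := by
    calc #(S.filter P) * 2 ^ (D.o2 + 1) ≤ 7 * 2 ^ (D.o2 + 1) := Nat.mul_le_mul_right _ hK
      _ < 8 * 2 ^ (D.o2 + 1) := by
        have : 0 < 2 ^ (D.o2 + 1) := by positivity
        omega
      _ = 2 ^ (D.o2 + 4) := by rw [pow_add, pow_add]; ring
      _ ≤ 2 ^ D.c2 := Nat.pow_le_pow_right (by norm_num) w.oc2
  obtain ⟨h4, h5⟩ := dec2 h1 h2 h3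
  refine ⟨?_, by rw [h5]; omega, h4⟩
  have h6 : (∑ x ∈ S, if P x then dD D.c2 D.o2 (v x) else 0) < 8 * 2 ^ D.c2 := by
    rw [← Nat.div_lt_iff_lt_mul (by positivity), h5]
    omega
  calc _ < 8 * 2 ^ D.c2 := h6
    _ = 2 ^ (D.c2 + 3) := by rw [pow_add]; ring
    _ ≤ 2 ^ D.Z := Nat.pow_le_pow_right (by norm_num) (by have := w.cZ2; omega)

/-- digits of the sum of the tables `D` -/
noncomputable def XD (D : Dt) (p : Pat) (i j : ℕ) : ℕ :=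
  ∑ x ∈ range D.N, if i < D.N ∧ j < D.N ∧ i ≠ x ∧ j ≠ x then
    dD D.c2 D.o2 (D.bc.tD D.N p x i j) else 0

/-- digits of the rows of the tables `P` -/
noncomputable def XP (D : Dt) (A i j : ℕ) : ℕ :=
  ∑ k ∈ range D.N, if i < D.N ∧ j < D.N ∧ k ≠ i ∧ j ≠ i ∧ A.testBit (8 * k + i) = true then
    dD D.c2 D.o2 (D.bc.m * D.bc.tD D.N (pa A) i k j + D.bc.tZ D.N (pa A) i k j) else 0

theorem card7 {N : ℕ} (hN : N ≤ 8) (P : ℕ → Prop) [DecidablePred P] (i : ℕ)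
    (h : ∀ x, P x → i < N ∧ x ≠ i) : #((range N).filter P) ≤ 7 := by
  by_cases hi : i < N
  · have h1 : (range N).filter P ⊆ (range N).erase i := by
      intro x hx
      rw [mem_filter] at hx
      rw [mem_erase]
      exact ⟨(h x hx.2).2, hx.1⟩
    have h2 := card_le_card h1
    rw [card_erase_of_mem (mem_range.2 hi), card_range] at h2
    omega
  · have h1 : (range N).filter P = ∅ := by
      rw [filter_eq_empty_iff]
      exact fun x _ hx => hi (h x hx).1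
    rw [h1, card_empty]
    norm_num

section

variable {D : Dt} {zb t0 : ℕ} {b : ℕ → ℤ}

theorem XD_sz (w : WOK D zb) (p : Pat) (hb : ∀ x < D.N, ∀ i < D.N, ∀ j < D.N, i ≠ x → j ≠ x →
      |D.bc.tD D.N p x i j| ≤ 2 ^ D.o2) (i j : ℕ) :
    XD D p i j < 2 ^ D.Z ∧ XD D p i j / 2 ^ D.c2 ≤ 8 ∧
      (i < D.N → j < D.N → tv D.c2 D.o2 (XD D p i j) = D.bc.TD D.N p i j) := by
  obtain ⟨h1, h2, h3⟩ := tab w (range D.N) (fun x => i < D.N ∧ j < D.N ∧ i ≠ x ∧ j ≠ x)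
    (fun x => D.bc.tD D.N p x i j)
    (fun x hx hP => hb x (mem_range.1 hx) i hP.1 j hP.2.1 hP.2.2.1 hP.2.2.2)
    (card7 w.N8 _ i fun x hP => ⟨hP.1, fun e => hP.2.2.1 e.symm⟩)
  refine ⟨h1, h2, fun hi hj => ?_⟩
  show tv D.c2 D.o2 (∑ x ∈ range D.N, if i < D.N ∧ j < D.N ∧ i ≠ x ∧ j ≠ x then
    dD D.c2 D.o2 (D.bc.tD D.N p x i j) else 0) = _
  rw [h3]
  unfold BC.TD
  refine sum_congr rfl fun x _ => ?_
  by_cases hP : i ≠ x ∧ j ≠ x
  · rw [if_pos ⟨hi, hj, hP⟩]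
  · rw [if_neg fun h => hP h.2.2]
    symm
    unfold BC.tD BC.pD
    refine sum_eq_zero fun w _ => sum_eq_zero fun z _ => sum_eq_zero fun y _ => ?_
    exact if_neg fun h => hP ⟨h.2.2.2.2.2.2.1, h.2.2.2.2.2.2.2.2.1⟩

theorem XP_sz (w : WOK D zb) (A : ℕ) (hb : ∀ x < D.N, ∀ i < D.N, ∀ j < D.N, i ≠ x → j ≠ x →
      |D.bc.m * D.bc.tD D.N (pa A) x i j + D.bc.tZ D.N (pa A) x i j| ≤ 2 ^ D.o2) (i j : ℕ) :
    XP D A i j < 2 ^ D.Z ∧ XP D A i j / 2 ^ D.c2 ≤ 8 ∧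
      (i < D.N → j < D.N → tv D.c2 D.o2 (XP D A i j) = D.bc.TP D.N (pa A) i j) := by
  obtain ⟨h1, h2, h3⟩ := tab w (range D.N)
    (fun k => i < D.N ∧ j < D.N ∧ k ≠ i ∧ j ≠ i ∧ A.testBit (8 * k + i) = true)
    (fun k => D.bc.m * D.bc.tD D.N (pa A) i k j + D.bc.tZ D.N (pa A) i k j)
    (fun k hk hP => hb i hP.1 k (mem_range.1 hk) j hP.2.1 hP.2.2.1 hP.2.2.2.1)
    (card7 w.N8 _ i fun x hP => ⟨hP.1, hP.2.2.1⟩)
  refine ⟨h1, h2, fun hi hj => ?_⟩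
  show tv D.c2 D.o2 (∑ k ∈ range D.N, if i < D.N ∧ j < D.N ∧ k ≠ i ∧ j ≠ i ∧
    A.testBit (8 * k + i) = true then dD D.c2 D.o2 (D.bc.m * D.bc.tD D.N (pa A) i k j +
      D.bc.tZ D.N (pa A) i k j) else 0) = _
  rw [h3]
  unfold BC.TP
  refine sum_congr rfl fun k _ => ?_
  by_cases hb : A.testBit (8 * k + i) = true
  · have hb' : pa A k i = true := hb
    rw [if_pos hb']
    by_cases hP : k ≠ i ∧ j ≠ i
    · rw [if_pos ⟨hi, hj, hP.1, hP.2, hb⟩]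
    · rw [if_neg fun h => hP ⟨h.2.2.1, h.2.2.2.1⟩]
      have e1 : D.bc.tD D.N (pa A) i k j = 0 := by
        unfold BC.tD BC.pD
        refine sum_eq_zero fun w _ => sum_eq_zero fun z _ => sum_eq_zero fun y _ => ?_
        exact if_neg fun h => hP ⟨h.2.2.2.2.2.2.1, h.2.2.2.2.2.2.2.2.1⟩
      have e2 : D.bc.tZ D.N (pa A) i k j = 0 := by
        unfold BC.tZ
        exact if_neg fun h => hP h.2
      rw [e1, e2, mul_zero, add_zero]
  · have hb' : ¬ pa A k i = true := hb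
    rw [if_neg hb', if_neg fun h => hb h.2.2.2.2]

end

end CG

end Pool.Agent.Work.MP_f94384_co.Big
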