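import Pool.Agent.Work.MP_f94384_co.Big.Stmts2

/-!
# Item CKU: check of the entries of `w` (from CKE, HSP)
-/

set_option autoImplicit false

open Finset

namespace Pool.Agent.Work.MP_f94384_co.Big

open Pool.Agent.Work.MP_f94384_co.Flag

namespace CKU

theorem hs_congr (p : Pat) (c c' : ℕ → ℕ) (h : ∀ v < 8, c v = c' v) : hs p c = hs p c' := by
  have e1 : ∀ v < 8, h1 p c v = h1 p c' v := by
    intro v hv
    unfold h1
    rw [h v hv]
    congr 2
    refine Finset.sum_congr rfl fun u hu => ?_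
    rw [h u (Finset.mem_range.1 hu)]
  have e2 : ∀ v < 8, h2 p c v = h2 p c' v := by
    intro v hv
    unfold h2
    rw [h v hv]
    congr 2
    refine Finset.sum_congr rfl fun u hu => ?_
    rw [e1 u (Finset.mem_range.1 hu)]
  unfold hs
  refine Finset.sum_congr rfl fun u hu => ?_
  rw [e2 u (Finset.mem_range.1 hu)]

/-- digits of a sum of eight fields of 8 bits -/
theorem dg8 (f : ℕ → ℕ) (hf : ∀ k < 8, f k < 256) (v : ℕ) (hv : v < 8) :
    dg 8 (8 * v) (∑ k ∈ range 8, f k * 2 ^ (8 * k)) = f v := by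
  have h0 := hf 0 (by norm_num)
  have h1 := hf 1 (by norm_num)
  have h2 := hf 2 (by norm_num)
  have h3 := hf 3 (by norm_num)
  have h4 := hf 4 (by norm_num)
  have h5 := hf 5 (by norm_num)
  have h6 := hf 6 (by norm_num)
  have h7 := hf 7 (by norm_num)
  unfold dg
  simp only [Finset.sum_range_succ, Finset.range_zero, Finset.sum_empty]
  interval_cases v <;> norm_num <;> omega

theorem sum_ite_lt (n a : ℕ) (hn : n ≤ 8) :
    ∑ k ∈ range n, a * 2 ^ (8 * k) = ∑ k ∈ range 8, (if k < n then a else 0) * 2 ^ (8 * k) := by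
  rw [← Finset.sum_subset (Finset.range_subset_range.2 hn)
    (f := fun k => (if k < n then a else 0) * 2 ^ (8 * k))]
  · refine Finset.sum_congr rfl fun k hk => ?_
    rw [if_pos (Finset.mem_range.1 hk)]
  · intro k _ hk
    rw [if_neg (fun h => hk (Finset.mem_range.2 h)), Nat.zero_mul]

theorem sum_ite_eq' (w a : ℕ) (hw : w < 8) :
    a * 2 ^ (8 * w) = ∑ k ∈ range 8, (if k = w then a else 0) * 2 ^ (8 * k) := by
  rw [Finset.sum_eq_single w]
  · rw [if_pos rfl]
  · intro k _ hk
    rw [if_neg hk, Nat.zero_mul]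
  · intro h
    exact absurd (Finset.mem_range.2 hw) h

/-- digits of a sum of colours -/
theorem dg_col (n w z i a b c d : ℕ) (hn : n ≤ 8) (hw : w < 8) (hz : z < 8) (hi : i < 8)
    (hs : a + b + c + d < 256) (v : ℕ) (hv : v < 8) :
    dg 8 (8 * v) ((∑ k ∈ range n, a * 2 ^ (8 * k)) + b * 2 ^ (8 * w) + c * 2 ^ (8 * z) +
      d * 2 ^ (8 * i)) =
      (if v < n then a else 0) + (if v = w then b else 0) + (if v = z then c else 0) +
        (if v = i then d else 0) := by
  have h : (∑ k ∈ range n, a * 2 ^ (8 * k)) + b * 2 ^ (8 * w) + c * 2 ^ (8 * z) +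
      d * 2 ^ (8 * i) = ∑ k ∈ range 8, ((if k < n then a else 0) + (if k = w then b else 0) +
        (if k = z then c else 0) + (if k = i then d else 0)) * 2 ^ (8 * k) := by
    rw [sum_ite_lt n a hn, sum_ite_eq' w b hw, sum_ite_eq' z c hz, sum_ite_eq' i d hi,
      ← Finset.sum_add_distrib, ← Finset.sum_add_distrib, ← Finset.sum_add_distrib]
    refine Finset.sum_congr rfl fun k _ => ?_
    ring
  rw [h]
  refine dg8 (fun k => (if k < n then a else 0) + (if k = w then b else 0) +
        (if k = z then c else 0) + (if k = i then d else 0)) ?_ v hv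
  intro k _
  show (if k < n then a else 0) + (if k = w then b else 0) + (if k = z then c else 0) +
    (if k = i then d else 0) < 256
  split_ifs <;> omega

theorem cb_eq (n : ℕ) : cb n = ∑ k ∈ range n, 2 * 2 ^ (8 * k) := by
  unfold cb
  rw [sumL_eq, Nat.zero_add]
  refine Finset.sum_congr rfl fun k _ => ?_
  show 2 <<< (8 * k) = _
  rw [Nat.shiftLeft_eq]

theorem ent_eq (T t : ℕ) : ent T t = dg 192 t T := by
  unfold ent
  have h : (6277101735386680763835789423207666416102355444464034512895 : ℕ) = 2 ^ 192 - 1 := by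
    norm_num
  rw [h, bts_eq]

/-- the colours of the positions: one point -/
theorem col (n w i v : ℕ) (hn : n ≤ 8) (hw : w < n) (hi : i < n) (hv : v < 8) :
    dg 8 (8 * v) (cb n + 1 <<< (8 * w) + 10 <<< (8 * i)) = cU n w n i v := by
  have h := dg_col n w 0 i 2 1 0 10 hn (by omega) (by norm_num) (by omega) (by norm_num) v hv
  rw [Nat.zero_mul, Nat.add_zero] at h
  rw [cb_eq, Nat.shiftLeft_eq, Nat.shiftLeft_eq, h]
  unfold cU
  split_ifs <;> omega

theorem cU_le (n w x i v : ℕ) : cU n w x i v ≤ 15 := by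
  unfold cU
  split_ifs <;> omega

theorem main (hE : CKE) (hH : HSP) : CKU := by
  intro W Z8 NT n nB FS H A T hn h w hw
  unfold ckU at h
  rw [fc_eq, fc_eq, fc_eq, allL_iff] at h
  have h1 := h w hw
  rw [fc_eq, fc_eq] at h1
  have hent : ent T (Nat.mul 192 w) = dg 192 (192 * w) T := ent_eq T (192 * w)
  rw [hent] at h1
  obtain ⟨h2, h3, h4⟩ := hE false W Z8 NT n nB FS _ _ h1
  have key : ∀ i < n, fc (Nat.add (Nat.add (cb n) (Nat.shiftLeft 1 (Nat.mul 8 w)))
      (Nat.shiftLeft 10 (Nat.mul 8 i))) (fun C =>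
        fc (hsP (mkM 16 65535 A) (mkM 40 1099511627775 A) C) fun h => fnd H h) =
      fnd H (hs (pa A) (cU n w n i)) := by
    intro i hi
    rw [fc_eq, fc_eq]
    have e : Nat.add (Nat.add (cb n) (Nat.shiftLeft 1 (Nat.mul 8 w)))
      (Nat.shiftLeft 10 (Nat.mul 8 i)) = cb n + 1 <<< (8 * w) + 10 <<< (8 * i) := rfl
    rw [e, hH A _ (fun v hv => by rw [col n w i v hn hw hi hv]; exact cU_le _ _ _ _ _),
      hs_congr (pa A) _ _ (fun v hv => col n w i v hn hw hi hv)]
  constructor
  · have e2 : (fun i => if i < n then fnd H (hs (pa A) (cU n w n i)) else 65535) =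
        fun i => if i < n then (fc (Nat.add (Nat.add (cb n) (Nat.shiftLeft 1 (Nat.mul 8 w)))
      (Nat.shiftLeft 10 (Nat.mul 8 i))) (fun C =>
        fc (hsP (mkM 16 65535 A) (mkM 40 1099511627775 A) C) fun h => fnd H h)) else 65535 := by
      funext i
      by_cases hi : i < n
      · rw [if_pos hi, if_pos hi, key i hi]
      · rw [if_neg hi, if_neg hi]
    rw [e2]
    exact h2
  · intro i hi
    have h5 := h4 rfl i (by omega) hi
    rw [← key i hi]
    exact h5

end CKU

end Pool.Agent.Work.MP_f94384_co.Big
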