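import Pool.Agent.Work.MP_f94384_co.Big.Stmts3

/-!
# Sums and decoding of coded numbers
-/

set_option autoImplicit false

open Finset

namespace Pool.Agent.Work.MP_f94384_co.Big

namespace COD

lemma add {c o n1 n2 d1 d2 : ℕ} {v1 v2 : ℤ} (h1 : Cod c o n1 d1 v1) (h2 : Cod c o n2 d2 v2) :
    Cod c o (n1 + n2) (d1 + d2) (v1 + v2) := by
  obtain ⟨k1, hk1, e1, f1, g1⟩ := h1
  obtain ⟨k2, hk2, e2, f2, g2⟩ := h2
  have hB : (0 : ℤ) < 2 ^ o := by positivity
  refine ⟨k1 + k2, by omega, ?_, ?_, ?_⟩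
  · push_cast; rw [e1, e2]; ring
  · push_cast; linarith
  · have hs1 : (k1 : ℤ) * 2 ^ (o + 1) = 2 * (k1 * 2 ^ o) := by rw [pow_succ]; ring
    have hs2 : (k2 : ℤ) * 2 ^ (o + 1) = 2 * (k2 * 2 ^ o) := by rw [pow_succ]; ring
    have hs3 : ((k1 + k2 : ℕ) : ℤ) * 2 ^ (o + 1) = 2 * (k1 * 2 ^ o) + 2 * (k2 * 2 ^ o) := by
      push_cast; rw [pow_succ]; ring
    have hk1' : (0 : ℤ) ≤ k1 * 2 ^ o := by positivity
    have hk2' : (0 : ℤ) ≤ k2 * 2 ^ o := by positivity
    rw [hs1] at g1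
    rw [hs2] at g2
    rw [hs3]
    push_cast
    rcases g1 with g1 | g1 <;> rcases g2 with g2 | g2
    · left; linarith
    · right; linarith
    · right; linarith
    · right; linarith

lemma zero (c o : ℕ) : Cod c o 0 0 0 := ⟨0, le_rfl, by simp, by simp, by simp⟩

lemma one {c o d : ℕ} (h : o < c) (h1 : 2 ^ c ≤ d) (h2 : d < 2 ^ c + 2 ^ (o + 1)) :
    Cod c o 1 d (tv c o d) := by
  have hle : 2 ^ (o + 1) ≤ 2 ^ c := Nat.pow_le_pow_right (by norm_num) h
  have hdiv : d / 2 ^ c = 1 := by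
    rw [Nat.div_eq_iff (by positivity)]
    constructor
    · omega
    · omega
  have hmod : d % 2 ^ c = d - 2 ^ c := by
    rw [Nat.mod_eq_sub_mod h1, Nat.mod_eq_of_lt (by omega)]
  have htv : tv c o d = (d : ℤ) - 2 ^ c - 2 ^ o := by
    unfold tv
    rw [hdiv, hmod, Nat.cast_sub h1]
    push_cast
    ring
  have h1' : (2 : ℤ) ^ c ≤ d := by exact_mod_cast h1
  have h2' : (d : ℤ) < 2 ^ c + 2 ^ (o + 1) := by exact_mod_cast h2
  refine ⟨1, le_rfl, ?_, ?_, ?_⟩
  · rw [htv]; push_cast; ring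
  · rw [htv]; push_cast; linarith
  · right; rw [htv]; push_cast; linarith

lemma dec {c o n d : ℕ} {v : ℤ} (h : Cod c o n d v) (hn : n * 2 ^ (o + 1) ≤ 2 ^ c) :
    tv c o d = v ∧ d / 2 ^ c ≤ n ∧ |v| ≤ n * 2 ^ o := by
  obtain ⟨k, hk, e, f, g⟩ := h
  obtain ⟨m, hm⟩ := Int.eq_ofNat_of_zero_le f
  have hk2 : (k : ℤ) * 2 ^ (o + 1) ≤ 2 ^ c := by
    have : k * 2 ^ (o + 1) ≤ 2 ^ c := (Nat.mul_le_mul_right _ hk).trans hn
    exact_mod_cast this
  have hpos : (0 : ℤ) < 2 ^ c := by positivity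
  have hm1 : (m : ℤ) < 2 ^ c := by
    rcases g with g | g
    · rw [← hm, g]; exact hpos
    · rw [← hm]; linarith
  have hm2 : m < 2 ^ c := by exact_mod_cast hm1
  have hd : d = k * 2 ^ c + m := by
    rw [hm] at e
    exact_mod_cast e
  have hdiv : d / 2 ^ c = k := by
    rw [hd, Nat.mul_comm, Nat.mul_add_div (by positivity), Nat.div_eq_of_lt hm2, Nat.add_zero]
  have hmod : d % 2 ^ c = m := by
    rw [hd, Nat.mul_comm, Nat.mul_add_mod, Nat.mod_eq_of_lt hm2]
  refine ⟨?_, ?_, ?_⟩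
  · unfold tv
    rw [hdiv, hmod, ← hm]
    ring
  · rw [hdiv]; exact hk
  · have hs : (2 : ℤ) ^ (o + 1) = 2 * 2 ^ o := by rw [pow_succ]; ring
    have hB : (0 : ℤ) < 2 ^ o := by positivity
    have hkn : (k : ℤ) * 2 ^ o ≤ n * 2 ^ o := by
      have : (k : ℤ) ≤ n := by exact_mod_cast hk
      exact mul_le_mul_of_nonneg_right this hB.le
    have hk0 : (0 : ℤ) ≤ k * 2 ^ o := by positivity
    rw [abs_le]
    constructor
    · linarith
    · rcases g with g | g
      · linarith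
      · rw [hs] at g
        linarith

end COD

theorem pr_COD : COD := by
  refine ⟨COD.zero, ?_, fun c o d => COD.one, ?_, fun c o n d v => COD.dec⟩
  · rintro c o n n' d v hn ⟨k, hk, h⟩
    exact ⟨k, hk.trans hn, h⟩
  · intro c o S n d v h
    classical
    induction S using Finset.induction_on with
    | empty => simpa using COD.zero c o
    | insert a S ha ih =>
      rw [Finset.sum_insert ha, Finset.sum_insert ha, Finset.sum_insert ha]
      exact COD.add (h a (Finset.mem_insert_self a S))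
        (ih fun x hx => h x (Finset.mem_insert_of_mem hx))

end Pool.Agent.Work.MP_f94384_co.Big
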