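import Pool.Agent.Work.MP_f94384_co.Big.Stmts3
import Pool.Agent.Work.MP_f94384_co.Big.P_NST

/-!
# Kernel program for the certificates of order 7 and 8: the final comparison (item FIN)
-/

set_option autoImplicit false

open Finset

namespace Pool.Agent.Work.MP_f94384_co.Big

namespace FIN

theorem nst_add (Z : ℕ) (A B : ℕ → ℕ → ℕ) :
    nst Z A + nst Z B = nst Z fun i j => A i j + B i j := by
  unfold nst
  rw [← Finset.sum_add_distrib]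
  refine Finset.sum_congr rfl fun j _ => ?_
  rw [← Nat.add_mul, ← Finset.sum_add_distrib]
  congr 1
  refine Finset.sum_congr rfl fun i _ => ?_
  ring

theorem nst_mul (Z k : ℕ) (A : ℕ → ℕ → ℕ) :
    k * nst Z A = nst Z fun i j => k * A i j := by
  unfold nst
  rw [Finset.mul_sum]
  refine Finset.sum_congr rfl fun j _ => ?_
  rw [← Nat.mul_assoc, Finset.mul_sum]
  congr 1
  refine Finset.sum_congr rfl fun i _ => ?_
  ring

theorem cmp_iff (n Z : ℕ) (A B : ℕ → ℕ → ℕ) (hn : n ≤ 8)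
    (hA : ∀ i < 8, ∀ j < 8, A i j < 2 ^ Z) (hB : ∀ i < 8, ∀ j < 8, B i j < 2 ^ Z)
    (h : cmp n Z (8 * Z) (2 ^ Z - 1) (nst Z A) (nst Z B) = true) :
    ∀ i < n, 2 * A i i + ∑ j ∈ range n, (if j = i then 0 else
      A i j + A j i - (B i j + B j i)) ≤ 2 * B i i := by
  intro i hi
  unfold cmp at h
  rw [allL_iff] at h
  have h1 := h i hi
  rw [fc_eq, ble_iff, sumL_eq] at h1
  have dA : ∀ i < n, ∀ j < n, bts (2 ^ Z - 1) (nst Z A) (Nat.add (Nat.mul Z i)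
      (Nat.mul (8 * Z) j)) = A i j := by
    intro i hi j hj
    rw [bts_eq]
    exact (pr_NST Z A hA).1 i (by omega) j (by omega)
  have dB : ∀ i < n, ∀ j < n, bts (2 ^ Z - 1) (nst Z B) (Nat.add (Nat.mul Z i)
      (Nat.mul (8 * Z) j)) = B i j := by
    intro i hi j hj
    rw [bts_eq]
    exact (pr_NST Z B hB).1 i (by omega) j (by omega)
  rw [dA i hi i hi, dB i hi i hi] at h1
  have h2 : ∑ j ∈ range n, (cond (Nat.beq j i) 0
      (fc (Nat.add (Nat.mul Z i) (Nat.mul (8 * Z) j)) fun s =>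
       fc (Nat.add (Nat.mul Z j) (Nat.mul (8 * Z) i)) fun t =>
        Nat.sub (Nat.add (bts (2 ^ Z - 1) (nst Z A) s) (bts (2 ^ Z - 1) (nst Z A) t))
          (Nat.add (bts (2 ^ Z - 1) (nst Z B) s) (bts (2 ^ Z - 1) (nst Z B) t)))) =
      ∑ j ∈ range n, (if j = i then 0 else A i j + A j i - (B i j + B j i)) := by
    refine Finset.sum_congr rfl fun j hj => ?_
    rw [Finset.mem_range] at hj
    rw [fc_eq, fc_eq, dA i hi j hj, dA j hj i hi, dB i hi j hj, dB j hj i hi]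
    by_cases e : j = i
    · rw [if_pos e, (beq_iff j i).2 e, cond_true]
    · have e2 : Nat.beq j i = false := by
        cases hb : Nat.beq j i with
        | false => rfl
        | true => exact absurd ((beq_iff j i).1 hb) e
      rw [if_neg e, e2, cond_false]
      rfl
  rw [h2] at h1
  exact h1

theorem neg_of (n : ℕ) (A B : ℕ → ℕ → ℕ)
    (h : ∀ i < n, 2 * A i i + ∑ j ∈ range n, (if j = i then 0 else
      A i j + A j i - (B i j + B j i)) ≤ 2 * B i i) :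
    Neg n fun i j => (A i j : ℤ) - B i j := by
  intro i hi
  have h1 := h i hi
  have h2 : (∑ j ∈ range n, (if j = i then 0 else
      max (((A i j : ℤ) - B i j) + ((A j i : ℤ) - B j i)) 0)) =
      ((∑ j ∈ range n, (if j = i then 0 else
      A i j + A j i - (B i j + B j i)) : ℕ) : ℤ) := by
    rw [Nat.cast_sum]
    refine Finset.sum_congr rfl fun j _ => ?_
    by_cases e : j = i
    · rw [if_pos e, if_pos e]; rfl
    · rw [if_neg e, if_neg e]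
      omega
  show 2 * ((A i i : ℤ) - B i i) + ∑ j ∈ range n, (if j = i then 0 else
      max (((A i j : ℤ) - B i j) + ((A j i : ℤ) - B j i)) 0) ≤ 0
  rw [h2]
  have h3 : ((2 * A i i + ∑ j ∈ range n, (if j = i then 0 else
      A i j + A j i - (B i j + B j i)) : ℕ) : ℤ) ≤ ((2 * B i i : ℕ) : ℤ) := by exact_mod_cast h1
  push_cast at h3 ⊢
  linarith

end FIN

open FIN in
theorem pr_FIN : FIN := by
  intro n Z c o c2 o2 m q XU XE XD XP hn hc hc2 hX hd hf1 hf2 h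
  have kU : ∀ i < 8, ∀ j < 8, XU i j < 2 ^ Z := fun i hi j hj => (hX i hi j hj).1
  have kE : ∀ i < 8, ∀ j < 8, XE i j < 2 ^ Z := fun i hi j hj => (hX i hi j hj).2.1
  have kD : ∀ i < 8, ∀ j < 8, XD i j < 2 ^ Z := fun i hi j hj => (hX i hi j hj).2.2.1
  have kP : ∀ i < 8, ∀ j < 8, XP i j < 2 ^ Z := fun i hi j hj => (hX i hi j hj).2.2.2
  unfold fin at h
  rw [fc_eq, fc_eq] at h
  have eL : Nat.add (Nat.add (Nat.mul 2 (Nat.land (nst Z XU) (kk (2 ^ c - 1) Z)))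
      (Nat.mul (Nat.mul 2 m) (Nat.land (nst Z XE) (kk (2 ^ c - 1) Z))))
      (Nat.add (Nat.land (nst Z XP) (kk (2 ^ c2 - 1) Z))
        (Nat.mul (Nat.mul q (2 ^ o2)) (bts (kk (2 ^ (Z - c2) - 1) Z) (nst Z XD) c2))) =
      nst Z fun i j => (2 * (XU i j % 2 ^ c) + 2 * m * (XE i j % 2 ^ c)) +
        (XP i j % 2 ^ c2 + q * 2 ^ o2 * (XD i j / 2 ^ c2)) := by
    have e1 : Nat.land (nst Z XU) (kk (2 ^ c - 1) Z) = nst Z fun i j => XU i j % 2 ^ c :=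
      (pr_NST Z XU kU).2.2.1 c hc
    have e2 : Nat.land (nst Z XE) (kk (2 ^ c - 1) Z) = nst Z fun i j => XE i j % 2 ^ c :=
      (pr_NST Z XE kE).2.2.1 c hc
    have e3 : Nat.land (nst Z XP) (kk (2 ^ c2 - 1) Z) = nst Z fun i j => XP i j % 2 ^ c2 :=
      (pr_NST Z XP kP).2.2.1 c2 hc2
    rw [e1, e2, e3, (pr_NST Z XD kD).2.2.2 c2 hc2]
    show (2 * nst Z _ + 2 * m * nst Z _) + (nst Z _ + q * 2 ^ o2 * nst Z _) = _
    rw [nst_mul, nst_mul, nst_mul, nst_add, nst_add, nst_add]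
  have eR : Nat.add (Nat.mul (2 ^ o) (Nat.add (Nat.mul 2 (bts (kk (2 ^ (Z - c) - 1) Z) (nst Z XU) c))
      (Nat.mul (Nat.mul 2 m) (bts (kk (2 ^ (Z - c) - 1) Z) (nst Z XE) c))))
      (Nat.add (Nat.mul (2 ^ o2) (bts (kk (2 ^ (Z - c2) - 1) Z) (nst Z XP) c2))
        (Nat.mul q (Nat.land (nst Z XD) (kk (2 ^ c2 - 1) Z)))) =
      nst Z fun i j => (2 ^ o * (2 * (XU i j / 2 ^ c) + 2 * m * (XE i j / 2 ^ c))) +
        (2 ^ o2 * (XP i j / 2 ^ c2) + q * (XD i j % 2 ^ c2)) := by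
    have e3 : Nat.land (nst Z XD) (kk (2 ^ c2 - 1) Z) = nst Z fun i j => XD i j % 2 ^ c2 :=
      (pr_NST Z XD kD).2.2.1 c2 hc2
    rw [(pr_NST Z XU kU).2.2.2 c hc, (pr_NST Z XE kE).2.2.2 c hc, e3,
      (pr_NST Z XP kP).2.2.2 c2 hc2]
    show 2 ^ o * (2 * nst Z _ + 2 * m * nst Z _) + (2 ^ o2 * nst Z _ + q * nst Z _) = _
    rw [nst_mul, nst_mul, nst_add, nst_mul, nst_mul, nst_mul, nst_add, nst_add]
  rw [eL, eR] at h
  have hp : ∀ k : ℕ, 0 < 2 ^ k := fun k => by positivity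
  have hA : ∀ i < 8, ∀ j < 8, (fun i j => (2 * (XU i j % 2 ^ c) + 2 * m * (XE i j % 2 ^ c)) +
        (XP i j % 2 ^ c2 + q * 2 ^ o2 * (XD i j / 2 ^ c2))) i j < 2 ^ Z := by
    intro i hi j hj
    obtain ⟨h1, h2, h3, h4⟩ := hd i hi j hj
    have m1 : XU i j % 2 ^ c ≤ 2 ^ c := (Nat.mod_lt _ (hp c)).le
    have m2 : XE i j % 2 ^ c ≤ 2 ^ c := (Nat.mod_lt _ (hp c)).le
    have m3 : XP i j % 2 ^ c2 < 2 ^ c2 := Nat.mod_lt _ (hp c2)
    show (2 * (XU i j % 2 ^ c) + 2 * m * (XE i j % 2 ^ c)) +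
        (XP i j % 2 ^ c2 + q * 2 ^ o2 * (XD i j / 2 ^ c2)) < 2 ^ Z
    have m4 : 2 * m * (XE i j % 2 ^ c) ≤ 2 * m * 2 ^ c := Nat.mul_le_mul_left _ m2
    have m5 : q * 2 ^ o2 * (XD i j / 2 ^ c2) ≤ q * 2 ^ o2 * 8 := Nat.mul_le_mul_left _ h3
    have e4 : (2 + 2 * m) * 2 ^ c = 2 * 2 ^ c + 2 * m * 2 ^ c := by ring
    rw [e4] at hf1
    generalize q * 2 ^ o2 = qq at *
    generalize 2 * m * 2 ^ c = mc at *
    omega
  have hB : ∀ i < 8, ∀ j < 8, (fun i j => (2 ^ o * (2 * (XU i j / 2 ^ c) +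
      2 * m * (XE i j / 2 ^ c))) + (2 ^ o2 * (XP i j / 2 ^ c2) + q * (XD i j % 2 ^ c2))) i j <
      2 ^ Z := by
    intro i hi j hj
    obtain ⟨h1, h2, h3, h4⟩ := hd i hi j hj
    show (2 ^ o * (2 * (XU i j / 2 ^ c) +
      2 * m * (XE i j / 2 ^ c))) + (2 ^ o2 * (XP i j / 2 ^ c2) + q * (XD i j % 2 ^ c2)) < 2 ^ Z
    have m1 : 2 * (XU i j / 2 ^ c) + 2 * m * (XE i j / 2 ^ c) ≤ 2 ^ 10 * (2 + 2 * m) := by
      have m0 : 2 * m * (XE i j / 2 ^ c) ≤ 2 * m * 2 ^ 10 := Nat.mul_le_mul_left _ h2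
      calc 2 * (XU i j / 2 ^ c) + 2 * m * (XE i j / 2 ^ c) ≤ 2 * 2 ^ 10 + 2 * m * 2 ^ 10 := by
            omega
        _ = 2 ^ 10 * (2 + 2 * m) := by ring
    have m2 : 2 ^ o * (2 * (XU i j / 2 ^ c) + 2 * m * (XE i j / 2 ^ c)) ≤
        2 ^ 10 * ((2 + 2 * m) * 2 ^ o) := by
      calc _ ≤ 2 ^ o * (2 ^ 10 * (2 + 2 * m)) := Nat.mul_le_mul_left _ m1
        _ = 2 ^ 10 * ((2 + 2 * m) * 2 ^ o) := by ring
    have m3 : 2 ^ o2 * (XP i j / 2 ^ c2) ≤ 2 ^ o2 * 8 := Nat.mul_le_mul_left _ h4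
    have m4 : q * (XD i j % 2 ^ c2) ≤ q * 2 ^ c2 :=
      Nat.mul_le_mul_left _ (Nat.mod_lt _ (hp c2)).le
    have m5 : 0 < (2 + 2 * m) * 2 ^ o := Nat.mul_pos (by omega) (hp o)
    have e4 : 2 ^ 11 * ((2 + 2 * m) * 2 ^ o) = 2 ^ 10 * ((2 + 2 * m) * 2 ^ o) +
        2 ^ 10 * ((2 + 2 * m) * 2 ^ o) := by ring
    rw [e4] at hf2
    have m6 : 0 < 2 ^ 10 * ((2 + 2 * m) * 2 ^ o) := Nat.mul_pos (by norm_num) m5
    have e5 : 16 * 2 ^ o2 = 2 ^ o2 * 8 + 8 * 2 ^ o2 := by ring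
    rw [e5] at hf2
    generalize 2 ^ 10 * ((2 + 2 * m) * 2 ^ o) = t at *
    generalize q * 2 ^ c2 = t2 at *
    generalize 2 ^ o2 * 8 = t3 at *
    omega
  have h1 := neg_of n _ _ (cmp_iff n Z _ _ hn hA hB h)
  have e : (fun i j => (((fun i j => (2 * (XU i j % 2 ^ c) + 2 * m * (XE i j % 2 ^ c)) +
        (XP i j % 2 ^ c2 + q * 2 ^ o2 * (XD i j / 2 ^ c2))) i j : ℕ) : ℤ) -
      (((fun i j => (2 ^ o * (2 * (XU i j / 2 ^ c) +
      2 * m * (XE i j / 2 ^ c))) + (2 ^ o2 * (XP i j / 2 ^ c2) + q * (XD i j % 2 ^ c2))) i j : ℕ) :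
        ℤ)) = fun i j => 2 * tv c o (XU i j) + 2 * m * tv c o (XE i j) + tv c2 o2 (XP i j) -
    q * tv c2 o2 (XD i j) := by
    funext i j
    unfold tv
    push_cast
    ring
  rw [e] at h1
  exact h1

end Pool.Agent.Work.MP_f94384_co.Big
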