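import Pool.Agent.Work.MP_f94384_co.Big.Stmts3

/-!
# Kernel program for the certificates of order 7 and 8: item RWU
-/

set_option autoImplicit false

open Finset

namespace Pool.Agent.Work.MP_f94384_co.Big

open Pool.Agent.Work.MP_f94384_co.Flag

namespace RWU

theorem sh (W c o NT : ℕ) (R : ℕ → ℕ) (B : ℕ → ℕ → ℤ)
    (h : ∀ ty < 256, TOK W c o (dg 8 (8 * ty) NT) (fun k => R (256 * ty + k)) (B ty)) :
    RSh W NT R := by
  intro b hb hb2
  have h1 : R (256 * (b / 256) + b % 256) < 2 ^ (W * dg 8 (8 * (b / 256)) NT) :=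
    (h (b / 256) (by omega)).1 (b % 256) hb2
  have h2 : 256 * (b / 256) + b % 256 = b := Nat.div_add_mod b 256
  rw [h2] at h1
  exact h1

end RWU

theorem pr_RWU : RWU := by
  intro D zb t0 b h
  constructor
  · refine ⟨h.w.WZ, ?_, h.w.tU, RWU.sh _ _ _ _ _ _ h.tu⟩
    intro F hF
    have h1 := h.bu F hF
    unfold cBU at h1
    rw [fc_eq] at h1
    exact h1
  · refine ⟨h.w.WZ, ?_, h.w.tE, RWU.sh _ _ _ _ _ _ h.te⟩
    intro F hF
    have h1 := h.be F hF
    unfold cBE at h1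
    rw [fc_eq] at h1
    exact h1

end Pool.Agent.Work.MP_f94384_co.Big
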