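import Pool.Agent.Work.MP_f94384_co.Big.Stmts3
import Pool.Agent.Work.MP_f94384_co.Big.P_FIN
import Pool.Agent.Work.MP_f94384_co.Big.P_COD
import Pool.Agent.Work.MP_f94384_co.Big.P_MAT
import Pool.Agent.Work.MP_f94384_co.Big.P_RWU

/-!
# Coded sums of matrix entries
-/

set_option autoImplicit false

open Finset

namespace Pool.Agent.Work.MP_f94384_co.Big

open Pool.Agent.Work.MP_f94384_co.Flag

namespace DT

theorem nst_congr {Z : ℕ} {A B : ℕ → ℕ → ℕ} (h : ∀ i < 8, ∀ j < 8, A i j = B i j) :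
    nst Z A = nst Z B := by
  unfold nst
  refine sum_congr rfl fun j hj => ?_
  congr 1
  refine sum_congr rfl fun i hi => ?_
  rw [h i (mem_range.1 hi) j (mem_range.1 hj)]

theorem mk_eq' (w : ℕ) : mk w = 2 ^ w - 1 := mk_eq w

/-- size of a coded number -/
theorem cod_lt {c o n d : ℕ} {v : ℤ} (hoc : o < c) (h : Cod c o n d v) : d ≤ n * 2 ^ (c + 1) := by
  obtain ⟨k, hk, e, f, g⟩ := h
  have h1 : (2 : ℤ) ^ (o + 1) ≤ 2 ^ c := pow_le_pow_right₀ (by norm_num) hoc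
  have hk0 : (0 : ℤ) ≤ k := Int.natCast_nonneg k
  have hkn : (k : ℤ) ≤ n := by exact_mod_cast hk
  have h2 : (k : ℤ) * 2 ^ o + v ≤ k * 2 ^ c := by
    rcases g with g | g
    · rw [g]; positivity
    · have := mul_le_mul_of_nonneg_left h1 hk0
      linarith
  have h3 : (d : ℤ) ≤ n * 2 ^ (c + 1) := by
    have h4 : (k : ℤ) * 2 ^ c ≤ n * 2 ^ c := mul_le_mul_of_nonneg_right hkn (by positivity)
    have h5 : (n : ℤ) * 2 ^ (c + 1) = n * 2 ^ c + n * 2 ^ c := by rw [pow_succ]; ring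
    rw [e, h5]
    linarith
  exact_mod_cast h3

theorem dig_absent (W NT : ℕ) (R : ℕ → ℕ) (hNT : dg 8 (8 * 255) NT = 0) (b : ℕ) :
    dig W NT R 65535 b = 0 ∧ dig W NT R b 65535 = 0 := by
  have h1 : 65535 / 256 = 255 := by norm_num
  constructor
  · unfold dig
    rw [if_neg]
    rintro ⟨h2, h3, _⟩
    rw [← h2, h1, hNT] at h3
    omega
  · unfold dig
    rw [if_neg]
    rintro ⟨_, h3, _⟩
    rw [h1, hNT] at h3
    omega

theorem min_lt (a : ℕ) : min a 65535 < 65536 := lt_of_le_of_lt (min_le_right _ _) (by norm_num)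

/-- rows are below `65536` -/
theorem rU_lt (D : Dt) (N : ℕ) (p : Pat) (w x i : ℕ) : D.bc.rU N p w x i < 65536 := min_lt _

theorem rE_lt (D : Dt) (N : ℕ) (p : Pat) (w z x y i : ℕ) : D.bc.rE N p w z x y i < 65536 :=
  min_lt _

theorem rV_lt (D : Dt) (N : ℕ) (p : Pat) (w z x y : ℕ) : D.bc.rV N p w z x y < 65536 := min_lt _

/-- matrix entries of the eigenvalue squares are coded -/
theorem codE {D : Dt} {zb t0 : ℕ} {b : ℕ → ℤ} (h : AOK D zb t0 b) {a a' : ℕ} (ha : a < 65536)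
    (ha' : a' < 65536) :
    Cod D.c D.o 1 (dig D.W D.NE (rowP D.W (8 * D.Z) D.NE D.BE D.WE) a a') (D.bc.E a a') :=
  (pr_MAT D.W D.c D.o D.NE t0 _ b (by have := h.w.oc; omega) h.te h.b0 h.b1).2.2 a ha a' ha'

theorem codU {D : Dt} {zb t0 : ℕ} {b : ℕ → ℤ} (h : AOK D zb t0 b) {a a' : ℕ} (ha : a < 65536)
    (ha' : a' < 65536) :
    Cod D.c D.o 1 (dig D.W D.NU (rowP D.W (8 * D.Z) D.NU D.BU D.WU) a a') (D.bc.U a a') :=
  (pr_MAT D.W D.c D.o D.NU 0 _ (fun _ => 0) (by have := h.w.oc; omega) h.tu (fun _ _ => rfl)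
    (fun _ _ => rfl)).2.2 a ha a' ha'

theorem codV {D : Dt} {zb t0 : ℕ} {b : ℕ → ℤ} (h : AOK D zb t0 b) (hv : D.v ≠ 0) {a a' : ℕ}
    (ha : a < 65536) (ha' : a' < 65536) :
    Cod D.c D.o 1 (dig D.W D.NV (fun b => get D.BV (get D.WV b)) a a') (D.bc.V a a') := by
  have h1 := (pr_MAT D.W D.c D.o D.NV 0 (fun b => get D.BV (get D.WV b)) (fun _ => 0)
    (by have := h.w.oc; omega) (h.tv hv) (fun _ _ => rfl) (fun _ _ => rfl)).2.2 a ha a' ha'
  have h2 : D.bc.V a a' = tv D.c D.o (dig D.W D.NV (fun b => get D.BV (get D.WV b)) a a') := by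
    show (if D.v = 0 then 0 else _) = _
    rw [if_neg hv]
  rw [h2]
  exact h1

/-- weakening of the number of terms -/
theorem cod_mono {c o n n' d : ℕ} {v : ℤ} (hn : n ≤ n') (h : Cod c o n d v) : Cod c o n' d v :=
  pr_COD.2.1 c o n n' d v hn h

/-- sums of coded numbers, all with the same bound -/
theorem cod_sum {c o : ℕ} (S : Finset ℕ) (n : ℕ) (d : ℕ → ℕ) (v : ℕ → ℤ)
    (h : ∀ a ∈ S, Cod c o n (d a) (v a)) :
    Cod c o (S.card * n) (∑ a ∈ S, d a) (∑ a ∈ S, v a) := by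
  have := pr_COD.2.2.2.1 c o S (fun _ => n) d v h
  rwa [sum_const, smul_eq_mul] at this

theorem cod_zero (c o n : ℕ) : Cod c o n 0 0 := cod_mono (Nat.zero_le n) (pr_COD.1 c o)

theorem cod_ite {c o n d : ℕ} {v : ℤ} (p : Prop) [Decidable p] (h : p → Cod c o n d v) :
    Cod c o n (if p then d else 0) (if p then v else 0) := by
  split_ifs with hp
  · exact h hp
  · exact cod_zero c o n

theorem sumL_eq' (f : ℕ → ℕ) (n : ℕ) : sumL f n 0 = ∑ k ∈ range n, f k := by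
  rw [sumL_eq, Nat.zero_add]

/-- table of multipliers -/
theorem tz_eq {n Z : ℕ} (hn : n ≤ 8) (f : ℕ → ℕ → ℕ) :
    tz n Z f = nst Z fun i j => if i < n ∧ j < n then f i j else 0 := by
  unfold tz
  simp only [sumL_eq']
  have h1 : ∀ a b, Nat.shiftLeft (f a b) (Nat.add (Nat.mul Z a) (Nat.mul (Nat.mul 8 Z) b)) =
      f a b * 2 ^ (Z * a) * 2 ^ (8 * Z * b) := by
    intro a b
    show (f a b) <<< (Z * a + 8 * Z * b) = _
    rw [Nat.shiftLeft_eq, Nat.pow_add]
    ring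
  simp only [h1]
  unfold nst
  rw [sum_comm]
  have h2 : ∀ j ∈ range 8, (∑ i ∈ range 8, (if i < n ∧ j < n then f i j else 0) * 2 ^ (Z * i)) *
      2 ^ (8 * Z * j) = if j < n then ∑ i ∈ range n, f i j * 2 ^ (Z * i) * 2 ^ (8 * Z * j) else 0 := by
    intro j _
    by_cases hj : j < n
    · rw [if_pos hj, ← sum_mul]
      congr 1
      rw [← sum_subset (s₁ := range n) (s₂ := range 8)
        (fun a ha => by rw [mem_range] at ha ⊢; omega)]
      · refine sum_congr rfl fun i hi => ?_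
        rw [if_pos ⟨mem_range.1 hi, hj⟩]
      · intro i _ hi
        rw [mem_range] at hi
        rw [if_neg (fun h => hi h.1), zero_mul]
    · rw [if_neg hj]
      have : ∑ i ∈ range 8, (if i < n ∧ j < n then f i j else 0) * 2 ^ (Z * i) = 0 :=
        sum_eq_zero fun i _ => by rw [if_neg (fun h => hj h.2), zero_mul]
      rw [this, zero_mul]
  rw [sum_congr rfl h2]
  rw [← sum_subset (s₁ := range n) (s₂ := range 8)
        (fun a ha => by rw [mem_range] at ha ⊢; omega)]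
  · exact sum_congr rfl fun j hj => by rw [if_pos (mem_range.1 hj)]
  · intro j _ hj
    rw [mem_range] at hj
    rw [if_neg hj]

/-- cast of a digit of the tables -/
theorem dD_cast {c2 o2 : ℕ} {v : ℤ} (h : |v| ≤ 2 ^ o2) :
    ((dD c2 o2 v : ℕ) : ℤ) = 2 ^ c2 + 2 ^ o2 + v := by
  unfold dD
  have h1 := (abs_le.1 h).1
  have h2 : (0 : ℤ) < 2 ^ c2 := by positivity
  exact Int.toNat_of_nonneg (by linarith)

end DT

end Pool.Agent.Work.MP_f94384_co.Big
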