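import Pool.Agent.Work.MP_f94384_co.Big.DT0

/-!
# Tables of the representatives of order `N - 1`: the sum of the contributions
-/

set_option autoImplicit false

open Finset

namespace Pool.Agent.Work.MP_f94384_co.Big

open Pool.Agent.Work.MP_f94384_co.Flag

namespace DT

/-- number of triples of different positions -/
theorem tri_card (n : ℕ) (hn : n ≤ 7) : (∑ w ∈ range n, ∑ z ∈ range n, ∑ y ∈ range n,
    (if w ≠ z ∧ w ≠ y ∧ z ≠ y then 1 else 0)) ≤ 256 := by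
  interval_cases n <;> decide

/-- digits of the sum of the contributions with the same point -/
noncomputable def X (D : Dt) (n : ℕ) (p : Pat) (i j : ℕ) : ℕ :=
  ∑ w ∈ range n, ∑ z ∈ range n, ∑ y ∈ range n, if w ≠ z ∧ w ≠ y ∧ z ≠ y then
    dig D.W D.NE (rowP D.W (8 * D.Z) D.NE D.BE D.WE) (D.bc.gE n p w z n y i)
      (D.bc.gE n p w y n z j) else 0

theorem X_cod {D : Dt} {zb t0 : ℕ} {b : ℕ → ℤ} (h : AOK D zb t0 b) (p : Pat) {n i j : ℕ}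
    (hn : n ≤ 7) (hi : i < n) (hj : j < n) :
    Cod D.c D.o 256 (X D n p i j) (D.bc.tD n p n i j) := by
  refine cod_mono (tri_card n hn) ?_
  unfold X BC.tD
  refine pr_COD.2.2.2.1 _ _ _ _ _ _ fun w hw => ?_
  refine pr_COD.2.2.2.1 _ _ _ _ _ _ fun z hz => ?_
  refine pr_COD.2.2.2.1 _ _ _ _ _ _ fun y hy => ?_
  rw [mem_range] at hw hz hy
  unfold BC.pD BC.gE
  by_cases h1 : w ≠ z ∧ w ≠ y ∧ z ≠ y
  · rw [if_pos h1, if_pos h1]
    by_cases h2 : i ≠ y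
    · by_cases h3 : j ≠ z
      · rw [if_pos ⟨hi, by omega, h2⟩, if_pos ⟨hj, by omega, h3⟩,
          if_pos ⟨h1.1, by omega, h1.2.1, by omega, h1.2.2, by omega, by omega, h2, by omega, h3⟩]
        exact codE h (rE_lt _ _ _ _ _ _ _ _) (rE_lt _ _ _ _ _ _ _ _)
      · rw [if_neg (c := j < n ∧ j ≠ n ∧ j ≠ z) (fun h4 => h3 h4.2.2),
          (dig_absent _ _ _ h.w.tE _).2, if_neg (fun h4 => h3 h4.2.2.2.2.2.2.2.2.2)]
        exact cod_zero _ _ _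
    · rw [if_neg (c := i < n ∧ i ≠ n ∧ i ≠ y) (fun h4 => h2 h4.2.2),
        (dig_absent _ _ _ h.w.tE _).1, if_neg (fun h4 => h2 h4.2.2.2.2.2.2.2.1)]
      exact cod_zero _ _ _
  · rw [if_neg h1, if_neg h1, if_neg (fun h4 => h1 ⟨h4.1, h4.2.2.1, h4.2.2.2.2.1⟩)]
    exact pr_COD.1 _ _

theorem X_out {D : Dt} {zb t0 : ℕ} {b : ℕ → ℤ} (h : AOK D zb t0 b) (p : Pat) {n i j : ℕ}
    (hij : ¬ (i < n ∧ j < n)) : X D n p i j = 0 := by
  unfold X BC.gE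
  refine sum_eq_zero fun w _ => sum_eq_zero fun z _ => sum_eq_zero fun y _ => ?_
  by_cases h1 : w ≠ z ∧ w ≠ y ∧ z ≠ y
  · rw [if_pos h1]
    by_cases hi : i < n
    · rw [if_neg (c := j < n ∧ j ≠ n ∧ j ≠ z) (fun h4 => hij ⟨hi, h4.1⟩)]
      exact (dig_absent _ _ _ h.w.tE _).2
    · rw [if_neg (c := i < n ∧ i ≠ n ∧ i ≠ y) (fun h4 => hi h4.1)]
      exact (dig_absent _ _ _ h.w.tE _).1
  · rw [if_neg h1]

theorem X_dec {D : Dt} {zb t0 : ℕ} {b : ℕ → ℤ} (h : AOK D zb t0 b) (p : Pat) {n i j : ℕ}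
    (hn : n ≤ 7) (hi : i < n) (hj : j < n) :
    tv D.c D.o (X D n p i j) = D.bc.tD n p n i j ∧ |D.bc.tD n p n i j| ≤ 2 ^ (D.o + 8) := by
  have h1 : 256 * 2 ^ (D.o + 1) ≤ 2 ^ D.c := by
    calc 256 * 2 ^ (D.o + 1) = 2 ^ (D.o + 9) := by rw [pow_add, pow_add]; ring
      _ ≤ 2 ^ D.c := Nat.pow_le_pow_right (by norm_num) (by have := h.w.oc; omega)
  obtain ⟨a, _, c⟩ := pr_COD.2.2.2.2 _ _ _ _ _ (X_cod h p hn hi hj) h1
  refine ⟨a, c.trans (le_of_eq ?_)⟩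
  rw [pow_add]; push_cast; ring

theorem X_lt {D : Dt} {zb t0 : ℕ} {b : ℕ → ℤ} (h : AOK D zb t0 b) (p : Pat) {n : ℕ} (i j : ℕ)
    (hn : n ≤ 7) : X D n p i j < 2 ^ D.Z := by
  by_cases hij : i < n ∧ j < n
  · have h1 := cod_lt (by have := h.w.oc; omega) (X_cod h p hn hij.1 hij.2)
    calc X D n p i j ≤ 256 * 2 ^ (D.c + 1) := h1
      _ = 2 ^ (D.c + 9) := by rw [pow_add, pow_add]; ring
      _ < 2 ^ D.Z := Nat.pow_lt_pow_right (by norm_num) (by have := h.w.cZ; omega)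
  · rw [X_out h p hij]; positivity

/-- low and high parts of packed numbers -/
theorem lo_eq {Z c : ℕ} (hc : c ≤ Z) {A : ℕ → ℕ → ℕ} (hA : ∀ i < 8, ∀ j < 8, A i j < 2 ^ Z) :
    Nat.land (nst Z A) (kk (mk c) Z) = nst Z fun i j => A i j % 2 ^ c := by
  rw [mk_eq]
  exact (pr_NST Z A hA).2.2.1 c hc

theorem hi_eq {Z c : ℕ} (o : ℕ) (hc : c ≤ Z) {A : ℕ → ℕ → ℕ}
    (hA : ∀ i < 8, ∀ j < 8, A i j < 2 ^ Z) :
    Nat.shiftLeft (bts (kk (mk (Nat.sub Z c)) Z) (nst Z A) c) o =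
      nst Z fun i j => A i j / 2 ^ c * 2 ^ o := by
  have h1 : bts (kk (mk (Nat.sub Z c)) Z) (nst Z A) c = nst Z fun i j => A i j / 2 ^ c := by
    rw [mk_eq]
    exact (pr_NST Z A hA).2.2.2 c hc
  rw [h1]
  show nst Z _ <<< o = _
  rw [Nat.shiftLeft_eq, mul_comm, FIN.nst_mul]
  exact nst_congr fun i _ j _ => mul_comm _ _

theorem sh1 (c : ℕ) : Nat.shiftLeft 1 c = 2 ^ c := by
  show 1 <<< c = _
  rw [Nat.shiftLeft_eq, one_mul]

end DT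

end Pool.Agent.Work.MP_f94384_co.Big
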