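import Pool.Agent.Work.MP_f94384_co.Flag7.Gen4

/-!
# Certificates of order 7 and 8 with invariant row functions: definitions

All patterns live on the positions `0, ..., 7`; a position with colour `0` is absent. The row of a
flag with a marked weight position is a function of the invariant `hs` of the coloured pattern.
Colours: root `2`, point `w` `3`, averaged point `z` `5`, plus `10` for the weight position.
The table `T` is the sum over all placements of the roots and the points; it is invariant under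
permutations of the positions.
-/

set_option autoImplicit false

open Finset

namespace Pool.Agent.Work.MP_f94384_co.Big

open Pool.Agent.Work.MP_f94384_co.Flag

/-- first step of the invariant -/
def h1 (p : Pat) (c : ℕ → ℕ) (v : ℕ) : ℕ :=
  c v * (1 + ∑ u ∈ range 8, if p v u = true then c u ^ 2 else 0)

/-- second step of the invariant -/
def h2 (p : Pat) (c : ℕ → ℕ) (v : ℕ) : ℕ :=
  c v * (1 + ∑ u ∈ range 8, if p v u = true then h1 p c u ^ 2 else 0)

/-- the invariant of a coloured pattern -/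
def hs (p : Pat) (c : ℕ → ℕ) : ℕ := ∑ v ∈ range 8, h2 p c v ^ 2

/-- colours of a flag with the point `w` and the absent position `x`; weight position `i` -/
def cU (N w x i v : ℕ) : ℕ :=
  if v < N ∧ v ≠ x then (if v = w then 3 else 2) + (if v = i then 10 else 0) else 0

/-- colours of a flag with the points `w`, `z` and the absent positions `x`, `y`; weight
position `i` -/
def cE (N w z x y i v : ℕ) : ℕ :=
  if v < N ∧ v ≠ x ∧ v ≠ y then
    (if v = w then 3 else if v = z then 5 else 2) + (if v = i then 10 else 0) else 0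

/-- a certificate: row functions, matrices of the usual squares (`U`: one further point, `V`: two
further points, only the weight of the first) and of the eigenvalue squares (`E`), Perron
multipliers, and the constant `q / m` -/
structure BC where
  fU : ℕ → ℕ
  fE : ℕ → ℕ
  fV : ℕ → ℕ
  U : ℕ → ℕ → ℤ
  E : ℕ → ℕ → ℤ
  V : ℕ → ℕ → ℤ
  ze : ℕ → ℤ
  m : ℤ
  q : ℤ

/-- row of the flag with the point `w`, without `x`, weight `i` -/
def BC.rU (C : BC) (N : ℕ) (p : Pat) (w x i : ℕ) : ℕ := C.fU (hs p (cU N w x i))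

/-- row of the flag with the points `w, z`, without `x, y`, weight `i` -/
def BC.rE (C : BC) (N : ℕ) (p : Pat) (w z x y i : ℕ) : ℕ := C.fE (hs p (cE N w z x y i))

/-- row for `V` of the flag with the points `w, z`, without `x, y`, weight `w` -/
def BC.rV (C : BC) (N : ℕ) (p : Pat) (w z x y : ℕ) : ℕ := C.fV (hs p (cE N w z x y w))

/-- one placement of the usual squares: the points `w` and `x` -/
def BC.pU (C : BC) (N : ℕ) (p : Pat) (w x i j : ℕ) : ℤ :=
  if w ≠ x ∧ i ≠ x ∧ j ≠ w then C.U (C.rU N p w x i) (C.rU N p x w j) else 0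

/-- one placement of the eigenvalue squares: the points `w, z` and `x, y` -/
def BC.pE (C : BC) (N : ℕ) (p : Pat) (w z x y i j : ℕ) : ℤ :=
  if w ≠ z ∧ w ≠ x ∧ w ≠ y ∧ z ≠ x ∧ z ≠ y ∧ x ≠ y ∧ i ≠ x ∧ i ≠ y ∧ j ≠ w ∧ j ≠ z then
    C.E (C.rE N p w z x y i) (C.rE N p x y w z j) else 0

/-- one placement of the usual squares `V`: the points `w, z` and `x, y` -/
def BC.pV (C : BC) (N : ℕ) (p : Pat) (w z x y i j : ℕ) : ℤ :=
  if w ≠ z ∧ w ≠ x ∧ w ≠ y ∧ z ≠ x ∧ z ≠ y ∧ x ≠ y ∧ i = w ∧ j = x then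
    C.V (C.rV N p w z x y) (C.rV N p x y w z) else 0

/-- one placement of the eigenvalue squares with the same point: `w, z` and `w, y`; `x` is absent -/
def BC.pD (C : BC) (N : ℕ) (p : Pat) (w z x y i j : ℕ) : ℤ :=
  if w ≠ z ∧ w ≠ x ∧ w ≠ y ∧ z ≠ x ∧ z ≠ y ∧ x ≠ y ∧ i ≠ x ∧ i ≠ y ∧ j ≠ x ∧ j ≠ z then
    C.E (C.rE N p w z x y i) (C.rE N p w y x z j) else 0

/-- the sum of the placements without `x` -/
def BC.tD (C : BC) (N : ℕ) (p : Pat) (x i j : ℕ) : ℤ :=
  ∑ w ∈ range N, ∑ z ∈ range N, ∑ y ∈ range N, C.pD N p w z x y i j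

/-- Perron multipliers of the pattern without `x` -/
def BC.tZ (C : BC) (N : ℕ) (p : Pat) (x a b : ℕ) : ℤ :=
  if a ≠ b ∧ a ≠ x ∧ b ≠ x then C.ze (C.rU N p a x b) - C.ze (C.rU N p b x a) else 0

/-- the usual squares -/
def BC.TU (C : BC) (N : ℕ) (p : Pat) (i j : ℕ) : ℤ :=
  ∑ w ∈ range N, ∑ x ∈ range N, C.pU N p w x i j

/-- the eigenvalue squares, bilinear part -/
def BC.TE (C : BC) (N : ℕ) (p : Pat) (i j : ℕ) : ℤ :=
  ∑ w ∈ range N, ∑ z ∈ range N, ∑ x ∈ range N, ∑ y ∈ range N,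
    if p w x = true then C.pE N p w z x y i j else 0

/-- the usual squares `V` -/
def BC.TV (C : BC) (N : ℕ) (p : Pat) (i j : ℕ) : ℤ :=
  ∑ w ∈ range N, ∑ z ∈ range N, ∑ x ∈ range N, ∑ y ∈ range N, C.pV N p w z x y i j

/-- the part standing for the factor `lambda`, and the Perron equalities -/
def BC.TP (C : BC) (N : ℕ) (p : Pat) (i j : ℕ) : ℤ :=
  ∑ c ∈ range N, if p c i = true then C.m * C.tD N p i c j + C.tZ N p i c j else 0

/-- the part standing for the number of vertices -/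
def BC.TD (C : BC) (N : ℕ) (p : Pat) (i j : ℕ) : ℤ := ∑ x ∈ range N, C.tD N p x i j

/-- the table -/
def BC.T (C : BC) (N : ℕ) (p : Pat) (i j : ℕ) : ℤ :=
  C.TU N p i j + C.TV N p i j + C.m * C.TE N p i j + C.TP N p i j - C.q * C.TD N p i j

/-- Sign condition: `∑ i j, F i j x i x j ≤ 0` for `x ≥ 0`, because `2 x i x j ≤ x i ^ 2 + x j ^ 2`
where `F i j + F j i > 0`. -/
def Neg (N : ℕ) (F : ℕ → ℕ → ℤ) : Prop :=
  ∀ i < N, 2 * F i i + ∑ j ∈ range N, (if j = i then 0 else max (F i j + F j i) 0) ≤ 0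

/-- pattern of a number: the pair `i, j` is the bit `8 i + j` -/
def pa (A : ℕ) : Pat := fun i j => A.testBit (8 * i + j)

/-- no complete subgraph with `s` positions below `n` -/
def NoK (s n : ℕ) (p : Pat) : Prop :=
  ∀ t : Finset ℕ, t ⊆ range n → t.card = s → ∃ a ∈ t, ∃ b ∈ t, a ≠ b ∧ p a b = false

/-- bijection of the positions below `n` -/
def PermN (n : ℕ) (σ : ℕ → ℕ) : Prop := Set.BijOn σ (range n : Set ℕ) (range n : Set ℕ)

/-- `L 0, ..., L (len - 1)` represent all patterns on `n` positions without complete subgraph on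
`s` positions -/
def Cls (s n : ℕ) (L : ℕ → ℕ) (len : ℕ) : Prop :=
  ∀ p : Pat, (∀ i < n, ∀ j < n, p i j = p j i) → (∀ i < n, p i i = false) → NoK s n p →
    ∃ k < len, ∃ σ : ℕ → ℕ, PermN n σ ∧ ∀ i < n, ∀ j < n, p i j = pa (L k) (σ i) (σ j)

/-- Item RST: the invariant of a restricted and relabelled pattern. -/
def RST : Prop := ∀ (p p' : Pat) (c c' : ℕ → ℕ) (π : ℕ → ℕ),
  (∀ v < 8, c v ≠ 0 → π v < 8 ∧ c' (π v) = c v) →
  (∀ v < 8, c v ≠ 0 → ∀ u < 8, c u ≠ 0 → π v = π u → v = u) →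
  (∀ v < 8, c v ≠ 0 → ∀ u < 8, c u ≠ 0 → p v u = p' (π v) (π u)) →
  (∀ a < 8, c' a ≠ 0 → ∃ v < 8, c v ≠ 0 ∧ π v = a) → hs p c = hs p' c'

/-- Item INV: invariance of the table. -/
def INV : Prop := ∀ (C : BC) (N : ℕ) (p p' : Pat) (σ : ℕ → ℕ), N ≤ 8 → PermN N σ →
  (∀ i < N, ∀ j < N, p i j = p' (σ i) (σ j)) →
  ∀ i < N, ∀ j < N, C.T N p i j = C.T N p' (σ i) (σ j)

/-- Item REPS: representatives suffice. -/
def REPS : Prop := ∀ (C : BC) (r N : ℕ) (L : ℕ → ℕ) (len : ℕ), 1 ≤ N → N ≤ 8 →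
  Cls (r + 1) N L len →
  (∀ k < len, Neg N (C.T N (pa (L k)))) → NonPos r N (C.T N)

/-- Item SND: soundness. -/
def SND : Prop := ∀ (C : BC) (r N nU nE nV : ℕ) (b : ℕ → ℤ) (P : ℕ → ℕ → ℤ), 5 ≤ N → N ≤ 8 →
  1 ≤ r → 0 < C.m → 0 ≤ C.q → (∀ h, C.fU h < nU) → (∀ h, C.fE h < nE) → (∀ h, C.fV h < nV) →
  PSDn nU C.U → PSDn nV C.V → PSDn nE P →
  (∀ a < nE, ∀ a' < nE, C.E a a' = b a * b a' + P a a') →
  (∀ s t : Bool, (r = 2 → ¬ (s = true ∧ t = true)) →
    0 < b (C.rE N (qpat (N - 4) s t) (N - 4) (N - 3) (N - 2) (N - 1) (N - 4)) ∧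
    ∀ c < N - 2, 0 ≤ b (C.rE N (qpat (N - 4) s t) (N - 4) (N - 3) (N - 2) (N - 1) c)) →
  NonPos r N (C.T N) → PB r ((C.q : ℝ) / C.m)

end Pool.Agent.Work.MP_f94384_co.Big
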