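import Pool.Agent.Work.MP_f94384_co.Big.Stmts2
import Pool.Agent.Work.MP_f94384_co.Big.P_MSK
import Pool.Agent.Work.MP_f94384_co.Big.P_DGS
import Pool.Agent.Work.MP_f94384_co.Big.P_DGG
import Pool.Agent.Work.MP_f94384_co.Big.P_NST

/-!
# Permuted tables of pairs
-/

set_option autoImplicit false

open Finset

namespace Pool.Agent.Work.MP_f94384_co.Big

theorem TBD.col (Z : ℕ) (A : ℕ → ℕ → ℕ) (hA : ∀ i < 8, ∀ j < 8, A i j < 2 ^ Z) (j : ℕ)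
    (hj : j < 8) : ∑ i ∈ range 8, A i j * 2 ^ (Z * i) < 2 ^ (8 * Z) := by
  have h := (pr_DGS 8 Z 0 0 0 (fun i => A i j) (fun i hi => hA i hi j hj) (by omega)).2
  rwa [mul_comm Z 8] at h

/-- the first step -/
theorem TBD.one (Z π : ℕ) (A : ℕ → ℕ → ℕ) (hπ : ∀ i < 8, pf π i < 8)
    (hA : ∀ i < 8, ∀ j < 8, A i j < 2 ^ Z) :
    gP (8 * Z) (2 ^ (8 * Z) - 1) π (nst Z A) = nst Z fun i j => A i (pf π j) := by
  rw [gP_eq]
  unfold nst
  refine Finset.sum_congr rfl fun j hj => ?_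
  rw [Finset.mem_range] at hj
  have h1 : ∀ x t : ℕ, x >>> t &&& (2 ^ (8 * Z) - 1) = dg (8 * Z) t x := fun x t =>
    bts_eq (8 * Z) x t
  have hp := hπ j hj
  have h2 := (pr_DGS 8 (8 * Z) (8 * Z) 0 (pf π j) (fun j => ∑ i ∈ range 8, A i j * 2 ^ (Z * i))
    (fun j hj => TBD.col Z A hA j hj) (by omega)).1
  rw [add_zero, if_pos hp, pr_DGG.2.2.2.2.1 _ _ (TBD.col Z A hA _ hp)] at h2
  rw [h1, h2]

theorem TBD.two (Z π : ℕ) (A : ℕ → ℕ → ℕ) (hπ : ∀ i < 8, pf π i < 8)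
    (hA : ∀ i < 8, ∀ j < 8, A i j < 2 ^ Z) :
    gP Z (kS (2 ^ Z - 1) (8 * Z)) π (nst Z A) = nst Z fun i j => A (pf π i) j := by
  rw [gP_eq, kS_eq]
  have hM : ∀ i < 8, (fun _ : ℕ => 2 ^ Z - 1) i < 2 ^ (8 * Z) := by
    intro i _
    have h1 : 2 ^ Z ≤ 2 ^ (8 * Z) := Nat.pow_le_pow_right (by norm_num) (by omega)
    have h2 : 0 < 2 ^ Z := by positivity
    show 2 ^ Z - 1 < 2 ^ (8 * Z)
    omega
  have hS : ∀ i < 8, nst Z A >>> (Z * pf π i) &&& (∑ s ∈ range 8, (2 ^ Z - 1) * 2 ^ (8 * Z * s)) =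
      ∑ s ∈ range 8, A (pf π i) s * 2 ^ (8 * Z * s) := by
    intro i hi
    rw [pr_MSK 8 (8 * Z) _ (fun _ => 2 ^ Z - 1) hM]
    refine Finset.sum_congr rfl fun s hs => ?_
    rw [Finset.mem_range] at hs
    rw [pr_DGG.2.1, Nat.and_two_pow_sub_one_eq_mod, pr_DGG.2.2.1 Z (8 * Z) _ _ (by omega),
      (pr_NST Z A hA).1 _ (hπ i hi) s hs]
  rw [Finset.sum_congr rfl fun i hi => by rw [hS i (Finset.mem_range.1 hi)]]
  unfold nst
  simp only [Finset.sum_mul]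
  rw [Finset.sum_comm]
  refine Finset.sum_congr rfl fun j _ => Finset.sum_congr rfl fun i _ => ?_
  ring

theorem pr_TBD : TBD := by
  intro Z π A hπ hA
  unfold tbD
  rw [fc_eq, TBD.one Z π A hπ hA,
    TBD.two Z π (fun i j => A i (pf π j)) hπ (fun i hi j hj => hA i hi _ (hπ j hj))]

end Pool.Agent.Work.MP_f94384_co.Big
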