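import Pool.Agent.Work.MP_f94384_co.Big.Stmts3
import Pool.Agent.Work.MP_f94384_co.Big.P_HDL

/-!
# Kernel program for the certificates of order 7 and 8: the tables under deletions (item TDG)
-/

set_option autoImplicit false

open Finset

namespace Pool.Agent.Work.MP_f94384_co.Big

open Pool.Agent.Work.MP_f94384_co.Flag

namespace TDG

theorem reidx {n A R π x : ℕ} (h : Del (n + 1) n A R π x x) (g g' : ℕ → ℤ)
    (h0 : g x = 0) (hg : ∀ w < n + 1, w ≠ x → g w = g' (pf π w)) :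
    ∑ w ∈ range (n + 1), g w = ∑ w ∈ range n, g' w := by
  rw [← Finset.sum_erase (range (n + 1)) h0]
  refine Finset.sum_bij (fun w _ => pf π w) ?_ ?_ ?_ ?_
  · intro w hw
    rw [Finset.mem_erase, Finset.mem_range] at hw
    exact Finset.mem_range.2 (h.pr w hw.2 hw.1 hw.1)
  · intro w hw z hz e
    rw [Finset.mem_erase, Finset.mem_range] at hw hz
    exact h.inj w hw.2 hw.1 hw.1 z hz.2 hz.1 hz.1 e
  · intro a ha
    obtain ⟨v, hv, hvx, _, e⟩ := h.sur a (Finset.mem_range.1 ha)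
    exact ⟨v, Finset.mem_erase.2 ⟨hvx, Finset.mem_range.2 hv⟩, e⟩
  · intro w hw
    rw [Finset.mem_erase, Finset.mem_range] at hw
    exact hg w hw.2 hw.1

theorem eqi {n A R π x : ℕ} (h : Del (n + 1) n A R π x x) {u v : ℕ} (hu : u < n + 1) (hux : u ≠ x)
    (hv : v < n + 1) (hvx : v ≠ x) : (pf π u = pf π v ↔ u = v) :=
  ⟨fun e => h.inj u hu hux hux v hv hvx hvx e, fun e => by rw [e]⟩

theorem hsE (H : HDL) {n A R π x : ℕ} (hn : n + 1 ≤ 8) (h : Del (n + 1) n A R π x x)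
    {w z y i : ℕ} (hw : w < n + 1) (hwx : w ≠ x) (hz : z < n + 1) (hzx : z ≠ x)
    (hy : y < n + 1) (hyx : y ≠ x) (hi : i < n + 1) (hix : i ≠ x) :
    hs (pa A) (cE (n + 1) w z x y i) =
      hs (pa R) (cE n (pf π w) (pf π z) n (pf π y) (pf π i)) := by
  refine H (n + 1) n A R π x x _ _ hn (by omega) h ?_ ?_ ?_
  · intro v _ hv
    unfold cE
    rw [if_neg]
    rintro ⟨h1, h2, h3⟩
    exact hv ⟨h1, h2, h2⟩
  · intro v hv hvx _
    have p1 : pf π v < n := h.pr v hv hvx hvx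
    by_cases e : v = y
    · unfold cE
      rw [if_neg (fun hh => hh.2.2 e), if_neg (fun hh => hh.2.2 (by rw [e]))]
    · have e' : pf π v ≠ pf π y := fun hh => e ((eqi h hv hvx hy hyx).1 hh)
      have c1 : cE (n + 1) w z x y i v =
          (if v = w then 3 else if v = z then 5 else 2) + (if v = i then 10 else 0) :=
        if_pos ⟨hv, hvx, e⟩
      have c2 : cE n (pf π w) (pf π z) n (pf π y) (pf π i) (pf π v) =
          (if pf π v = pf π w then 3 else if pf π v = pf π z then 5 else 2) +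
            (if pf π v = pf π i then 10 else 0) := if_pos ⟨p1, p1.ne, e'⟩
      rw [c1, c2]
      simp only [eqi h hv hvx hw hwx, eqi h hv hvx hz hzx, eqi h hv hvx hi hix]
  · intro v _ hv
    unfold cE
    rw [if_neg]
    rintro ⟨h1, _, _⟩
    omega

theorem hsU (H : HDL) {n A R π x : ℕ} (hn : n + 1 ≤ 8) (h : Del (n + 1) n A R π x x)
    {w i : ℕ} (hw : w < n + 1) (hwx : w ≠ x) (hi : i < n + 1) (hix : i ≠ x) :
    hs (pa A) (cU (n + 1) w x i) = hs (pa R) (cU n (pf π w) n (pf π i)) := by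
  refine H (n + 1) n A R π x x _ _ hn (by omega) h ?_ ?_ ?_
  · intro v _ hv
    unfold cU
    rw [if_neg]
    rintro ⟨h1, h2⟩
    exact hv ⟨h1, h2, h2⟩
  · intro v hv hvx _
    have p1 : pf π v < n := h.pr v hv hvx hvx
    have c1 : cU (n + 1) w x i v =
        (if v = w then 3 else 2) + (if v = i then 10 else 0) := if_pos ⟨hv, hvx⟩
    have c2 : cU n (pf π w) n (pf π i) (pf π v) =
        (if pf π v = pf π w then 3 else 2) + (if pf π v = pf π i then 10 else 0) :=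
      if_pos ⟨p1, p1.ne⟩
    rw [c1, c2]
    simp only [eqi h hv hvx hw hwx, eqi h hv hvx hi hix]
  · intro v _ hv
    unfold cU
    rw [if_neg]
    rintro ⟨h1, _⟩
    omega

theorem pD_eq (H : HDL) (C : BC) {n A R π x : ℕ} (hn : n + 1 ≤ 8)
    (h : Del (n + 1) n A R π x x)
    {w z y a a' : ℕ} (hw : w < n + 1) (hwx : w ≠ x) (hz : z < n + 1) (hzx : z ≠ x)
    (hy : y < n + 1) (hyx : y ≠ x) (ha : a < n + 1) (hax : a ≠ x) (ha' : a' < n + 1)
    (hax' : a' ≠ x) :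
    C.pD (n + 1) (pa A) w z x y a a' =
      C.pD n (pa R) (pf π w) (pf π z) n (pf π y) (pf π a) (pf π a') := by
  have pn : ∀ v < n + 1, v ≠ x → pf π v ≠ n := fun v hv hvx =>
    (h.pr v hv hvx hvx).ne
  have e1 : (w ≠ z ∧ w ≠ x ∧ w ≠ y ∧ z ≠ x ∧ z ≠ y ∧ x ≠ y ∧ a ≠ x ∧ a ≠ y ∧ a' ≠ x ∧ a' ≠ z) ↔
      (pf π w ≠ pf π z ∧ pf π w ≠ n ∧ pf π w ≠ pf π y ∧ pf π z ≠ n ∧ pf π z ≠ pf π y ∧
        n ≠ pf π y ∧ pf π a ≠ n ∧ pf π a ≠ pf π y ∧ pf π a' ≠ n ∧ pf π a' ≠ pf π z) := by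
    rw [Ne, Ne, Ne, Ne, Ne, Ne, Ne, Ne, Ne, Ne, Ne, Ne, Ne, Ne, Ne, Ne, Ne, Ne, Ne, Ne,
      eqi h hw hwx hz hzx, eqi h hw hwx hy hyx, eqi h hz hzx hy hyx, eqi h ha hax hy hyx,
      eqi h ha' hax' hz hzx]
    constructor
    · rintro ⟨h1, _, h3, _, h5, _, _, h8, _, h10⟩
      exact ⟨h1, pn w hw hwx, h3, pn z hz hzx, h5, (pn y hy hyx).symm, pn a ha hax, h8,
        pn a' ha' hax', h10⟩
    · rintro ⟨h1, _, h3, _, h5, _, _, h8, _, h10⟩
      exact ⟨h1, hwx, h3, hzx, h5, fun e => hyx e.symm, hax, h8, hax', h10⟩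
  unfold BC.pD
  by_cases hc : w ≠ z ∧ w ≠ x ∧ w ≠ y ∧ z ≠ x ∧ z ≠ y ∧ x ≠ y ∧ a ≠ x ∧ a ≠ y ∧ a' ≠ x ∧ a' ≠ z
  · rw [if_pos hc, if_pos (e1.1 hc)]
    unfold BC.rE
    rw [hsE H hn h hw hwx hz hzx hy hyx ha hax, hsE H hn h hw hwx hy hyx hz hzx ha' hax']
  · rw [if_neg hc, if_neg (fun hh => hc (e1.2 hh))]

theorem main (H : HDL) : TDG := by
  intro C n A R π x hn h hx a ha a' ha' hax hax'
  constructor
  · unfold BC.tD
    refine reidx h _ _ ?_ ?_
    · refine Finset.sum_eq_zero fun z _ => Finset.sum_eq_zero fun y _ => ?_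
      unfold BC.pD
      exact if_neg fun hh => hh.2.1 rfl
    · intro w hw hwx
      refine reidx h _ _ ?_ ?_
      · refine Finset.sum_eq_zero fun y _ => ?_
        unfold BC.pD
        exact if_neg fun hh => hh.2.2.2.1 rfl
      · intro z hz hzx
        refine reidx h _ _ ?_ ?_
        · unfold BC.pD
          exact if_neg fun hh => hh.2.2.2.2.2.1 rfl
        · intro y hy hyx
          exact pD_eq H C hn h hw hwx hz hzx hy hyx ha hax ha' hax'
  · have pn : ∀ v < n + 1, v ≠ x → pf π v ≠ n := fun v hv hvx =>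
      (h.pr v hv hvx hvx).ne
    unfold BC.tZ
    by_cases e : a = a'
    · rw [if_neg fun hh => hh.1 e, if_neg fun hh => hh.1 (by rw [e])]
    · have e' : pf π a ≠ pf π a' := fun hh => e ((eqi h ha hax ha' hax').1 hh)
      rw [if_pos ⟨e, hax, hax'⟩, if_pos ⟨e', pn a ha hax, pn a' ha' hax'⟩]
      unfold BC.rU
      rw [hsU H hn h ha hax ha' hax', hsU H hn h ha' hax' ha hax]

end TDG

theorem pr_TDG : TDG := TDG.main pr_HDL

end Pool.Agent.Work.MP_f94384_co.Big
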