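import Pool.Agent.Work.MP_f94384_co.Big.DT0
import Pool.Agent.Work.MP_f94384_co.Big.P_TBD
import Pool.Agent.Work.MP_f94384_co.Big.P_SDS
import Pool.Agent.Work.MP_f94384_co.Big.P_TDG
import Pool.Agent.Work.MP_f94384_co.Big.P_DKX

/-!
# The sum of the tables
-/

set_option autoImplicit false

open Finset

namespace Pool.Agent.Work.MP_f94384_co.Big

open Pool.Agent.Work.MP_f94384_co.Flag

namespace GDT

theorem row (Z : ℕ) (A : ℕ → ℕ → ℕ) (hA : ∀ i < 8, ∀ j < 8, A i j < 2 ^ Z) (i : ℕ) (hi : i < 8) :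
    bts (kS (2 ^ Z - 1) (8 * Z)) (nst Z A) (Z * i) = ∑ s ∈ range 8, A i s * 2 ^ (8 * Z * s) := by
  have hM : ∀ i < 8, (fun _ : ℕ => 2 ^ Z - 1) i < 2 ^ (8 * Z) := by
    intro i _
    have h1 : 2 ^ Z ≤ 2 ^ (8 * Z) := Nat.pow_le_pow_right (by norm_num) (by omega)
    have h2 : 0 < 2 ^ Z := by positivity
    show 2 ^ Z - 1 < 2 ^ (8 * Z)
    omega
  rw [kS_eq]
  show nst Z A >>> (Z * i) &&& _ = _
  rw [pr_MSK 8 (8 * Z) _ (fun _ => 2 ^ Z - 1) hM]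
  refine Finset.sum_congr rfl fun s hs => ?_
  rw [Finset.mem_range] at hs
  rw [pr_DGG.2.1, Nat.and_two_pow_sub_one_eq_mod, pr_DGG.2.2.1 Z (8 * Z) _ _ (by omega),
    (pr_NST Z A hA).1 _ hi s hs]

theorem dD_lt {D : Dt} {zb : ℕ} (w : WOK D zb) {v : ℤ} (h : |v| ≤ 2 ^ D.o2) :
    dD D.c2 D.o2 v < 2 ^ D.Z := by
  have h1 := DT.dD_cast (c2 := D.c2) h
  have h2 := (abs_le.1 h).2
  have h3 : (2 : ℤ) ^ (D.o2 + 1) ≤ 2 ^ D.c2 :=
    pow_le_pow_right₀ (by norm_num) (by have := w.oc2; omega)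
  have h4 : (2 : ℤ) ^ (D.c2 + 2) ≤ 2 ^ D.Z :=
    pow_le_pow_right₀ (by norm_num) (by have := w.cZ2; omega)
  have h5 : (0 : ℤ) < 2 ^ D.c2 := by positivity
  have h6 : ((dD D.c2 D.o2 v : ℕ) : ℤ) < ((2 ^ D.Z : ℕ) : ℤ) := by
    rw [h1]
    push_cast
    rw [pow_add] at h3 h4
    linarith
  exact_mod_cast h6

theorem perm {Z n A R π x : ℕ} (hn : n ≤ 7) (hD : Del (n + 1) n A R π x x) (F : ℕ → ℕ → ℕ)
    (hF : ∀ a < n, ∀ a' < n, F a a' < 2 ^ Z) :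
    tbD Z (8 * Z) (kS (2 ^ Z - 1) (8 * Z)) (2 ^ (8 * Z) - 1) π
      (nst Z fun a a' => if a < n ∧ a' < n then F a a' else 0) =
    nst Z fun i j => if i < n + 1 ∧ j < n + 1 ∧ i ≠ x ∧ j ≠ x then F (pf π i) (pf π j) else 0 := by
  have h1 : ∀ i < 8, (pf π i < n ↔ i < n + 1 ∧ i ≠ x) := by
    intro i hi
    constructor
    · intro h2
      by_contra h3
      have h4 := hD.ab i hi (fun h5 => h3 ⟨h5.1, h5.2.1⟩)
      omega
    · exact fun h2 => hD.pr i h2.1 h2.2 h2.2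
  rw [pr_TBD Z π (fun a a' => if a < n ∧ a' < n then F a a' else 0) hD.lt]
  · refine DT.nst_congr fun i hi j hj => ?_
    by_cases h2 : i < n + 1 ∧ j < n + 1 ∧ i ≠ x ∧ j ≠ x
    · rw [if_pos h2, if_pos ⟨(h1 i hi).2 ⟨h2.1, h2.2.2.1⟩, (h1 j hj).2 ⟨h2.2.1, h2.2.2.2⟩⟩]
    · rw [if_neg h2, if_neg]
      rintro ⟨h3, h4⟩
      have h5 := (h1 i hi).1 h3
      have h6 := (h1 j hj).1 h4
      exact h2 ⟨h5.1, h6.1, h5.2, h6.2⟩
  · intro i _ j _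
    split_ifs with h2
    · exact hF i h2.1 j h2.2
    · positivity

/-- sum of columns -/
theorem cols {Z N : ℕ} (hN : N ≤ 8) (T : ℕ → ℕ → ℕ) (hT : ∀ i < 8, ∀ j, ¬ i < N → T i j = 0) :
    nst Z T = ∑ x ∈ range N, (∑ s ∈ range 8, T x s * 2 ^ (8 * Z * s)) * 2 ^ (Z * x) := by
  unfold nst
  have h1 : ∀ j ∈ range 8, (∑ i ∈ range 8, T i j * 2 ^ (Z * i)) * 2 ^ (8 * Z * j) =
      ∑ i ∈ range N, T i j * 2 ^ (Z * i) * 2 ^ (8 * Z * j) := by
    intro j _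
    rw [sum_mul]
    symm
    refine sum_subset (fun a ha => by rw [mem_range] at ha ⊢; omega) fun i hi hiN => ?_
    rw [mem_range] at hi hiN
    rw [hT i hi j hiN, zero_mul, zero_mul]
  rw [sum_congr rfl h1, sum_comm]
  refine sum_congr rfl fun i _ => ?_
  rw [sum_mul]
  exact sum_congr rfl fun j _ => by ring

theorem main (hDTB : DTB) : GDT := by
  intro D zb t0 b h A c hc
  have hN5 := h.w.N5
  have hN8 := h.w.N8
  have hsub : D.N - 1 + 1 = D.N := by omega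
  set Q := pa A with hQ
  have hd := pr_DKX.1 D.N D.nR1 A c D.R1 (by omega) hN8 hc
  -- transported tables
  have hT : ∀ x < D.N, ∀ a < D.N, ∀ a' < D.N, a ≠ x → a' ≠ x →
      D.bc.tD D.N Q x a a' = D.bc.tD (D.N - 1) (pa (get D.R1 (dg 8 (40 * x) c))) (D.N - 1)
        (pf (dg 32 (40 * x + 8) c) a) (pf (dg 32 (40 * x + 8) c) a') ∧
      D.bc.tZ D.N Q x a a' = D.bc.tZ (D.N - 1) (pa (get D.R1 (dg 8 (40 * x) c))) (D.N - 1)
        (pf (dg 32 (40 * x + 8) c) a) (pf (dg 32 (40 * x + 8) c) a') := by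
    intro x hx a ha a' ha' hax hax'
    have h1 := pr_TDG D.bc (D.N - 1) A (get D.R1 (dg 8 (40 * x) c)) (dg 32 (40 * x + 8) c) x
    rw [hsub] at h1
    exact h1 hN8 (hd x hx).2 hx a ha a' ha' hax hax'
  have hB := fun x (hx : x < D.N) => hDTB D zb t0 b h _ (hd x hx).1
  have hPr : ∀ x < D.N, ∀ a < D.N, a ≠ x → pf (dg 32 (40 * x + 8) c) a < D.N - 1 :=
    fun x hx a ha hax => (hd x hx).2.pr a ha hax hax
  have hbd : ∀ x < D.N, ∀ i < D.N, ∀ j < D.N, i ≠ x → j ≠ x → |D.bc.tD D.N Q x i j| ≤ 2 ^ D.o2 ∧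
      |D.bc.m * D.bc.tD D.N Q x i j + D.bc.tZ D.N Q x i j| ≤ 2 ^ D.o2 := by
    intro x hx i hi j hj hix hjx
    rw [(hT x hx i hi j hj hix hjx).1, (hT x hx i hi j hj hix hjx).2]
    exact (hB x hx).1 _ (hPr x hx i hi hix) _ (hPr x hx j hj hjx)
  -- the tables of the deletions
  have hD : ∀ x < D.N, tbD D.Z (8 * D.Z) (kS (2 ^ D.Z - 1) (8 * D.Z)) (2 ^ (8 * D.Z) - 1)
      (dg 32 (40 * x + 8) c) (get D.DT (dg 8 (40 * x) c)) =
      nst D.Z fun i j => if i < D.N ∧ j < D.N ∧ i ≠ x ∧ j ≠ x then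
        dD D.c2 D.o2 (D.bc.tD D.N Q x i j) else 0 := by
    intro x hx
    have h2 : Del (D.N - 1 + 1) (D.N - 1) A (get D.R1 (dg 8 (40 * x) c)) (dg 32 (40 * x + 8) c)
      x x := by rw [hsub]; exact (hd x hx).2
    rw [(hB x hx).2.1, perm (by omega) h2 (fun a a' => dD D.c2 D.o2 (D.bc.tD (D.N - 1)
      (pa (get D.R1 (dg 8 (40 * x) c))) (D.N - 1) a a'))
      (fun a ha a' ha' => dD_lt h.w ((hB x hx).1 a ha a' ha').1), hsub]
    refine DT.nst_congr fun i _ j _ => ?_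
    by_cases h3 : i < D.N ∧ j < D.N ∧ i ≠ x ∧ j ≠ x
    · rw [if_pos h3, if_pos h3, (hT x hx i h3.1 j h3.2.1 h3.2.2.1 h3.2.2.2).1]
    · rw [if_neg h3, if_neg h3]
  have hP : ∀ x < D.N, tbD D.Z (8 * D.Z) (kS (2 ^ D.Z - 1) (8 * D.Z)) (2 ^ (8 * D.Z) - 1)
      (dg 32 (40 * x + 8) c) (get D.PT (dg 8 (40 * x) c)) =
      nst D.Z fun i j => if i < D.N ∧ j < D.N ∧ i ≠ x ∧ j ≠ x then
        dD D.c2 D.o2 (D.bc.m * D.bc.tD D.N Q x i j + D.bc.tZ D.N Q x i j) else 0 := by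
    intro x hx
    have h2 : Del (D.N - 1 + 1) (D.N - 1) A (get D.R1 (dg 8 (40 * x) c)) (dg 32 (40 * x + 8) c)
      x x := by rw [hsub]; exact (hd x hx).2
    rw [(hB x hx).2.2, perm (by omega) h2 (fun a a' => dD D.c2 D.o2 (D.bc.m * D.bc.tD (D.N - 1)
      (pa (get D.R1 (dg 8 (40 * x) c))) (D.N - 1) a a' + D.bc.tZ (D.N - 1)
      (pa (get D.R1 (dg 8 (40 * x) c))) (D.N - 1) a a'))
      (fun a ha a' ha' => dD_lt h.w ((hB x hx).1 a ha a' ha').2), hsub]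
    refine DT.nst_congr fun i _ j _ => ?_
    by_cases h3 : i < D.N ∧ j < D.N ∧ i ≠ x ∧ j ≠ x
    · rw [if_pos h3, if_pos h3, (hT x hx i h3.1 j h3.2.1 h3.2.2.1 h3.2.2.2).1,
        (hT x hx i h3.1 j h3.2.1 h3.2.2.1 h3.2.2.2).2]
    · rw [if_neg h3, if_neg h3]
  refine ⟨?_, ?_, hbd⟩
  · unfold gD
    rw [sumL_eq, Nat.zero_add, SDS.nst_sum]
    refine sum_congr rfl fun x hx => ?_
    rw [mem_range] at hx
    rw [fc_eq, fc_eq, fc_eq, DKX.cfd_land, DKX.cfd_shift]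
    exact hD x hx
  · unfold gL
    rw [sumL_eq, Nat.zero_add, cols hN8 _ (fun i _ j hi => sum_eq_zero fun k _ => by
      rw [if_neg (fun h1 => hi h1.1)])]
    refine sum_congr rfl fun x hx => ?_
    rw [mem_range] at hx
    rw [fc_eq, fc_eq, fc_eq, fc_eq, DKX.cfd_land, DKX.cfd_shift, sumL_eq, Nat.zero_add]
    have h1 : tbD D.Z (8 * D.Z) (kS (2 ^ D.Z - 1) (8 * D.Z)) (2 ^ (8 * D.Z) - 1)
        (dg 32 (Nat.mul 40 x + 8) c) (get D.PT (dg 8 (Nat.mul 40 x) c)) = _ := hP x hx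
    rw [h1]
    show (_ : ℕ) <<< (D.Z * x) = _
    rw [Nat.shiftLeft_eq]
    refine congrArg (fun t => t * 2 ^ (D.Z * x)) ?_
    simp only [sum_mul]
    rw [sum_comm]
    refine sum_congr rfl fun k hk => ?_
    rw [mem_range] at hk
    rw [bt_eq]
    have h2 : Nat.add (Nat.mul 8 k) x = 8 * k + x := rfl
    have h3 : Nat.mul D.Z k = D.Z * k := rfl
    rw [h2, h3, row _ _ _ k (by omega)]
    · cases hb : A.testBit (8 * k + x) with
      | false =>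
        rw [cond_false]
        symm
        refine sum_eq_zero fun s _ => ?_
        rw [if_neg (fun h4 => by simpa using h4.2.2.2.2), zero_mul]
      | true =>
        rw [cond_true]
        refine sum_congr rfl fun s _ => ?_
        by_cases h4 : k < D.N ∧ s < D.N ∧ k ≠ x ∧ s ≠ x
        · rw [if_pos h4, if_pos ⟨hx, h4.2.1, h4.2.2.1, h4.2.2.2, rfl⟩]
        · rw [if_neg h4, if_neg (fun h5 => h4 ⟨hk, h5.2.1, h5.2.2.1, h5.2.2.2.1⟩)]
    · intro i _ j _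
      split_ifs with h4
      · exact dD_lt h.w (hbd x hx i h4.1 j h4.2.1 h4.2.2.1 h4.2.2.2).2
      · positivity

end GDT

theorem GDT_of (hDTB : DTB) : GDT := GDT.main hDTB

end Pool.Agent.Work.MP_f94384_co.Big
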