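import Pool.Agent.Work.MP_f94384_co.Big.P_CGN
import Pool.Agent.Work.MP_f94384_co.Big.P_GDT
import Pool.Agent.Work.MP_f94384_co.Big.P_DTB
import Pool.Agent.Work.MP_f94384_co.Big.P_CLX
import Pool.Agent.Work.MP_f94384_co.Big.P_STR
import Pool.Agent.Work.MP_f94384_co.Big.P_REPS
import Pool.Agent.Work.MP_f94384_co.Big.P_SND
import Pool.Agent.Work.MP_f94384_co.Big.P_PST
import Pool.Agent.Work.MP_f94384_co.Big.P_PSB
import Pool.Agent.Work.MP_f94384_co.Big.P_TYC
import Pool.Agent.Work.MP_f94384_co.Big.P_LSK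
import Pool.Agent.Work.MP_f94384_co.Big.P_SUS
import Pool.Agent.Work.MP_f94384_co.Big.P_SES
import Pool.Agent.Work.MP_f94384_co.Big.P_SDS
import Pool.Agent.Work.MP_f94384_co.Big.P_PE2
import Pool.Agent.Work.MP_f94384_co.Big.P_CKU
import Pool.Agent.Work.MP_f94384_co.Big.P_ENU
import Pool.Agent.Work.MP_f94384_co.Big.P_ENE
import Pool.Agent.Work.MP_f94384_co.Big.P_END
import Pool.Agent.Work.MP_f94384_co.Big.P_ER2
import Pool.Agent.Work.MP_f94384_co.Big.P_ER1

/-!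
# Certificates of order 7 and 8: the end theorem
-/

set_option autoImplicit false

open Finset

namespace Pool.Agent.Work.MP_f94384_co.Big

open Pool.Agent.Work.MP_f94384_co.Flag

/-! ### all statements -/

theorem all_SUS : SUS := SUS_of pr_PE2

theorem all_SDS : SDS := SDS_of pr_PE2

theorem all_END : END := END.of2 pr_ER2

theorem all_ENE : ENE := ENE.of pr_ER2 pr_DKX pr_GUD

theorem all_DTB : DTB := DTB_of all_SDS all_END pr_CKU

theorem all_GDT : GDT := GDT_of all_DTB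

theorem all_CGN : CGN := CGN_of all_SUS pr_SES pr_ENU all_ENE all_GDT

theorem all_TYC : TYC := TYC_of pr_PST pr_PSB pr_LSK

/-! ### the types -/

/-- parameters of the check of a type -/
structure TPar where
  /-- rank, scale, width of `L`, bounds, exponent, width and data of the relations -/
  (m s bl Δ ε e w co : ℕ)
  /-- columns of `L` -/
  Λ : List ℕ

/-- check of a type of `U` -/
noncomputable def tcU (D : Dt) (ty : ℕ) (P : TPar) : Bool :=
  cTU D ty P.m P.s P.bl P.Δ P.ε P.e P.w P.co P.Λ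

/-- check of a type of `E` -/
noncomputable def tcE (D : Dt) (ty : ℕ) (P : TPar) : Bool :=
  cTE D ty P.m P.s P.bl P.Δ P.ε P.e P.w P.co P.Λ

/-- check of a type of `V` -/
noncomputable def tcV (D : Dt) (ty : ℕ) (P : TPar) : Bool :=
  cTV D ty P.m P.s P.bl P.Δ P.ε P.e P.w P.co P.Λ

/-- check of a type of `E` with `b` subtracted -/
noncomputable def tcB (D : Dt) (ty bp bn : ℕ) (P : TPar) : Bool :=
  cTB D ty bp bn P.m P.s P.bl P.Δ P.ε P.e P.w P.co P.Λ

/-- Data checks without the representatives of order `N`. -/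
structure Chk (D : Dt) (zb t0 bp bn : ℕ) : Prop where
  w : WOK D zb
  bu : ∀ F < D.nBU, cBU D F = true
  be : ∀ F < D.nBE, cBE D F = true
  bv : D.v ≠ 0 → ∀ F < D.nBE, cBV D F = true
  h : ∀ j < D.nR1, cH D j = true
  j : ∀ j < D.nR2, cJ D j = true
  s1 : ∀ j < D.nR1, ckA (D.N - 1) (get D.R1 j) = true
  s2 : ∀ j < D.nR2, ckA (D.N - 2) (get D.R2 j) = true
  tu : ∀ ty < 256, dg 8 (8 * ty) D.NU = 0 ∨ ∃ P, tcU D ty P = true
  te : ∀ ty < 256, ty ≠ t0 → dg 8 (8 * ty) D.NE = 0 ∨ ∃ P, tcE D ty P = true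
  tb : ∃ P, tcB D t0 bp bn P = true
  tv : D.v ≠ 0 → ∀ ty < 256, dg 8 (8 * ty) D.NV = 0 ∨ ∃ P, tcV D ty P = true
  zt : ∀ a, get D.ZT a ≤ zb

theorem Chk.aok {D : Dt} {zb t0 bp bn : ℕ} (h : Chk D zb t0 bp bn) :
    AOK D zb t0 (bvec D.W t0 bp bn) where
  w := h.w
  bu := h.bu
  be := h.be
  bv := h.bv
  h := h.h
  j := h.j
  s1 := h.s1
  s2 := h.s2
  tu := by
    intro ty hty
    rcases h.tu ty hty with h0 | ⟨P, hP⟩
    · exact (all_TYC D zb h.w ty 0 0 0 0 0 0 0 0 []).2.2.2.2 D.NU h0 _ _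
    · exact (all_TYC D zb h.w ty P.m P.s P.bl P.Δ P.ε P.e P.w P.co P.Λ).1 hP
  te := by
    intro ty hty
    by_cases ht : ty = t0
    · obtain ⟨P, hP⟩ := h.tb
      rw [ht]
      exact ((all_TYC D zb h.w t0 P.m P.s P.bl P.Δ P.ε P.e P.w P.co P.Λ).2.2.2.1 bp bn hP).1
    · rcases h.te ty hty ht with h0 | ⟨P, hP⟩
      · exact (all_TYC D zb h.w ty 0 0 0 0 0 0 0 0 []).2.2.2.2 D.NE h0 _ _
      · have h1 := (all_TYC D zb h.w ty P.m P.s P.bl P.Δ P.ε P.e P.w P.co P.Λ).2.1 hP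
        refine TYC.tok_congr h1 fun k hk => ?_
        have h2 : k < 256 := lt_trans hk (dg_lt 8 _ _)
        have h3 : (256 * ty + k) / 256 ≠ t0 := by omega
        exact (if_neg h3).symm
  tv := by
    intro hv ty hty
    rcases h.tv hv ty hty with h0 | ⟨P, hP⟩
    · exact (all_TYC D zb h.w ty 0 0 0 0 0 0 0 0 []).2.2.2.2 D.NV h0 _ _
    · exact (all_TYC D zb h.w ty P.m P.s P.bl P.Δ P.ε P.e P.w P.co P.Λ).2.2.1 hP
  zt := h.zt
  b0 := fun a ha => if_neg ha
  b1 := by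
    intro a ha
    by_cases ht : a / 256 = t0
    · obtain ⟨P, hP⟩ := h.tb
      exact ((all_TYC D zb h.w t0 P.m P.s P.bl P.Δ P.ε P.e P.w P.co P.Λ).2.2.2.1 bp bn hP).2 a ht ha
    · exact if_neg ht

/-- The end theorem. -/
theorem PB_of {D : Dt} {zb t0 bp bn : ℕ} (h : Chk D zb t0 bp bn) (r len : ℕ) (hr : 1 ≤ r)
    (ht : t0 < 255) (hA : ∀ k < len, ckA D.N (get D.R0 k) = true) (hG : ∀ k < len, cG D k = true)
    (hC : Cls (r + 1) D.N (get D.R0) len)
    (hS : ∀ s t : Bool, (r = 2 → ¬ (s = true ∧ t = true)) →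
      ∃ A, (∀ a < D.N - 2, ∀ a' < D.N - 2, qpat (D.N - 4) s t a a' = pa A a a') ∧
        ckS D t0 bp bn (D.N - 4) A = true) : PB r ((D.q : ℝ) / D.m) := by
  have hk := h.aok
  have hN5 := h.w.N5
  have hN8 := h.w.N8
  have hoc : D.o < D.c := by have := h.w.oc; omega
  have hW : 1 ≤ D.W := by have := h.w.oW; omega
  have hrep : NonPos r D.N (D.bc.T D.N) :=
    pr_REPS D.bc r D.N (get D.R0) len (by omega) hN8 hC fun k hk' =>
      all_CGN D zb t0 _ hk k (pr_CKA D.N _ hN8 (hA k hk')).1 (hG k hk')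
  have hlt : ∀ x : ℕ, min x 65535 < 65536 := fun x =>
    lt_of_le_of_lt (min_le_right _ _) (by norm_num)
  have pU : PSDn 65536 D.bc.U := by
    refine MAT.psd_congr ?_ (pr_MAT D.W D.c D.o D.NU 0 _ (fun _ => 0) hoc hk.tu
      (fun _ _ => rfl) (fun _ _ => rfl)).1
    intro a _ a' _
    show D.bc.U a a' = _ - 0 * 0
    rw [mul_zero, sub_zero]
    rfl
  have pV : PSDn 65536 D.bc.V := by
    by_cases hv : D.v = 0
    · refine MAT.psd_congr ?_ (MAT.psd_zero 65536)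
      intro a _ a' _
      exact if_pos hv
    · refine MAT.psd_congr ?_ (pr_MAT D.W D.c D.o D.NV 0 (fun b => get D.BV (get D.WV b))
        (fun _ => 0) hoc (hk.tv hv) (fun _ _ => rfl) (fun _ _ => rfl)).1
      intro a _ a' _
      show (if D.v = 0 then 0 else _) = _ - 0 * 0
      rw [if_neg hv, mul_zero, sub_zero]
  have pE : PSDn 65536 (fun a a' => D.bc.E a a' - bvec D.W t0 bp bn a * bvec D.W t0 bp bn a') :=
    (pr_MAT D.W D.c D.o D.NE t0 _ _ hoc hk.te hk.b0 hk.b1).1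
  have m1 : D.bc.m = (D.m : ℤ) := rfl
  have q1 : D.bc.q = (D.q : ℤ) := rfl
  have hfin := pr_SND D.bc r D.N 65536 65536 65536 (bvec D.W t0 bp bn)
    (fun a a' => D.bc.E a a' - bvec D.W t0 bp bn a * bvec D.W t0 bp bn a') hN5 hN8 hr
    (by rw [m1]; have := h.w.m1; omega) (by rw [q1]; omega) (fun x => hlt _) (fun x => hlt _)
    (fun x => hlt _) pU pV pE (fun a _ a' _ => by ring) (fun s t hst => ?_) hrep
  · rw [m1, q1, Int.cast_natCast, Int.cast_natCast] at hfin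
    exact hfin
  · obtain ⟨A, hA1, hA2⟩ := hS s t hst
    exact pr_STR D t0 bp bn A s t hN5 hN8 ht hW hA1 hA2

end Pool.Agent.Work.MP_f94384_co.Big
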