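import Pool.Agent.Work.MP_f94384_co.Big.Stmts
import Pool.Agent.Work.MP_f94384_co.Big.P_DGS
import Pool.Agent.Work.MP_f94384_co.Big.P_DGG

/-!
# Packed numbers
-/

set_option autoImplicit false

open Finset

namespace Pool.Agent.Work.MP_f94384_co.Big

/-- packed number with the fields `f 0, ..., f (n-1)` of `W` bits -/
def pk (W n : ℕ) (f : ℕ → ℕ) : ℕ := ∑ i ∈ range n, f i * 2 ^ (W * i)

theorem pk_lt {W n : ℕ} {f : ℕ → ℕ} (h : ∀ i < n, f i < 2 ^ W) : pk W n f < 2 ^ (W * n) :=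
  (pr_DGS n W 0 0 0 f h (by simp)).2

theorem dg_pk {W n : ℕ} {f : ℕ → ℕ} (h : ∀ i < n, f i < 2 ^ W) {j : ℕ} (hj : j < n) :
    dg W (W * j) (pk W n f) = f j := by
  have := (pr_DGS n W W 0 j f h (by simp)).1
  rw [Nat.add_zero, if_pos hj] at this
  unfold pk
  rw [this]
  unfold dg
  rw [Nat.pow_zero, Nat.div_one, Nat.mod_eq_of_lt (h j hj)]

theorem dg_pk_ge {W n : ℕ} {f : ℕ → ℕ} (h : ∀ i < n, f i < 2 ^ W) {j : ℕ} (hj : n ≤ j) :
    dg W (W * j) (pk W n f) = 0 := by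
  have := (pr_DGS n W W 0 j f h (by simp)).1
  rw [Nat.add_zero, if_neg (by omega)] at this
  exact this

theorem pk_congr {W n : ℕ} {f g : ℕ → ℕ} (h : ∀ i < n, f i = g i) : pk W n f = pk W n g :=
  sum_congr rfl fun i hi => by rw [h i (mem_range.1 hi)]

theorem pk_inj {W n : ℕ} {f g : ℕ → ℕ} (hf : ∀ i < n, f i < 2 ^ W) (hg : ∀ i < n, g i < 2 ^ W)
    (h : pk W n f = pk W n g) : ∀ i < n, f i = g i := by
  intro i hi
  rw [← dg_pk hf hi, ← dg_pk hg hi, h]

theorem pk_add (W n : ℕ) (f g : ℕ → ℕ) : pk W n f + pk W n g = pk W n fun i => f i + g i := by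
  unfold pk
  rw [← sum_add_distrib]
  exact sum_congr rfl fun i _ => by ring

theorem mul_pk (W n c : ℕ) (f : ℕ → ℕ) : c * pk W n f = pk W n fun i => c * f i := by
  unfold pk
  rw [mul_sum]
  exact sum_congr rfl fun i _ => by ring

theorem eq_pk {W n x : ℕ} (h : x < 2 ^ (W * n)) : x = pk W n fun k => dg W (W * k) x :=
  pr_DGG.2.2.2.2.2 n W x h

theorem pk_zero (W n : ℕ) : pk W n (fun _ => 0) = 0 := by
  unfold pk
  simp

theorem pk_sum (W n r : ℕ) (f : ℕ → ℕ → ℕ) :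
    ∑ a ∈ range r, pk W n (f a) = pk W n fun i => ∑ a ∈ range r, f a i := by
  unfold pk
  rw [sum_comm]
  exact sum_congr rfl fun i _ => by rw [sum_mul]

theorem pk_single {W n : ℕ} (hn : 0 < n) (d : ℕ) : d = pk W n fun i => if i = 0 then d else 0 := by
  unfold pk
  rw [sum_eq_single 0]
  · simp
  · intro b _ hb
    simp only [if_neg hb, zero_mul]
  · intro h
    exact absurd (mem_range.2 hn) h

theorem pk_split (W n r : ℕ) (f : ℕ → ℕ) :
    pk W (r + n) f = pk W r f + 2 ^ (W * r) * pk W n fun k => f (r + k) := by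
  unfold pk
  rw [sum_range_add, mul_sum]
  congr 1
  refine sum_congr rfl fun i _ => ?_
  rw [Nat.mul_add, Nat.pow_add]
  ring

theorem pk_shift {W n : ℕ} {f : ℕ → ℕ} (h : ∀ i < n, f i < 2 ^ W) {r : ℕ} (hr : r ≤ n) :
    pk W n f >>> (W * r) = pk W (n - r) fun k => f (r + k) := by
  obtain ⟨d, rfl⟩ := Nat.exists_eq_add_of_le hr
  rw [pk_split, Nat.shiftRight_eq_div_pow, Nat.add_mul_div_left _ _ (by positivity),
    Nat.div_eq_of_lt (pk_lt fun i hi => h i (by omega)), Nat.zero_add, Nat.add_sub_cancel_left]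

theorem ones_eq (W n : ℕ) : ones W n = pk W n fun _ => 1 := by
  show sumL (fun k => Nat.shiftLeft 1 (Nat.mul W k)) n 0 = _
  rw [sumL_eq, Nat.zero_add]
  unfold pk
  refine sum_congr rfl fun k _ => ?_
  show 1 <<< (W * k) = _
  rw [Nat.shiftLeft_eq]

theorem ones_mul (W n M : ℕ) : ones W n * M = pk W n fun _ => M := by
  rw [ones_eq, Nat.mul_comm, mul_pk]
  simp

theorem one_lt {W : ℕ} (hW : 1 ≤ W) : 1 < 2 ^ W :=
  lt_of_lt_of_le (by norm_num) (Nat.pow_le_pow_right (by norm_num) hW)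

theorem ones_shift {W : ℕ} (hW : 1 ≤ W) (n : ℕ) : ones W n >>> W = ones W (n - 1) := by
  rcases Nat.eq_zero_or_pos n with rfl | hn
  · rw [ones_eq]
    simp [pk, Nat.shiftRight_eq_div_pow]
  · have := pk_shift (W := W) (n := n) (f := fun _ => 1) (fun _ _ => one_lt hW) (r := 1) hn
    rw [Nat.mul_one] at this
    rw [ones_eq, ones_eq, this]

theorem ones_pos {W n : ℕ} (hn : 0 < n) : 0 < ones W n := by
  rw [ones_eq]
  unfold pk
  refine lt_of_lt_of_le ?_ (single_le_sum (f := fun i => 1 * 2 ^ (W * i))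
    (fun i _ => Nat.zero_le _) (mem_range.2 hn))
  simp

theorem ones_zero (W : ℕ) : ones W 0 = 0 := by
  rw [ones_eq]
  simp [pk]

/-- `x` has only the bits of the mask `M` in its `n` fields -/
theorem land_pk (hM : MSK) {W n M : ℕ} (h : M < 2 ^ W) (x : ℕ) :
    x &&& (ones W n * M) = pk W n fun i => dg W (W * i) x &&& M := by
  rw [ones_mul]
  exact hM n W x (fun _ => M) fun _ _ => h

theorem of_land (hM : MSK) {W n M : ℕ} (h : M < 2 ^ W) {x : ℕ} (hx : x &&& (ones W n * M) = x) :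
    x < 2 ^ (W * n) ∧ x = pk W n (fun k => dg W (W * k) x) ∧
    ∀ k < n, dg W (W * k) x &&& M = dg W (W * k) x := by
  rw [land_pk hM h] at hx
  have hb : ∀ i < n, (dg W (W * i) x &&& M) < 2 ^ W := fun i _ =>
    lt_of_le_of_lt Nat.and_le_right h
  have hlt : x < 2 ^ (W * n) := by
    rw [← hx]
    exact pk_lt hb
  refine ⟨hlt, eq_pk hlt, ?_⟩
  intro k hk
  have := dg_pk hb hk
  rw [hx] at this
  exact this.symm

theorem land_lt {e x : ℕ} (h : x &&& (2 ^ e - 1) = x) : x < 2 ^ e := by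
  rw [Nat.and_two_pow_sub_one_eq_mod] at h
  rw [← h]
  exact Nat.mod_lt _ (by positivity)

theorem testBit_one' (j : ℕ) : Nat.testBit 1 j = decide (j = 0) := by
  cases j with
  | zero => rfl
  | succ j => simp [Nat.testBit_succ]

/-- valid digits -/
theorem valid_digit {c o d : ℕ} (hoc : o < c) (h1 : d &&& 2 ^ c = 2 ^ c)
    (h2 : d &&& (2 ^ c + (2 ^ (o + 1) - 1)) = d) :
    2 ^ c ≤ d ∧ d < 2 ^ c + 2 ^ (o + 1) := by
  have hc : d.testBit c = true := by
    have : (d &&& 2 ^ c).testBit c = true := by rw [h1, Nat.testBit_two_pow_self]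
    rw [Nat.testBit_and, Bool.and_eq_true] at this
    exact this.1
  have hlo : 2 ^ (o + 1) - 1 < 2 ^ c := by
    have : 2 ^ (o + 1) ≤ 2 ^ c := Nat.pow_le_pow_right (by norm_num) hoc
    have := Nat.two_pow_pos (o + 1)
    omega
  have hmask : ∀ i, (2 ^ c + (2 ^ (o + 1) - 1)).testBit i = (decide (i = c) || decide (i < o + 1)) := by
    intro i
    have e : 2 ^ c + (2 ^ (o + 1) - 1) = 2 ^ c * 1 + (2 ^ (o + 1) - 1) := by ring
    rw [e, Nat.testBit_two_pow_mul_add _ hlo, Nat.testBit_two_pow_sub_one, testBit_one']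
    by_cases h : i < c
    · rw [if_pos h]
      simp [show i ≠ c by omega]
    · rw [if_neg h]
      by_cases h' : i = c
      · simp [h']
      · have a1 : ¬ i - c = 0 := by omega
        have a2 : ¬ i < o + 1 := by omega
        simp [h', a2]
        omega
  have hd : d = 2 ^ c + d % 2 ^ (o + 1) := by
    apply Nat.eq_of_testBit_eq
    intro i
    have hlt : d % 2 ^ (o + 1) < 2 ^ c := lt_of_lt_of_le (Nat.mod_lt _ (by positivity))
      (Nat.pow_le_pow_right (by norm_num) hoc)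
    have e : 2 ^ c + d % 2 ^ (o + 1) = 2 ^ c * 1 + d % 2 ^ (o + 1) := by ring
    rw [e, Nat.testBit_two_pow_mul_add _ hlt, Nat.testBit_mod_two_pow, testBit_one']
    have h3 : d.testBit i = (d.testBit i && (decide (i = c) || decide (i < o + 1))) := by
      rw [← hmask i, ← Nat.testBit_and, h2]
    by_cases h : i < c
    · rw [if_pos h, h3]
      simp [show i ≠ c by omega, Bool.and_comm]
    · rw [if_neg h]
      by_cases h' : i = c
      · subst h'
        simp [hc]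
      · rw [h3]
        have a2 : ¬ i < o + 1 := by omega
        have a1 : ¬ i - c = 0 := by omega
        simp [h', a2]
        omega
  have hlt : d % 2 ^ (o + 1) < 2 ^ (o + 1) := Nat.mod_lt _ (by positivity)
  constructor <;> omega

/-- value of a valid digit -/
theorem tv_valid {c o d : ℕ} (hoc : o < c) (h1 : 2 ^ c ≤ d) (h2 : d < 2 ^ c + 2 ^ (o + 1)) :
    tv c o d = (d : ℤ) - 2 ^ c - 2 ^ o ∧ |tv c o d| ≤ 2 ^ o := by
  have h3 : 2 ^ (o + 1) ≤ 2 ^ c := Nat.pow_le_pow_right (by norm_num) hoc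
  obtain ⟨u, rfl⟩ := Nat.exists_eq_add_of_le h1
  have hu : u < 2 ^ (o + 1) := by omega
  have hu' : u < 2 ^ c := by omega
  have e1 : (2 ^ c + u) % 2 ^ c = u := by
    rw [Nat.add_mod_left, Nat.mod_eq_of_lt hu']
  have e2 : (2 ^ c + u) / 2 ^ c = 1 := by
    rw [Nat.add_div_left _ (by positivity), Nat.div_eq_of_lt hu']
  have e3 : tv c o (2 ^ c + u) = (u : ℤ) - 2 ^ o := by
    unfold tv
    rw [e1, e2]
    push_cast
    ring
  rw [e3]
  refine ⟨by push_cast; ring, ?_⟩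
  have h4 : ((2 : ℤ) ^ (o + 1)) = 2 ^ o + 2 ^ o := by ring
  have h5 : (u : ℤ) < 2 ^ (o + 1) := by exact_mod_cast hu
  have h6 : (0 : ℤ) ≤ u := Int.natCast_nonneg u
  rw [abs_le]
  constructor <;> linarith

/-- the check `vld` -/
theorem vld_iff (hM : MSK) {W c o n : ℕ} (hoc : o < c) (hcW : c < W) {v : ℕ}
    (h : vld (ones W n) (2 ^ c) (2 ^ (o + 1) - 1) v = true) :
    v < 2 ^ (W * n) ∧ ∀ k < n, 2 ^ c ≤ dg W (W * k) v ∧ dg W (W * k) v < 2 ^ c + 2 ^ (o + 1) := by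
  have h' : cond (Nat.beq (v &&& (ones W n * 2 ^ c)) (ones W n * 2 ^ c))
      (Nat.beq (v &&& (ones W n * (2 ^ c + (2 ^ (o + 1) - 1)))) v) false = true := h
  rw [cond_true_iff, beq_iff, beq_iff] at h'
  have hc : 2 ^ c < 2 ^ W := Nat.pow_lt_pow_right (by norm_num) hcW
  have ho : 2 ^ (o + 1) ≤ 2 ^ c := Nat.pow_le_pow_right (by norm_num) hoc
  have hc2 : 2 ^ (c + 1) ≤ 2 ^ W := Nat.pow_le_pow_right (by norm_num) hcW
  have hc3 : 2 ^ (c + 1) = 2 ^ c + 2 ^ c := by ring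
  have hm : 2 ^ c + (2 ^ (o + 1) - 1) < 2 ^ W := by
    have := Nat.two_pow_pos (o + 1)
    omega
  obtain ⟨h3, _, h5⟩ := of_land hM hm h'.2
  refine ⟨h3, fun k hk => ?_⟩
  refine valid_digit hoc ?_ (h5 k hk)
  have h6 := h'.1
  rw [land_pk hM hc, ones_mul] at h6
  exact pk_inj (fun i _ => lt_of_le_of_lt Nat.and_le_right hc) (fun _ _ => hc) h6 k hk

end Pool.Agent.Work.MP_f94384_co.Big
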