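import Pool.Agent.Work.MP_f94384_co.Big.PST1

/-!
# Recursive functions of the semidefiniteness check
-/

set_option autoImplicit false

open Finset

namespace Pool.Agent.Work.MP_f94384_co.Big

theorem vldL_iff (on cb vb : ℕ) (l : List ℕ) :
    vldL on cb vb l = true ↔ ∀ v ∈ l, vld on cb vb v = true := by
  induction l with
  | nil => simp [vldL]
  | cons v l ih =>
    have h : vldL on cb vb (v :: l) = cond (vld on cb vb v) (vldL on cb vb l) false := rfl
    rw [h, cond_true_iff, ih]
    simp

theorem colP_eq (W r : ℕ) (l : List ℕ) :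
    colP W (2 ^ W - 1) r l = pk W l.length fun k => dg W (W * r) (l.getD k 0) := by
  induction l with
  | nil => simp [colP, pk]
  | cons v l ih =>
    have h : colP W (2 ^ W - 1) r (v :: l) =
      bts (2 ^ W - 1) v (W * r) + (colP W (2 ^ W - 1) r l) <<< W := rfl
    rw [h, bts_eq, ih, Nat.shiftLeft_eq]
    unfold pk
    rw [List.length_cons, sum_range_succ', sum_mul, Nat.add_comm]
    congr 1
    · refine sum_congr rfl fun k _ => ?_
      rw [Nat.mul_assoc, ← Nat.pow_add]
      congr 1
    · simp

theorem symP_imp (W m : ℕ) (l0 l : List ℕ) : ∀ r : ℕ, symP W m l0 l r = true →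
    ∀ i < l.length, colP W m (r + i) l0 = l.getD i 0 := by
  induction l with
  | nil =>
    intro r _ i hi
    simp at hi
  | cons v l ih =>
    intro r h i hi
    have h' : cond (Nat.beq (colP W m r l0) v) (fc (r + 1) (symP W m l0 l)) false = true := h
    rw [cond_true_iff, beq_iff, fc_eq] at h'
    cases i with
    | zero => simpa using h'.1
    | succ i =>
      have := ih (r + 1) h'.2 i (by simpa using hi)
      rw [show r + (i + 1) = r + 1 + i by ring, this]
      simp

theorem vlL_imp {W : ℕ} (hW : 1 ≤ W) (ml : ℕ) (l : List ℕ) : ∀ j : ℕ,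
    vlL W ml l (ones W j) = true → j ≤ l.length ∧
      ∀ a < j, l.getD a 0 &&& (ones W (j - a) * ml) = l.getD a 0 := by
  induction l with
  | nil =>
    intro j h
    have h' : Nat.beq (ones W j) 0 = true := h
    rw [beq_iff] at h'
    have hj : j = 0 := by
      by_contra hne
      have := ones_pos (W := W) (n := j) (by omega)
      omega
    subst hj
    exact ⟨le_refl _, fun a ha => absurd ha (by omega)⟩
  | cons v l ih =>
    intro j h
    have h' : cond (Nat.beq (v &&& (ones W j * ml)) v) (fc (ones W j >>> W) (vlL W ml l)) false =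
      true := h
    rw [cond_true_iff, beq_iff, fc_eq, ones_shift hW] at h'
    obtain ⟨h1, h2⟩ := ih (j - 1) h'.2
    refine ⟨by rw [List.length_cons]; omega, fun a ha => ?_⟩
    cases a with
    | zero => simpa using h'.1
    | succ a =>
      have := h2 a (by omega)
      rw [show j - (a + 1) = j - 1 - a by omega]
      simpa using this

theorem rwsP_imp {W : ℕ} (hW : 1 ≤ W) (mW vb s oc ol Δ ε me m : ℕ) (Λ : List ℕ) (l : List ℕ) :
    ∀ r : ℕ, rwsP W mW vb s oc ol Δ ε me Λ l r (ones W (m - r)) = true →
      ∀ i < l.length, r + i < m →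
        rwP W mW vb s oc ol Δ ε me Λ (l.getD i 0) (r + i) (ones W (m - (r + i))) = true := by
  induction l with
  | nil =>
    intro r _ i hi
    simp at hi
  | cons v l ih =>
    intro r h i hi him
    have h' : cond (Nat.beq (ones W (m - r)) 0) true
      (cond (rwP W mW vb s oc ol Δ ε me Λ v r (ones W (m - r)))
        (fc (r + 1) fun r' => fc (ones W (m - r) >>> W) fun on' =>
          rwsP W mW vb s oc ol Δ ε me Λ l r' on') false) = true := h
    have hpos := ones_pos (W := W) (n := m - r) (by omega)
    have hne : Nat.beq (ones W (m - r)) 0 = false := by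
      rw [Bool.eq_false_iff, ne_eq, beq_iff]
      omega
    rw [hne, cond_false, cond_true_iff, fc_eq, fc_eq, ones_shift hW] at h'
    cases i with
    | zero => simpa using h'.1
    | succ i =>
      have := ih (r + 1) (by rw [show m - (r + 1) = m - r - 1 by omega]; exact h'.2) i
        (by simpa using hi) (by omega)
      rw [show r + (i + 1) = r + 1 + i by ring]
      simpa using this

theorem prd_eq (W mW : ℕ) (k : ℕ → ℕ → Bool) (l : List ℕ) : ∀ d P S : ℕ, d < l.length →
    prd W mW k l d P S =
      k (P + ∑ a ∈ range (d + 1), ((l.getD a 0 >>> (W * (d - a))) &&& mW) *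
        (l.getD a 0 >>> (W * (d - a))))
        (S + ∑ a ∈ range (d + 1), l.getD a 0 >>> (W * (d - a))) := by
  induction l with
  | nil =>
    intro d P S hd
    simp at hd
  | cons v l ih =>
    intro d P S hd
    have h : prd W mW k (v :: l) d P S =
      fc (v >>> (W * d)) fun y => fc (P + (y &&& mW) * y) fun P' => fc (S + y) fun S' =>
        cond (Nat.beq d 0) (k P' S') (fc (Nat.pred d) fun d' => prd W mW k l d' P' S') := rfl
    rw [h, fc_eq, fc_eq, fc_eq]
    cases d with
    | zero =>
      rw [show Nat.beq 0 0 = true from rfl, cond_true]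
      simp
    | succ d =>
      have hne : Nat.beq (d + 1) 0 = false := rfl
      rw [hne, cond_false, fc_eq, Nat.pred_succ, ih d _ _ (by simpa using hd)]
      congr 1
      · rw [sum_range_succ' _ (d + 1)]
        simp only [List.getD_cons_succ, List.getD_cons_zero, Nat.add_sub_add_right, Nat.sub_zero]
        ring
      · rw [sum_range_succ' _ (d + 1)]
        simp only [List.getD_cons_succ, List.getD_cons_zero, Nat.add_sub_add_right, Nat.sub_zero]
        ring

theorem lin_eq (l : List ℕ) : ∀ co : ℕ,
    lin l co = ∑ x ∈ range l.length, dg 16 (16 * x) co * l.getD x 0 := by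
  induction l with
  | nil =>
    intro co
    simp [lin]
  | cons v l ih =>
    intro co
    have h : lin (v :: l) co = (co &&& 65535) * v + fc (co >>> 16) (lin l) := rfl
    rw [h, fc_eq, ih, List.length_cons, sum_range_succ', Nat.add_comm]
    congr 1
    · refine sum_congr rfl fun x _ => ?_
      rw [pr_DGG.2.1, List.getD_cons_succ]
      congr 2
      ring
    · have : co &&& 65535 = dg 16 (16 * 0) co := bts_eq 16 co 0
      rw [this]
      simp

theorem sf_eq (co n : ℕ) : sf co n = ∑ x ∈ range n, dg 16 (16 * x) co := by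
  show sumL (fun x => bts (2 ^ 16 - 1) co (16 * x)) n 0 = _
  rw [sumL_eq, Nat.zero_add]
  exact sum_congr rfl fun x _ => bts_eq 16 co (16 * x)

theorem rlsP_imp (o m w : ℕ) (l l' : List ℕ) : ∀ co : ℕ, rlsP o m w l l' co = true →
    ∀ i < l'.length, ∃ c bp bn : ℕ, bp < 2 ^ w ∧ bn < 2 ^ w ∧
      rlP o m l (l'.getD i 0) c bp bn = true := by
  induction l' with
  | nil =>
    intro co _ i hi
    simp at hi
  | cons v l' ih =>
    intro co h i hi
    have h' : cond (rlP o m l v (co % (1 <<< w)) ((co >>> w) % (1 <<< w))
        ((co >>> (2 * w)) % (1 <<< w))) (fc (co >>> (3 * w)) (rlsP o m w l l')) false = true := h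
    rw [cond_true_iff, fc_eq] at h'
    cases i with
    | zero =>
      have e : 1 <<< w = 2 ^ w := by rw [Nat.shiftLeft_eq, one_mul]
      rw [e] at h'
      exact ⟨_, _, _, Nat.mod_lt _ (by positivity), Nat.mod_lt _ (by positivity), by
        simpa using h'.1⟩
    | succ i =>
      have := ih _ h'.2 i (by simpa using hi)
      simpa using this

theorem drp_eq (n : ℕ) : ∀ l : List ℕ, drp n l = l.drop n := by
  induction n with
  | zero =>
    intro l
    rfl
  | succ n ih =>
    intro l
    have h : drp (n + 1) l = drp n (List.rec (motive := fun _ => List ℕ) [] (fun _ t _ => t) l) := rfl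
    rw [h, ih]
    cases l with
    | nil => simp
    | cons v l => rfl

end Pool.Agent.Work.MP_f94384_co.Big
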