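import Pool.Agent.Work.MP_f94384_co.Big.Defs
import Pool.Agent.Work.MP_f94384_co.Flag.P_PDD
import Pool.Agent.Work.MP_f94384_co.Flag.P_PADD

/-!
# Semidefiniteness from a triangular factor, a diagonally dominant rest, and dependent rows
-/

set_option autoImplicit false

open Finset

namespace Pool.Agent.Work.MP_f94384_co.Big

open Pool.Agent.Work.MP_f94384_co.Flag

theorem PSDn_div {n : ℕ} {Y : ℕ → ℕ → ℤ} {s : ℤ} (hs : 1 ≤ s) (h : PSDn n fun a b => s * Y a b) :
    PSDn n Y := by
  obtain ⟨t, b, hb⟩ := h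
  have hs' : (0 : ℝ) < s := by exact_mod_cast (by omega : 0 < s)
  refine ⟨t, fun a p => b a p / Real.sqrt s, fun p hp q hq => ?_⟩
  have h1 := hb p hp q hq
  push_cast at h1
  have h2 : (Y p q : ℝ) = (s * Y p q) / s := by field_simp
  rw [h2, h1, sum_div]
  refine sum_congr rfl fun a _ => ?_
  rw [div_mul_div_comm, Real.mul_self_sqrt hs'.le]

theorem PSDn_gram (n m : ℕ) (L : ℕ → ℕ → ℤ) :
    PSDn n fun i j => ∑ a ∈ range m, L i a * L j a := by
  refine ⟨m, fun a p => (L p a : ℝ), fun p _ q _ => ?_⟩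
  push_cast
  rfl

theorem PSDn_congr' {n : ℕ} {Y Y' : ℕ → ℕ → ℤ} (h : ∀ a < n, ∀ b < n, Y a b = Y' a b)
    (hY : PSDn n Y') : PSDn n Y := by
  obtain ⟨s, b, hb⟩ := hY
  refine ⟨s, b, fun p hp q hq => ?_⟩
  rw [h p hp q hq]
  exact hb p hp q hq

/-- triangular factor and diagonally dominant rest -/
theorem psd_chol {m : ℕ} {s ε Δ : ℤ} (hs : 1 ≤ s) (hΔ : (m : ℤ) * ε ≤ Δ)
    {M L : ℕ → ℕ → ℤ} (hM : ∀ i < m, ∀ j < m, M i j = M j i)
    (hR : ∀ r < m, ∀ i < m, r ≤ i →
      (r = i → Δ - ε ≤ s * M r i - ∑ a ∈ range (r + 1), L r a * L i a) ∧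
      (r < i → |s * M r i - ∑ a ∈ range (r + 1), L r a * L i a| ≤ ε)) : PSDn m M := by
  apply PSDn_div hs
  set L' : ℕ → ℕ → ℤ := fun i a => if a ≤ i then L i a else 0 with hL'
  have hsum : ∀ r < m, ∀ i, r ≤ i →
      ∑ a ∈ range m, L' r a * L' i a = ∑ a ∈ range (r + 1), L r a * L i a := by
    intro r hr i hri
    rw [← sum_subset (s₁ := range (r + 1)) (s₂ := range m)
      (fun a ha => by rw [mem_range] at ha ⊢; omega)]
    · refine sum_congr rfl fun a ha => ?_
      rw [mem_range] at ha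
      simp only [hL']
      rw [if_pos (by omega), if_pos (by omega)]
    · intro a _ ha
      rw [mem_range] at ha
      simp only [hL']
      rw [if_neg (by omega), zero_mul]
  set R : ℕ → ℕ → ℤ := fun i j => s * M i j - ∑ a ∈ range m, L' i a * L' j a with hRdef
  have hRs : ∀ i < m, ∀ j < m, R i j = R j i := by
    intro i hi j hj
    simp only [hRdef]
    rw [hM i hi j hj]
    congr 1
    exact sum_congr rfl fun a _ => mul_comm _ _
  have hoff : ∀ i < m, ∀ j < m, i ≠ j → |R i j| ≤ ε := by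
    have key : ∀ i < m, ∀ j < m, i < j → |R i j| ≤ ε := by
      intro i hi j hj hij
      simp only [hRdef]
      rw [hsum i hi j hij.le]
      exact (hR i hi j hj hij.le).2 hij
    intro i hi j hj hij
    rcases Nat.lt_or_gt_of_ne hij with h | h
    · exact key i hi j hj h
    · rw [hRs i hi j hj]
      exact key j hj i hi h
  have hdiag : ∀ i < m, Δ - ε ≤ R i i := by
    intro i hi
    simp only [hRdef]
    rw [hsum i hi i le_rfl]
    exact (hR i hi i hi le_rfl).1 rfl
  have hdd : PSDn m R := by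
    refine pr_PDD pr_PADD m R hRs fun i hi => ?_
    have h1 : ∑ j ∈ (range m).erase i, |R i j| ≤ ∑ j ∈ (range m).erase i, ε := by
      refine sum_le_sum fun j hj => ?_
      rw [mem_erase, mem_range] at hj
      exact hoff i hi j hj.2 (fun h => hj.1 h.symm)
    rw [sum_const, card_erase_of_mem (mem_range.2 hi), card_range, nsmul_eq_mul] at h1
    have h2 : ((m - 1 : ℕ) : ℤ) = (m : ℤ) - 1 := by
      rw [Nat.cast_sub (by omega)]
      norm_num
    rw [h2] at h1
    have h3 := hdiag i hi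
    have h4 : ((m : ℤ) - 1) * ε = m * ε - ε := by ring
    rw [h4] at h1
    linarith
  have hsumm := pr_PADD m _ _ (PSDn_gram m m L') hdd
  refine PSDn_congr' (fun a _ b _ => ?_) hsumm
  simp only [hRdef]
  ring

/-- dependent rows -/
theorem psd_ext {n m : ℕ} {M : ℕ → ℕ → ℤ} (hsym : ∀ i < n, ∀ j < n, M i j = M j i) (hmn : m ≤ n)
    (h : PSDn m M)
    (hd : ∀ v < n, m ≤ v → ∃ (c : ℤ) (β : ℕ → ℤ), 1 ≤ c ∧
      ∀ j < n, c * M v j = ∑ x ∈ range m, β x * M x j) : PSDn n M := by
  classical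
  obtain ⟨s, b, hb⟩ := h
  have hT : ∃ T : ℕ → ℕ → ℝ, ∀ v < n, ∀ j < n, (M v j : ℝ) = ∑ x ∈ range m, T x v * (M x j : ℝ) := by
    have h1 : ∀ v, ∃ t : ℕ → ℝ, v < n → ∀ j < n, (M v j : ℝ) = ∑ x ∈ range m, t x * (M x j : ℝ) := by
      intro v
      by_cases hv : v < n
      · rcases Nat.lt_or_ge v m with h2 | h2
        · refine ⟨fun x => if x = v then 1 else 0, fun _ j _ => ?_⟩
          rw [sum_eq_single v]
          · simp
          · intro x _ hx
            simp only [if_neg hx, zero_mul]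
          · intro h3
            exact absurd (mem_range.2 h2) h3
        · obtain ⟨c, β, hc, hβ⟩ := hd v hv h2
          have hc' : (c : ℝ) ≠ 0 := by
            have : c ≠ 0 := by omega
            exact_mod_cast this
          refine ⟨fun x => β x / c, fun _ j hj => ?_⟩
          have h3 := hβ j hj
          have h4 : (c : ℝ) * M v j = ∑ x ∈ range m, (β x : ℝ) * M x j := by exact_mod_cast h3
          have h5 : (M v j : ℝ) = (c * M v j) / c := by field_simp
          rw [h5, h4, sum_div]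
          exact sum_congr rfl fun x _ => by ring
      · exact ⟨fun _ => 0, fun h => absurd h hv⟩
    choose t ht using h1
    exact ⟨fun x v => t v x, fun v hv j hj => ht v hv j hj⟩
  obtain ⟨T, hT⟩ := hT
  refine ⟨s, fun a v => ∑ x ∈ range m, b a x * T x v, fun v hv w hw => ?_⟩
  have e1 : (M v w : ℝ) = ∑ x ∈ range m, ∑ y ∈ range m, T x v * T y w * (M x y : ℝ) := by
    rw [hT v hv w hw]
    refine sum_congr rfl fun x hx => ?_
    rw [mem_range] at hx
    rw [hsym x (by omega) w hw, hT w hw x (by omega), mul_sum]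
    refine sum_congr rfl fun y hy => ?_
    rw [mem_range] at hy
    rw [hsym y (by omega) x (by omega)]
    ring
  have e2 : ∀ x ∈ range m, ∀ y ∈ range m, T x v * T y w * (M x y : ℝ) =
      ∑ a ∈ range s, (b a x * T x v) * (b a y * T y w) := by
    intro x hx y hy
    rw [hb x (mem_range.1 hx) y (mem_range.1 hy), mul_sum]
    exact sum_congr rfl fun a _ => by ring
  rw [e1, sum_congr rfl fun x hx => sum_congr rfl fun y hy => e2 x hx y hy]
  have e3 : ∀ x ∈ range m, ∑ y ∈ range m, ∑ a ∈ range s, (b a x * T x v) * (b a y * T y w) =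
      ∑ a ∈ range s, ∑ y ∈ range m, (b a x * T x v) * (b a y * T y w) := fun x _ => sum_comm
  rw [sum_congr rfl e3, sum_comm]
  refine sum_congr rfl fun a _ => ?_
  rw [sum_mul_sum]

end Pool.Agent.Work.MP_f94384_co.Big
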