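import Pool.Agent.Work.MP_f94384_co.Big.Stmts3

/-!
# Item HLF: halves of the sums
-/

set_option autoImplicit false

open Finset

namespace Pool.Agent.Work.MP_f94384_co.Big

open Pool.Agent.Work.MP_f94384_co.Flag

namespace HLF

theorem half (f g : ℕ → ℕ → ℤ) (N : ℕ) (h0 : ∀ w < N, f w w = 0)
    (h : ∀ w < N, ∀ x < w, f x w = g w x) :
    ∑ w ∈ range N, ∑ x ∈ range N, f w x =
      (∑ w ∈ range N, ∑ x ∈ range w, f w x) + ∑ w ∈ range N, ∑ x ∈ range w, g w x := by
  induction N with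
  | zero => simp
  | succ N ih =>
    have ih' := ih (fun w hw => h0 w (by omega)) (fun w hw => h w (by omega))
    have h1 : ∑ w ∈ range N, f w N = ∑ x ∈ range N, g N x := by
      refine Finset.sum_congr rfl fun w hw => ?_
      exact h N (by omega) w (Finset.mem_range.mp hw)
    have h2 : f N N = 0 := h0 N (by omega)
    rw [Finset.sum_range_succ, Finset.sum_range_succ (fun w => ∑ x ∈ range w, f w x),
      Finset.sum_range_succ (fun w => ∑ x ∈ range w, g w x)]
    have h3 : ∑ w ∈ range N, ∑ x ∈ range (N + 1), f w x =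
        (∑ w ∈ range N, ∑ x ∈ range N, f w x) + ∑ w ∈ range N, f w N := by
      rw [← Finset.sum_add_distrib]
      refine Finset.sum_congr rfl fun w _ => ?_
      rw [Finset.sum_range_succ]
    rw [h3, Finset.sum_range_succ (fun x => f N x), h2, h1, ih']
    ring

theorem pU_swap (C : BC) (N : ℕ) (p : Pat)
    (hU : ∀ a < 65536, ∀ a' < 65536, C.U a a' = C.U a' a) (hf : ∀ h, C.fU h < 65536)
    (w x i j : ℕ) : C.pU N p x w i j = C.pU N p w x j i := by
  unfold BC.pU
  by_cases hc : x ≠ w ∧ i ≠ w ∧ j ≠ x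
  · have hc' : w ≠ x ∧ j ≠ x ∧ i ≠ w := ⟨hc.1.symm, hc.2.2, hc.2.1⟩
    rw [if_pos hc, if_pos hc']
    exact hU _ (hf _) _ (hf _)
  · have hc' : ¬ (w ≠ x ∧ j ≠ x ∧ i ≠ w) := fun h => hc ⟨h.1.symm, h.2.2, h.2.1⟩
    rw [if_neg hc, if_neg hc']

theorem pV_swap (C : BC) (N : ℕ) (p : Pat)
    (hV : ∀ a < 65536, ∀ a' < 65536, C.V a a' = C.V a' a) (hf : ∀ h, C.fV h < 65536)
    (w z x y i j : ℕ) : C.pV N p x y w z i j = C.pV N p w z x y j i := by
  unfold BC.pV
  by_cases hc : x ≠ y ∧ x ≠ w ∧ x ≠ z ∧ y ≠ w ∧ y ≠ z ∧ w ≠ z ∧ i = x ∧ j = w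
  · obtain ⟨a1, a2, a3, a4, a5, a6, a7, a8⟩ := hc
    rw [if_pos ⟨a1, a2, a3, a4, a5, a6, a7, a8⟩,
      if_pos ⟨a6, a2.symm, a4.symm, a3.symm, a5.symm, a1, a8, a7⟩]
    exact hV _ (hf _) _ (hf _)
  · rw [if_neg hc, if_neg]
    rintro ⟨a6, a2, a4, a3, a5, a1, a8, a7⟩
    exact hc ⟨a1, a2.symm, a3.symm, a4.symm, a5.symm, a6, a7, a8⟩

theorem pE_swap (C : BC) (N : ℕ) (p : Pat)
    (hE : ∀ a < 65536, ∀ a' < 65536, C.E a a' = C.E a' a) (hf : ∀ h, C.fE h < 65536)
    (w z x y i j : ℕ) : C.pE N p x y w z i j = C.pE N p w z x y j i := by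
  unfold BC.pE
  by_cases hc : x ≠ y ∧ x ≠ w ∧ x ≠ z ∧ y ≠ w ∧ y ≠ z ∧ w ≠ z ∧ i ≠ w ∧ i ≠ z ∧ j ≠ x ∧ j ≠ y
  · obtain ⟨a1, a2, a3, a4, a5, a6, b1, b2, b3, b4⟩ := hc
    rw [if_pos ⟨a1, a2, a3, a4, a5, a6, b1, b2, b3, b4⟩,
      if_pos ⟨a6, a2.symm, a4.symm, a3.symm, a5.symm, a1, b3, b4, b1, b2⟩]
    exact hE _ (hf _) _ (hf _)
  · rw [if_neg hc, if_neg]
    rintro ⟨a6, a2, a4, a3, a5, a1, b3, b4, b1, b2⟩
    exact hc ⟨a1, a2.symm, a3.symm, a4.symm, a5.symm, a6, b1, b2, b3, b4⟩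

end HLF

open HLF in
theorem pr_HLF : HLF := by
  intro C N p hp hU hV hE hfU hfE hfV i _ j _
  refine ⟨?_, ?_, ?_⟩
  · unfold BC.TU
    refine half (fun w x => C.pU N p w x i j) (fun w x => C.pU N p w x j i) N ?_ ?_
    · intro w _
      show C.pU N p w w i j = 0
      unfold BC.pU
      rw [if_neg]
      exact fun h => h.1 rfl
    · intro w _ x _
      exact pU_swap C N p hU hfU w x i j
  · have h1 : C.TV N p i j = ∑ w ∈ range N, ∑ x ∈ range N, ∑ z ∈ range N, ∑ y ∈ range N,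
        C.pV N p w z x y i j := by
      unfold BC.TV
      refine Finset.sum_congr rfl fun w _ => ?_
      exact Finset.sum_comm
    rw [h1]
    refine half (fun w x => ∑ z ∈ range N, ∑ y ∈ range N, C.pV N p w z x y i j)
      (fun w x => ∑ z ∈ range N, ∑ y ∈ range N, C.pV N p w z x y j i) N ?_ ?_
    · intro w _
      refine Finset.sum_eq_zero fun z _ => Finset.sum_eq_zero fun y _ => ?_
      show C.pV N p w z w y i j = 0
      unfold BC.pV
      rw [if_neg]
      exact fun h => h.2.1 rfl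
    · intro w _ x _
      show ∑ z ∈ range N, ∑ y ∈ range N, C.pV N p x z w y i j =
        ∑ z ∈ range N, ∑ y ∈ range N, C.pV N p w z x y j i
      rw [Finset.sum_comm]
      refine Finset.sum_congr rfl fun z _ => Finset.sum_congr rfl fun y _ => ?_
      exact pV_swap C N p hV hfV w z x y i j
  · have h1 : C.TE N p i j = ∑ w ∈ range N, ∑ x ∈ range N, if p w x = true then
        ∑ z ∈ range N, ∑ y ∈ range N, C.pE N p w z x y i j else 0 := by
      unfold BC.TE
      refine Finset.sum_congr rfl fun w _ => ?_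
      rw [Finset.sum_comm]
      refine Finset.sum_congr rfl fun x _ => ?_
      by_cases hwx : p w x = true
      · simp only [hwx, if_true]
      · simp only [hwx]
        simp
    rw [h1]
    refine half (fun w x => if p w x = true then
        ∑ z ∈ range N, ∑ y ∈ range N, C.pE N p w z x y i j else 0)
      (fun w x => if p w x = true then
        ∑ z ∈ range N, ∑ y ∈ range N, C.pE N p w z x y j i else 0) N ?_ ?_
    · intro w _
      show (if p w w = true then
        ∑ z ∈ range N, ∑ y ∈ range N, C.pE N p w z w y i j else 0) = 0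
      split_ifs
      · refine Finset.sum_eq_zero fun z _ => Finset.sum_eq_zero fun y _ => ?_
        unfold BC.pE
        rw [if_neg]
        exact fun h => h.2.1 rfl
      · rfl
    · intro w hw x hx
      show (if p x w = true then
        ∑ z ∈ range N, ∑ y ∈ range N, C.pE N p x z w y i j else 0) =
        (if p w x = true then ∑ z ∈ range N, ∑ y ∈ range N, C.pE N p w z x y j i else 0)
      rw [hp x (by omega) w hw]
      by_cases hwx : p w x = true
      · rw [if_pos hwx, if_pos hwx, Finset.sum_comm]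
        refine Finset.sum_congr rfl fun z _ => Finset.sum_congr rfl fun y _ => ?_
        exact pE_swap C N p hE hfE w z x y i j
      · rw [if_neg hwx, if_neg hwx]

end Pool.Agent.Work.MP_f94384_co.Big
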