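import Pool.Agent.Work.MP_f94384_co.Big.Stmts3
import Pool.Agent.Work.MP_f94384_co.Big.P_DGG

/-!
# Kernel program for the certificates of order 7 and 8: item SVS
-/

set_option autoImplicit false

open Finset

namespace Pool.Agent.Work.MP_f94384_co.Big

open Pool.Agent.Work.MP_f94384_co.Flag

namespace SVS

theorem nst_zero (Z : ℕ) : nst Z (fun _ _ => 0) = 0 := by
  unfold nst
  simp only [zero_mul, Finset.sum_const_zero]

theorem nst_sum (Z : ℕ) (s : Finset ℕ) (f : ℕ → ℕ → ℕ → ℕ) :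
    nst Z (fun i j => ∑ a ∈ s, f a i j) = ∑ a ∈ s, nst Z (f a) := by
  unfold nst
  rw [Finset.sum_comm]
  refine Finset.sum_congr rfl fun j _ => ?_
  rw [← Finset.sum_mul, Finset.sum_comm]
  congr 1
  refine Finset.sum_congr rfl fun i _ => ?_
  rw [Finset.sum_mul]

/-- a number with one digit -/
theorem nst_one (Z w x c : ℕ) (hw : w < 8) (hx : x < 8) :
    nst Z (fun i j => if i = w ∧ j = x then c else 0) = c * 2 ^ (Z * w + 8 * Z * x) := by
  unfold nst
  have h1 : ∀ j ∈ range 8, j ≠ x → (∑ i ∈ range 8, (if i = w ∧ j = x then c else 0) *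
      2 ^ (Z * i)) * 2 ^ (8 * Z * j) = 0 := by
    intro j _ hj
    rw [Finset.sum_eq_zero, zero_mul]
    intro i _
    rw [if_neg (fun h => hj h.2), zero_mul]
  have h2 : ∀ i ∈ range 8, i ≠ w → (if i = w ∧ x = x then c else 0) * 2 ^ (Z * i) = 0 := by
    intro i _ hi
    rw [if_neg (fun h => hi h.1), zero_mul]
  rw [Finset.sum_eq_single_of_mem x (Finset.mem_range.2 hx) h1,
    Finset.sum_eq_single_of_mem w (Finset.mem_range.2 hw) h2]
  show (if w = w ∧ x = x then c else 0) * 2 ^ (Z * w) * 2 ^ (8 * Z * x) = _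
  rw [if_pos ⟨rfl, rfl⟩, mul_assoc, ← pow_add]

theorem ent_eq (G t : ℕ) : ent G t = dg 192 t G := by
  rw [← bts_eq]
  unfold ent
  congr 1

/-- an entry inside a block -/
theorem ent_blk (G x t : ℕ) (ht : t + 192 ≤ 98304) :
    ent (bts (2 ^ 98304 - 1) G (98304 * x)) t = dg 192 (98304 * x + t) G := by
  rw [ent_eq, bts_eq 98304 G]
  exact pr_DGG.1 192 t 98304 (98304 * x) G ht

theorem lo8 (e : ℕ) : bts 255 e 176 = dg 16 176 e % 256 := by
  rw [show (255 : ℕ) = 2 ^ 8 - 1 from rfl, bts_eq, show (256 : ℕ) = 2 ^ 8 from rfl]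
  exact (pr_DGG.2.2.1 8 16 176 e (by norm_num)).symm

theorem hi8 (e : ℕ) : bts 255 e 184 = dg 16 176 e / 256 := by
  rw [show (255 : ℕ) = 2 ^ 8 - 1 from rfl, bts_eq]
  have h1 : dg 8 8 (dg 16 176 e) = dg 8 184 e := pr_DGG.1 8 8 16 176 e (by norm_num)
  rw [← h1]
  have h2 : dg 16 176 e < 256 * 256 := dg_lt 16 176 e
  have h3 : dg 16 176 e / 256 < 256 := (Nat.div_lt_iff_lt_mul (by norm_num)).2 h2
  exact Nat.mod_eq_of_lt h3

/-- the value of `V` from two entries -/
theorem val (W NV nB el er : ℕ) (BV WV FV : Tr)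
    (h : ∀ F < nB, get WV (get FV F) = F ∧ get FV F % 256 < dg 8 (8 * (get FV F / 256)) NV)
    (l1 : dg 16 128 el < nB) (l2 : get FV (dg 16 128 el) = dg 16 176 el)
    (r1 : dg 16 128 er < nB) (r2 : get FV (dg 16 128 er) = dg 16 176 er) :
    cond (Nat.beq (bts 255 el 184) (bts 255 er 184))
      (bts (2 ^ W - 1) (get BV (bts 65535 er 128)) (W * bts 255 el 176)) 0 =
    dig W NV (fun b => get BV (get WV b)) (dg 16 176 el) (dg 16 176 er) := by
  rw [bts_eq W, lo8, hi8, hi8]
  have h16 : bts 65535 er 128 = dg 16 128 er := by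
    rw [show (65535 : ℕ) = 2 ^ 16 - 1 from rfl, bts_eq]
  rw [h16]
  obtain ⟨a1, a2⟩ := h _ l1
  obtain ⟨b1, b2⟩ := h _ r1
  rw [l2] at a2
  rw [r2] at b1 b2
  unfold dig
  by_cases hc : dg 16 176 el / 256 = dg 16 176 er / 256
  · rw [(beq_iff _ _).2 hc, if_pos ⟨hc, hc ▸ a2, b2⟩]
    show dg W _ (get BV _) = dg W _ (get BV (get WV _))
    rw [b1]
  · have h0 : Nat.beq (dg 16 176 el / 256) (dg 16 176 er / 256) = false := by
      cases h' : Nat.beq (dg 16 176 el / 256) (dg 16 176 er / 256) with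
      | false => rfl
      | true => exact absurd ((beq_iff _ _).1 h') hc
    rw [h0, if_neg (fun h => hc h.1)]
    rfl

theorem sV_eq (N W m Z Z8 M2 : ℕ) (T : Tr) (G : ℕ) :
    sV N W m Z Z8 M2 T G = ∑ w ∈ range N, ∑ x ∈ range w,
      (∑ z ∈ range N, cond (Nat.beq z w) 0 (cond (Nat.beq z x) 0
        (∑ y ∈ range N, cond (Nat.beq y w) 0 (cond (Nat.beq y x) 0 (cond (Nat.beq y z) 0
          (cond (Nat.beq
              (bts 255 (ent (bts M2 G (98304 * x)) (12288 * y + (1536 * w + 192 * z))) 184)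
              (bts 255 (ent (bts M2 G (98304 * w)) (12288 * z + (1536 * x + 192 * y))) 184))
            (bts m (get T (bts 65535
                (ent (bts M2 G (98304 * w)) (12288 * z + (1536 * x + 192 * y))) 128))
              (W * bts 255 (ent (bts M2 G (98304 * x)) (12288 * y + (1536 * w + 192 * z))) 176))
            0)))))) * 2 ^ (Z * w + Z8 * x) := by
  unfold sV
  simp only [fc_eq, sumL_eq, Nat.zero_add]
  refine Finset.sum_congr rfl fun w _ => Finset.sum_congr rfl fun x _ => ?_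
  exact Nat.shiftLeft_eq _ _

theorem beq_false {a b : ℕ} (h : a ≠ b) : Nat.beq a b = false := by
  cases h' : Nat.beq a b with
  | false => rfl
  | true => exact absurd ((beq_iff a b).1 h') h

end SVS

theorem pr_SVS : SVS := by
  intro N W Z NV nB G BV WV FV f hN hWZ hF hE
  rw [SVS.sV_eq]
  have key : (fun i j => ∑ w ∈ range N, ∑ x ∈ range w, ∑ z ∈ range N, ∑ y ∈ range N,
      if Dis w z x y ∧ i = w ∧ j = x then
        dig W NV (fun b => get BV (get WV b)) (f w z x y) (f x y w z) else 0) =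
      fun i j => ∑ w ∈ range N, ∑ x ∈ range w, if i = w ∧ j = x then
        (∑ z ∈ range N, ∑ y ∈ range N, if Dis w z x y then
          dig W NV (fun b => get BV (get WV b)) (f w z x y) (f x y w z) else 0) else 0 := by
    funext i j
    refine Finset.sum_congr rfl fun w _ => Finset.sum_congr rfl fun x _ => ?_
    by_cases h : i = w ∧ j = x
    · rw [if_pos h]
      refine Finset.sum_congr rfl fun z _ => Finset.sum_congr rfl fun y _ => ?_
      by_cases h' : Dis w z x y
      · rw [if_pos h', if_pos ⟨h', h⟩]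
      · rw [if_neg h', if_neg (fun h'' => h' h''.1)]
    · rw [if_neg h]
      refine Finset.sum_eq_zero fun z _ => Finset.sum_eq_zero fun y _ => ?_
      rw [if_neg (fun h'' => h h''.2)]
  rw [key]
  simp only [SVS.nst_sum]
  refine Finset.sum_congr rfl fun w hw => Finset.sum_congr rfl fun x hx => ?_
  rw [Finset.mem_range] at hw hx
  have hxN : x < N := hx.trans hw
  rw [SVS.nst_one Z w x _ (by omega) (by omega)]
  congr 1
  refine Finset.sum_congr rfl fun z hz => ?_
  rw [Finset.mem_range] at hz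
  by_cases h1 : z = w
  · subst h1
    rw [(beq_iff z z).2 rfl]
    refine (Finset.sum_eq_zero fun y _ => ?_).symm
    rw [if_neg (fun h : Dis z z x y => h.1 rfl)]
  rw [SVS.beq_false h1]
  by_cases h3 : z = x
  · subst h3
    rw [(beq_iff z z).2 rfl]
    refine (Finset.sum_eq_zero fun y _ => ?_).symm
    rw [if_neg (fun h : Dis w z z y => h.2.2.2.1 rfl)]
  rw [SVS.beq_false h3]
  show ∑ y ∈ range N, _ = _
  refine Finset.sum_congr rfl fun y hy => ?_
  rw [Finset.mem_range] at hy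
  by_cases h4 : y = w
  · subst h4
    rw [(beq_iff y y).2 rfl, if_neg (fun h : Dis y z x y => h.2.2.1 rfl)]
    rfl
  rw [SVS.beq_false h4]
  by_cases h5 : y = x
  · subst h5
    rw [(beq_iff y y).2 rfl, if_neg (fun h : Dis w z y y => h.2.2.2.2.2 rfl)]
    rfl
  rw [SVS.beq_false h5]
  by_cases h6 : y = z
  · subst h6
    rw [(beq_iff y y).2 rfl, if_neg (fun h : Dis w y x y => h.2.2.2.2.1 rfl)]
    rfl
  rw [SVS.beq_false h6]
  have hD : Dis w z x y := ⟨Ne.symm h1, (ne_of_lt hx).symm, Ne.symm h4, h3, Ne.symm h6,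
    Ne.symm h5⟩
  have hD' : Dis x y w z := by
    obtain ⟨d1, d2, d3, d4, d5, d6⟩ := hD
    exact ⟨d6, d2.symm, d4.symm, d3.symm, d5.symm, d1⟩
  rw [if_pos hD, SVS.ent_blk G x _ (by omega), SVS.ent_blk G w _ (by omega)]
  have e1 : 98304 * x + (12288 * y + (1536 * w + 192 * z)) =
      98304 * x + 12288 * y + 1536 * w + 192 * z := by ring
  have e2 : 98304 * w + (12288 * z + (1536 * x + 192 * y)) =
      98304 * w + 12288 * z + 1536 * x + 192 * y := by ring
  rw [e1, e2]
  obtain ⟨p1, p2, p3⟩ := hE w hw z hz x hxN y hy hD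
  obtain ⟨q1, q2, q3⟩ := hE x hxN y hy w hw z hz hD'
  show cond _ _ _ = _
  rw [SVS.val W NV nB _ _ BV WV FV hF p1 (p3.trans p2.symm) q1 (q3.trans q2.symm), p2, q2]
  rfl

end Pool.Agent.Work.MP_f94384_co.Big
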