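import Pool.Agent.Work.MP_f94384_co.Big.CG3
import Pool.Agent.Work.MP_f94384_co.Big.P_SVS
import Pool.Agent.Work.MP_f94384_co.Big.P_HLF

/-!
# Check of a representative of order `N`
-/

set_option autoImplicit false

open Finset

namespace Pool.Agent.Work.MP_f94384_co.Big

open Pool.Agent.Work.MP_f94384_co.Flag

namespace CG

theorem Neg_congr {N : ℕ} {F T : ℕ → ℕ → ℤ}
    (h : ∀ i < N, ∀ j < N, F i j + F j i = T i j + T j i) (hF : Neg N F) : Neg N T := by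
  intro i hi
  have h1 := hF i hi
  have h2 : 2 * T i i = 2 * F i i := by have := h i hi i hi; linarith
  rw [h2]
  refine le_trans (le_of_eq ?_) h1
  refine congrArg (fun t => 2 * F i i + t) (sum_congr rfl fun j hj => ?_)
  rw [mem_range] at hj
  rw [h i hi j hj]

theorem sh1 (c : ℕ) : Nat.shiftLeft 1 c = 2 ^ c := by
  show 1 <<< c = _
  rw [Nat.shiftLeft_eq, one_mul]

theorem symU {D : Dt} {zb t0 : ℕ} {b : ℕ → ℤ} (h : AOK D zb t0 b) (a : ℕ) (ha : a < 65536) (a' : ℕ)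
    (ha' : a' < 65536) : D.bc.U a a' = D.bc.U a' a := by
  have h1 := (pr_MAT D.W D.c D.o D.NU 0 _ (fun _ => 0) (by have := h.w.oc; omega) h.tu
    (fun _ _ => rfl) (fun _ _ => rfl)).2.1 a ha a' ha'
  show tv D.c D.o (dig _ _ _ _ _) = tv D.c D.o (dig _ _ _ _ _)
  rw [h1]

theorem symE {D : Dt} {zb t0 : ℕ} {b : ℕ → ℤ} (h : AOK D zb t0 b) (a : ℕ) (ha : a < 65536) (a' : ℕ)
    (ha' : a' < 65536) : D.bc.E a a' = D.bc.E a' a := by
  have h1 := (pr_MAT D.W D.c D.o D.NE t0 _ b (by have := h.w.oc; omega) h.te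
    h.b0 h.b1).2.1 a ha a' ha'
  show tv D.c D.o (dig _ _ _ _ _) = tv D.c D.o (dig _ _ _ _ _)
  rw [h1]

theorem symV {D : Dt} {zb t0 : ℕ} {b : ℕ → ℤ} (h : AOK D zb t0 b) (a : ℕ) (ha : a < 65536) (a' : ℕ)
    (ha' : a' < 65536) : D.bc.V a a' = D.bc.V a' a := by
  show (if D.v = 0 then 0 else _) = (if D.v = 0 then 0 else _)
  by_cases hv : D.v = 0
  · rw [if_pos hv, if_pos hv]
  · rw [if_neg hv, if_neg hv]
    have h1 := (pr_MAT D.W D.c D.o D.NV 0 (fun b => get D.BV (get D.WV b)) (fun _ => 0)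
      (by have := h.w.oc; omega) (h.tv hv) (fun _ _ => rfl) (fun _ _ => rfl)).2.1 a ha a' ha'
    rw [h1]

theorem bvOK {D : Dt} {F : ℕ} (h : cBV D F = true) : get D.WV (get D.FV F) = F ∧
    get D.FV F % 256 < dg 8 (8 * (get D.FV F / 256)) D.NV := by
  unfold cBV at h
  rw [fc_eq, cond_true_iff, beq_iff, ble_iff] at h
  refine ⟨h.1, ?_⟩
  have h1 : Nat.land (get D.FV F) 255 = get D.FV F % 256 := by
    show get D.FV F &&& (2 ^ 8 - 1) = _
    rw [Nat.and_two_pow_sub_one_eq_mod]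
  have h2 : bts 255 D.NV (Nat.mul 8 (Nat.shiftRight (get D.FV F) 8)) =
      dg 8 (8 * (get D.FV F / 256)) D.NV := by
    have h3 : Nat.shiftRight (get D.FV F) 8 = get D.FV F / 256 := by
      show get D.FV F >>> 8 = _
      rw [Nat.shiftRight_eq_div_pow]
    rw [h3]
    exact bts_eq 8 _ _
  rw [h1, h2] at h
  exact h.2

theorem main (hSUS : SUS) (hSES : SES) (hENU : ENU) (hENE : ENE) (hGDT : GDT) : CGN := by
  intro D zb t0 b h k hsym hc
  unfold cG at hc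
  simp only [fc_eq, cond_true_iff] at hc
  obtain ⟨hd1, hd2, hf⟩ := hc
  generalize get D.R0 k = A at *
  generalize get D.C1 k = c1 at *
  generalize get D.C2 k = c2 at *
  change dk1 D.N (D.N - 1) D.nR1 (tl D.N) D.R1 A c1 = true at hd1
  change dk2 D.N (D.N - 2) D.nR2 (tl D.N) D.R2 A c2 = true at hd2
  have hRW := pr_RWU D zb t0 b h
  have hE := hENE D zb t0 b h A c2 hd2
  have e1 : sU D.N D.W (mk D.W) D.Z (Nat.mul 8 D.Z) (mk (Nat.mul 8 D.Z)) D.BU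
      (gU D.N (kk 65535 192) (kk (Nat.sub (Nat.shiftLeft 1 192) (Nat.shiftLeft 1 128)) 192) (mk 192)
        D.TU c1) = nst D.Z (XU D (pa A)) := by
    rw [sh1, sh1, mk_eq, mk_eq, mk_eq]
    exact hSUS D.N D.W D.Z D.NU D.nBU _ D.BU D.WU D.FU (fun w x => D.bc.gU D.N (pa A) w x) h.w.N8
      hRW.1 (fun w hw x hx hwx => hENU D zb t0 b h A c1 hd1 w hw x hx hwx)
  have e3 : sE D.N D.W (mk D.W) D.Z (Nat.mul 8 D.Z) (mk (Nat.mul 8 D.Z)) (mk 98304) D.BE A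
      (gE2 D.N (kk 65535 192) (kk (Nat.sub (Nat.shiftLeft 1 192) (Nat.shiftLeft 1 128)) 192)
        (kS (mk 192) 1536) (mk 1536) D.TE c2) = nst D.Z (XE D (pa A)) := by
    rw [sh1, sh1, mk_eq, mk_eq, mk_eq, mk_eq, mk_eq]
    exact hSES D.N D.W D.Z D.NE D.nBE A _ D.BE D.WE D.FE
      (fun w z x y => D.bc.gE D.N (pa A) w z x y) h.w.N8 hRW.2
      (fun w hw z hz x hx y hy hd => (hE w hw z hz x hx y hy hd).1)
  have e2 : cond (Nat.beq D.v 0) 0 (sV D.N D.W (mk D.W) D.Z (Nat.mul 8 D.Z) (mk 98304) D.BV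
      (gE2 D.N (kk 65535 192) (kk (Nat.sub (Nat.shiftLeft 1 192) (Nat.shiftLeft 1 128)) 192)
        (kS (mk 192) 1536) (mk 1536) D.TE c2)) =
      nst D.Z fun i j => if D.v = 0 then 0 else XV D (pa A) i j := by
    by_cases hv : D.v = 0
    · rw [(beq_iff _ _).2 hv, cond_true]
      simp only [if_pos hv]
      exact (SVS.nst_zero D.Z).symm
    · rw [SVS.beq_false hv, cond_false]
      simp only [if_neg hv]
      rw [sh1, sh1, mk_eq, mk_eq, mk_eq, mk_eq]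
      exact pr_SVS D.N D.W D.Z D.NV D.nBE _ D.BV D.WV D.FV
        (fun w z x y => D.bc.rV D.N (pa A) w z x y) h.w.N8 h.w.WZ
        (fun F hF => bvOK (h.bv hv F hF))
        (fun w hw z hz x hx y hy hd => ⟨(hE w hw z hz x hx y hy hd).1.bun,
          (hE w hw z hz x hx y hy hd).2 hv⟩)
  obtain ⟨g1, g2, g3⟩ := hGDT D zb t0 b h A c1 hd1
  have e4 : gD D.N D.Z (Nat.mul 8 D.Z) (kS (mk D.Z) (Nat.mul 8 D.Z)) (mk (Nat.mul 8 D.Z)) D.DT c1 =
      nst D.Z (XD D (pa A)) := by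
    rw [mk_eq, mk_eq]
    exact g1
  have e5 : gL D.N D.Z (Nat.mul 8 D.Z) (kS (mk D.Z) (Nat.mul 8 D.Z)) (mk (Nat.mul 8 D.Z)) D.PT A c1 =
      nst D.Z (XP D A) := by
    rw [mk_eq, mk_eq]
    exact g2
  rw [e1, e2, e3, e4, e5, Nat.add_eq, FIN.nst_add, mk_eq, mk_eq, mk_eq, mk_eq, mk_eq, sh1, sh1] at hf
  have hcZ := h.w.cZ
  have hcZ2 := h.w.cZ2
  have hXD := XD_sz h.w (pa A) (fun x hx i hi j hj hix hjx => (g3 x hx i hi j hj hix hjx).1)
  have hXP := XP_sz h.w A (fun x hx i hi j hj hix hjx => (g3 x hx i hi j hj hix hjx).2)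
  have hXT : ∀ i j, XT D (pa A) i j < 2 ^ D.Z ∧ XT D (pa A) i j / 2 ^ D.c ≤ 2 ^ 10 := by
    intro i j
    obtain ⟨v, hv⟩ := XT_cod0 h (pa A) i j
    exact ⟨(cod_sz h.w hv).1, (cod_sz h.w hv).2.1⟩
  have hXE : ∀ i j, XE D (pa A) i j < 2 ^ D.Z ∧ XE D (pa A) i j / 2 ^ D.c ≤ 2 ^ 10 := fun i j =>
    ⟨(cod_sz h.w (XE_cod h (pa A) i j)).1, (cod_sz h.w (XE_cod h (pa A) i j)).2.1⟩
  have hN := pr_FIN D.N D.Z D.c D.o D.c2 D.o2 D.m D.q (XT D (pa A)) (XE D (pa A)) (XD D (pa A))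
    (XP D A) h.w.N8 (by omega) (by omega)
    (fun i _ j _ => ⟨(hXT i j).1, (hXE i j).1, (hXD i j).1, (hXP i j).1⟩)
    (fun i _ j _ => ⟨(hXT i j).2, (hXE i j).2, (hXD i j).2.1, (hXP i j).2.1⟩) h.w.f1 h.w.f2 hf
  refine Neg_congr (fun i hi j hj => ?_) hN
  have hH := pr_HLF D.bc D.N (pa A) hsym (symU h) (symV h) (symE h)
    (fun x => lt_of_le_of_lt (min_le_right _ _) (by norm_num))
    (fun x => lt_of_le_of_lt (min_le_right _ _) (by norm_num))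
    (fun x => lt_of_le_of_lt (min_le_right _ _) (by norm_num))
  obtain ⟨a1, a2, a3⟩ := hH i hi j hj
  obtain ⟨b1, b2, b3⟩ := hH j hj i hi
  have c1 := (cod_sz h.w (XT_cod h (pa A) hi hj)).2.2
  have c2 := (cod_sz h.w (XT_cod h (pa A) hj hi)).2.2
  have c3 := (cod_sz h.w (XE_cod' h (pa A) hi hj)).2.2
  have c4 := (cod_sz h.w (XE_cod' h (pa A) hj hi)).2.2
  rw [c1, c2, c3, c4, (hXD i j).2.2 hi hj, (hXD j i).2.2 hj hi, (hXP i j).2.2 hi hj,
    (hXP j i).2.2 hj hi]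
  unfold BC.T
  rw [a1, a2, a3, b1, b2, b3]
  have m1 : D.bc.m = (D.m : ℤ) := rfl
  have q1 : D.bc.q = (D.q : ℤ) := rfl
  rw [m1, q1]
  ring

end CG

theorem CGN_of (hSUS : SUS) (hSES : SES) (hENU : ENU) (hENE : ENE) (hGDT : GDT) : CGN :=
  CG.main hSUS hSES hENU hENE hGDT

end Pool.Agent.Work.MP_f94384_co.Big
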