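import Pool.Agent.Work.MP_f94384_co.Big.P_INV

/-!
# Representatives of order `n + 1` from representatives of order `n`
-/

set_option autoImplicit false

open Finset

namespace Pool.Agent.Work.MP_f94384_co.Big

open Pool.Agent.Work.MP_f94384_co.Flag

/-- the pattern `p` on `n` positions extended by the vertex `n` with the neighbourhood `M` -/
def exP (n : ℕ) (p : Pat) (M : ℕ) : Pat := fun a b =>
  if a < n ∧ b < n then p a b
  else if a = n ∧ b < n then M.testBit b
  else if b = n ∧ a < n then M.testBit a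
  else false

theorem PermN.inv {n : ℕ} {σ : ℕ → ℕ} (hσ : PermN n σ) :
    ∃ τ : ℕ → ℕ, PermN n τ ∧ (∀ a < n, τ (σ a) = a) ∧ ∀ a < n, σ (τ a) = a := by
  have h := Set.BijOn.invOn_invFunOn hσ
  refine ⟨Function.invFunOn σ (range n : Set ℕ), ?_, fun a ha => ?_, fun a ha => ?_⟩
  · refine ⟨?_, ?_, ?_⟩
    · exact hσ.surjOn.mapsTo_invFunOn
    · intro a ha b hb hab
      have h1 := h.2 ha
      have h2 := h.2 hb
      rw [← h1, ← h2, hab]
    · intro a ha
      exact ⟨σ a, hσ.mapsTo ha, h.1 ha⟩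
  · exact h.1 (mem_coe.2 (mem_range.2 ha))
  · exact h.2 (mem_coe.2 (mem_range.2 ha))

theorem PermN.comp {n : ℕ} {σ τ : ℕ → ℕ} (hσ : PermN n σ) (hτ : PermN n τ) :
    PermN n (fun a => σ (τ a)) := Set.BijOn.comp hσ hτ

theorem NoK.relabel {s n : ℕ} {p p' : Pat} {σ : ℕ → ℕ} (hσ : PermN n σ)
    (hp : ∀ i < n, ∀ j < n, p i j = p' (σ i) (σ j)) (h : NoK s n p') : NoK s n p := by
  intro t ht hc
  have ht' : ∀ a ∈ t, a < n := fun a ha => mem_range.1 (ht ha)
  obtain ⟨a, ha, b, hb, hab, hd⟩ := h (t.image σ) (by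
    intro x hx
    obtain ⟨a, ha, rfl⟩ := mem_image.1 hx
    exact mem_range.2 (hσ.lt (ht' a ha))) (by
    rw [card_image_of_injOn, hc]
    intro a ha b hb hab
    exact (hσ.eq_iff (ht' a ha) (ht' b hb)).1 hab)
  obtain ⟨a', ha', rfl⟩ := mem_image.1 ha
  obtain ⟨b', hb', rfl⟩ := mem_image.1 hb
  exact ⟨a', ha', b', hb', fun e => hab (by rw [e]), by rw [hp a' (ht' a' ha') b' (ht' b' hb'), hd]⟩

/-- One-vertex extensions. -/
theorem ext_cls {s n : ℕ} {A A' : ℕ → ℕ} {len len' : ℕ} (hA : Cls s n A len)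
    (h : ∀ k < len, ∀ M < 2 ^ n, NoK s (n + 1) (exP n (pa (A k)) M) →
      ∃ k' < len', ∃ σ : ℕ → ℕ, PermN (n + 1) σ ∧
        ∀ a < n + 1, ∀ b < n + 1, pa (A' k') a b = exP n (pa (A k)) M (σ a) (σ b)) :
    Cls s (n + 1) A' len' := by
  intro p hs hi hK
  have hKn : NoK s n p := by
    intro t ht hc
    exact hK t (ht.trans (range_subset_range.2 (Nat.le_succ n))) hc
  obtain ⟨k, hk, σ, hσ, hp⟩ := hA p (fun i hi j hj => hs i (by omega) j (by omega))
    (fun i hi' => hi i (by omega)) hKn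
  obtain ⟨τ, hτ, h1, h2⟩ := hσ.inv
  set M := Nat.ofBits (fun i : Fin n => p (τ i) n) with hM
  have hMlt : M < 2 ^ n := Nat.ofBits_lt_two_pow _
  have hbit : ∀ i < n, M.testBit (σ i) = p i n := by
    intro i hi'
    rw [hM, Nat.testBit_ofBits_lt _ _ (hσ.lt hi'), h1 i hi']
  -- the extended permutation
  set σ1 : ℕ → ℕ := fun a => if a < n then σ a else a with hσ1
  have hσ1P : PermN (n + 1) σ1 := by
    refine ⟨?_, ?_, ?_⟩
    · intro a ha
      rw [mem_coe, mem_range] at ha ⊢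
      simp only [hσ1]
      split_ifs with h3
      · exact (hσ.lt h3).trans (Nat.lt_succ_self n)
      · exact ha
    · intro a ha b hb hab
      rw [mem_coe, mem_range] at ha hb
      simp only [hσ1] at hab
      by_cases h3 : a < n <;> by_cases h4 : b < n
      · rw [if_pos h3, if_pos h4] at hab
        exact (hσ.eq_iff h3 h4).1 hab
      · rw [if_pos h3, if_neg h4] at hab
        have := hσ.lt h3
        omega
      · rw [if_neg h3, if_pos h4] at hab
        have := hσ.lt h4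
        omega
      · rw [if_neg h3, if_neg h4] at hab
        exact hab
    · intro a ha
      rw [mem_coe, mem_range] at ha
      by_cases h3 : a < n
      · refine ⟨τ a, mem_coe.2 (mem_range.2 ((hτ.lt h3).trans (Nat.lt_succ_self n))), ?_⟩
        simp only [hσ1]
        rw [if_pos (hτ.lt h3), h2 a h3]
      · refine ⟨a, mem_coe.2 (mem_range.2 ha), ?_⟩
        simp only [hσ1]
        rw [if_neg h3]
  have hpB : ∀ i < n + 1, ∀ j < n + 1, p i j = exP n (pa (A k)) M (σ1 i) (σ1 j) := by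
    intro i hi' j hj'
    unfold exP
    simp only [hσ1]
    rcases Nat.lt_succ_iff_lt_or_eq.1 hi' with h3 | h3
    · rcases Nat.lt_succ_iff_lt_or_eq.1 hj' with h4 | h4
      · rw [if_pos h3, if_pos h4, if_pos ⟨hσ.lt h3, hσ.lt h4⟩]
        exact hp i h3 j h4
      · subst h4
        rw [if_pos h3, if_neg (lt_irrefl _), if_neg (fun h => lt_irrefl _ h.2),
          if_neg (fun h => lt_irrefl _ h.2), if_pos ⟨rfl, hσ.lt h3⟩, hbit i h3]
    · subst h3
      rcases Nat.lt_succ_iff_lt_or_eq.1 hj' with h4 | h4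
      · rw [if_neg (lt_irrefl _), if_pos h4, if_neg (fun h => lt_irrefl _ h.1),
          if_pos ⟨rfl, hσ.lt h4⟩, hbit j h4]
        exact hs i hi' j hj'
      · subst h4
        rw [if_neg (lt_irrefl _), if_neg (fun h => lt_irrefl _ h.1),
          if_neg (fun h => lt_irrefl _ h.2), if_neg (fun h => lt_irrefl _ h.2)]
        exact hi j hj'
  obtain ⟨τ1, hτ1, h5, h6⟩ := hσ1P.inv
  have hKB : NoK s (n + 1) (exP n (pa (A k)) M) := by
    refine NoK.relabel (σ := τ1) (p' := p) hτ1 ?_ hK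
    intro i hi' j hj'
    rw [hpB _ (hτ1.lt hi') _ (hτ1.lt hj'), h6 i hi', h6 j hj']
  obtain ⟨k', hk', ρ, hρ, hpa⟩ := h k hk M hMlt hKB
  obtain ⟨ρ1, hρ1, h7, h8⟩ := hρ.inv
  refine ⟨k', hk', fun a => ρ1 (σ1 a), hρ1.comp hσ1P, ?_⟩
  intro i hi' j hj'
  rw [hpB i hi' j hj', hpa _ (hρ1.lt (hσ1P.lt hi')) _ (hρ1.lt (hσ1P.lt hj')), h8 _ (hσ1P.lt hi'),
    h8 _ (hσ1P.lt hj')]

/-- representatives of the empty pattern -/
theorem cls_zero (s : ℕ) (A : ℕ → ℕ) : Cls s 0 A 1 := by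
  intro p _ _ _
  refine ⟨0, by norm_num, id, ?_, fun i hi => absurd hi (by omega)⟩
  exact Set.bijOn_id _

end Pool.Agent.Work.MP_f94384_co.Big
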