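import Pool.Agent.Work.MP_f94384_co.Big.P_RST

set_option autoImplicit false

open Finset

namespace Pool.Agent.Work.MP_f94384_co.Big

open Pool.Agent.Work.MP_f94384_co.Flag

/-- sums over the positions, relabelled -/
theorem INV_sum {N : ℕ} {σ : ℕ → ℕ} (hσ : PermN N σ) (F F' : ℕ → ℤ)
    (h : ∀ v < N, F v = F' (σ v)) : ∑ v ∈ range N, F v = ∑ v ∈ range N, F' v := by
  refine sum_bij (fun v _ => σ v) ?_ ?_ ?_ ?_
  · intro v hv
    exact Finset.mem_coe.1 (hσ.mapsTo (Finset.mem_coe.2 hv))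
  · intro v hv u hu h
    exact hσ.injOn (Finset.mem_coe.2 hv) (Finset.mem_coe.2 hu) h
  · intro a ha
    obtain ⟨v, hv, rfl⟩ := hσ.surjOn (Finset.mem_coe.2 ha)
    exact ⟨v, Finset.mem_coe.1 hv, rfl⟩
  · intro v hv
    exact h v (mem_range.1 hv)

section

variable {N : ℕ} {p p' : Pat} {σ : ℕ → ℕ}

theorem PermN.lt (hσ : PermN N σ) {v : ℕ} (hv : v < N) : σ v < N :=
  mem_range.1 (Finset.mem_coe.1 (hσ.mapsTo (Finset.mem_coe.2 (mem_range.2 hv))))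

theorem PermN.eq_iff (hσ : PermN N σ) {v u : ℕ} (hv : v < N) (hu : u < N) :
    σ v = σ u ↔ v = u :=
  ⟨fun h => hσ.injOn (Finset.mem_coe.2 (mem_range.2 hv)) (Finset.mem_coe.2 (mem_range.2 hu)) h,
    fun h => by rw [h]⟩

theorem PermN.surj (hσ : PermN N σ) {a : ℕ} (ha : a < N) : ∃ v < N, σ v = a := by
  obtain ⟨v, hv, rfl⟩ := hσ.surjOn (Finset.mem_coe.2 (mem_range.2 ha))
  exact ⟨v, mem_range.1 (Finset.mem_coe.1 hv), rfl⟩

/-- invariance of the hash for colours vanishing outside of the first `N` positions -/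
theorem hs_inv (hN : N ≤ 8) (hσ : PermN N σ)
    (hp : ∀ i < N, ∀ j < N, p i j = p' (σ i) (σ j)) (c c' : ℕ → ℕ)
    (h0 : ∀ v, N ≤ v → c v = 0) (h0' : ∀ v, N ≤ v → c' v = 0)
    (hc : ∀ v < N, c' (σ v) = c v) : hs p c = hs p' c' := by
  have hlt : ∀ v, c v ≠ 0 → v < N := fun v hv => by
    by_contra h
    exact hv (h0 v (by omega))
  refine pr_RST p p' c c' σ ?_ ?_ ?_ ?_
  · intro v _ hv
    exact ⟨(hσ.lt (hlt v hv)).trans_le hN, hc v (hlt v hv)⟩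
  · intro v _ hv u _ hu h
    exact (hσ.eq_iff (hlt v hv) (hlt u hu)).1 h
  · intro v _ hv u _ hu
    exact hp v (hlt v hv) u (hlt u hu)
  · intro a _ ha
    have : a < N := by
      by_contra h
      exact ha (h0' a (by omega))
    obtain ⟨v, hv, rfl⟩ := hσ.surj this
    exact ⟨v, hv.trans_le hN, by rw [hc v hv] at ha; exact ha, rfl⟩

theorem rU_inv (C : BC) (hN : N ≤ 8) (hσ : PermN N σ)
    (hp : ∀ i < N, ∀ j < N, p i j = p' (σ i) (σ j)) {w x i : ℕ} (hw : w < N) (hx : x < N)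
    (hi : i < N) : C.rU N p w x i = C.rU N p' (σ w) (σ x) (σ i) := by
  unfold BC.rU
  refine congrArg C.fU ?_
  refine hs_inv hN hσ hp _ _ (fun v hv => ?_) (fun v hv => ?_) fun v hv => ?_
  · unfold cU
    rw [if_neg (by omega)]
  · unfold cU
    rw [if_neg (by omega)]
  · unfold cU
    simp only [hσ.eq_iff hv hw, hσ.eq_iff hv hi, ne_eq, hσ.eq_iff hv hx, hσ.lt hv, hv]

theorem rE_inv (C : BC) (hN : N ≤ 8) (hσ : PermN N σ)
    (hp : ∀ i < N, ∀ j < N, p i j = p' (σ i) (σ j)) {w z x y i : ℕ} (hw : w < N) (hz : z < N)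
    (hx : x < N) (hy : y < N) (hi : i < N) :
    C.rE N p w z x y i = C.rE N p' (σ w) (σ z) (σ x) (σ y) (σ i) := by
  unfold BC.rE
  refine congrArg C.fE ?_
  refine hs_inv hN hσ hp _ _ (fun v hv => ?_) (fun v hv => ?_) fun v hv => ?_
  · unfold cE
    rw [if_neg (by omega)]
  · unfold cE
    rw [if_neg (by omega)]
  · unfold cE
    simp only [hσ.eq_iff hv hw, hσ.eq_iff hv hi, ne_eq, hσ.eq_iff hv hx, hσ.lt hv, hv,
      hσ.eq_iff hv hz, hσ.eq_iff hv hy]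

theorem rV_inv (C : BC) (hN : N ≤ 8) (hσ : PermN N σ)
    (hp : ∀ i < N, ∀ j < N, p i j = p' (σ i) (σ j)) {w z x y : ℕ} (hw : w < N) (hz : z < N)
    (hx : x < N) (hy : y < N) :
    C.rV N p w z x y = C.rV N p' (σ w) (σ z) (σ x) (σ y) := by
  unfold BC.rV
  refine congrArg C.fV ?_
  refine hs_inv hN hσ hp _ _ (fun v hv => ?_) (fun v hv => ?_) fun v hv => ?_
  · unfold cE
    rw [if_neg (by omega)]
  · unfold cE
    rw [if_neg (by omega)]
  · unfold cE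
    simp only [hσ.eq_iff hv hw, ne_eq, hσ.eq_iff hv hx, hσ.lt hv, hv,
      hσ.eq_iff hv hz, hσ.eq_iff hv hy]

theorem pU_inv (C : BC) (hN : N ≤ 8) (hσ : PermN N σ)
    (hp : ∀ i < N, ∀ j < N, p i j = p' (σ i) (σ j)) {w x i j : ℕ} (hw : w < N) (hx : x < N)
    (hi : i < N) (hj : j < N) :
    C.pU N p w x i j = C.pU N p' (σ w) (σ x) (σ i) (σ j) := by
  unfold BC.pU
  simp only [ne_eq, hσ.eq_iff hw hx, hσ.eq_iff hi hx, hσ.eq_iff hj hw,
    ← rU_inv C hN hσ hp hw hx hi, ← rU_inv C hN hσ hp hx hw hj]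

theorem pE_inv (C : BC) (hN : N ≤ 8) (hσ : PermN N σ)
    (hp : ∀ i < N, ∀ j < N, p i j = p' (σ i) (σ j)) {w z x y i j : ℕ} (hw : w < N) (hz : z < N)
    (hx : x < N) (hy : y < N) (hi : i < N) (hj : j < N) :
    C.pE N p w z x y i j = C.pE N p' (σ w) (σ z) (σ x) (σ y) (σ i) (σ j) := by
  unfold BC.pE
  simp only [ne_eq, hσ.eq_iff hw hz, hσ.eq_iff hw hx, hσ.eq_iff hw hy, hσ.eq_iff hz hx,
    hσ.eq_iff hz hy, hσ.eq_iff hx hy, hσ.eq_iff hi hx, hσ.eq_iff hi hy, hσ.eq_iff hj hw,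
    hσ.eq_iff hj hz, ← rE_inv C hN hσ hp hw hz hx hy hi, ← rE_inv C hN hσ hp hx hy hw hz hj]

theorem pV_inv (C : BC) (hN : N ≤ 8) (hσ : PermN N σ)
    (hp : ∀ i < N, ∀ j < N, p i j = p' (σ i) (σ j)) {w z x y i j : ℕ} (hw : w < N) (hz : z < N)
    (hx : x < N) (hy : y < N) (hi : i < N) (hj : j < N) :
    C.pV N p w z x y i j = C.pV N p' (σ w) (σ z) (σ x) (σ y) (σ i) (σ j) := by
  unfold BC.pV
  simp only [ne_eq, hσ.eq_iff hw hz, hσ.eq_iff hw hx, hσ.eq_iff hw hy, hσ.eq_iff hz hx,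
    hσ.eq_iff hz hy, hσ.eq_iff hx hy, hσ.eq_iff hi hw, hσ.eq_iff hj hx,
    ← rV_inv C hN hσ hp hw hz hx hy, ← rV_inv C hN hσ hp hx hy hw hz]

theorem pD_inv (C : BC) (hN : N ≤ 8) (hσ : PermN N σ)
    (hp : ∀ i < N, ∀ j < N, p i j = p' (σ i) (σ j)) {w z x y i j : ℕ} (hw : w < N) (hz : z < N)
    (hx : x < N) (hy : y < N) (hi : i < N) (hj : j < N) :
    C.pD N p w z x y i j = C.pD N p' (σ w) (σ z) (σ x) (σ y) (σ i) (σ j) := by
  unfold BC.pD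
  simp only [ne_eq, hσ.eq_iff hw hz, hσ.eq_iff hw hx, hσ.eq_iff hw hy, hσ.eq_iff hz hx,
    hσ.eq_iff hz hy, hσ.eq_iff hx hy, hσ.eq_iff hi hx, hσ.eq_iff hi hy, hσ.eq_iff hj hx,
    hσ.eq_iff hj hz, ← rE_inv C hN hσ hp hw hz hx hy hi, ← rE_inv C hN hσ hp hw hy hx hz hj]

theorem tD_inv (C : BC) (hN : N ≤ 8) (hσ : PermN N σ)
    (hp : ∀ i < N, ∀ j < N, p i j = p' (σ i) (σ j)) {x i j : ℕ}
    (hx : x < N) (hi : i < N) (hj : j < N) :
    C.tD N p x i j = C.tD N p' (σ x) (σ i) (σ j) := by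
  unfold BC.tD
  refine INV_sum hσ _ _ fun w hw => INV_sum hσ _ _ fun z hz => INV_sum hσ _ _ fun y hy => ?_
  exact pD_inv C hN hσ hp hw hz hx hy hi hj

theorem tZ_inv (C : BC) (hN : N ≤ 8) (hσ : PermN N σ)
    (hp : ∀ i < N, ∀ j < N, p i j = p' (σ i) (σ j)) {x i j : ℕ}
    (hx : x < N) (hi : i < N) (hj : j < N) :
    C.tZ N p x i j = C.tZ N p' (σ x) (σ i) (σ j) := by
  unfold BC.tZ
  simp only [ne_eq, hσ.eq_iff hi hj, hσ.eq_iff hi hx, hσ.eq_iff hj hx,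
    ← rU_inv C hN hσ hp hi hx hj, ← rU_inv C hN hσ hp hj hx hi]

end

theorem pr_INV : INV := by
  intro C N p p' σ hN hσ hp i hi j hj
  have eU : C.TU N p i j = C.TU N p' (σ i) (σ j) := by
    unfold BC.TU
    exact INV_sum hσ _ _ fun w hw => INV_sum hσ _ _ fun x hx => pU_inv C hN hσ hp hw hx hi hj
  have eV : C.TV N p i j = C.TV N p' (σ i) (σ j) := by
    unfold BC.TV
    exact INV_sum hσ _ _ fun w hw => INV_sum hσ _ _ fun z hz => INV_sum hσ _ _ fun x hx =>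
      INV_sum hσ _ _ fun y hy => pV_inv C hN hσ hp hw hz hx hy hi hj
  have eE : C.TE N p i j = C.TE N p' (σ i) (σ j) := by
    unfold BC.TE
    refine INV_sum hσ _ _ fun w hw => INV_sum hσ _ _ fun z hz => INV_sum hσ _ _ fun x hx =>
      INV_sum hσ _ _ fun y hy => ?_
    rw [hp w hw x hx, pE_inv C hN hσ hp hw hz hx hy hi hj]
  have eP : C.TP N p i j = C.TP N p' (σ i) (σ j) := by
    unfold BC.TP
    refine INV_sum hσ _ _ fun c hc => ?_
    rw [hp c hc i hi, tD_inv C hN hσ hp hi hc hj, tZ_inv C hN hσ hp hi hc hj]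
  have eD : C.TD N p i j = C.TD N p' (σ i) (σ j) := by
    unfold BC.TD
    exact INV_sum hσ _ _ fun x hx => tD_inv C hN hσ hp hx hi hj
  unfold BC.T
  rw [eU, eV, eE, eP, eD]

end Pool.Agent.Work.MP_f94384_co.Big
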