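import Pool.Agent.Work.MP_f94384_co.Big.Stmts

/-!
# Item LSK: evaluation of `lstK`
-/

set_option autoImplicit false

open Finset

namespace Pool.Agent.Work.MP_f94384_co.Big

theorem LSK.gen (f : ℕ → ℕ) (k : List ℕ → Bool) (n : ℕ) : ∀ l : List ℕ,
    lstK f k n l = k ((List.range n).map f ++ l) := by
  induction n with
  | zero => intro l; rfl
  | succ n ih =>
    intro l
    have h1 : lstK f k (n + 1) l = fc (f n) fun v => lstK f k n (v :: l) := rfl
    rw [h1, fc_eq, ih, List.range_succ, List.map_append, List.append_assoc]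
    rfl

theorem pr_LSK : LSK := by
  intro f k n
  rw [LSK.gen, List.append_nil]

end Pool.Agent.Work.MP_f94384_co.Big
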