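import Pool.Agent.Work.MP_f94384_co.Big.Stmts2

/-!
# Kernel program for the certificates of order 7 and 8: item ORP
-/

set_option autoImplicit false

open Finset

namespace Pool.Agent.Work.MP_f94384_co.Big

namespace ORP

theorem bts15 (π t : ℕ) : bts 15 π t = dg 4 t π := bts_eq 4 π t

theorem orP_eq (π : ℕ) : orP π = 2 ^ pf π 0 ||| (2 ^ pf π 1 ||| (2 ^ pf π 2 ||| (2 ^ pf π 3 |||
    (2 ^ pf π 4 ||| (2 ^ pf π 5 ||| (2 ^ pf π 6 ||| 2 ^ pf π 7)))))) := by
  have h : orP π = 1 <<< bts 15 π 0 ||| (1 <<< bts 15 π 4 ||| (1 <<< bts 15 π 8 |||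
    (1 <<< bts 15 π 12 ||| (1 <<< bts 15 π 16 ||| (1 <<< bts 15 π 20 ||| (1 <<< bts 15 π 24 |||
      1 <<< bts 15 π 28)))))) := rfl
  rw [h]
  simp only [Nat.shiftLeft_eq, one_mul, bts15]
  rfl

theorem orP_testBit (π a : ℕ) : (orP π).testBit a = true ↔ ∃ v < 8, pf π v = a := by
  rw [orP_eq]
  simp only [Nat.testBit_or, Nat.testBit_two_pow, Bool.or_eq_true, decide_eq_true_eq]
  constructor
  · rintro (h | h | h | h | h | h | h | h)
    · exact ⟨0, by norm_num, h⟩
    · exact ⟨1, by norm_num, h⟩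
    · exact ⟨2, by norm_num, h⟩
    · exact ⟨3, by norm_num, h⟩
    · exact ⟨4, by norm_num, h⟩
    · exact ⟨5, by norm_num, h⟩
    · exact ⟨6, by norm_num, h⟩
    · exact ⟨7, by norm_num, h⟩
  · rintro ⟨v, hv, h⟩
    interval_cases v <;> tauto

end ORP

theorem pr_ORP : ORP := by
  intro n π hn h
  have key : ∀ a, (∃ v < 8, pf π v = a) ↔ (a < n ∨ a = 7) := by
    intro a
    rw [← ORP.orP_testBit, h]
    have h1 : (128 : ℕ) = 2 ^ 7 := by norm_num
    rw [h1]
    simp only [Nat.testBit_or, Nat.testBit_two_pow, Nat.testBit_two_pow_sub_one, Bool.or_eq_true,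
      decide_eq_true_eq]
    constructor
    · rintro (h | h)
      · exact Or.inl h
      · exact Or.inr h.symm
    · rintro (h | h)
      · exact Or.inl h
      · exact Or.inr h.symm
  refine ⟨fun v hv => (key (pf π v)).1 ⟨v, hv, rfl⟩, fun a ha => (key a).2 (Or.inl ha),
    (key 7).2 (Or.inr rfl)⟩

end Pool.Agent.Work.MP_f94384_co.Big
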