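import Mathlib.Data.Nat.Notation

/-!
# Kernel program for the certificates of order 7 and 8

Numbers are used as packed tables; see `Big/Defs.lean` for the table that is evaluated.
Layouts: permutation of positions: fields of 4 bits. Table of a pair `(i, j)`: field of `Z` bits at
`Z i + Z8 j`, `Z8 = 8 Z`. Entry (192 bits) of a flag: for every position `i` the column (8 bits at
`16 i`) and the slot (4 bits at `16 i + 8`) of the row, the bundle (16 bits at 128), the stride (24
bits at 144), the type (8 bits at 168), the row of the flag for the matrix `V` (16 bits at 176).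
Row: `256 * type + column`; `65535` = no row.
-/

set_option autoImplicit false
set_option maxRecDepth 100000

namespace Pool.Agent.Work.MP_f94384_co.Big

/-- forced evaluation -/
def fc {α : Type} (n : ℕ) (f : ℕ → α) : α :=
  match n with
  | 0 => f 0
  | Nat.succ k => f (Nat.succ k)

/-- tree of numbers, the index is read from the low bit on -/
inductive Tr
  | L (x : ℕ) : Tr
  | N (a b : Tr) : Tr

/-- entry of a tree -/
noncomputable def get (t : Tr) : ℕ → ℕ :=
  Tr.rec (motive := fun _ => ℕ → ℕ) (fun x _ => x)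
    (fun _ _ ga gb i => cond (Nat.beq (Nat.mod i 2) 0) (fc (Nat.div i 2) ga) (fc (Nat.div i 2) gb)) t

/-- search tree -/
inductive St
  | L (v : ℕ) : St
  | N (k : ℕ) (a b : St) : St

/-- value of a search tree -/
noncomputable def fnd (t : St) (h : ℕ) : ℕ :=
  St.rec (motive := fun _ => ℕ) (fun v => v) (fun k _ _ fa fb => cond (Nat.ble k h) fb fa) t

/-- sum with accumulator: `a + ∑ k < n, f k` -/
noncomputable def sumL (f : ℕ → ℕ) (n : ℕ) : ℕ → ℕ :=
  Nat.rec (motive := fun _ => ℕ → ℕ) (fun a => a) (fun k ih a => fc (Nat.add a (f k)) ih) n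

/-- conjunction over `k < n` -/
noncomputable def allL (f : ℕ → Bool) (n : ℕ) : Bool :=
  Nat.rec (motive := fun _ => Bool) true (fun k ih => cond (f k) ih false) n

/-- bits `t, ..., t + w - 1`; `m = 2 ^ w - 1` -/
def bts (m x t : ℕ) : ℕ := Nat.land (Nat.shiftRight x t) m

/-- one bit -/
def bt (A i : ℕ) : Bool := Nat.beq (Nat.land (Nat.shiftRight A i) 1) 1

/-! ### gather functions -/

/-- step of the gather functions -/
def gst (a b M m π x s acc : ℕ) : ℕ :=
  Nat.add (Nat.shiftLeft acc b)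
    (Nat.land (Nat.shiftRight x (Nat.mul a (Nat.land (Nat.shiftRight π s) m))) M)

/-- `∑ i < 8, ((x >>> (a * (π >>> (4 i) &&& 15))) &&& M) <<< (a i)` -/
def gP (a M π x : ℕ) : ℕ :=
  gst a a M 15 π x 0 (gst a a M 15 π x 4 (gst a a M 15 π x 8 (gst a a M 15 π x 12
    (gst a a M 15 π x 16 (gst a a M 15 π x 20 (gst a a M 15 π x 24 (gst a a M 15 π x 28 0)))))))

/-- selection of columns -/
def gC (a b M e x : ℕ) : ℕ :=
  gst a b M 255 e x 0 (gst a b M 255 e x 16 (gst a b M 255 e x 32 (gst a b M 255 e x 48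
    (gst a b M 255 e x 64 (gst a b M 255 e x 80 (gst a b M 255 e x 96 (gst a b M 255 e x 112 0)))))))

/-- selection of rows -/
def gS (a b M e x : ℕ) : ℕ :=
  gst a b M 15 e x 8 (gst a b M 15 e x 24 (gst a b M 15 e x 40 (gst a b M 15 e x 56
    (gst a b M 15 e x 72 (gst a b M 15 e x 88 (gst a b M 15 e x 104 (gst a b M 15 e x 120 0)))))))

/-- `m` at the multiples `0, .., 7` of `S` -/
def kS (m S : ℕ) : ℕ :=
  fc (Nat.add m (Nat.shiftLeft m S)) fun a =>
    fc (Nat.add a (Nat.shiftLeft a (Nat.mul 2 S))) fun b => Nat.add b (Nat.shiftLeft b (Nat.mul 4 S))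

/-! ### contributions -/

/-- parameters: `W` width of a field of a row, `m = 2^W - 1`, `Z`, `Z8 = 8 Z`, `M8 = 2^Z8 - 1`;
contribution of the pair of entries `el`, `er` with the bundles `T` -/
noncomputable def pE (W m Z Z8 M8 : ℕ) (T : Tr) (el er : ℕ) : ℕ :=
  cond (Nat.beq (bts 255 el 168) (bts 255 er 168))
    (fc (get T (bts 65535 er 128)) fun R =>
      fc (bts 16777215 er 144) fun S =>
        fc (kS m S) fun K => fc (gC W Z K el R) fun L => gS S Z8 M8 er L) 0

/-- entry of width 192 -/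
def ent (G t : ℕ) : ℕ := bts 6277101735386680763835789423207666416102355444464034512895 G t

/-- usual squares, `x < w`; the entry of `w` without `x` is at `1536 x + 192 w` -/
noncomputable def sU (N W m Z Z8 M8 : ℕ) (T : Tr) (G : ℕ) : ℕ :=
  sumL (fun w => sumL (fun x =>
    fc (ent G (Nat.add (Nat.mul 1536 x) (Nat.mul 192 w))) fun el =>
    fc (ent G (Nat.add (Nat.mul 1536 w) (Nat.mul 192 x))) fun er => pE W m Z Z8 M8 T el er) w 0) N 0

/-- eigenvalue squares, `x < w`, `x` adjacent to `w`; the entry of `w, z` without `x, y` is at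
`98304 x + 12288 y + 1536 w + 192 z` -/
noncomputable def sE (N W m Z Z8 M8 M2 : ℕ) (T : Tr) (A G : ℕ) : ℕ :=
  sumL (fun w => fc (bts M2 G (Nat.mul 98304 w)) fun Gw =>
    sumL (fun x => cond (bt A (Nat.add (Nat.mul 8 w) x))
    (fc (bts M2 G (Nat.mul 98304 x)) fun Gx =>
      sumL (fun z => cond (Nat.beq z w) 0 (cond (Nat.beq z x) 0
      (sumL (fun y => cond (Nat.beq y w) 0 (cond (Nat.beq y x) 0 (cond (Nat.beq y z) 0
        (fc (ent Gx (Nat.add (Nat.mul 12288 y) (Nat.add (Nat.mul 1536 w) (Nat.mul 192 z)))) fun el =>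
         fc (ent Gw (Nat.add (Nat.mul 12288 z) (Nat.add (Nat.mul 1536 x) (Nat.mul 192 y)))) fun er =>
         pE W m Z Z8 M8 T el er)))) N 0))) N 0) 0) w 0) N 0

/-- usual squares `V`, `x < w` -/
noncomputable def sV (N W m Z Z8 M2 : ℕ) (T : Tr) (G : ℕ) : ℕ :=
  sumL (fun w => fc (bts M2 G (Nat.mul 98304 w)) fun Gw =>
    sumL (fun x => fc (bts M2 G (Nat.mul 98304 x)) fun Gx =>
      Nat.shiftLeft (sumL (fun z => cond (Nat.beq z w) 0 (cond (Nat.beq z x) 0
      (sumL (fun y => cond (Nat.beq y w) 0 (cond (Nat.beq y x) 0 (cond (Nat.beq y z) 0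
        (fc (ent Gx (Nat.add (Nat.mul 12288 y) (Nat.add (Nat.mul 1536 w) (Nat.mul 192 z)))) fun el =>
         fc (ent Gw (Nat.add (Nat.mul 12288 z) (Nat.add (Nat.mul 1536 x) (Nat.mul 192 y)))) fun er =>
         cond (Nat.beq (bts 255 el 184) (bts 255 er 184))
           (bts m (get T (bts 65535 er 128)) (Nat.mul W (bts 255 el 176))) 0)))) N 0))) N 0)
      (Nat.add (Nat.mul Z w) (Nat.mul Z8 x))) w 0) N 0

/-- squares with the same point, order `n`; the entry of `w, z` without `y` is at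
`12288 y + 1536 w + 192 z` -/
noncomputable def sD (n W m Z Z8 M8 : ℕ) (T : Tr) (G : ℕ) : ℕ :=
  sumL (fun w => sumL (fun z => cond (Nat.beq z w) 0
    (sumL (fun y => cond (Nat.beq y w) 0 (cond (Nat.beq y z) 0
      (fc (ent G (Nat.add (Nat.mul 12288 y) (Nat.add (Nat.mul 1536 w) (Nat.mul 192 z)))) fun el =>
       fc (ent G (Nat.add (Nat.mul 12288 z) (Nat.add (Nat.mul 1536 w) (Nat.mul 192 y)))) fun er =>
       pE W m Z Z8 M8 T el er))) n 0)) n 0) n 0

/-! ### permuted tables -/

/-- positions inside the entries; `M16` = the fields `2^16 - 1` of the first position, `MU` = the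
upper parts of the entries -/
def pos (M16 MU π T : ℕ) : ℕ := Nat.add (gP 16 M16 π T) (Nat.land T MU)

/-- table of the entries of `w` -/
def tbU (M16 MU M192 π T : ℕ) : ℕ := fc (pos M16 MU π T) fun x => gP 192 M192 π x

/-- table of the entries of `w, z` -/
def tbE (M16 MU M192 M1536 π T : ℕ) : ℕ :=
  fc (pos M16 MU π T) fun x => fc (gP 192 M192 π x) fun y => gP 1536 M1536 π y

/-- table of pairs -/
def tbD (Z Z8 MZ M8 π D : ℕ) : ℕ := fc (gP Z8 M8 π D) fun x => gP Z MZ π x

/-- permuted adjacency matrix -/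
def pad (π R : ℕ) : ℕ := fc (gP 8 255 π R) fun x => gP 1 72340172838076673 π x

/-! ### deletion certificates -/

/-- union of the bits given by the fields -/
def orP (π : ℕ) : ℕ :=
  Nat.lor (Nat.shiftLeft 1 (bts 15 π 0)) (Nat.lor (Nat.shiftLeft 1 (bts 15 π 4))
    (Nat.lor (Nat.shiftLeft 1 (bts 15 π 8)) (Nat.lor (Nat.shiftLeft 1 (bts 15 π 12))
      (Nat.lor (Nat.shiftLeft 1 (bts 15 π 16)) (Nat.lor (Nat.shiftLeft 1 (bts 15 π 20))
        (Nat.lor (Nat.shiftLeft 1 (bts 15 π 24)) (Nat.shiftLeft 1 (bts 15 π 28))))))))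

/-- complement of the row and the column `x` -/
def rcm (x : ℕ) : ℕ :=
  Nat.xor 18446744073709551615
    (Nat.lor (Nat.shiftLeft 255 (Nat.mul 8 x)) (Nat.shiftLeft 72340172838076673 x))

/-- `π` is an isomorphism of `A` without `x, y` to `R` of order `n'`; the fields of `x`, `y` and of
the absent positions (`tail`) are `7` -/
def dck (n' tail A R π x y : ℕ) : Bool :=
  cond (Nat.beq (orP π) (Nat.lor (Nat.sub (Nat.shiftLeft 1 n') 1) 128))
    (fc (Nat.lor (Nat.shiftLeft 15 (Nat.mul 4 x)) (Nat.lor (Nat.shiftLeft 15 (Nat.mul 4 y)) tail))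
      fun e => cond (Nat.beq (Nat.mul (Nat.land π e) 15) (Nat.mul e 7))
        (Nat.beq (pad π R) (Nat.land A (Nat.land (rcm x) (rcm y)))) false) false

/-- certificate field of 40 bits -/
def cfd (c t : ℕ) : ℕ := bts 1099511627775 c t

/-- deletions of one position, order `n`; `len` representatives -/
noncomputable def dk1 (n n' len tail : ℕ) (RT : Tr) (A c : ℕ) : Bool :=
  allL (fun x => fc (cfd c (Nat.mul 40 x)) fun d =>
    cond (Nat.ble (Nat.succ (Nat.land d 255)) len)
    (fc (get RT (Nat.land d 255)) fun R => fc (Nat.shiftRight d 8) fun π => dck n' tail A R π x x)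
    false) n

/-- deletions of two positions `x < y`, order `n`; `len` representatives -/
noncomputable def dk2 (n n' len tail : ℕ) (RT : Tr) (A c : ℕ) : Bool :=
  allL (fun y => allL (fun x =>
    fc (cfd c (Nat.add (Nat.mul 320 y) (Nat.mul 40 x))) fun d =>
    cond (Nat.ble (Nat.succ (Nat.land d 255)) len)
    (fc (get RT (Nat.land d 255)) fun R => fc (Nat.shiftRight d 8) fun π => dck n' tail A R π x y)
    false) y) n

/-! ### tables of a pattern -/

/-- entries of `w` without `x` -/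
noncomputable def gU (n M16 MU M192 : ℕ) (TU : Tr) (c : ℕ) : ℕ :=
  sumL (fun x => fc (cfd c (Nat.mul 40 x)) fun d => fc (get TU (Nat.land d 255)) fun T =>
    fc (Nat.shiftRight d 8) fun π => Nat.shiftLeft (tbU M16 MU M192 π T) (Nat.mul 1536 x)) n 0

/-- entries of `w, z` without `x, y` -/
noncomputable def gE2 (n M16 MU M192 M1536 : ℕ) (TE : Tr) (c : ℕ) : ℕ :=
  sumL (fun y => sumL (fun x =>
    fc (cfd c (Nat.add (Nat.mul 320 y) (Nat.mul 40 x))) fun d =>
    fc (get TE (Nat.land d 255)) fun T => fc (Nat.shiftRight d 8) fun π =>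
    fc (tbE M16 MU M192 M1536 π T) fun B =>
      Nat.add (Nat.shiftLeft B (Nat.add (Nat.mul 98304 x) (Nat.mul 12288 y)))
        (Nat.shiftLeft B (Nat.add (Nat.mul 98304 y) (Nat.mul 12288 x)))) y 0) n 0

/-- entries of `w, z` without `y` -/
noncomputable def gE1 (n M16 MU M192 M1536 : ℕ) (TE : Tr) (c : ℕ) : ℕ :=
  sumL (fun y => fc (cfd c (Nat.mul 40 y)) fun d => fc (get TE (Nat.land d 255)) fun T =>
    fc (Nat.shiftRight d 8) fun π => Nat.shiftLeft (tbE M16 MU M192 M1536 π T) (Nat.mul 12288 y)) n 0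

/-- sum of the tables `D` -/
noncomputable def gD (n Z Z8 MZ M8 : ℕ) (DT : Tr) (c : ℕ) : ℕ :=
  sumL (fun x => fc (cfd c (Nat.mul 40 x)) fun d => fc (get DT (Nat.land d 255)) fun D =>
    fc (Nat.shiftRight d 8) fun π => tbD Z Z8 MZ M8 π D) n 0

/-- the rows of the factor `lambda` -/
noncomputable def gL (n Z Z8 MZ M8 : ℕ) (PT : Tr) (A c : ℕ) : ℕ :=
  sumL (fun x => fc (cfd c (Nat.mul 40 x)) fun d => fc (get PT (Nat.land d 255)) fun D =>
    fc (Nat.shiftRight d 8) fun π => fc (tbD Z Z8 MZ M8 π D) fun P =>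
      Nat.shiftLeft (sumL (fun k => cond (bt A (Nat.add (Nat.mul 8 k) x))
        (bts MZ P (Nat.mul Z k)) 0) n 0) (Nat.mul Z x)) n 0

/-- the final comparison: `2 (L - R) (i, i) + ∑ j ≠ i, max ((L - R) (i, j) + (L - R) (j, i)) 0 ≤ 0` -/
noncomputable def cmp (n Z Z8 mZ L R : ℕ) : Bool :=
  allL (fun i => fc (Nat.add (Nat.mul Z i) (Nat.mul Z8 i)) fun d =>
    Nat.ble (sumL (fun j => cond (Nat.beq j i) 0
      (fc (Nat.add (Nat.mul Z i) (Nat.mul Z8 j)) fun s =>
       fc (Nat.add (Nat.mul Z j) (Nat.mul Z8 i)) fun t =>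
        Nat.sub (Nat.add (bts mZ L s) (bts mZ L t)) (Nat.add (bts mZ R s) (bts mZ R t)))) n
      (Nat.mul 2 (bts mZ L d))) (Nat.mul 2 (bts mZ R d))) n

/-- constants of the final comparison: `lo1`, `hi1` masks and shift `c1` of the contribution
tables, `lo2`, `hi2`, `c2` of the tables `D`, `P`; offsets `o1`, `o2` -/
noncomputable def fin (n Z Z8 mZ c1 lo1 hi1 o1 c2 lo2 hi2 o2 m q XU XE XD XP : ℕ) : Bool :=
  fc (Nat.add (Nat.add (Nat.mul 2 (Nat.land XU lo1)) (Nat.mul (Nat.mul 2 m) (Nat.land XE lo1)))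
      (Nat.add (Nat.land XP lo2) (Nat.mul (Nat.mul q o2) (bts hi2 XD c2)))) fun L =>
  fc (Nat.add (Nat.mul o1 (Nat.add (Nat.mul 2 (bts hi1 XU c1)) (Nat.mul (Nat.mul 2 m) (bts hi1 XE c1))))
      (Nat.add (Nat.mul o2 (bts hi2 XP c2)) (Nat.mul q (Nat.land XD lo2)))) fun R =>
  cmp n Z Z8 mZ L R

/-! ### hash -/

/-- colour, fields of 8 bits -/
def cl (C v : ℕ) : ℕ := bts 255 C (Nat.mul 8 v)

/-- masks of the neighbourhoods: fields of `w` bits, `m = 2 ^ w - 1`, stride `8 w` -/
noncomputable def mkM (w m A : ℕ) : ℕ :=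
  sumL (fun v => sumL (fun u => cond (bt A (Nat.add (Nat.mul 8 v) u))
    (Nat.shiftLeft m (Nat.mul w (Nat.add (Nat.mul 8 v) u))) 0) 8 0) 8 0

/-- `c v * (1 + ∑ u ~ v, X u)`; fields of `w` bits, `w8 = 8 w`, `m = 2 ^ w - 1`, `m8 = 2 ^ w8 - 1` -/
def hst (m w8 m8 MV C X v : ℕ) : ℕ :=
  Nat.mul (cl C v) (Nat.add 1 (Nat.mod (Nat.land X (bts m8 MV (Nat.mul w8 v))) m))

/-- the invariant of the coloured pattern -/
noncomputable def hsP (MV MW C : ℕ) : ℕ :=
  fc (sumL (fun v => fc (cl C v) fun c => Nat.shiftLeft (Nat.mul c c) (Nat.mul 16 v)) 8 0) fun X =>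
  fc (sumL (fun v => fc (hst 65535 128 340282366920938463463374607431768211455 MV C X v) fun c =>
    Nat.shiftLeft (Nat.mul c c) (Nat.mul 40 v)) 8 0) fun Y =>
  sumL (fun v => fc (hst 1099511627775 320
    2135987035920910082395021706169552114602704522356652769947041607822219725780640550022962086936575
    MW C Y v) fun c => Nat.mul c c) 8 0

/-! ### check of the entries -/

/-- stride of a type with `k` columns -/
def strd (W Z8 k : ℕ) : ℕ :=
  fc (Nat.mul W (Nat.succ k)) fun a => cond (Nat.ble Z8 a) a Z8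

/-- one position of an entry; `r` the row, `ty` the type, `k` the number of columns, `fs` the rows of
the slots of the bundle -/
def ckp (ty k fs r f : ℕ) : Bool :=
  fc (Nat.land f 255) fun col => fc (bts 15 f 8) fun sl =>
    cond (Nat.beq r 65535) (cond (Nat.beq col k) (Nat.beq sl 15) false)
      (cond (Nat.beq r (Nat.add (Nat.mul 256 ty) col))
        (cond (Nat.ble (Nat.succ col) k) (cond (Nat.ble sl 7)
          (Nat.beq (bts 65535 fs (Nat.mul 16 sl)) r) false) false) false)

/-- an entry; `rw i` the row of the position `i < n`; `nu`: rows may be absent; `nB` bundles -/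
noncomputable def cke (nu : Bool) (W Z8 NT n nB : ℕ) (FS : Tr) (e : ℕ) (rw : ℕ → ℕ) : Bool :=
  fc (bts 255 e 168) fun ty => fc (bts 255 NT (Nat.mul 8 ty)) fun k =>
  fc (get FS (bts 65535 e 128)) fun fs =>
  cond (Nat.ble (Nat.succ (bts 65535 e 128)) nB) (cond (Nat.beq (bts 16777215 e 144) (strd W Z8 k))
    (allL (fun i => cond (Nat.ble (Nat.succ i) n)
      (fc (rw i) fun r => cond (cond nu true (Nat.ble (Nat.succ r) 65535))
        (ckp ty k fs r (bts 65535 e (Nat.mul 16 i))) false)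
      (ckp ty k fs 65535 (bts 65535 e (Nat.mul 16 i)))) 8) false) false

/-- base colours of order `n` -/
noncomputable def cb (n : ℕ) : ℕ := sumL (fun v => Nat.shiftLeft 2 (Nat.mul 8 v)) n 0

/-- check of the entries of `w`, pattern `A` of order `n` -/
noncomputable def ckU (W Z8 NT n nB : ℕ) (FS : Tr) (H : St) (A T : ℕ) : Bool :=
  fc (mkM 16 65535 A) fun MV => fc (mkM 40 1099511627775 A) fun MW => fc (cb n) fun B =>
  allL (fun w => fc (Nat.add B (Nat.shiftLeft 1 (Nat.mul 8 w))) fun Bw =>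
    fc (ent T (Nat.mul 192 w)) fun e =>
    cke false W Z8 NT n nB FS e fun i =>
      fc (Nat.add Bw (Nat.shiftLeft 10 (Nat.mul 8 i))) fun C => fc (hsP MV MW C) fun h =>
        fnd H h) n

/-- check of the entries of `w, z`, pattern `A` of order `n`; `v ≠ 0`: also the rows for `V` -/
noncomputable def ckE (W Z8 NT n nB v : ℕ) (FS FV : Tr) (H HV : St) (A T : ℕ) : Bool :=
  fc (mkM 16 65535 A) fun MV => fc (mkM 40 1099511627775 A) fun MW => fc (cb n) fun B =>
  allL (fun w => fc (Nat.add B (Nat.shiftLeft 1 (Nat.mul 8 w))) fun Bw =>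
    allL (fun z => cond (Nat.beq z w) true
    (fc (Nat.add Bw (Nat.shiftLeft 3 (Nat.mul 8 z))) fun Bz =>
    fc (ent T (Nat.add (Nat.mul 1536 w) (Nat.mul 192 z))) fun e =>
    cond (cke true W Z8 NT n nB FS e fun i =>
      fc (Nat.add Bz (Nat.shiftLeft 10 (Nat.mul 8 i))) fun C => fc (hsP MV MW C) fun h =>
        fnd H h)
      (cond (Nat.beq v 0) true
        (fc (Nat.add Bz (Nat.shiftLeft 10 (Nat.mul 8 w))) fun C => fc (hsP MV MW C) fun h =>
          fc (fnd HV h) fun r => cond (Nat.beq (bts 65535 e 176) r)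
            (Nat.beq (get FV (bts 65535 e 128)) r) false)) false)) n) n

/-! ### rows and bundles -/

/-- the row `id`: `WH` gives the bundle and the slot -/
noncomputable def rowP (W Z8 NT : ℕ) (B WH : Tr) (id : ℕ) : ℕ :=
  fc (get WH id) fun f => fc (get B (Nat.shiftRight f 4)) fun R =>
  fc (strd W Z8 (bts 255 NT (Nat.mul 8 (Nat.shiftRight id 8)))) fun S =>
  Nat.mod (Nat.shiftRight R (Nat.mul S (Nat.land f 15))) (Nat.shiftLeft 1 S)

/-- the bundle `F` consists of the rows of its slots, of one type -/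
noncomputable def ckb (W Z8 NT : ℕ) (B WH FS : Tr) (F : ℕ) : Bool :=
  fc (get B F) fun R => fc (get FS F) fun fs => fc (bts 255 fs 8) fun ty =>
  fc (strd W Z8 (bts 255 NT (Nat.mul 8 ty))) fun S =>
  cond (allL (fun s => fc (bts 65535 fs (Nat.mul 16 s)) fun id =>
      cond (Nat.beq id 65535) true (Nat.beq (Nat.shiftRight id 8) ty)) 8)
    (Nat.beq R (sumL (fun s => fc (bts 65535 fs (Nat.mul 16 s)) fun id =>
      cond (Nat.beq id 65535) 0 (fc (rowP W Z8 NT B WH id) fun v => Nat.shiftLeft v (Nat.mul S s)))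
      8 0)) false

/-! ### semidefiniteness -/

/-- list of the forced values `f (n-1), ..., f 0` put in front of `l`, and continuation -/
noncomputable def lstK (f : ℕ → ℕ) (k : List ℕ → Bool) (n : ℕ) : List ℕ → Bool :=
  Nat.rec (motive := fun _ => List ℕ → Bool) k (fun i ih l => fc (f i) fun v => ih (v :: l)) n

/-- fold of a list -/
noncomputable def fld (g : ℕ → ℕ → ℕ) (l : List ℕ) : ℕ → ℕ :=
  List.rec (motive := fun _ => ℕ → ℕ) (fun a => a) (fun v _ ih a => fc (g v a) ih) l

/-- column `r` of a list of rows, last row first: `∑ k, (field r of row k) <<< (W k)` -/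
noncomputable def colP (W m r : ℕ) (l : List ℕ) : ℕ :=
  List.rec (motive := fun _ => ℕ) 0 (fun v _ ih =>
    Nat.add (bts m v (Nat.mul W r)) (Nat.shiftLeft ih W)) l

/-- all rows of a list equal the columns; `l` the full list, index from `r` on -/
noncomputable def symP (W m : ℕ) (l0 l : List ℕ) : ℕ → Bool :=
  List.rec (motive := fun _ => ℕ → Bool) (fun _ => true)
    (fun v _ ih r => cond (Nat.beq (colP W m r l0) v) (fc (Nat.succ r) ih) false) l

/-- the fields of a row are valid: `on = ∑ k < n, 2 ^ (W k)` -/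
def vld (on cb vb v : ℕ) : Bool :=
  cond (Nat.beq (Nat.land v (Nat.mul on cb)) (Nat.mul on cb))
    (Nat.beq (Nat.land v (Nat.mul on (Nat.add cb vb))) v) false

/-- `∑ k < n, 2 ^ (W k)` -/
noncomputable def ones (W n : ℕ) : ℕ := sumL (fun k => Nat.shiftLeft 1 (Nat.mul W k)) n 0

/-- products of the row `r` of `L` with the rows `k ≥ r`, and sums; continuation with both;
`ml = 2 ^ W - 1` -/
noncomputable def prd (W mW : ℕ) (k : ℕ → ℕ → Bool) (l : List ℕ) : ℕ → ℕ → ℕ → Bool :=
  List.rec (motive := fun _ => ℕ → ℕ → ℕ → Bool) (fun _ P S => k P S)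
    (fun v _ ih d P S =>
      fc (Nat.shiftRight v (Nat.mul W d)) fun y =>
      fc (Nat.add P (Nat.mul (Nat.land y mW) y)) fun P' => fc (Nat.add S y) fun S' =>
      cond (Nat.beq d 0) (k P' S') (fc (Nat.pred d) fun d' => ih d' P' S')) l

/-- check of the row `r`: `v` row of the matrix, `Λ` columns of `L`; `on = ∑ k < m - r, 2 ^ (W k)`,
`vb` mask of the values, `s` scale, `oc` offset of the matrix, `ol` offset of `L`, `Δ`, `ε`,
`me = 2 ^ e - 1` -/
noncomputable def rwP (W mW vb s oc ol Δ ε me : ℕ) (Λ : List ℕ) (v r on : ℕ) : Bool :=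
  fc (Nat.land (Nat.shiftRight v (Nat.mul W r)) (Nat.mul on vb)) fun sp =>
  prd W mW (fun P S =>
    fc (Nat.add (Nat.mul s sp) (Nat.add (Nat.mul ol S)
      (Nat.mul (Nat.add (Nat.mul ol (Nat.land S mW)) ε) on))) fun A =>
    fc (Nat.add P (Nat.add (Nat.mul (Nat.add (Nat.mul s oc) (Nat.mul (Nat.succ r) (Nat.mul ol ol))) on)
      Δ)) fun B =>
    cond (Nat.ble B A) (fc (Nat.sub A B) fun D => Nat.beq (Nat.land D (Nat.mul on me)) D) false)
    Λ r 0 0

/-- check of the rows; `l` the rows from `r` on -/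
noncomputable def rwsP (W mW vb s oc ol Δ ε me : ℕ) (Λ : List ℕ) (l : List ℕ) : ℕ → ℕ → Bool :=
  List.rec (motive := fun _ => ℕ → ℕ → Bool) (fun _ _ => true)
    (fun v _ ih r on => cond (Nat.beq on 0) true
      (cond (rwP W mW vb s oc ol Δ ε me Λ v r on)
        (fc (Nat.succ r) fun r' => fc (Nat.shiftRight on W) fun on' => ih r' on') false)) l

/-- fields of the columns `Λ` are valid: the column `a` has `m - a` fields below `2 ^ bl`,
`ml = 2 ^ bl - 1` -/
noncomputable def vlL (W ml : ℕ) (l : List ℕ) : ℕ → Bool :=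
  List.rec (motive := fun _ => ℕ → Bool) (fun on => Nat.beq on 0)
    (fun v _ ih on => cond (Nat.beq (Nat.land v (Nat.mul on ml)) v)
      (fc (Nat.shiftRight on W) ih) false) l

/-- `∑ x, (field x of co) * v x`; fields of 16 bits -/
noncomputable def lin (l : List ℕ) : ℕ → ℕ :=
  List.rec (motive := fun _ => ℕ → ℕ) (fun _ => 0)
    (fun v _ ih co => Nat.add (Nat.mul (Nat.land co 65535) v)
      (fc (Nat.shiftRight co 16) fun co' => ih co')) l

/-- sum of the fields of 16 bits -/
noncomputable def sf (co n : ℕ) : ℕ := sumL (fun x => bts 65535 co (Nat.mul 16 x)) n 0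

/-- relation `c v = ∑ (bp x - bn x) row x`; `o = (offset of the rows) * ones` -/
noncomputable def rlP (o n : ℕ) (l : List ℕ) (v c bp bn : ℕ) : Bool :=
  fc (sf bp n) fun sp => fc (sf bn n) fun sn =>
  cond (Nat.ble (Nat.add c (Nat.add sp sn)) 4095) (cond (Nat.ble 1 c)
    (Nat.beq (Nat.add (Nat.mul c v) (Nat.add (lin l bn) (Nat.mul sp o)))
      (Nat.add (lin l bp) (Nat.mul (Nat.add c sn) o))) false) false

/-- relations of the dependent rows; `co` gives `c, bp, bn` of the rows in turn, fields of `w`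
bits; `l` all rows, the second list the rows from `m` on -/
noncomputable def rlsP (o m : ℕ) (w : ℕ) (l l' : List ℕ) : ℕ → Bool :=
  List.rec (motive := fun _ => ℕ → Bool) (fun _ => true)
    (fun v _ ih co => cond (rlP o m l v (Nat.mod co (Nat.shiftLeft 1 w))
        (Nat.mod (Nat.shiftRight co w) (Nat.shiftLeft 1 w))
        (Nat.mod (Nat.shiftRight co (Nat.mul 2 w)) (Nat.shiftLeft 1 w)))
      (fc (Nat.shiftRight co (Nat.mul 3 w)) fun co' => ih co') false) l'

/-- all fields of all rows are valid -/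
noncomputable def vldL (on cb vb : ℕ) (l : List ℕ) : Bool :=
  List.rec (motive := fun _ => Bool) true (fun v _ ih => cond (vld on cb vb v) ih false) l

/-- list without its first `n` entries -/
noncomputable def drp (n : ℕ) : List ℕ → List ℕ :=
  Nat.rec (motive := fun _ => List ℕ → List ℕ) (fun l => l)
    (fun _ ih l => ih (List.rec (motive := fun _ => List ℕ) [] (fun _ t _ => t) l)) n

/-- check of a type: `n` rows `l`, the first `m` are independent -/
noncomputable def psT (W mW cb vb n m s ol Δ ε e ml w co : ℕ) (Λ l : List ℕ) : Bool :=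
  fc (ones W n) fun on => fc (ones W m) fun om =>
  cond (Nat.ble 1 s) (cond (Nat.ble m n) (cond (Nat.ble w (Nat.mul 16 m)) (
  cond (Nat.ble (Nat.add (Nat.mul s (Nat.succ vb)) (Nat.add (Nat.mul (Nat.mul 2 ol)
      (Nat.mul m (Nat.succ ml))) ε)) mW)
  (cond (Nat.ble (Nat.add (Nat.mul m (Nat.mul (Nat.succ ml) (Nat.succ ml)))
      (Nat.add (Nat.mul s (Nat.succ vb)) (Nat.add (Nat.mul m (Nat.mul ol ol))
        (Nat.add Δ (Nat.shiftLeft 1 e))))) mW)
  (cond (vldL on cb vb l) (cond (symP W mW l l 0)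
    (cond (vlL W ml Λ om)
      (cond (Nat.ble (Nat.mul m ε) Δ) (cond (Nat.ble (Nat.shiftLeft 1 e) (Nat.mul 2 ε))
        (cond (rwsP W mW vb s (Nat.div (Nat.succ vb) 2) ol Δ ε (Nat.sub (Nat.shiftLeft 1 e) 1) Λ l 0 om)
          (fc (Nat.mul on (Nat.add cb (Nat.div (Nat.succ vb) 2))) fun o =>
            rlsP o m w l (drp m l) co) false) false) false) false) false) false) false) false) false)
  false) false

/-- the rows minus the product of `b` with itself; `bp`, `bn` fields of `W` bits -/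
noncomputable def subB (W mW bp bn : ℕ) (l : List ℕ) : ℕ → List ℕ → (List ℕ → Bool) → Bool :=
  List.rec (motive := fun _ => ℕ → List ℕ → (List ℕ → Bool) → Bool) (fun _ acc k => k acc)
    (fun v _ ih t acc k =>
      fc (Nat.sub (Nat.add v (Nat.add (Nat.mul (bts mW bp t) bn) (Nat.mul (bts mW bn t) bp)))
        (Nat.add (Nat.mul (bts mW bp t) bp) (Nat.mul (bts mW bn t) bn))) fun v' =>
      fc (Nat.sub t W) fun t' => ih t' (v' :: acc) k) l

/-! ### classification -/

/-- symmetric without loops, no bits outside `n` -/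
noncomputable def ckA (n A : ℕ) : Bool :=
  allL (fun i => cond (bt A (Nat.mul 9 i)) false (allL (fun j =>
    Nat.beq (bts 1 A (Nat.add (Nat.mul 8 i) j)) (bts 1 A (Nat.add (Nat.mul 8 j) i))) i)) n

/-- the extension of `A` (order `n`) by a vertex with neighbourhood `k` contains a complete graph on
`s` vertices -/
noncomputable def bad (s A k a b c : ℕ) : Bool :=
  cond (bt k a) (cond (bt k b) (cond (bt A (Nat.add (Nat.mul 8 a) b))
    (cond (Nat.beq s 3) true
      (cond (bt k c) (cond (bt A (Nat.add (Nat.mul 8 a) c)) (bt A (Nat.add (Nat.mul 8 b) c)) false)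
        false)) false) false) false

/-- one extension; `d` certificate of 48 bits: bit 0 kind, then `index (11 bits)`, `π (32 bits)` or
`a, b, c` (4 bits) -/
noncomputable def ckx (s n n1 tail len : ℕ) (RT : Tr) (A k d : ℕ) : Bool :=
  cond (Nat.beq (Nat.land d 1) 0)
    (fc (bts 2047 d 1) fun j => fc (Nat.shiftRight d 12) fun π =>
      cond (Nat.ble (Nat.succ j) len) (cond (Nat.beq (orP π) (Nat.lor (Nat.sub (Nat.shiftLeft 1 n1) 1) 128))
        (cond (Nat.beq (Nat.mul (Nat.land π tail) 15) (Nat.mul tail 7))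
          (fc (get RT j) fun R => fc (pad π R) fun B =>
            cond (Nat.beq (Nat.land B (rcm n)) A) (Nat.beq (Nat.shiftRight B (Nat.mul 8 n)) k) false)
          false) false) false)
    (bad s A k (bts 15 d 1) (bts 15 d 5) (bts 15 d 9))

/-- all extensions of `A`; `c` the certificate -/
noncomputable def ckX (s n n1 tail len : ℕ) (RT : Tr) (A c : ℕ) : Bool :=
  allL (fun k => fc (bts 281474976710655 c (Nat.mul 48 k)) fun d =>
    ckx s n n1 tail len RT A k d) (Nat.shiftLeft 1 n)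

end Pool.Agent.Work.MP_f94384_co.Big
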