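import Pool.Agent.Work.MP_f94384_co.Big.P_INV

/-!
# Pattern sums of sums over placements
-/

set_option autoImplicit false
set_option linter.unusedSectionVars false
set_option linter.unusedDecidableInType false
set_option linter.unusedFintypeInType false

open Finset

namespace Pool.Agent.Work.MP_f94384_co.Big

open Pool.Agent.Work.MP_f94384_co.Flag

/-- the permutation `σ` of the first `N` positions as a function -/
def fx {N : ℕ} (σ : Equiv.Perm (Fin N)) (a : ℕ) : ℕ := if h : a < N then (σ ⟨a, h⟩ : ℕ) else a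

theorem fx_coe {N : ℕ} (σ : Equiv.Perm (Fin N)) (a : Fin N) : fx σ a = (σ a : ℕ) := by
  unfold fx
  rw [dif_pos a.2]

theorem fx_permN {N : ℕ} (σ : Equiv.Perm (Fin N)) : PermN N (fx σ) := by
  refine ⟨?_, ?_, ?_⟩
  · intro a ha
    have ha' : a < N := mem_range.1 (mem_coe.1 ha)
    have : fx σ a = (σ ⟨a, ha'⟩ : ℕ) := fx_coe σ ⟨a, ha'⟩
    rw [this]
    exact mem_coe.2 (mem_range.2 (σ ⟨a, ha'⟩).2)
  · intro a ha b hb h
    have ha' : a < N := mem_range.1 (mem_coe.1 ha)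
    have hb' : b < N := mem_range.1 (mem_coe.1 hb)
    have e1 : fx σ a = (σ ⟨a, ha'⟩ : ℕ) := fx_coe σ ⟨a, ha'⟩
    have e2 : fx σ b = (σ ⟨b, hb'⟩ : ℕ) := fx_coe σ ⟨b, hb'⟩
    rw [e1, e2] at h
    have := σ.injective (Fin.ext h)
    simpa using this
  · intro a ha
    have ha' : a < N := mem_range.1 (mem_coe.1 ha)
    refine ⟨(σ.symm ⟨a, ha'⟩ : ℕ), mem_coe.2 (mem_range.2 (σ.symm ⟨a, ha'⟩).2), ?_⟩
    rw [fx_coe]
    simp

theorem exists_fx {N n : ℕ} (a b : Fin n → ℕ) (ha : ∀ s, a s < N) (hb : ∀ s, b s < N)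
    (ia : Function.Injective a) (ib : Function.Injective b) :
    ∃ σ : Equiv.Perm (Fin N), ∀ s, fx σ (a s) = b s := by
  set A : Fin n ↪ Fin N := ⟨fun s => ⟨a s, ha s⟩, fun s t h => ia (by simpa using h)⟩
  set B : Fin n ↪ Fin N := ⟨fun s => ⟨b s, hb s⟩, fun s t h => ib (by simpa using h)⟩
  obtain ⟨σ, hσ⟩ := (Equiv.Perm.isMultiplyPretransitive (Fin N) n).exists_smul_eq A B
  refine ⟨σ, fun s => ?_⟩
  have h1 : (σ • A) s = B s := by rw [hσ]
  have h2 : fx σ (a s) = (σ (A s) : ℕ) := fx_coe σ (A s)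
  rw [h2]
  have h3 : (σ • A) s = σ (A s) := rfl
  rw [← h3, h1]
  rfl

section

variable {V : Type} [Fintype V] [DecidableEq V]

/-- relabelling the positions does not change a pattern sum -/
theorem Phi_relabel (G : SimpleGraph V) (x : V → ℝ) {N : ℕ} (σ : Equiv.Perm (Fin N))
    (A B : Pat → ℕ → ℕ → ℤ)
    (h : ∀ p p' : Pat, (∀ i < N, ∀ j < N, p i j = p' (fx σ i) (fx σ j)) →
      ∀ i < N, ∀ j < N, B p i j = A p' (fx σ i) (fx σ j)) :
    Phi G x N (fun p i j => (A p i j : ℝ)) = Phi G x N (fun p i j => (B p i j : ℝ)) := by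
  unfold Phi
  rw [← Equiv.sum_comp (Equiv.arrowCongr σ.symm (Equiv.refl V)) (fun v : Fin N → V =>
    ∑ i : Fin N, ∑ j : Fin N, (B (pat G v) i j : ℝ) * x (v i) * x (v j))]
  refine sum_congr rfl fun v _ => ?_
  have hv : (Equiv.arrowCongr σ.symm (Equiv.refl V)) v = fun i => v (σ i) := by
    funext i
    rfl
  rw [hv]
  rw [← Equiv.sum_comp σ (fun i : Fin N => ∑ j : Fin N,
    (A (pat G v) i j : ℝ) * x (v i) * x (v j))]
  refine sum_congr rfl fun i _ => ?_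
  rw [← Equiv.sum_comp σ (fun j : Fin N => (A (pat G v) (σ i : Fin N) j : ℝ) * x (v (σ i)) * x (v j))]
  refine sum_congr rfl fun j _ => ?_
  have hp : ∀ i < N, ∀ j < N, pat G (fun i => v (σ i)) i j = pat G v (fx σ i) (fx σ j) := by
    intro i hi j hj
    have e1 : fx σ i = (σ ⟨i, hi⟩ : ℕ) := fx_coe σ ⟨i, hi⟩
    have e2 : fx σ j = (σ ⟨j, hj⟩ : ℕ) := fx_coe σ ⟨j, hj⟩
    rw [e1, e2]
    unfold pat
    rw [dif_pos ⟨hi, hj⟩, dif_pos ⟨(σ ⟨i, hi⟩).2, (σ ⟨j, hj⟩).2⟩]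
  have := h _ _ hp i i.2 j j.2
  rw [this, fx_coe, fx_coe]

/-- invariant tables depending on four positions -/
structure Inv4 (N : ℕ) (Q : ℕ → ℕ → ℕ → ℕ → Pat → ℕ → ℕ → ℤ) : Prop where
  inv : ∀ (σ : ℕ → ℕ) (p p' : Pat), PermN N σ → (∀ i < N, ∀ j < N, p i j = p' (σ i) (σ j)) →
    ∀ w < N, ∀ z < N, ∀ a < N, ∀ b < N, ∀ i < N, ∀ j < N,
      Q w z a b p i j = Q (σ w) (σ z) (σ a) (σ b) p' (σ i) (σ j)
  zero : ∀ w z a b, ¬ (w ≠ z ∧ w ≠ a ∧ w ≠ b ∧ z ≠ a ∧ z ≠ b ∧ a ≠ b) → ∀ p i j,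
    Q w z a b p i j = 0

/-- the number of placements of four points -/
def c4 (N : ℕ) : ℤ := ∑ w ∈ range N, ∑ z ∈ range N, ∑ a ∈ range N, ∑ b ∈ range N,
  if w ≠ z ∧ w ≠ a ∧ w ≠ b ∧ z ≠ a ∧ z ≠ b ∧ a ≠ b then 1 else 0

theorem inj4 {N : ℕ} {w z a b : ℕ} (h : w ≠ z ∧ w ≠ a ∧ w ≠ b ∧ z ≠ a ∧ z ≠ b ∧ a ≠ b)
    (hw : w < N) (hz : z < N) (ha : a < N) (hb : b < N) :
    (∀ s, (![w, z, a, b] : Fin 4 → ℕ) s < N) ∧ Function.Injective (![w, z, a, b] : Fin 4 → ℕ) := by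
  obtain ⟨h1, h2, h3, h4, h5, h6⟩ := h
  constructor
  · intro s
    fin_cases s <;> simpa
  · intro s t hst
    fin_cases s <;> fin_cases t <;> simp at hst ⊢ <;> omega

theorem Phi_four (G : SimpleGraph V) (x : V → ℝ) {N : ℕ}
    {Q : ℕ → ℕ → ℕ → ℕ → Pat → ℕ → ℕ → ℤ} (hQ : Inv4 N Q) {w0 z0 a0 b0 : ℕ}
    (h0 : w0 ≠ z0 ∧ w0 ≠ a0 ∧ w0 ≠ b0 ∧ z0 ≠ a0 ∧ z0 ≠ b0 ∧ a0 ≠ b0)
    (hw0 : w0 < N) (hz0 : z0 < N) (ha0 : a0 < N) (hb0 : b0 < N) :
    Phi G x N (fun p i j => ((∑ w ∈ range N, ∑ z ∈ range N, ∑ a ∈ range N, ∑ b ∈ range N,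
      Q w z a b p i j : ℤ) : ℝ)) = (c4 N : ℝ) * Phi G x N (fun p i j => (Q w0 z0 a0 b0 p i j : ℝ)) := by
  have key : ∀ w < N, ∀ z < N, ∀ a < N, ∀ b < N,
      Phi G x N (fun p i j => (Q w z a b p i j : ℝ)) =
        ((if w ≠ z ∧ w ≠ a ∧ w ≠ b ∧ z ≠ a ∧ z ≠ b ∧ a ≠ b then 1 else 0 : ℤ) : ℝ) *
          Phi G x N (fun p i j => (Q w0 z0 a0 b0 p i j : ℝ)) := by
    intro w hw z hz a ha b hb
    by_cases h : w ≠ z ∧ w ≠ a ∧ w ≠ b ∧ z ≠ a ∧ z ≠ b ∧ a ≠ b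
    · rw [if_pos h]
      obtain ⟨l0, i0⟩ := inj4 h0 hw0 hz0 ha0 hb0
      obtain ⟨l1, i1⟩ := inj4 h hw hz ha hb
      obtain ⟨σ, hσ⟩ := exists_fx _ _ l0 l1 i0 i1
      have e0 : fx σ w0 = w := hσ 0
      have e1 : fx σ z0 = z := hσ 1
      have e2 : fx σ a0 = a := hσ 2
      have e3 : fx σ b0 = b := hσ 3
      rw [Phi_relabel G x σ (fun p i j => Q w z a b p i j) (fun p i j => Q w0 z0 a0 b0 p i j)]
      · simp
      · intro p p' hp i hi j hj
        have := hQ.inv (fx σ) p p' (fx_permN σ) hp w0 hw0 z0 hz0 a0 ha0 b0 hb0 i hi j hj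
        rw [e0, e1, e2, e3] at this
        exact this
    · rw [if_neg h]
      have : (fun (p : Pat) (i j : ℕ) => (Q w z a b p i j : ℝ)) = fun _ _ _ => 0 := by
        funext p i j
        rw [hQ.zero w z a b h]
        simp
      rw [this]
      unfold Phi
      simp
  have e : (fun (p : Pat) (i j : ℕ) => ((∑ w ∈ range N, ∑ z ∈ range N, ∑ a ∈ range N,
      ∑ b ∈ range N, Q w z a b p i j : ℤ) : ℝ)) = fun p i j => ∑ w ∈ range N, ∑ z ∈ range N,
      ∑ a ∈ range N, ∑ b ∈ range N, (Q w z a b p i j : ℝ) := by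
    funext p i j
    push_cast
    rfl
  rw [e, Phi_sum G x N (range N) (fun w p i j => ∑ z ∈ range N,
      ∑ a ∈ range N, ∑ b ∈ range N, (Q w z a b p i j : ℝ))]
  unfold c4
  push_cast
  rw [sum_mul]
  refine sum_congr rfl fun w hw => ?_
  rw [Phi_sum G x N (range N) (fun z p i j =>
      ∑ a ∈ range N, ∑ b ∈ range N, (Q w z a b p i j : ℝ)), sum_mul]
  refine sum_congr rfl fun z hz => ?_
  rw [Phi_sum G x N (range N) (fun a p i j => ∑ b ∈ range N, (Q w z a b p i j : ℝ)), sum_mul]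
  refine sum_congr rfl fun a ha => ?_
  rw [Phi_sum G x N (range N) (fun b p i j => (Q w z a b p i j : ℝ)), sum_mul]
  refine sum_congr rfl fun b hb => ?_
  rw [key w (mem_range.1 hw) z (mem_range.1 hz) a (mem_range.1 ha) b (mem_range.1 hb)]
  push_cast
  rfl

/-- invariant tables depending on two positions -/
structure Inv2 (N : ℕ) (Q : ℕ → ℕ → Pat → ℕ → ℕ → ℤ) : Prop where
  inv : ∀ (σ : ℕ → ℕ) (p p' : Pat), PermN N σ → (∀ i < N, ∀ j < N, p i j = p' (σ i) (σ j)) →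
    ∀ w < N, ∀ a < N, ∀ i < N, ∀ j < N, Q w a p i j = Q (σ w) (σ a) p' (σ i) (σ j)
  zero : ∀ w p i j, Q w w p i j = 0

/-- the number of placements of two points -/
def c2 (N : ℕ) : ℤ := ∑ w ∈ range N, ∑ a ∈ range N, if w ≠ a then 1 else 0

theorem Phi_two (G : SimpleGraph V) (x : V → ℝ) {N : ℕ}
    {Q : ℕ → ℕ → Pat → ℕ → ℕ → ℤ} (hQ : Inv2 N Q) {w0 a0 : ℕ}
    (h0 : w0 ≠ a0) (hw0 : w0 < N) (ha0 : a0 < N) :
    Phi G x N (fun p i j => ((∑ w ∈ range N, ∑ a ∈ range N, Q w a p i j : ℤ) : ℝ)) =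
      (c2 N : ℝ) * Phi G x N (fun p i j => (Q w0 a0 p i j : ℝ)) := by
  have key : ∀ w < N, ∀ a < N,
      Phi G x N (fun p i j => (Q w a p i j : ℝ)) =
        ((if w ≠ a then 1 else 0 : ℤ) : ℝ) *
          Phi G x N (fun p i j => (Q w0 a0 p i j : ℝ)) := by
    intro w hw a ha
    by_cases h : w ≠ a
    · rw [if_pos h]
      obtain ⟨σ, hσ⟩ := exists_fx (N := N) (![w0, a0] : Fin 2 → ℕ) ![w, a]
        (by intro s; fin_cases s <;> simpa) (by intro s; fin_cases s <;> simpa)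
        (by intro s t hst; fin_cases s <;> fin_cases t <;> simp at hst ⊢ <;> omega)
        (by intro s t hst; fin_cases s <;> fin_cases t <;> simp at hst ⊢ <;> omega)
      have e0 : fx σ w0 = w := hσ 0
      have e2 : fx σ a0 = a := hσ 1
      rw [Phi_relabel G x σ (fun p i j => Q w a p i j) (fun p i j => Q w0 a0 p i j)]
      · simp
      · intro p p' hp i hi j hj
        have := hQ.inv (fx σ) p p' (fx_permN σ) hp w0 hw0 a0 ha0 i hi j hj
        rw [e0, e2] at this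
        exact this
    · rw [if_neg h]
      have h' : w = a := not_not.1 h
      have : (fun (p : Pat) (i j : ℕ) => (Q w a p i j : ℝ)) = fun _ _ _ => 0 := by
        funext p i j
        rw [← h', hQ.zero w]
        simp
      rw [this]
      unfold Phi
      simp
  have e : (fun (p : Pat) (i j : ℕ) => ((∑ w ∈ range N, ∑ a ∈ range N, Q w a p i j : ℤ) : ℝ)) =
      fun p i j => ∑ w ∈ range N, ∑ a ∈ range N, (Q w a p i j : ℝ) := by
    funext p i j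
    push_cast
    rfl
  rw [e, Phi_sum G x N (range N) (fun w p i j => ∑ a ∈ range N, (Q w a p i j : ℝ))]
  unfold c2
  push_cast
  rw [sum_mul]
  refine sum_congr rfl fun w hw => ?_
  rw [Phi_sum G x N (range N) (fun a p i j => (Q w a p i j : ℝ)), sum_mul]
  refine sum_congr rfl fun a ha => ?_
  rw [key w (mem_range.1 hw) a (mem_range.1 ha)]
  push_cast
  rfl

/-- invariant tables depending on one position -/
theorem Phi_one (G : SimpleGraph V) (x : V → ℝ) {N : ℕ}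
    {Q : ℕ → Pat → ℕ → ℕ → ℤ}
    (hQ : ∀ (σ : ℕ → ℕ) (p p' : Pat), PermN N σ → (∀ i < N, ∀ j < N, p i j = p' (σ i) (σ j)) →
      ∀ w < N, ∀ i < N, ∀ j < N, Q w p i j = Q (σ w) p' (σ i) (σ j)) {w0 : ℕ} (hw0 : w0 < N) :
    Phi G x N (fun p i j => ((∑ w ∈ range N, Q w p i j : ℤ) : ℝ)) =
      (N : ℝ) * Phi G x N (fun p i j => (Q w0 p i j : ℝ)) := by
  have key : ∀ w < N, Phi G x N (fun p i j => (Q w p i j : ℝ)) =
          Phi G x N (fun p i j => (Q w0 p i j : ℝ)) := by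
    intro w hw
    obtain ⟨σ, hσ⟩ := exists_fx (N := N) (fun _ : Fin 1 => w0) (fun _ => w)
      (fun _ => hw0) (fun _ => hw) (fun s t _ => Subsingleton.elim s t)
      (fun s t _ => Subsingleton.elim s t)
    have e0 : fx σ w0 = w := hσ 0
    rw [Phi_relabel G x σ (fun p i j => Q w p i j) (fun p i j => Q w0 p i j)]
    intro p p' hp i hi j hj
    have := hQ (fx σ) p p' (fx_permN σ) hp w0 hw0 i hi j hj
    rw [e0] at this
    exact this
  have e : (fun (p : Pat) (i j : ℕ) => ((∑ w ∈ range N, Q w p i j : ℤ) : ℝ)) =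
      fun p i j => ∑ w ∈ range N, (Q w p i j : ℝ) := by
    funext p i j
    push_cast
    rfl
  rw [e, Phi_sum G x N (range N) (fun w p i j => (Q w p i j : ℝ)),
    sum_congr rfl fun w hw => key w (mem_range.1 hw)]
  simp

end

end Pool.Agent.Work.MP_f94384_co.Big
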