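import Pool.Agent.Work.MP_f94384_co.Big.Basic

/-!
# Kernel program for the certificates of order 7 and 8: statements

Each `def XXX : Prop` is to be proved as `theorem pr_XXX : XXX` in `Big/P_XXX.lean`.
-/

set_option autoImplicit false

open Finset

namespace Pool.Agent.Work.MP_f94384_co.Big

open Pool.Agent.Work.MP_f94384_co.Flag

/-! ### digits -/

/-- Item MSK: mask with separated fields. -/
def MSK : Prop := ∀ (n s x : ℕ) (M : ℕ → ℕ), (∀ i < n, M i < 2 ^ s) →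
  x &&& (∑ i ∈ range n, M i * 2 ^ (s * i)) =
    ∑ i ∈ range n, (dg s (s * i) x &&& M i) * 2 ^ (s * i)

/-- Item DGS: digits of a sum of separated fields. -/
def DGS : Prop := ∀ (n s w t j : ℕ) (f : ℕ → ℕ), (∀ i < n, f i < 2 ^ s) → t + w ≤ s →
  dg w (s * j + t) (∑ i ∈ range n, f i * 2 ^ (s * i)) = (if j < n then dg w t (f j) else 0) ∧
  (∑ i ∈ range n, f i * 2 ^ (s * i)) < 2 ^ (s * n)

/-- Item DGG: digits of digits, of a shifted number, and the representation by digits. -/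
def DGG : Prop :=
  (∀ w t w' t' x : ℕ, t + w ≤ w' → dg w t (dg w' t' x) = dg w (t' + t) x) ∧
  (∀ w t s x : ℕ, dg w t (x >>> s) = dg w (s + t) x) ∧
  (∀ w w' t x : ℕ, w ≤ w' → dg w' t x % 2 ^ w = dg w t x) ∧
  (∀ w t x : ℕ, x < 2 ^ t → dg w t x = 0) ∧
  (∀ w x : ℕ, x < 2 ^ w → dg w 0 x = x) ∧
  (∀ n s x : ℕ, x < 2 ^ (s * n) → x = ∑ i ∈ range n, dg s (s * i) x * 2 ^ (s * i))

/-- Item BAL: balanced digits are unique. -/
def BAL : Prop := ∀ (W n : ℕ) (x : ℕ → ℤ), 1 ≤ W → (∀ k < n, |x k| < 2 ^ (W - 1)) →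
  ∑ k ∈ range n, x k * 2 ^ (W * k) = 0 → ∀ k < n, x k = 0

/-- number with the digits `A i j` at `Z i + 8 Z j` -/
def nst (Z : ℕ) (A : ℕ → ℕ → ℕ) : ℕ :=
  ∑ j ∈ range 8, (∑ i ∈ range 8, A i j * 2 ^ (Z * i)) * 2 ^ (8 * Z * j)

/-- Item NST: digits of `nst`. -/
def NST : Prop := ∀ (Z : ℕ) (A : ℕ → ℕ → ℕ), (∀ i < 8, ∀ j < 8, A i j < 2 ^ Z) →
  (∀ i < 8, ∀ j < 8, dg Z (Z * i + 8 * Z * j) (nst Z A) = A i j) ∧ nst Z A < 2 ^ (8 * Z * 8) ∧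
  (∀ w ≤ Z, nst Z A &&& kk (2 ^ w - 1) Z = nst Z fun i j => A i j % 2 ^ w) ∧
  (∀ c ≤ Z, bts (kk (2 ^ (Z - c) - 1) Z) (nst Z A) c = nst Z fun i j => A i j / 2 ^ c)

/-! ### semidefiniteness -/

/-- value of a sum of coded numbers: the code of `v` is `2 ^ c + 2 ^ o + v` -/
def tv (c o d : ℕ) : ℤ := ((d % 2 ^ c : ℕ) : ℤ) - 2 ^ o * ((d / 2 ^ c : ℕ) : ℤ)

/-- result of the check of a type with the rows `ro` -/
def TOK (W c o n : ℕ) (ro : ℕ → ℕ) (B : ℕ → ℤ) : Prop :=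
  (∀ k < n, ro k < 2 ^ (W * n)) ∧
  (∀ k < n, ∀ j < n, 2 ^ c ≤ dg W (W * j) (ro k) ∧ dg W (W * j) (ro k) < 2 ^ c + 2 ^ (o + 1)) ∧
  (∀ k < n, ∀ j < n, dg W (W * j) (ro k) = dg W (W * k) (ro j)) ∧
  PSDn n (fun a b => tv c o (dg W (W * a) (ro b)) - B a * B b)

/-- Item PST: check of a type. -/
def PST : Prop := ∀ (W c o n m s bl Δ ε e w co : ℕ) (Λ : List ℕ) (ro : ℕ → ℕ),
  o + 13 ≤ W → o < c → c < W →
  psT W (2 ^ W - 1) (2 ^ c) (2 ^ (o + 1) - 1) n m s (2 ^ (bl - 1)) Δ ε e (2 ^ bl - 1) w co Λ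
    ((List.range n).map ro) = true → TOK W c o n ro fun _ => 0

/-- Item PSB: check of a type with a square subtracted. -/
def PSB : Prop := ∀ (W c o n bp bn m s bl Δ ε e w co : ℕ) (Λ : List ℕ) (ro : ℕ → ℕ),
  o + 13 ≤ W → 40 ≤ o → o < c → c < W →
  bp &&& (ones W n * 65535) = bp → bn &&& (ones W n * 65535) = bn →
  vldL (ones W n) (2 ^ c) (2 ^ (o + 1) - 1) ((List.range n).map ro).reverse = true →
  subB W (2 ^ W - 1) bp bn ((List.range n).map ro).reverse (W * (n - 1)) [] (fun l =>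
    psT W (2 ^ W - 1) (2 ^ c) (2 ^ (o + 1) - 1) n m s (2 ^ (bl - 1)) Δ ε e (2 ^ bl - 1) w co Λ l)
    = true → TOK W c o n ro fun a => (dg W (W * a) bp : ℤ) - dg W (W * a) bn

/-- Item LSK: evaluation of `lstK`. -/
def LSK : Prop := ∀ (f : ℕ → ℕ) (k : List ℕ → Bool) (n : ℕ),
  lstK f k n [] = k ((List.range n).map f)

end Pool.Agent.Work.MP_f94384_co.Big
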