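import Pool.Agent.Work.MP_f94384_co.Big.Stmts

/-!
# Kernel program for the certificates of order 7 and 8: statements, contributions and entries

Each `def XXX : Prop` is to be proved as `theorem pr_XXX : XXX` in `Big/P_XXX.lean`.
-/

set_option autoImplicit false

open Finset

namespace Pool.Agent.Work.MP_f94384_co.Big

open Pool.Agent.Work.MP_f94384_co.Flag

/-- Item PEE: one contribution. -/
def PEE : Prop := ∀ (W Z el er : ℕ) (T : Tr), W ≤ Z → 8 * Z ≤ dg 24 144 er →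
  pE W (2 ^ W - 1) Z (8 * Z) (2 ^ (8 * Z) - 1) T el er =
    if dg 8 168 el = dg 8 168 er then
      nst Z fun i j => if esl er j < 8 then
        dg W (W * eco el i + dg 24 144 er * esl er j) (get T (dg 16 128 er)) else 0
    else 0

/-! ### entries -/

/-- The entry `e` describes the rows `r i`; `nB` bundles with the slots `FS`. -/
structure EOK (W Z8 NT nB : ℕ) (FS : Tr) (e : ℕ) (r : ℕ → ℕ) : Prop where
  bun : dg 16 128 e < nB
  st : dg 24 144 e = strd W Z8 (dg 8 (8 * dg 8 168 e) NT)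
  ab : ∀ i < 8, r i = 65535 → eco e i = dg 8 (8 * dg 8 168 e) NT ∧ esl e i = 15
  pr : ∀ i < 8, r i ≠ 65535 → r i = 256 * dg 8 168 e + eco e i ∧
    eco e i < dg 8 (8 * dg 8 168 e) NT ∧ esl e i < 8 ∧
    dg 16 (16 * esl e i) (get FS (dg 16 128 e)) = r i

/-- Item CKE: check of an entry. -/
def CKE : Prop := ∀ (nu : Bool) (W Z8 NT n nB : ℕ) (FS : Tr) (e : ℕ) (rw : ℕ → ℕ),
  cke nu W Z8 NT n nB FS e rw = true →
  EOK W Z8 NT nB FS e (fun i => if i < n then rw i else 65535) ∧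
  (∀ i < 8, i < n → rw i ≤ 65535) ∧ (nu = false → ∀ i < 8, i < n → rw i < 65535)

/-- the bundles are correct -/
def BOK (W Z8 NT nB : ℕ) (B WH FS : Tr) : Prop := ∀ F < nB, ckb W Z8 NT B WH FS F = true

/-- Item BUN: digits of a bundle. -/
def BUN : Prop := ∀ (W Z8 NT nB : ℕ) (B WH FS : Tr) (e : ℕ) (r : ℕ → ℕ),
  BOK W Z8 NT nB B WH FS → EOK W Z8 NT nB FS e r →
  ∀ j < 8, r j ≠ 65535 → ∀ k, W * k + W ≤ dg 24 144 e →
    dg W (W * k + dg 24 144 e * esl e j) (get B (dg 16 128 e)) =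
      dg W (W * k) (rowP W Z8 NT B WH (r j))

/-- digit of the row `b` at the column of `a` -/
def dig (W NT : ℕ) (R : ℕ → ℕ) (a b : ℕ) : ℕ :=
  if a / 256 = b / 256 ∧ a % 256 < dg 8 (8 * (b / 256)) NT ∧ b % 256 < dg 8 (8 * (b / 256)) NT then
    dg W (W * (a % 256)) (R b) else 0

/-- the rows are short: no digits from the number of columns on -/
def RSh (W NT : ℕ) (R : ℕ → ℕ) : Prop := ∀ b < 65536, b % 256 < dg 8 (8 * (b / 256)) NT →
  R b < 2 ^ (W * dg 8 (8 * (b / 256)) NT)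

/-- Item PE2: one contribution in terms of rows (uses PEE, BUN). -/
def PE2 : Prop := ∀ (W Z NT nB el er : ℕ) (B WH FS : Tr) (rl rr : ℕ → ℕ), W ≤ Z →
  BOK W (8 * Z) NT nB B WH FS → dg 8 (8 * 255) NT = 0 → RSh W NT (rowP W (8 * Z) NT B WH) →
  EOK W (8 * Z) NT nB FS el rl → EOK W (8 * Z) NT nB FS er rr →
  pE W (2 ^ W - 1) Z (8 * Z) (2 ^ (8 * Z) - 1) B el er =
    nst Z fun i j => dig W NT (rowP W (8 * Z) NT B WH) (rl i) (rr j)

/-! ### permutations -/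

/-- entry with permuted positions -/
def pent (π e : ℕ) : ℕ :=
  (∑ i ∈ range 8, dg 16 (16 * pf π i) e * 2 ^ (16 * i)) + dg 64 128 e * 2 ^ 128

/-- Item PEN: rows of the permuted entry. -/
def PEN : Prop := ∀ (W Z8 NT nB : ℕ) (FS : Tr) (π e : ℕ) (r : ℕ → ℕ), (∀ i < 8, pf π i < 8) →
  EOK W Z8 NT nB FS e r → EOK W Z8 NT nB FS (pent π e) fun i => r (pf π i)

/-- Item TBU: permuted tables of entries. -/
def TBU : Prop := ∀ (π T : ℕ), (∀ i < 8, pf π i < 8) →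
  (∀ w < 8, dg 192 (192 * w) (tbU (kk 65535 192) (kk (2 ^ 192 - 2 ^ 128) 192) (2 ^ 192 - 1) π T) =
    pent π (dg 192 (192 * pf π w) T)) ∧
  tbU (kk 65535 192) (kk (2 ^ 192 - 2 ^ 128) 192) (2 ^ 192 - 1) π T < 2 ^ 1536

/-- Item TBE: permuted tables of entries. -/
def TBE : Prop := ∀ (π T : ℕ), (∀ i < 8, pf π i < 8) →
  (∀ w < 8, ∀ z < 8, dg 192 (1536 * w + 192 * z)
      (tbE (kk 65535 192) (kk (2 ^ 192 - 2 ^ 128) 192) (kS (2 ^ 192 - 1) 1536) (2 ^ 1536 - 1) π T) =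
    pent π (dg 192 (1536 * pf π w + 192 * pf π z) T)) ∧
  tbE (kk 65535 192) (kk (2 ^ 192 - 2 ^ 128) 192) (kS (2 ^ 192 - 1) 1536) (2 ^ 1536 - 1) π T <
    2 ^ 12288

/-- Item TBD: permuted tables of pairs. -/
def TBD : Prop := ∀ (Z π : ℕ) (A : ℕ → ℕ → ℕ), (∀ i < 8, pf π i < 8) →
  (∀ i < 8, ∀ j < 8, A i j < 2 ^ Z) →
  tbD Z (8 * Z) (kS (2 ^ Z - 1) (8 * Z)) (2 ^ (8 * Z) - 1) π (nst Z A) =
    nst Z fun i j => A (pf π i) (pf π j)

/-- Item PAD: permuted adjacency matrix. -/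
def PAD : Prop := ∀ (π R : ℕ), (∀ i < 8, pf π i < 8) →
  (∀ i < 8, ∀ j < 8, (pad π R).testBit (8 * i + j) = R.testBit (8 * pf π i + pf π j)) ∧
  pad π R < 2 ^ 64

/-- `π` is an isomorphism of `A` (order `n`) without `x`, `y` to `R` of order `n'`; the absent
positions go to `7` -/
structure Del (n n' A R π x y : ℕ) : Prop where
  lt : ∀ v < 8, pf π v < 8
  ab : ∀ v < 8, ¬ (v < n ∧ v ≠ x ∧ v ≠ y) → pf π v = 7
  pr : ∀ v < n, v ≠ x → v ≠ y → pf π v < n'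
  inj : ∀ v < n, v ≠ x → v ≠ y → ∀ u < n, u ≠ x → u ≠ y → pf π v = pf π u → v = u
  sur : ∀ a < n', ∃ v < n, v ≠ x ∧ v ≠ y ∧ pf π v = a
  ed : ∀ u < n, u ≠ x → u ≠ y → ∀ v < n, v ≠ x → v ≠ y →
    pa A u v = pa R (pf π u) (pf π v)

/-- Item DCK: deletion certificates. -/
def DCK : Prop := ∀ (n n' A R π x y : ℕ), n ≤ 8 → n' ≤ 7 → x < n → y < n →
  (if x = y then n' + 1 = n else n' + 2 = n) → dck n' (tl n) A R π x y = true →
  Del n n' A R π x y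

/-- Item ORP: the fields of a permutation with the given union. -/
def ORP : Prop := ∀ (n π : ℕ), n ≤ 7 → orP π = (2 ^ n - 1) ||| 128 →
  (∀ v < 8, pf π v < n ∨ pf π v = 7) ∧ (∀ a < n, ∃ v < 8, pf π v = a) ∧ ∃ v < 8, pf π v = 7

/-! ### invariant of the coloured pattern -/

/-- Item HSP: evaluation of the invariant. -/
def HSP : Prop := ∀ (A C : ℕ), (∀ v < 8, dg 8 (8 * v) C ≤ 15) →
  hsP (mkM 16 65535 A) (mkM 40 1099511627775 A) C = hs (pa A) fun v => dg 8 (8 * v) C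

/-- Item HDL: the invariant under deletions (from pr_RST). -/
def HDL : Prop := ∀ (n n' A R π x y : ℕ) (c c' : ℕ → ℕ), n ≤ 8 → n' ≤ 7 →
  Del n n' A R π x y →
  (∀ v < 8, ¬ (v < n ∧ v ≠ x ∧ v ≠ y) → c v = 0) →
  (∀ v < n, v ≠ x → v ≠ y → c v = c' (pf π v)) → (∀ v < 8, n' ≤ v → c' v = 0) →
  hs (pa A) c = hs (pa R) c'

/-- Item CKU: check of the entries of `w` (uses CKE, HSP). -/
def CKU : Prop := ∀ (W Z8 NT n nB : ℕ) (FS : Tr) (H : St) (A T : ℕ), n ≤ 8 →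
  ckU W Z8 NT n nB FS H A T = true → ∀ w < n,
    EOK W Z8 NT nB FS (dg 192 (192 * w) T)
      (fun i => if i < n then fnd H (hs (pa A) (cU n w n i)) else 65535) ∧
    ∀ i < n, fnd H (hs (pa A) (cU n w n i)) < 65535

/-- Item CKF: check of the entries of `w, z` (uses CKE, HSP). -/
def CKF : Prop := ∀ (W Z8 NT n nB v : ℕ) (FS FV : Tr) (H HV : St) (A T : ℕ), n ≤ 8 →
  ckE W Z8 NT n nB v FS FV H HV A T = true → ∀ w < n, ∀ z < n, w ≠ z →
    EOK W Z8 NT nB FS (dg 192 (1536 * w + 192 * z) T)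
      (fun i => if i < n then fnd H (hs (pa A) (cE n w z n n i)) else 65535) ∧
    (∀ i < n, fnd H (hs (pa A) (cE n w z n n i)) ≤ 65535) ∧
    (v ≠ 0 → dg 16 176 (dg 192 (1536 * w + 192 * z) T) = fnd HV (hs (pa A) (cE n w z n n w)) ∧
      get FV (dg 16 128 (dg 192 (1536 * w + 192 * z) T)) = fnd HV (hs (pa A) (cE n w z n n w)))

/-! ### tables of a pattern -/

/-- Item GUT: table of the entries of `w` without `x`. -/
def GUT : Prop := ∀ (n c : ℕ) (T : Tr), n ≤ 8 →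
  (∀ x < n, ∀ i < 8, pf (dg 32 (40 * x + 8) c) i < 8) → ∀ x < n, ∀ w < 8,
  dg 192 (1536 * x + 192 * w)
    (gU n (kk 65535 192) (kk (2 ^ 192 - 2 ^ 128) 192) (2 ^ 192 - 1) T c) =
  pent (dg 32 (40 * x + 8) c)
    (dg 192 (192 * pf (dg 32 (40 * x + 8) c) w) (get T (dg 8 (40 * x) c)))

/-- Item GET: table of the entries of `w, z` without `y`. -/
def GET : Prop := ∀ (n c : ℕ) (T : Tr), n ≤ 8 →
  (∀ y < n, ∀ i < 8, pf (dg 32 (40 * y + 8) c) i < 8) → ∀ y < n, ∀ w < 8, ∀ z < 8,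
  dg 192 (12288 * y + 1536 * w + 192 * z)
    (gE1 n (kk 65535 192) (kk (2 ^ 192 - 2 ^ 128) 192) (kS (2 ^ 192 - 1) 1536) (2 ^ 1536 - 1) T c) =
  pent (dg 32 (40 * y + 8) c)
    (dg 192 (1536 * pf (dg 32 (40 * y + 8) c) w + 192 * pf (dg 32 (40 * y + 8) c) z)
      (get T (dg 8 (40 * y) c)))

/-- Item GFT: table of the entries of `w, z` without `x, y`. -/
def GFT : Prop := ∀ (n c : ℕ) (T : Tr), n ≤ 8 →
  (∀ y < n, ∀ x < y, ∀ i < 8, pf (dg 32 (320 * y + 40 * x + 8) c) i < 8) →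
  ∀ x < n, ∀ y < n, x ≠ y → ∀ w < 8, ∀ z < 8,
  dg 192 (98304 * x + 12288 * y + 1536 * w + 192 * z)
    (gE2 n (kk 65535 192) (kk (2 ^ 192 - 2 ^ 128) 192) (kS (2 ^ 192 - 1) 1536) (2 ^ 1536 - 1) T c) =
  pent (dg 32 (320 * max x y + 40 * min x y + 8) c)
    (dg 192 (1536 * pf (dg 32 (320 * max x y + 40 * min x y + 8) c) w +
        192 * pf (dg 32 (320 * max x y + 40 * min x y + 8) c) z)
      (get T (dg 8 (320 * max x y + 40 * min x y) c)))

end Pool.Agent.Work.MP_f94384_co.Big
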