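import Pool.Agent.Work.MP_f94384_co.Big.Stmts2
import Pool.Agent.Work.MP_f94384_co.Big.P_EXT

/-!
# Kernel program for the certificates of order 7 and 8: statements, sums and final evaluation

Each `def XXX : Prop` is to be proved as `theorem pr_XXX : XXX` in `Big/P_XXX.lean`.
-/

set_option autoImplicit false

open Finset

namespace Pool.Agent.Work.MP_f94384_co.Big

open Pool.Agent.Work.MP_f94384_co.Flag

/-! ### coded numbers -/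

/-- `d` is a sum of at most `n` coded numbers with the sum of values `v` -/
def Cod (c o n d : ℕ) (v : ℤ) : Prop := ∃ k ≤ n, (d : ℤ) = k * 2 ^ c + (k * 2 ^ o + v) ∧
  0 ≤ k * 2 ^ o + v ∧ (k * 2 ^ o + v = 0 ∨ k * 2 ^ o + v < k * 2 ^ (o + 1))

/-- Item COD: sums and decoding. -/
def COD : Prop :=
  (∀ c o : ℕ, Cod c o 0 0 0) ∧ (∀ c o n n' d v, n ≤ n' → Cod c o n d v → Cod c o n' d v) ∧
  (∀ c o d : ℕ, o < c → 2 ^ c ≤ d → d < 2 ^ c + 2 ^ (o + 1) → Cod c o 1 d (tv c o d)) ∧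
  (∀ (c o : ℕ) (S : Finset ℕ) (n d : ℕ → ℕ) (v : ℕ → ℤ), (∀ a ∈ S, Cod c o (n a) (d a) (v a)) →
    Cod c o (∑ a ∈ S, n a) (∑ a ∈ S, d a) (∑ a ∈ S, v a)) ∧
  (∀ c o n d v, Cod c o n d v → n * 2 ^ (o + 1) ≤ 2 ^ c →
    tv c o d = v ∧ d / 2 ^ c ≤ n ∧ |v| ≤ n * 2 ^ o)

/-! ### sums of contributions -/

/-- four different positions -/
def Dis (w z x y : ℕ) : Prop := w ≠ z ∧ w ≠ x ∧ w ≠ y ∧ z ≠ x ∧ z ≠ y ∧ x ≠ y

instance (w z x y : ℕ) : Decidable (Dis w z x y) := by unfold Dis; infer_instance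

/-- assumptions on the rows of a family -/
structure RW (W Z NT nB : ℕ) (B WH FS : Tr) : Prop where
  WZ : W ≤ Z
  bu : BOK W (8 * Z) NT nB B WH FS
  nt : dg 8 (8 * 255) NT = 0
  sh : RSh W NT (rowP W (8 * Z) NT B WH)

/-- Item SUS: the usual squares. -/
def SUS : Prop := ∀ (N W Z NT nB G : ℕ) (B WH FS : Tr) (r : ℕ → ℕ → ℕ → ℕ), N ≤ 8 →
  RW W Z NT nB B WH FS →
  (∀ w < N, ∀ x < N, w ≠ x →
    EOK W (8 * Z) NT nB FS (dg 192 (1536 * x + 192 * w) G) (r w x)) →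
  sU N W (2 ^ W - 1) Z (8 * Z) (2 ^ (8 * Z) - 1) B G =
    nst Z fun i j => ∑ w ∈ range N, ∑ x ∈ range w,
      dig W NT (rowP W (8 * Z) NT B WH) (r w x i) (r x w j)

/-- Item SES: the eigenvalue squares. -/
def SES : Prop := ∀ (N W Z NT nB A G : ℕ) (B WH FS : Tr) (r : ℕ → ℕ → ℕ → ℕ → ℕ → ℕ), N ≤ 8 →
  RW W Z NT nB B WH FS →
  (∀ w < N, ∀ z < N, ∀ x < N, ∀ y < N, Dis w z x y →
    EOK W (8 * Z) NT nB FS (dg 192 (98304 * x + 12288 * y + 1536 * w + 192 * z) G) (r w z x y)) →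
  sE N W (2 ^ W - 1) Z (8 * Z) (2 ^ (8 * Z) - 1) (2 ^ 98304 - 1) B A G =
    nst Z fun i j => ∑ w ∈ range N, ∑ x ∈ range w, if A.testBit (8 * w + x) = true then
      ∑ z ∈ range N, ∑ y ∈ range N, if Dis w z x y then
        dig W NT (rowP W (8 * Z) NT B WH) (r w z x y i) (r x y w z j) else 0
      else 0

/-- Item SDS: the squares with the same point, order `n`. -/
def SDS : Prop := ∀ (n W Z NT nB G : ℕ) (B WH FS : Tr) (r : ℕ → ℕ → ℕ → ℕ → ℕ), n ≤ 8 →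
  RW W Z NT nB B WH FS →
  (∀ w < n, ∀ z < n, ∀ y < n, w ≠ z → w ≠ y → z ≠ y →
    EOK W (8 * Z) NT nB FS (dg 192 (12288 * y + 1536 * w + 192 * z) G) (r w z y)) →
  sD n W (2 ^ W - 1) Z (8 * Z) (2 ^ (8 * Z) - 1) B G =
    nst Z fun i j => ∑ w ∈ range n, ∑ z ∈ range n, ∑ y ∈ range n, if w ≠ z ∧ w ≠ y ∧ z ≠ y then
      dig W NT (rowP W (8 * Z) NT B WH) (r w z y i) (r w y z j) else 0

/-- Item SVS: the usual squares `V`. -/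
def SVS : Prop := ∀ (N W Z NV nB G : ℕ) (BV WV FV : Tr) (f : ℕ → ℕ → ℕ → ℕ → ℕ), N ≤ 8 → W ≤ Z →
  (∀ F < nB, get WV (get FV F) = F ∧ get FV F % 256 < dg 8 (8 * (get FV F / 256)) NV) →
  (∀ w < N, ∀ z < N, ∀ x < N, ∀ y < N, Dis w z x y →
    dg 16 128 (dg 192 (98304 * x + 12288 * y + 1536 * w + 192 * z) G) < nB ∧
    dg 16 176 (dg 192 (98304 * x + 12288 * y + 1536 * w + 192 * z) G) = f w z x y ∧
    get FV (dg 16 128 (dg 192 (98304 * x + 12288 * y + 1536 * w + 192 * z) G)) = f w z x y) →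
  sV N W (2 ^ W - 1) Z (8 * Z) (2 ^ 98304 - 1) BV G =
    nst Z fun i j => ∑ w ∈ range N, ∑ x ∈ range w, ∑ z ∈ range N, ∑ y ∈ range N,
      if Dis w z x y ∧ i = w ∧ j = x then
        dig W NV (fun b => get BV (get WV b)) (f w z x y) (f x y w z) else 0

/-! ### the certificate of the data -/

/-- the certificate given by the data -/
noncomputable def Dt.bc (D : Dt) : BC where
  fU h := min (fnd D.HU h) 65535
  fE h := min (fnd D.HE h) 65535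
  fV h := min (fnd D.HV h) 65535
  U a b := tv D.c D.o (dig D.W D.NU (rowP D.W (8 * D.Z) D.NU D.BU D.WU) a b)
  E a b := tv D.c D.o (dig D.W D.NE (rowP D.W (8 * D.Z) D.NE D.BE D.WE) a b)
  V a b := if D.v = 0 then 0 else tv D.c D.o (dig D.W D.NV (fun b => get D.BV (get D.WV b)) a b)
  ze a := (get D.ZT a : ℤ)
  m := D.m
  q := D.q

/-- row of the position `i` in the entry of `w` without `x`; `65535` for absent positions -/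
def BC.gU (C : BC) (N : ℕ) (p : Pat) (w x i : ℕ) : ℕ :=
  if i < N ∧ i ≠ x then C.rU N p w x i else 65535

/-- row of the position `i` in the entry of `w, z` without `x, y` -/
def BC.gE (C : BC) (N : ℕ) (p : Pat) (w z x y i : ℕ) : ℕ :=
  if i < N ∧ i ≠ x ∧ i ≠ y then C.rE N p w z x y i else 65535

/-- numerical conditions; `zb` bound of the multipliers -/
structure WOK (D : Dt) (zb : ℕ) : Prop where
  N5 : 5 ≤ D.N
  N8 : D.N ≤ 8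
  m1 : 1 ≤ D.m
  o40 : 40 ≤ D.o
  oW : D.o + 13 ≤ D.W
  oc : D.o + 12 ≤ D.c
  cW : D.c < D.W
  WZ : D.W ≤ D.Z
  cZ : D.c + 12 ≤ D.Z
  o2 : D.o + 8 ≤ D.o2
  oc2 : D.o2 + 4 ≤ D.c2
  cZ2 : D.c2 + 4 ≤ D.Z
  zm : D.m * 2 ^ (D.o + 8) + zb ≤ 2 ^ D.o2
  f1 : (2 + 2 * D.m) * 2 ^ D.c + 2 ^ D.c2 + 16 * (D.q * 2 ^ D.o2) ≤ 2 ^ D.Z
  f2 : 2 ^ 11 * ((2 + 2 * D.m) * 2 ^ D.o) + 16 * 2 ^ D.o2 + D.q * 2 ^ D.c2 ≤ 2 ^ D.Z
  tU : dg 8 (8 * 255) D.NU = 0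
  tE : dg 8 (8 * 255) D.NE = 0
  tV : dg 8 (8 * 255) D.NV = 0
  R1 : D.nR1 ≤ 256
  R2 : D.nR2 ≤ 256

/-- All checks of a certificate, except those of the representatives of order `N`, the
classification and the strictness; `b` the vector subtracted from `E`, on the type `t0`. -/
structure AOK (D : Dt) (zb t0 : ℕ) (b : ℕ → ℤ) : Prop where
  w : WOK D zb
  bu : ∀ F < D.nBU, cBU D F = true
  be : ∀ F < D.nBE, cBE D F = true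
  bv : D.v ≠ 0 → ∀ F < D.nBE, cBV D F = true
  h : ∀ j < D.nR1, cH D j = true
  j : ∀ j < D.nR2, cJ D j = true
  s1 : ∀ j < D.nR1, ckA (D.N - 1) (get D.R1 j) = true
  s2 : ∀ j < D.nR2, ckA (D.N - 2) (get D.R2 j) = true
  tu : ∀ ty < 256, TOK D.W D.c D.o (dg 8 (8 * ty) D.NU)
    (fun k => rowP D.W (8 * D.Z) D.NU D.BU D.WU (256 * ty + k)) fun _ => 0
  te : ∀ ty < 256, TOK D.W D.c D.o (dg 8 (8 * ty) D.NE)
    (fun k => rowP D.W (8 * D.Z) D.NE D.BE D.WE (256 * ty + k)) fun k => b (256 * ty + k)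
  tv : D.v ≠ 0 → ∀ ty < 256, TOK D.W D.c D.o (dg 8 (8 * ty) D.NV)
    (fun k => get D.BV (get D.WV (256 * ty + k))) fun _ => 0
  zt : ∀ a, get D.ZT a ≤ zb
  b0 : ∀ a, a / 256 ≠ t0 → b a = 0
  b1 : ∀ a, dg 8 (8 * (a / 256)) D.NE ≤ a % 256 → b a = 0

/-- Item RWU: consequences for the rows. -/
def RWU : Prop := ∀ (D : Dt) (zb t0 : ℕ) (b : ℕ → ℤ), AOK D zb t0 b →
  RW D.W D.Z D.NU D.nBU D.BU D.WU D.FU ∧ RW D.W D.Z D.NE D.nBE D.BE D.WE D.FE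

/-- Item MAT: matrices from the types. -/
def MAT : Prop := ∀ (W c o NT t0 : ℕ) (R : ℕ → ℕ) (b : ℕ → ℤ), o < c →
  (∀ ty < 256, TOK W c o (dg 8 (8 * ty) NT) (fun k => R (256 * ty + k))
    fun k => b (256 * ty + k)) → (∀ a, a / 256 ≠ t0 → b a = 0) →
  (∀ a, dg 8 (8 * (a / 256)) NT ≤ a % 256 → b a = 0) →
  PSDn 65536 (fun a a' => tv c o (dig W NT R a a') - b a * b a') ∧
  (∀ a < 65536, ∀ a' < 65536, dig W NT R a a' = dig W NT R a' a) ∧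
  ∀ a < 65536, ∀ a' < 65536, Cod c o 1 (dig W NT R a a') (tv c o (dig W NT R a a'))

/-! ### entries of the representatives and of the patterns -/

/-- Item ER2: entries of the representatives of order `N - 2` (uses CKF). -/
def ER2 : Prop := ∀ (D : Dt) (zb t0 : ℕ) (b : ℕ → ℤ), AOK D zb t0 b → ∀ j < D.nR2,
  ∀ w < D.N - 2, ∀ z < D.N - 2, w ≠ z →
  EOK D.W (8 * D.Z) D.NE D.nBE D.FE (dg 192 (1536 * w + 192 * z) (get D.TE j))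
    (D.bc.gE (D.N - 2) (pa (get D.R2 j)) w z (D.N - 2) (D.N - 2)) ∧
  (D.v ≠ 0 → dg 16 176 (dg 192 (1536 * w + 192 * z) (get D.TE j)) =
      D.bc.rV (D.N - 2) (pa (get D.R2 j)) w z (D.N - 2) (D.N - 2) ∧
    get D.FV (dg 16 128 (dg 192 (1536 * w + 192 * z) (get D.TE j))) =
      D.bc.rV (D.N - 2) (pa (get D.R2 j)) w z (D.N - 2) (D.N - 2))

/-- Item ER1: entries of the representatives of order `N - 1` (uses CKU). -/
def ER1 : Prop := ∀ (D : Dt) (zb t0 : ℕ) (b : ℕ → ℤ), AOK D zb t0 b → ∀ j < D.nR1,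
  ∀ w < D.N - 1,
  EOK D.W (8 * D.Z) D.NU D.nBU D.FU (dg 192 (192 * w) (get D.TU j))
    (D.bc.gU (D.N - 1) (pa (get D.R1 j)) w (D.N - 1))

/-- Item DKX: deletion certificates of one and of two positions (uses DCK). -/
def DKX : Prop :=
  (∀ (n len A c : ℕ) (RT : Tr), 2 ≤ n → n ≤ 8 → dk1 n (n - 1) len (tl n) RT A c = true → ∀ x < n,
    dg 8 (40 * x) c < len ∧
    Del n (n - 1) A (get RT (dg 8 (40 * x) c)) (dg 32 (40 * x + 8) c) x x) ∧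
  (∀ (n len A c : ℕ) (RT : Tr), 2 ≤ n → n ≤ 8 → dk2 n (n - 2) len (tl n) RT A c = true → ∀ y < n,
    ∀ x < y, dg 8 (320 * y + 40 * x) c < len ∧
    Del n (n - 2) A (get RT (dg 8 (320 * y + 40 * x) c)) (dg 32 (320 * y + 40 * x + 8) c) x y)

/-- Item GUD: rows under deletions (uses HDL). -/
def GUD : Prop := ∀ (C : BC) (n n' A R π x y : ℕ), n ≤ 8 → n' ≤ 7 → Del n n' A R π x y →
  x < n → y < n →
  (∀ w < n, w ≠ x → x = y → ∀ i < 8,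
    C.gU n' (pa R) (pf π w) n' (pf π i) = C.gU n (pa A) w x i) ∧
  (∀ w < n, ∀ z < n, w ≠ x → w ≠ y → z ≠ x → z ≠ y → w ≠ z → ∀ i < 8,
    C.gE n' (pa R) (pf π w) (pf π z) n' n' (pf π i) = C.gE n (pa A) w z x y i ∧
    C.gE n (pa A) w z x y i = C.gE n (pa A) w z y x i) ∧
  (∀ w < n, ∀ z < n, w ≠ x → z ≠ x → w ≠ z → x = y → ∀ i < 8,
    C.gE n' (pa R) (pf π w) (pf π z) n' n' (pf π i) = C.gE n (pa A) w z n x i) ∧
  (∀ w < n, ∀ z < n, w ≠ x → w ≠ y → z ≠ x → z ≠ y → w ≠ z →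
    C.rV n' (pa R) (pf π w) (pf π z) n' n' = C.rV n (pa A) w z x y ∧
    C.rV n (pa A) w z x y = C.rV n (pa A) w z y x)

/-- Item ENU: entries of `w` without `x` (uses GUT, PEN, ER1, DKX, GUD). -/
def ENU : Prop := ∀ (D : Dt) (zb t0 : ℕ) (b : ℕ → ℤ), AOK D zb t0 b → ∀ A c,
  dk1 D.N (D.N - 1) D.nR1 (tl D.N) D.R1 A c = true → ∀ w < D.N, ∀ x < D.N, w ≠ x →
  EOK D.W (8 * D.Z) D.NU D.nBU D.FU (dg 192 (1536 * x + 192 * w)
    (gU D.N (kk 65535 192) (kk (2 ^ 192 - 2 ^ 128) 192) (2 ^ 192 - 1) D.TU c))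
    (D.bc.gU D.N (pa A) w x)

/-- Item ENE: entries of `w, z` without `x, y` (uses GFT, PEN, ER2, DKX, GUD). -/
def ENE : Prop := ∀ (D : Dt) (zb t0 : ℕ) (b : ℕ → ℤ), AOK D zb t0 b → ∀ A c,
  dk2 D.N (D.N - 2) D.nR2 (tl D.N) D.R2 A c = true →
  ∀ w < D.N, ∀ z < D.N, ∀ x < D.N, ∀ y < D.N, Dis w z x y →
  EOK D.W (8 * D.Z) D.NE D.nBE D.FE (dg 192 (98304 * x + 12288 * y + 1536 * w + 192 * z)
    (gE2 D.N (kk 65535 192) (kk (2 ^ 192 - 2 ^ 128) 192) (kS (2 ^ 192 - 1) 1536) (2 ^ 1536 - 1)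
      D.TE c)) (D.bc.gE D.N (pa A) w z x y) ∧
  (D.v ≠ 0 → dg 16 176 (dg 192 (98304 * x + 12288 * y + 1536 * w + 192 * z)
    (gE2 D.N (kk 65535 192) (kk (2 ^ 192 - 2 ^ 128) 192) (kS (2 ^ 192 - 1) 1536) (2 ^ 1536 - 1)
      D.TE c)) = D.bc.rV D.N (pa A) w z x y ∧
    get D.FV (dg 16 128 (dg 192 (98304 * x + 12288 * y + 1536 * w + 192 * z)
    (gE2 D.N (kk 65535 192) (kk (2 ^ 192 - 2 ^ 128) 192) (kS (2 ^ 192 - 1) 1536) (2 ^ 1536 - 1)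
      D.TE c))) = D.bc.rV D.N (pa A) w z x y)

/-- Item END: entries of `w, z` without `y`, representatives of order `n = N - 1` (uses GET, PEN,
ER2, DKX, GUD). -/
def END : Prop := ∀ (D : Dt) (zb t0 : ℕ) (b : ℕ → ℤ), AOK D zb t0 b → ∀ A c,
  dk1 (D.N - 1) (D.N - 2) D.nR2 (tl (D.N - 1)) D.R2 A c = true →
  ∀ w < D.N - 1, ∀ z < D.N - 1, ∀ y < D.N - 1, w ≠ z → w ≠ y → z ≠ y →
  EOK D.W (8 * D.Z) D.NE D.nBE D.FE (dg 192 (12288 * y + 1536 * w + 192 * z)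
    (gE1 (D.N - 1) (kk 65535 192) (kk (2 ^ 192 - 2 ^ 128) 192) (kS (2 ^ 192 - 1) 1536)
      (2 ^ 1536 - 1) D.TE c)) (D.bc.gE (D.N - 1) (pa A) w z (D.N - 1) y)

/-! ### tables `D`, `P` -/

/-- digit of the tables -/
def dD (c2 o2 : ℕ) (v : ℤ) : ℕ := (2 ^ c2 + 2 ^ o2 + v).toNat

/-- Item DTB: the tables of the representatives of order `N - 1` (uses SDS, END, COD, MAT). -/
def DTB : Prop := ∀ (D : Dt) (zb t0 : ℕ) (b : ℕ → ℤ), AOK D zb t0 b → ∀ j < D.nR1,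
  (∀ a < D.N - 1, ∀ a' < D.N - 1,
    |D.bc.tD (D.N - 1) (pa (get D.R1 j)) (D.N - 1) a a'| ≤ 2 ^ D.o2 ∧
    |D.bc.m * D.bc.tD (D.N - 1) (pa (get D.R1 j)) (D.N - 1) a a' +
      D.bc.tZ (D.N - 1) (pa (get D.R1 j)) (D.N - 1) a a'| ≤ 2 ^ D.o2) ∧
  get D.DT j = nst D.Z (fun a a' => if a < D.N - 1 ∧ a' < D.N - 1 then
    dD D.c2 D.o2 (D.bc.tD (D.N - 1) (pa (get D.R1 j)) (D.N - 1) a a') else 0) ∧
  get D.PT j = nst D.Z (fun a a' => if a < D.N - 1 ∧ a' < D.N - 1 then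
    dD D.c2 D.o2 (D.bc.m * D.bc.tD (D.N - 1) (pa (get D.R1 j)) (D.N - 1) a a' +
      D.bc.tZ (D.N - 1) (pa (get D.R1 j)) (D.N - 1) a a') else 0)

/-- Item TDG: the tables under deletions (uses HDL). -/
def TDG : Prop := ∀ (C : BC) (n A R π x : ℕ), n + 1 ≤ 8 → Del (n + 1) n A R π x x → x < n + 1 →
  ∀ a < n + 1, ∀ a' < n + 1, a ≠ x → a' ≠ x →
    C.tD (n + 1) (pa A) x a a' = C.tD n (pa R) n (pf π a) (pf π a') ∧
    C.tZ (n + 1) (pa A) x a a' = C.tZ n (pa R) n (pf π a) (pf π a')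

/-- Item GDT: the sum of the tables (uses DTB, TDG, TBD, DKX). -/
def GDT : Prop := ∀ (D : Dt) (zb t0 : ℕ) (b : ℕ → ℤ), AOK D zb t0 b → ∀ A c,
  dk1 D.N (D.N - 1) D.nR1 (tl D.N) D.R1 A c = true →
  gD D.N D.Z (8 * D.Z) (kS (2 ^ D.Z - 1) (8 * D.Z)) (2 ^ (8 * D.Z) - 1) D.DT c =
    nst D.Z (fun i j => ∑ x ∈ range D.N, if i < D.N ∧ j < D.N ∧ i ≠ x ∧ j ≠ x then
      dD D.c2 D.o2 (D.bc.tD D.N (pa A) x i j) else 0) ∧
  gL D.N D.Z (8 * D.Z) (kS (2 ^ D.Z - 1) (8 * D.Z)) (2 ^ (8 * D.Z) - 1) D.PT A c =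
    nst D.Z (fun i j => ∑ k ∈ range D.N,
      if i < D.N ∧ j < D.N ∧ k ≠ i ∧ j ≠ i ∧ A.testBit (8 * k + i) = true then
      dD D.c2 D.o2 (D.bc.m * D.bc.tD D.N (pa A) i k j + D.bc.tZ D.N (pa A) i k j) else 0) ∧
  ∀ x < D.N, ∀ i < D.N, ∀ j < D.N, i ≠ x → j ≠ x → |D.bc.tD D.N (pa A) x i j| ≤ 2 ^ D.o2 ∧
    |D.bc.m * D.bc.tD D.N (pa A) x i j + D.bc.tZ D.N (pa A) x i j| ≤ 2 ^ D.o2

/-! ### final comparison -/

/-- Item FIN: the final comparison. -/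
def FIN : Prop := ∀ (n Z c o c2 o2 m q : ℕ) (XU XE XD XP : ℕ → ℕ → ℕ), n ≤ 8 → c ≤ Z → c2 ≤ Z →
  (∀ i < 8, ∀ j < 8, XU i j < 2 ^ Z ∧ XE i j < 2 ^ Z ∧ XD i j < 2 ^ Z ∧ XP i j < 2 ^ Z) →
  (∀ i < 8, ∀ j < 8, XU i j / 2 ^ c ≤ 2 ^ 10 ∧ XE i j / 2 ^ c ≤ 2 ^ 10 ∧ XD i j / 2 ^ c2 ≤ 8 ∧
    XP i j / 2 ^ c2 ≤ 8) →
  (2 + 2 * m) * 2 ^ c + 2 ^ c2 + 16 * (q * 2 ^ o2) ≤ 2 ^ Z →
  2 ^ 11 * ((2 + 2 * m) * 2 ^ o) + 16 * 2 ^ o2 + q * 2 ^ c2 ≤ 2 ^ Z →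
  fin n Z (8 * Z) (2 ^ Z - 1) c (kk (2 ^ c - 1) Z) (kk (2 ^ (Z - c) - 1) Z) (2 ^ o)
    c2 (kk (2 ^ c2 - 1) Z) (kk (2 ^ (Z - c2) - 1) Z) (2 ^ o2) m q
    (nst Z XU) (nst Z XE) (nst Z XD) (nst Z XP) = true →
  Neg n fun i j => 2 * tv c o (XU i j) + 2 * m * tv c o (XE i j) + tv c2 o2 (XP i j) -
    q * tv c2 o2 (XD i j)

/-- Item HLF: halves of the sums. -/
def HLF : Prop := ∀ (C : BC) (N : ℕ) (p : Pat),
  (∀ i < N, ∀ j < N, p i j = p j i) → (∀ a < 65536, ∀ a' < 65536, C.U a a' = C.U a' a) →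
  (∀ a < 65536, ∀ a' < 65536, C.V a a' = C.V a' a) →
  (∀ a < 65536, ∀ a' < 65536, C.E a a' = C.E a' a) → (∀ h, C.fU h < 65536) →
  (∀ h, C.fE h < 65536) → (∀ h, C.fV h < 65536) → ∀ i < N, ∀ j < N,
  C.TU N p i j = (∑ w ∈ range N, ∑ x ∈ range w, C.pU N p w x i j) +
    (∑ w ∈ range N, ∑ x ∈ range w, C.pU N p w x j i) ∧
  C.TV N p i j = (∑ w ∈ range N, ∑ x ∈ range w, ∑ z ∈ range N, ∑ y ∈ range N,
      C.pV N p w z x y i j) +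
    (∑ w ∈ range N, ∑ x ∈ range w, ∑ z ∈ range N, ∑ y ∈ range N, C.pV N p w z x y j i) ∧
  C.TE N p i j = (∑ w ∈ range N, ∑ x ∈ range w, if p w x = true then
      ∑ z ∈ range N, ∑ y ∈ range N, C.pE N p w z x y i j else 0) +
    (∑ w ∈ range N, ∑ x ∈ range w, if p w x = true then
      ∑ z ∈ range N, ∑ y ∈ range N, C.pE N p w z x y j i else 0)

/-- Item CGN: the check of a representative of order `N` (uses everything). -/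
def CGN : Prop := ∀ (D : Dt) (zb t0 : ℕ) (b : ℕ → ℤ), AOK D zb t0 b → ∀ k,
  (∀ i < D.N, ∀ j < D.N, pa (get D.R0 k) i j = pa (get D.R0 k) j i) → cG D k = true →
  Neg D.N (D.bc.T D.N (pa (get D.R0 k)))

/-! ### classification and strictness -/

/-- Item CKA: symmetric representatives. -/
def CKA : Prop := ∀ n A, n ≤ 8 → ckA n A = true →
  (∀ i < n, ∀ j < n, pa A i j = pa A j i) ∧ ∀ i < n, pa A i i = false

/-- Item CLX: one step of the classification (uses ext_cls, PAD, ORP). -/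
def CLX : Prop := ∀ (s n len len' : ℕ) (RT RT' CT : Tr), (s = 3 ∨ s = 4) → n ≤ 7 →
  Cls s n (get RT) len → (∀ j < len, ckA n (get RT j) = true) →
  (∀ j < len', ckA (n + 1) (get RT' j) = true) →
  (∀ k < len, ckX s n (n + 1) (tl (n + 1)) len' RT' (get RT k) (get CT k) = true) →
  Cls s (n + 1) (get RT') len'

/-- the vector `b` of the strictness check -/
def bvec (W t0 bp bn a : ℕ) : ℤ :=
  if a / 256 = t0 then (dg W (W * (a % 256)) bp : ℤ) - dg W (W * (a % 256)) bn else 0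

/-- Item STR: strictness (uses HSP, RST). -/
def STR : Prop := ∀ (D : Dt) (t0 bp bn A : ℕ) (s t : Bool), 5 ≤ D.N → D.N ≤ 8 → t0 < 255 →
  1 ≤ D.W →
  (∀ a < D.N - 2, ∀ a' < D.N - 2, qpat (D.N - 4) s t a a' = pa A a a') →
  ckS D t0 bp bn (D.N - 4) A = true →
  0 < bvec D.W t0 bp bn (D.bc.rE D.N (qpat (D.N - 4) s t) (D.N - 4) (D.N - 3) (D.N - 2) (D.N - 1)
    (D.N - 4)) ∧
  ∀ c < D.N - 2, 0 ≤ bvec D.W t0 bp bn
    (D.bc.rE D.N (qpat (D.N - 4) s t) (D.N - 4) (D.N - 3) (D.N - 2) (D.N - 1) c)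

/-- Item TYC: the checks of the types of the data (uses PST, PSB, LSK). -/
def TYC : Prop := ∀ (D : Dt) (zb : ℕ), WOK D zb → ∀ (ty m s bl Δ ε e w co : ℕ) (Λ : List ℕ),
  (cTU D ty m s bl Δ ε e w co Λ = true → TOK D.W D.c D.o (dg 8 (8 * ty) D.NU)
    (fun k => rowP D.W (8 * D.Z) D.NU D.BU D.WU (256 * ty + k)) fun _ => 0) ∧
  (cTE D ty m s bl Δ ε e w co Λ = true → TOK D.W D.c D.o (dg 8 (8 * ty) D.NE)
    (fun k => rowP D.W (8 * D.Z) D.NE D.BE D.WE (256 * ty + k)) fun _ => 0) ∧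
  (cTV D ty m s bl Δ ε e w co Λ = true → TOK D.W D.c D.o (dg 8 (8 * ty) D.NV)
    (fun k => get D.BV (get D.WV (256 * ty + k))) fun _ => 0) ∧
  (∀ bp bn, cTB D ty bp bn m s bl Δ ε e w co Λ = true → TOK D.W D.c D.o (dg 8 (8 * ty) D.NE)
    (fun k => rowP D.W (8 * D.Z) D.NE D.BE D.WE (256 * ty + k))
    (fun k => bvec D.W ty bp bn (256 * ty + k)) ∧
    (∀ a, a / 256 = ty → dg 8 (8 * (a / 256)) D.NE ≤ a % 256 → bvec D.W ty bp bn a = 0)) ∧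
  (∀ NT, dg 8 (8 * ty) NT = 0 → ∀ (R : ℕ → ℕ) (B : ℕ → ℤ), TOK D.W D.c D.o (dg 8 (8 * ty) NT) R B)

end Pool.Agent.Work.MP_f94384_co.Big
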